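import Pool.Agent.Helper53.CubBasic

set_option autoImplicit false

namespace Pool.Agent.Helper53.HD

open Polynomial

noncomputable section

/-- the integer polynomial with the given coefficients -/
def toP (P : Cub) : ℤ[X] := C (P 3) * X ^ 3 + C (P 2) * X ^ 2 + C (P 1) * X + C (P 0)

theorem toP_coeff (P : Cub) (n : Fin 4) : (toP P).coeff n = P n := by
  fin_cases n <;>
    simp only [toP, coeff_add, coeff_C_mul, coeff_X_pow, coeff_X, coeff_C] <;> norm_num <;> rfl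

/-- `2 × 2` minors -/
def mn {R : Type*} [CommRing R] (p q : Fin 4 → R) (i j : Fin 4) : R := p i * q j - p j * q i

/-- Bezout matrix -/
def bezM {R : Type*} [CommRing R] (p q : Fin 4 → R) : Matrix (Fin 3) (Fin 3) R :=
  !![mn p q 0 1, mn p q 0 2, mn p q 0 3;
     mn p q 0 2, mn p q 0 3 + mn p q 1 2, mn p q 1 3;
     mn p q 0 3, mn p q 1 3, mn p q 2 3]

theorem det_bezM {R : Type*} [CommRing R] (p q : Fin 4 → R) : (bezM p q).det
    = mn p q 0 1 * (mn p q 0 3 + mn p q 1 2) * mn p q 2 3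
      + 2 * mn p q 0 2 * mn p q 0 3 * mn p q 1 3 - mn p q 0 1 * mn p q 1 3 ^ 2
      - mn p q 0 2 ^ 2 * mn p q 2 3 - mn p q 0 3 ^ 2 * (mn p q 0 3 + mn p q 1 2) := by
  rw [bezM, Matrix.det_fin_three]
  simp
  ring

theorem bez_zero {P Q : Cub} (hP : Irreducible (toP P)) (hQ : Irreducible (toP Q))
    (h3 : P 3 ≠ 0) (hQ3 : Q 3 ≠ 0) (hdet : (bezM P Q).det = 0) : P = Q ∨ P = -Q := by
  obtain ⟨v, hv, hMv⟩ := Matrix.exists_mulVec_eq_zero_iff.2 hdet
  have e0 := congrFun hMv 0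
  have e1 := congrFun hMv 1
  have e2 := congrFun hMv 2
  simp only [bezM, Matrix.mulVec, dotProduct, Fin.sum_univ_three, Matrix.of_apply,
    Matrix.cons_val_zero, Matrix.cons_val_one, Matrix.cons_val', Matrix.cons_val,
    Pi.zero_apply] at e0 e1 e2
  set U : ℤ[X] := C (P 3 * v 0) * X ^ 2 + C (P 3 * v 1 + P 2 * v 0) * X
    + C (P 3 * v 2 + P 2 * v 1 + P 1 * v 0) with hU
  set V : ℤ[X] := C (Q 3 * v 0) * X ^ 2 + C (Q 3 * v 1 + Q 2 * v 0) * X
    + C (Q 3 * v 2 + Q 2 * v 1 + Q 1 * v 0) with hV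
  have key : toP P * V = toP Q * U := by
    have : toP P * V - toP Q * U =
        C (mn P Q 0 1 * v 0 + mn P Q 0 2 * v 1 + mn P Q 0 3 * v 2)
        + C (mn P Q 0 2 * v 0 + (mn P Q 0 3 + mn P Q 1 2) * v 1 + mn P Q 1 3 * v 2) * X
        + C (mn P Q 0 3 * v 0 + mn P Q 1 3 * v 1 + mn P Q 2 3 * v 2) * X ^ 2 := by
      simp only [toP, hU, hV, mn, map_add, map_mul, map_sub]
      ring
    rw [e0, e1, e2] at this
    simp only [map_zero, zero_mul, add_zero] at this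
    exact sub_eq_zero.1 this
  have hdP : (toP P).natDegree = 3 := natDegree_cubic h3
  have hdQ : (toP Q).natDegree = 3 := natDegree_cubic hQ3
  have hU0 : U ≠ 0 := by
    intro h
    have c2 : U.coeff 2 = 0 := by rw [h]; simp
    have c1 : U.coeff 1 = 0 := by rw [h]; simp
    have c0 : U.coeff 0 = 0 := by rw [h]; simp
    rw [hU] at c2 c1 c0
    simp only [coeff_add, coeff_C_mul, coeff_X_pow, coeff_X, coeff_C] at c2 c1 c0
    norm_num at c2 c1 c0
    have v0 : v 0 = 0 := c2.resolve_left h3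
    rw [v0] at c1 c0
    simp only [mul_zero, add_zero, mul_eq_zero] at c1 c0
    have v1 : v 1 = 0 := c1.resolve_left h3
    rw [v1] at c0
    simp only [mul_zero, add_zero, mul_eq_zero] at c0
    have v2 : v 2 = 0 := c0.resolve_left h3
    apply hv
    funext i
    fin_cases i <;> assumption
  have hdU : U.natDegree ≤ 2 := by
    rw [hU]; exact natDegree_quadratic_le
  have hPprime : Prime (toP P) := hP.prime
  have hdvd : toP P ∣ toP Q * U := ⟨V, key.symm⟩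
  have hPQ : toP P ∣ toP Q := by
    rcases hPprime.dvd_or_dvd hdvd with h | h
    · exact h
    · exfalso
      have := natDegree_le_of_dvd h hU0
      omega
  have hass : Associated (toP P) (toP Q) := (hP.dvd_irreducible_iff_associated hQ).1 hPQ
  obtain ⟨u, hu⟩ := hass
  obtain ⟨r, hr, hru⟩ := Polynomial.isUnit_iff.1 u.isUnit
  rw [← hru] at hu
  have co : ∀ (P : Cub) (n : Fin 4), (toP P).coeff n = P n := toP_coeff
  have hcoef : ∀ n : Fin 4, P n * r = Q n := by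
    intro n
    rw [← co P n, ← co Q n, ← hu, coeff_mul_C]
  rcases Int.isUnit_iff.1 hr with h | h
  · left
    funext n
    rw [← hcoef n, h, mul_one]
  · right
    funext n
    rw [Pi.neg_apply, ← hcoef n, h]
    ring

/-- Taylor coefficients at `x` -/
def tay (P : Cub) (x : ℝ) : Fin 4 → ℝ := ![f P x, f1 P x, f2 P x / 2, P 3]

theorem det_tay (P Q : Cub) (x : ℝ) :
    (bezM (tay P x) (tay Q x)).det = ((bezM P Q).det : ℤ) := by
  have m01 : mn (tay P x) (tay Q x) 0 1 = (mn P Q 0 1 : ℤ) + 2 * x * (mn P Q 0 2 : ℤ)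
      + 2 * x ^ 2 * (mn P Q 0 3 : ℤ) + x ^ 2 * (mn P Q 0 3 + mn P Q 1 2 : ℤ)
      + 2 * x ^ 3 * (mn P Q 1 3 : ℤ) + x ^ 4 * (mn P Q 2 3 : ℤ) := by
    simp [mn, tay, f, f1, f2]; ring
  have m02 : mn (tay P x) (tay Q x) 0 2 = (mn P Q 0 2 : ℤ) + 2 * x * (mn P Q 0 3 : ℤ)
      + x * (mn P Q 0 3 + mn P Q 1 2 : ℤ) + 3 * x ^ 2 * (mn P Q 1 3 : ℤ)
      + 2 * x ^ 3 * (mn P Q 2 3 : ℤ) := by
    simp [mn, tay, f, f1, f2]; ring
  have m03 : mn (tay P x) (tay Q x) 0 3 = (mn P Q 0 3 : ℤ) + x * (mn P Q 1 3 : ℤ)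
      + x ^ 2 * (mn P Q 2 3 : ℤ) := by
    simp [mn, tay, f, f1, f2]; ring
  have m12 : mn (tay P x) (tay Q x) 0 3 + mn (tay P x) (tay Q x) 1 2
      = (mn P Q 0 3 + mn P Q 1 2 : ℤ) + 4 * x * (mn P Q 1 3 : ℤ)
      + 4 * x ^ 2 * (mn P Q 2 3 : ℤ) := by
    simp [mn, tay, f, f1, f2]; ring
  have m13 : mn (tay P x) (tay Q x) 1 3 = (mn P Q 1 3 : ℤ) + 2 * x * (mn P Q 2 3 : ℤ) := by
    simp [mn, tay, f, f1, f2]; ring
  have m23 : mn (tay P x) (tay Q x) 2 3 = (mn P Q 2 3 : ℤ) := by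
    simp [mn, tay, f, f1, f2]; ring
  rw [det_bezM, det_bezM, m01, m02, m03] 
  rw [m03] at m12
  rw [m12, m13, m23]
  push_cast
  ring

end

end Pool.Agent.Helper53.HD
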