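import Pool.Agent.Helper53.Sep

set_option autoImplicit false

namespace Pool.Agent.Helper53.HD

noncomputable section

theorem den_le {k r0 : ℤ} {θ : ℚ} {e : ℕ} (hk : k ≠ 0) (h : (r0 : ℝ) = k * (θ : ℝ) ^ e) :
    (θ.den : ℝ) ^ e ≤ |(k : ℝ)| := by
  have hden : (θ.den : ℝ) ≠ 0 := by exact_mod_cast θ.den_ne_zero
  have h1 : (r0 : ℝ) * (θ.den : ℝ) ^ e = k * (θ.num : ℝ) ^ e := by
    have : (θ : ℝ) = θ.num / θ.den := by exact_mod_cast (Rat.num_div_den θ).symm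
    rw [h, this, div_pow]
    field_simp
  have h2 : r0 * (θ.den : ℤ) ^ e = k * θ.num ^ e := by exact_mod_cast h1
  have hcop : IsCoprime ((θ.den : ℤ) ^ e) (θ.num ^ e) := by
    apply IsCoprime.pow
    rw [Int.isCoprime_iff_gcd_eq_one, Int.gcd_comm]
    exact θ.reduced
  have h3 : (θ.den : ℤ) ^ e ∣ k := hcop.dvd_of_dvd_mul_right ⟨r0, by rw [← h2]; ring⟩
  have h4 := Int.le_of_dvd (abs_pos.2 hk) ((dvd_abs _ _).2 h3)
  exact_mod_cast h4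

theorem basic_small {B D : ℝ} (hB : 1 ≤ B) (hD : 0 < D) (hDc : 1000 * B ^ 3 * D ≤ 1) :
    1000 * B * D ≤ 1 ∧ 1000 * B ^ 2 * D ≤ 1 ∧ 1000 * D ≤ 1 := by
  have h1 : B ≤ B ^ 3 := by nlinarith [mul_self_nonneg B, sq_nonneg (B - 1)]
  have h2 : B ^ 2 ≤ B ^ 3 := by nlinarith [sq_nonneg B]
  have h3 : 1 ≤ B ^ 3 := one_le_pow₀ hB
  refine ⟨?_, ?_, ?_⟩
  · nlinarith [mul_le_mul_of_nonneg_right h1 hD.le]
  · nlinarith [mul_le_mul_of_nonneg_right h2 hD.le]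
  · nlinarith [mul_le_mul_of_nonneg_right h3 hD.le]

theorem rho_small {B D H a : ℝ} (hH : 1 ≤ H) (hDH : 1 ≤ 2 * H * D ^ 2) (ha0 : 0 ≤ a)
    (ha : a ≤ 24 * B * D ^ 2 / H) : a ≤ 48 * B * D ^ 4 ∧ a ≤ 24 * B * D ^ 2 := by
  have hH0 : 0 < H := by linarith
  rw [le_div_iff₀ hH0] at ha
  constructor
  · calc a ≤ a * (2 * H * D ^ 2) := le_mul_of_one_le_right ha0 hDH
      _ = 2 * D ^ 2 * (a * H) := by ring
      _ ≤ 2 * D ^ 2 * (24 * B * D ^ 2) := mul_le_mul_of_nonneg_left ha (by positivity)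
      _ = _ := by ring
  · exact (le_mul_of_one_le_right ha0 hH).trans ha

/-- the numerical bound for the discriminant in case A -/
theorem discA_bound {B D m a b X : ℝ} (hB : 1 ≤ B) (hD : 0 < D) (hDc : 1000 * B ^ 3 * D ≤ 1)
    (hm : 0 ≤ m) (ht : 10 ^ 6 * B ^ 4 * (m * D ^ 2) ≤ 1) (ha0 : 0 ≤ a) (hb0 : 0 ≤ b)
    (hX0 : 0 ≤ X) (ha : a ≤ 48 * B * D ^ 4) (hb : b ≤ 24 * B * D) (hX : X ≤ B) :
    4 * b ^ 3 + 9 * m * X ^ 2 * b ^ 2 + 27 * m * a ^ 2 + 54 * m * X * a * b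
      + 108 * m ^ 2 * X ^ 3 * a < 1 := by
  obtain ⟨h1, h2, h3⟩ := basic_small hB hD hDc
  have hB0 : 0 < B := by linarith
  have hBD : b ≤ 24 / 1000 := by nlinarith
  have t0 : 0 ≤ m * D ^ 2 := by positivity
  have hB4 : 1 ≤ B ^ 4 := one_le_pow₀ hB
  have t1 : B ^ 4 * (m * D ^ 2) ≤ 1 / 10 ^ 6 := by linarith
  have t2 : m * D ^ 2 ≤ 1 / 10 ^ 6 := by nlinarith
  have e1 : 4 * b ^ 3 ≤ 4 * (24 / 1000) ^ 3 := by gcongr
  have e2 : 9 * m * X ^ 2 * b ^ 2 ≤ 5184 / 10 ^ 6 := by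
    calc 9 * m * X ^ 2 * b ^ 2 ≤ 9 * m * B ^ 2 * (24 * B * D) ^ 2 := by gcongr
      _ = 5184 * (B ^ 4 * (m * D ^ 2)) := by ring
      _ ≤ _ := by linarith
  have hD4 : 48 * B * D ^ 4 ≤ 1 / 1000 := by
    have : D ^ 3 ≤ 1 := pow_le_one₀ hD.le (by linarith)
    calc 48 * B * D ^ 4 = 48 * (B * D) * D ^ 3 := by ring
      _ ≤ 48 * (1 / 1000) * (1 / 1000) ^ 3 := by
          gcongr
          · linarith
          · linarith
      _ ≤ _ := by norm_num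
  have e3 : 27 * m * a ^ 2 ≤ 27 * 48 ^ 2 / 10 ^ 6 * (1 / 1000) ^ 2 := by
    have hBD2 : B ^ 2 * D ^ 6 ≤ D ^ 2 * (1 / 1000) ^ 2 := by
      have : B * D ^ 2 ≤ 1 / 1000 := by nlinarith
      have : (B * D ^ 2) ^ 2 ≤ (1 / 1000) ^ 2 := by gcongr
      calc B ^ 2 * D ^ 6 = D ^ 2 * (B * D ^ 2) ^ 2 := by ring
        _ ≤ _ := by gcongr
    calc 27 * m * a ^ 2 ≤ 27 * m * (48 * B * D ^ 4) ^ 2 := by gcongr
      _ = 27 * 48 ^ 2 * (m * D ^ 2) * (B ^ 2 * D ^ 6) := by ring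
      _ ≤ 27 * 48 ^ 2 * (1 / 10 ^ 6) * (D ^ 2 * (1 / 1000) ^ 2) := by gcongr
      _ ≤ 27 * 48 ^ 2 * (1 / 10 ^ 6) * (1 * (1 / 1000) ^ 2) := by
          gcongr
          exact pow_le_one₀ hD.le (by linarith)
      _ ≤ _ := by norm_num
  have e4 : 54 * m * X * a * b ≤ 54 * 48 * 24 / 10 ^ 6 * (1 / 1000) := by
    have hD3 : D ^ 3 ≤ 1 / 1000 := by
      calc D ^ 3 = D * D ^ 2 := by ring
        _ ≤ (1 / 1000) * 1 := by
            gcongr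
            · linarith
            · exact pow_le_one₀ hD.le (by linarith)
        _ = _ := by ring
    have hB34 : B ^ 3 ≤ B ^ 4 := pow_le_pow_right₀ hB (by norm_num)
    calc 54 * m * X * a * b ≤ 54 * m * B * (48 * B * D ^ 4) * (24 * B * D) := by gcongr
      _ = 54 * 48 * 24 * ((m * D ^ 2) * B ^ 3) * D ^ 3 := by ring
      _ ≤ 54 * 48 * 24 * (1 / 10 ^ 6) * (1 / 1000) := by
          gcongr
          calc m * D ^ 2 * B ^ 3 ≤ m * D ^ 2 * B ^ 4 := by gcongr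
            _ ≤ _ := by linarith
      _ ≤ _ := by norm_num
  have e5 : 108 * m ^ 2 * X ^ 3 * a ≤ 5184 / 10 ^ 6 * (1 / 10 ^ 6) := by
    calc 108 * m ^ 2 * X ^ 3 * a ≤ 108 * m ^ 2 * B ^ 3 * (48 * B * D ^ 4) := by gcongr
      _ = 5184 * (B ^ 4 * (m * D ^ 2)) * (m * D ^ 2) := by ring
      _ ≤ 5184 * (1 / 10 ^ 6) * (1 / 10 ^ 6) := by gcongr
      _ ≤ _ := by norm_num
  linarith

/-- case A: `r₂ = 0` -/
theorem sepA {B D H : ℝ} (hB : 1 ≤ B) (hD : 0 < D) (hDc : 1000 * B ^ 3 * D ≤ 1) (hH : 1 ≤ H)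
    (hDH : 1 ≤ 2 * H * D ^ 2) {P : Cub} (hP : NoRat P) {x : ℝ} (hx0 : 1 ≤ B * |x|)
    (hx : |x| ≤ B) (h2 : |(P 2 : ℝ)| ≤ 2 * H) (h3 : |(P 3 : ℝ)| ≤ 2 * H)
    (hf : |f P x| ≤ D ^ 2 / H) (hf1 : |f1 P x| ≤ D) {r0 r1 r3 : ℤ} (hr : |(r3 : ℝ)| ≤ 4 * H)
    (hne : r3 ≠ 0) (hR0 : |(r0 : ℝ) + r1 * x + r3 * x ^ 3| ≤ 24 * B * D ^ 2 / H)
    (hR1 : |(r1 : ℝ) + 3 * r3 * x ^ 2| ≤ 24 * B * D) :
    1 < 10 ^ 6 * B ^ 4 * (|(r3 : ℝ)| * D ^ 2) := by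
  by_contra ht
  push Not at ht
  obtain ⟨d1, d2, d3⟩ := basic_small hB hD hDc
  have hB0 : 0 < B := by linarith
  obtain ⟨ha4, ha2⟩ := rho_small hH hDH (abs_nonneg _) hR0
  set ρ0 : ℝ := (r0 : ℝ) + r1 * x + r3 * x ^ 3 with hρ0
  set ρ1 : ℝ := (r1 : ℝ) + 3 * r3 * x ^ 2 with hρ1
  have hm1 : (1 : ℝ) ≤ |(r3 : ℝ)| := by exact_mod_cast Int.one_le_abs hne
  -- discriminant vanishes
  have hdisc : 4 * r1 ^ 3 + 27 * r0 ^ 2 * r3 = 0 := by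
    apply int_eq_zero_of_abs_lt
    have e : ((4 * r1 ^ 3 + 27 * r0 ^ 2 * r3 : ℤ) : ℝ)
        = 4 * ρ1 ^ 3 - 9 * r3 * x ^ 2 * ρ1 ^ 2 + 27 * r3 * ρ0 ^ 2 - 54 * r3 * x * ρ0 * ρ1
          + 108 * r3 ^ 2 * x ^ 3 * ρ0 := by
      rw [hρ0, hρ1]; push_cast; ring
    rw [e]
    have hb := discA_bound hB hD hDc (abs_nonneg (r3 : ℝ)) ht (abs_nonneg ρ0) (abs_nonneg ρ1)
      (abs_nonneg x) ha4 hR1 hx
    refine lt_of_le_of_lt ?_ hb
    calc |4 * ρ1 ^ 3 - 9 * r3 * x ^ 2 * ρ1 ^ 2 + 27 * r3 * ρ0 ^ 2 - 54 * r3 * x * ρ0 * ρ1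
          + 108 * r3 ^ 2 * x ^ 3 * ρ0|
        ≤ |4 * ρ1 ^ 3 - 9 * r3 * x ^ 2 * ρ1 ^ 2 + 27 * r3 * ρ0 ^ 2 - 54 * r3 * x * ρ0 * ρ1|
          + |108 * r3 ^ 2 * x ^ 3 * ρ0| := abs_add_le _ _
      _ ≤ |4 * ρ1 ^ 3 - 9 * r3 * x ^ 2 * ρ1 ^ 2 + 27 * r3 * ρ0 ^ 2| + |54 * r3 * x * ρ0 * ρ1|
          + |108 * r3 ^ 2 * x ^ 3 * ρ0| := by gcongr; exact abs_sub _ _
      _ ≤ |4 * ρ1 ^ 3 - 9 * r3 * x ^ 2 * ρ1 ^ 2| + |27 * r3 * ρ0 ^ 2| + |54 * r3 * x * ρ0 * ρ1|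
          + |108 * r3 ^ 2 * x ^ 3 * ρ0| := by gcongr; exact abs_add_le _ _
      _ ≤ |4 * ρ1 ^ 3| + |9 * r3 * x ^ 2 * ρ1 ^ 2| + |27 * r3 * ρ0 ^ 2| + |54 * r3 * x * ρ0 * ρ1|
          + |108 * r3 ^ 2 * x ^ 3 * ρ0| := by gcongr; exact abs_sub _ _
      _ = _ := by
          simp only [abs_mul, abs_pow, Nat.abs_ofNat]
  -- the double root
  set θ : ℚ := -3 * r0 / (2 * r1) with hθ
  have hθr : (θ : ℝ) = -3 * r0 / (2 * r1) := by rw [hθ]; push_cast; ring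
  have hdr : (4 * r1 ^ 3 + 27 * r0 ^ 2 * r3 : ℝ) = 0 := by exact_mod_cast hdisc
  have hr3r : (r3 : ℝ) ≠ 0 := by exact_mod_cast hne
  have hz : (r1 : ℝ) = 0 → (r0 : ℝ) = 0 := by
    intro h
    rw [h] at hdr
    have : (27 * (r0 : ℝ) ^ 2 * r3) = 0 := by linarith
    simpa [hr3r] using this
  have i1 : (r1 : ℝ) = -3 * r3 * (θ : ℝ) ^ 2 := by
    by_cases h : (r1 : ℝ) = 0
    · rw [hθr, h, hz h]; simp
    · rw [hθr]; field_simp; linear_combination hdr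
  have i0 : (r0 : ℝ) = ((2 * r3 : ℤ) : ℝ) * (θ : ℝ) ^ 3 := by
    push_cast
    by_cases h : (r1 : ℝ) = 0
    · rw [hθr, h, hz h]; simp
    · rw [hθr]; field_simp; linear_combination (r0 : ℝ) * hdr
  have hden := den_le (by simpa using hne) i0
  set y : ℝ := x - θ with hy
  have hρ1y : ρ1 = 3 * r3 * (y * (2 * x - y)) := by rw [hρ1, i1, hy]; ring
  have hρ0y : ρ0 = r3 * y ^ 2 * (3 * x - 2 * y) := by
    rw [hρ0, i1, i0, hy]; push_cast; ring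
  have b1 : |y| * |2 * x - y| ≤ 8 * B * D := by
    rw [hρ1y, abs_mul, abs_mul, abs_mul] at hR1
    have : |(3 : ℝ)| = 3 := by norm_num
    rw [this] at hR1
    have h0 : 0 ≤ |y| * |2 * x - y| := by positivity
    nlinarith [mul_le_mul_of_nonneg_right hm1 h0]
  have hxB : 1 / B ≤ |x| := by rw [div_le_iff₀ hB0]; linarith
  have hyx : |y| ≤ |x| / 4 := by
    by_contra hcon
    push Not at hcon
    rcases le_or_gt (|x| / 4) |2 * x - y| with h | h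
    · have h4 : |x| / 4 * (|x| / 4) ≤ |y| * |2 * x - y| :=
        mul_le_mul hcon.le h (by positivity) (abs_nonneg _)
      have h5 : 1 ≤ (B * |x|) ^ 2 := one_le_pow₀ hx0
      have h6 : B ^ 2 * (8 * B * D) ≤ 8 / 1000 := by nlinarith
      nlinarith [mul_le_mul_of_nonneg_left (h4.trans b1) (sq_nonneg B)]
    · have h4 : 7 / 4 * |x| ≤ |y| := by
        have := abs_sub (2 * x) (2 * x - y)
        have e : 2 * x - (2 * x - y) = y := by ring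
        have h5 : |2 * x| - |2 * x - y| ≤ |2 * x - (2 * x - y)| := abs_sub_abs_le_abs_sub _ _
        rw [e, abs_mul, abs_two] at h5
        linarith
      have h5 : |x| / 2 ≤ |3 * x - 2 * y| := by
        have h6 : |x| - |2 * (2 * x - y)| ≤ |x - 2 * (2 * x - y)| := abs_sub_abs_le_abs_sub _ _
        have e : x - 2 * (2 * x - y) = -(3 * x - 2 * y) := by ring
        rw [e, abs_neg, abs_mul, abs_two] at h6
        linarith
      have h7 : |ρ0| = |(r3 : ℝ)| * |y| ^ 2 * |3 * x - 2 * y| := by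
        rw [hρ0y, abs_mul, abs_mul, abs_pow]
      have h8 : 1 * (7 / 4 * |x|) ^ 2 * (|x| / 2) ≤ |ρ0| := by
        rw [h7]; gcongr
      have h9 : 1 ≤ (B * |x|) ^ 3 := one_le_pow₀ hx0
      have h10 : B ^ 3 * (24 * B * D ^ 2) ≤ 24 / 1000 := by
        calc B ^ 3 * (24 * B * D ^ 2) = 24 * (B ^ 3 * D) * (B * D) := by ring
          _ ≤ 24 * (1 / 1000) * 1 := by
              gcongr
              · linarith
              · linarith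
          _ = _ := by ring
      have h11 := mul_le_mul_of_nonneg_left (h8.trans ha2) (pow_nonneg hB0.le 3)
      nlinarith
  have hyB : |y| ≤ B := by linarith [abs_nonneg x]
  have h32 : |x| ≤ |3 * x - 2 * y| := by
    have h6 : |3 * x| - |2 * y| ≤ |3 * x - 2 * y| := abs_sub_abs_le_abs_sub _ _
    rw [abs_mul, abs_mul] at h6
    have : |(3 : ℝ)| = 3 := by norm_num
    rw [this, abs_two] at h6
    linarith [abs_nonneg x]
  have hry : |(r3 : ℝ)| * y ^ 2 ≤ 24 * B ^ 2 * D ^ 2 / H := by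
    have h7 : |ρ0| = |(r3 : ℝ)| * y ^ 2 * |3 * x - 2 * y| := by
      rw [hρ0y, abs_mul, abs_mul, abs_pow, sq_abs]
    have h8 : |(r3 : ℝ)| * y ^ 2 * (1 / B) ≤ 24 * B * D ^ 2 / H := by
      refine le_trans ?_ hR0
      rw [h7]
      exact mul_le_mul_of_nonneg_left (hxB.trans h32) (by positivity)
    calc |(r3 : ℝ)| * y ^ 2 = B * (|(r3 : ℝ)| * y ^ 2 * (1 / B)) := by field_simp
      _ ≤ B * (24 * B * D ^ 2 / H) := mul_le_mul_of_nonneg_left h8 hB0.le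
      _ = _ := by ring
  have hrb := root_bound hB hD hH hx h2 h3 hf hf1 (abs_nonneg (r3 : ℝ)) hr hry hyB
  have hlow := hP.lower θ
  have h12 : (1 : ℝ) ≤ 2 * (|(r3 : ℝ)| * |f P θ|) := by
    refine hlow.trans ?_
    have : |((2 * r3 : ℤ) : ℝ)| = 2 * |(r3 : ℝ)| := by push_cast; rw [abs_mul, abs_two]
    rw [this] at hden
    nlinarith [mul_le_mul_of_nonneg_right hden (abs_nonneg (f P θ))]
  have h13 : 254 * B ^ 3 * D ^ 2 ≤ 254 / 1000 * D := by nlinarith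
  nlinarith

end

end Pool.Agent.Helper53.HD
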