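import Pool.Agent.Helper53.Bez
import Pool.Agent.Helper53.SepB

set_option autoImplicit false

namespace Pool.Agent.Helper53.HD

noncomputable section

theorem abs_mn_le {a b c d u v u' v' : ℝ} (ha : |a| ≤ u) (hb : |b| ≤ v) (hc : |c| ≤ u')
    (hd : |d| ≤ v') : |a * b - c * d| ≤ u * v + u' * v' := by
  refine (abs_sub _ _).trans ?_
  rw [abs_mul, abs_mul]
  exact add_le_add (mul_le_mul ha hb (abs_nonneg _) ((abs_nonneg _).trans ha))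
    (mul_le_mul hc hd (abs_nonneg _) ((abs_nonneg _).trans hc))

/-- the scaled determinant estimate -/
theorem det_bound {K α r : ℝ} (hK : 1 ≤ K) (hα : α = 1 / (200 * K ^ 3)) (hr : 0 < r) (hr1 : r ≤ 1)
    (p q : Fin 4 → ℝ)
    (p0 : |p 0| ≤ α * r ^ 4) (p1 : |p 1| ≤ 2 * r) (p2 : |p 2| * r ^ 2 ≤ K) (p3 : |p 3| * r ^ 2 ≤ K)
    (q0 : |q 0| ≤ α * r ^ 4) (q1 : |q 1| ≤ 2 * r) (q2 : |q 2| * r ^ 2 ≤ K)
    (q3 : |q 3| * r ^ 2 ≤ K) : |(bezM p q).det| < 1 := by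
  have hK3 : 1 ≤ K ^ 3 := one_le_pow₀ hK
  have hα0 : 0 < α := by rw [hα]; positivity
  have hαK : α * (200 * K ^ 3) = 1 := by rw [hα]; field_simp
  have hα1 : α ≤ 1 := by nlinarith
  have hαKK : α * K ≤ 1 / 200 := by
    have : K ≤ K ^ 3 := by
      calc K = K ^ 1 := (pow_one K).symm
        _ ≤ K ^ 3 := pow_le_pow_right₀ hK (by norm_num)
    nlinarith
  -- scaled variables
  obtain ⟨a0, ha0⟩ : ∃ a, p 0 = a * r ^ 4 := ⟨p 0 / r ^ 4, by field_simp⟩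
  obtain ⟨a1, ha1⟩ : ∃ a, p 1 = a * r := ⟨p 1 / r, by field_simp⟩
  obtain ⟨a2, ha2⟩ : ∃ a, p 2 = a / r ^ 2 := ⟨p 2 * r ^ 2, by field_simp⟩
  obtain ⟨a3, ha3⟩ : ∃ a, p 3 = a / r ^ 2 := ⟨p 3 * r ^ 2, by field_simp⟩
  obtain ⟨b0, hb0⟩ : ∃ a, q 0 = a * r ^ 4 := ⟨q 0 / r ^ 4, by field_simp⟩
  obtain ⟨b1, hb1⟩ : ∃ a, q 1 = a * r := ⟨q 1 / r, by field_simp⟩
  obtain ⟨b2, hb2⟩ : ∃ a, q 2 = a / r ^ 2 := ⟨q 2 * r ^ 2, by field_simp⟩
  obtain ⟨b3, hb3⟩ : ∃ a, q 3 = a / r ^ 2 := ⟨q 3 * r ^ 2, by field_simp⟩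
  have hr4 : 0 < r ^ 4 := by positivity
  have hr2 : 0 < r ^ 2 := by positivity
  have A0 : |a0| ≤ α := by
    rw [ha0, abs_mul, abs_of_pos hr4] at p0; exact le_of_mul_le_mul_right p0 hr4
  have A1 : |a1| ≤ 2 := by
    rw [ha1, abs_mul, abs_of_pos hr] at p1; exact le_of_mul_le_mul_right p1 hr
  have A2 : |a2| ≤ K := by
    rwa [ha2, abs_div, abs_of_pos hr2, div_mul_cancel₀ _ hr2.ne'] at p2
  have A3 : |a3| ≤ K := by
    rwa [ha3, abs_div, abs_of_pos hr2, div_mul_cancel₀ _ hr2.ne'] at p3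
  have B0 : |b0| ≤ α := by
    rw [hb0, abs_mul, abs_of_pos hr4] at q0; exact le_of_mul_le_mul_right q0 hr4
  have B1 : |b1| ≤ 2 := by
    rw [hb1, abs_mul, abs_of_pos hr] at q1; exact le_of_mul_le_mul_right q1 hr
  have B2 : |b2| ≤ K := by
    rwa [hb2, abs_div, abs_of_pos hr2, div_mul_cancel₀ _ hr2.ne'] at q2
  have B3 : |b3| ≤ K := by
    rwa [hb3, abs_div, abs_of_pos hr2, div_mul_cancel₀ _ hr2.ne'] at q3
  have M01 := abs_mn_le A0 B1 A1 B0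
  have M02 := abs_mn_le A0 B2 A2 B0
  have M03 := abs_mn_le A0 B3 A3 B0
  have M12 := abs_mn_le A1 B2 A2 B1
  have M13 := abs_mn_le A1 B3 A3 B1
  have M23 := abs_mn_le A2 B3 A3 B2
  set m01 := a0 * b1 - a1 * b0
  set m02 := a0 * b2 - a2 * b0
  set m03 := a0 * b3 - a3 * b0
  set m12 := a1 * b2 - a2 * b1
  set m13 := a1 * b3 - a3 * b1
  set m23 := a2 * b3 - a3 * b2
  have key : (bezM p q).det = m01 * (r ^ 3 * m03 + m12) * m23
      + r ^ 3 * (2 * m02 * m03 * m13 - m01 * m13 ^ 2) - m02 ^ 2 * m23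
      - r ^ 3 * m03 ^ 2 * (r ^ 3 * m03 + m12) := by
    rw [det_bezM]
    simp only [mn, ha0, ha1, ha2, ha3, hb0, hb1, hb2, hb3, m01, m02, m03, m12, m13, m23]
    field_simp
    ring
  have hr3 : 0 ≤ r ^ 3 := by positivity
  have hr31 : r ^ 3 ≤ 1 := pow_le_one₀ hr.le hr1
  have N01 : |m01| ≤ 4 * α := by linarith
  have N02 : |m02| ≤ 2 * α * K := by linarith
  have N03 : |m03| ≤ 2 * α * K := by linarith
  have N12 : |m12| ≤ 4 * K := by linarith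
  have N13 : |m13| ≤ 4 * K := by linarith
  have N23 : |m23| ≤ 2 * K ^ 2 := by nlinarith
  have ND : |r ^ 3 * m03 + m12| ≤ 6 * K := by
    refine (abs_add_le _ _).trans ?_
    rw [abs_mul, abs_of_nonneg hr3]
    have h1 : r ^ 3 * |m03| ≤ 1 * (2 * α * K) := mul_le_mul hr31 N03 (abs_nonneg _) zero_le_one
    nlinarith
  have hK0 : 0 < K := by linarith
  have T1 : |m01 * (r ^ 3 * m03 + m12) * m23| ≤ 4 * α * (6 * K) * (2 * K ^ 2) := by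
    rw [abs_mul, abs_mul]; gcongr
  have T2 : |r ^ 3 * (2 * m02 * m03 * m13 - m01 * m13 ^ 2)|
      ≤ 1 * (2 * (2 * α * K) * (2 * α * K) * (4 * K) + 4 * α * (4 * K) ^ 2) := by
    rw [abs_mul, abs_of_nonneg hr3]
    apply mul_le_mul hr31 _ (abs_nonneg _) zero_le_one
    refine (abs_sub _ _).trans ?_
    rw [abs_mul, abs_mul, abs_mul, abs_mul, abs_pow, abs_two]
    gcongr
  have T3 : |m02 ^ 2 * m23| ≤ (2 * α * K) ^ 2 * (2 * K ^ 2) := by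
    rw [abs_mul, abs_pow]; gcongr
  have T4 : |r ^ 3 * m03 ^ 2 * (r ^ 3 * m03 + m12)| ≤ 1 * (2 * α * K) ^ 2 * (6 * K) := by
    rw [abs_mul, abs_mul, abs_of_nonneg hr3, abs_pow]; gcongr
  rw [key]
  have hfin : 4 * α * (6 * K) * (2 * K ^ 2)
      + 1 * (2 * (2 * α * K) * (2 * α * K) * (4 * K) + 4 * α * (4 * K) ^ 2)
      + (2 * α * K) ^ 2 * (2 * K ^ 2) + 1 * (2 * α * K) ^ 2 * (6 * K) < 1 := by
    have g1 : α * K ^ 3 = 1 / 200 := by linarith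
    have g2 : α * K ^ 2 ≤ α * K ^ 3 :=
      mul_le_mul_of_nonneg_left (pow_le_pow_right₀ hK (by norm_num)) hα0.le
    have g3 : α ^ 2 * K ^ 3 ≤ 1 / 200 := by
      have : α ^ 2 * K ^ 3 = α * (α * K ^ 3) := by ring
      rw [this, g1]; linarith
    have g4 : α ^ 2 * K ^ 4 ≤ 1 / 200 * (1 / 200) := by
      have : α ^ 2 * K ^ 4 = (α * K) * (α * K ^ 3) := by ring
      rw [this, g1]; linarith
    nlinarith
  calc |m01 * (r ^ 3 * m03 + m12) * m23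
      + r ^ 3 * (2 * m02 * m03 * m13 - m01 * m13 ^ 2) - m02 ^ 2 * m23
      - r ^ 3 * m03 ^ 2 * (r ^ 3 * m03 + m12)|
      ≤ |m01 * (r ^ 3 * m03 + m12) * m23|
      + |r ^ 3 * (2 * m02 * m03 * m13 - m01 * m13 ^ 2)| + |m02 ^ 2 * m23|
      + |r ^ 3 * m03 ^ 2 * (r ^ 3 * m03 + m12)| := by
        refine (abs_sub _ _).trans ?_
        gcongr
        refine (abs_sub _ _).trans ?_
        gcongr
        exact abs_add_le _ _
    _ < 1 := by linarith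

end

end Pool.Agent.Helper53.HD
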