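import Pool.Agent.Helper53.CPStep

set_option autoImplicit false

namespace Pool.Agent.Helper53.CP

open PowerSeries

theorem r2_eq : r2 = 1 + 4 * Polynomial.X + 5 * Polynomial.X ^ 2 + 2 * Polynomial.X ^ 3 := by
  simp [r2]

noncomputable def Pm (mu : ℕ) : Polynomial ℤ :=
  1 + (15 + 4 * (mu : Polynomial ℤ)) * Polynomial.X ^ 2
    + (10 + 8 * (mu : Polynomial ℤ)) * Polynomial.X ^ 3
    + (3 + 2 * (mu : Polynomial ℤ)) * Polynomial.X ^ 4 + 4 * Polynomial.X ^ 5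
    + (1 + 2 * (mu : Polynomial ℤ)) * Polynomial.X ^ 6
    + (2 + 4 * (mu : Polynomial ℤ)) * Polynomial.X ^ 7

theorem U_form (mu : ℕ) : ∃ A B C : Polynomial ℤ,
    r2 ^ (4 * mu + 3) * (1 + 4 * Polynomial.X) = Pm mu + 16 * Polynomial.X * A
      + 8 * Polynomial.X ^ 4 * B + Polynomial.X ^ 8 * C := by
  induction mu with
  | zero =>
    refine ⟨1 + 6 * Polynomial.X + 27 * Polynomial.X ^ 2,
      140 + 238 * Polynomial.X + 275 * Polynomial.X ^ 2 + 213 * Polynomial.X ^ 3,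
      852 + 248 * Polynomial.X + 32 * Polynomial.X ^ 2, ?_⟩
    rw [r2_eq, Pm]; push_cast; ring
  | succ mu ih =>
    obtain ⟨A, B, C, h⟩ := ih
    set A1 : Polynomial ℤ := 1 + 7 * Polynomial.X + 31 * Polynomial.X ^ 2 with hA1
    set B1 : Polynomial ℤ := 182 + 373 * Polynomial.X + 549 * Polynomial.X ^ 2
      + 589 * Polynomial.X ^ 3 with hB1
    set C1 : Polynomial ℤ := 3649 + 1992 * Polynomial.X + 728 * Polynomial.X ^ 2
      + 160 * Polynomial.X ^ 3 + 16 * Polynomial.X ^ 4 with hC1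
    set K : Polynomial ℤ := 1 + 4 * Polynomial.X ^ 2 + 8 * Polynomial.X ^ 3
      + 6 * Polynomial.X ^ 4 + 4 * Polynomial.X ^ 6 with hK
    have h4 : r2 ^ 4 = K + 16 * Polynomial.X * A1 + 8 * Polynomial.X ^ 4 * B1
        + Polynomial.X ^ 8 * C1 := by
      rw [r2_eq, hK, hA1, hB1, hC1]; ring
    have hPK : Pm mu * K = Pm (mu + 1)
        + 8 * Polynomial.X ^ 4 * ((8 + 2 * (mu : Polynomial ℤ))
          + (20 + 8 * (mu : Polynomial ℤ)) * Polynomial.X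
          + (23 + 12 * (mu : Polynomial ℤ)) * Polynomial.X ^ 2
          + (12 + 8 * (mu : Polynomial ℤ)) * Polynomial.X ^ 3)
        + Polynomial.X ^ 8 * ((114 + 36 * (mu : Polynomial ℤ))
          + (80 + 64 * (mu : Polynomial ℤ)) * Polynomial.X
          + (34 + 52 * (mu : Polynomial ℤ)) * Polynomial.X ^ 2
          + (28 + 24 * (mu : Polynomial ℤ)) * Polynomial.X ^ 3
          + (4 + 8 * (mu : Polynomial ℤ)) * Polynomial.X ^ 4
          + (8 + 16 * (mu : Polynomial ℤ)) * Polynomial.X ^ 5) := by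
      rw [Pm, Pm, hK]; push_cast; ring
    refine ⟨A * r2 ^ 4 + Pm mu * A1, B * r2 ^ 4 + Pm mu * B1 + ((8 + 2 * (mu : Polynomial ℤ))
          + (20 + 8 * (mu : Polynomial ℤ)) * Polynomial.X
          + (23 + 12 * (mu : Polynomial ℤ)) * Polynomial.X ^ 2
          + (12 + 8 * (mu : Polynomial ℤ)) * Polynomial.X ^ 3),
      C * r2 ^ 4 + Pm mu * C1 + ((114 + 36 * (mu : Polynomial ℤ))
          + (80 + 64 * (mu : Polynomial ℤ)) * Polynomial.X
          + (34 + 52 * (mu : Polynomial ℤ)) * Polynomial.X ^ 2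
          + (28 + 24 * (mu : Polynomial ℤ)) * Polynomial.X ^ 3
          + (4 + 8 * (mu : Polynomial ℤ)) * Polynomial.X ^ 4
          + (8 + 16 * (mu : Polynomial ℤ)) * Polynomial.X ^ 5), ?_⟩
    have e : r2 ^ (4 * (mu + 1) + 3) * (1 + 4 * Polynomial.X)
        = (r2 ^ (4 * mu + 3) * (1 + 4 * Polynomial.X)) * r2 ^ 4 := by ring
    rw [e, h]
    linear_combination Pm mu * h4 + hPK

theorem sec1_y1 : sec 1 (y ^ 1) = 2 * w + 4 * y := by
  have h : y ^ 1 = ((2 : ℤ) : PowerSeries ℤ) * w ^ 2 + ((-2 : ℤ) : PowerSeries ℤ) * w ^ 1 := by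
    simp only [y, z]; push_cast; ring
  rw [h]
  simp only [map_add, sec_intCast_mul, sec1_1, sec1_2, y, z]
  push_cast; ring

theorem sec1_y2 : sec 1 (y ^ 2) = 8 * y + 64 * y ^ 2 + 32 * y * w := by
  have h : y ^ 2 = ((4 : ℤ) : PowerSeries ℤ) * w ^ 4 + ((-8 : ℤ) : PowerSeries ℤ) * w ^ 3
      + ((4 : ℤ) : PowerSeries ℤ) * w ^ 2 := by
    simp only [y, z]; push_cast; ring
  rw [h]
  simp only [map_add, sec_intCast_mul, sec1_2, sec1_3, sec1_4, y, z]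
  push_cast; ring

theorem sec1_y3 : sec 1 (y ^ 3) = 4 * y + 288 * y ^ 2 + 1024 * y ^ 3 + 80 * y * w
    + 512 * y ^ 2 * w := by
  have h : y ^ 3 = ((8 : ℤ) : PowerSeries ℤ) * w ^ 6 + ((-24 : ℤ) : PowerSeries ℤ) * w ^ 5
      + ((24 : ℤ) : PowerSeries ℤ) * w ^ 4 + ((-8 : ℤ) : PowerSeries ℤ) * w ^ 3 := by
    simp only [y, z]; push_cast; ring
  rw [h]
  simp only [map_add, sec_intCast_mul, sec1_3, sec1_4, sec1_5, sec1_6, y, z]
  push_cast; ring

theorem sec1_y4 : sec 1 (y ^ 4) = 512 * y ^ 2 + 7168 * y ^ 3 + 16384 * y ^ 4 + 64 * y * w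
    + 2560 * y ^ 2 * w + 8192 * y ^ 3 * w := by
  have h := sec_y4 1 (by norm_num) 1 0
  simp only [mul_one, Nat.reduceAdd, pow_zero] at h
  rw [h, sec_one 1 (by norm_num), sec1_y1, sec1_y2, sec1_y3]
  simp only [one_ne_zero, if_false]
  ring

theorem sec1_y5 : sec 1 (y ^ 5) = 448 * y ^ 2 + 21760 * y ^ 3 + 155648 * y ^ 4 + 262144 * y ^ 5
    + 16 * y * w + 5248 * y ^ 2 * w + 61440 * y ^ 3 * w + 131072 * y ^ 4 * w := by
  have h := sec_y4 1 (by norm_num) 1 1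
  simp only [mul_one, Nat.reduceAdd] at h
  rw [h, sec1_y1, sec1_y2, sec1_y3, sec1_y4]
  ring

theorem sec1_y6 : sec 1 (y ^ 6) = 192 * y ^ 2 + 37376 * y ^ 3 + 667648 * y ^ 4
    + 3145728 * y ^ 5 + 4194304 * y ^ 6 + 5632 * y ^ 2 * w + 202752 * y ^ 3 * w
    + 1310720 * y ^ 4 * w + 2097152 * y ^ 5 * w := by
  have h := sec_y4 1 (by norm_num) 1 2
  simp only [mul_one, Nat.reduceAdd] at h
  rw [h, sec1_y2, sec1_y3, sec1_y4, sec1_y5]
  ring

theorem sec1_y7 : sec 1 (y ^ 7) = 32 * y ^ 2 + 39680 * y ^ 3 + 1705984 * y ^ 4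
    + 17432576 * y ^ 5 + 60817408 * y ^ 6 + 67108864 * y ^ 7 + 3328 * y ^ 2 * w
    + 386048 * y ^ 3 * w + 5963776 * y ^ 4 * w + 26214400 * y ^ 5 * w + 33554432 * y ^ 6 * w := by
  have h := sec_y4 1 (by norm_num) 1 3
  simp only [mul_one, Nat.reduceAdd] at h
  rw [h, sec1_y3, sec1_y4, sec1_y5, sec1_y6]
  ring

theorem sec1_ev (p : Polynomial ℤ) : InH2 (sec 1 (ev p)) := by
  induction p using Polynomial.induction_on' with
  | add p q hp hq => rw [ev_add, map_add]; exact hp.add hq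
  | monomial n a =>
    rw [ev_monomial, sec_intCast_mul]
    apply InH2.int_mul
    cases n with
    | zero => rw [pow_zero, sec_one 1 (by norm_num)]; simpa using InH2_zero
    | succ n => exact sec_y 1 (by norm_num) n

theorem sec1_y4_ev (p : Polynomial ℤ) : ∃ G, InH2 G ∧ sec 1 (y ^ 4 * ev p) = 8 * y * G := by
  have h := sec_y4 1 (by norm_num) (ev p) 0
  simp only [Nat.reduceAdd, pow_zero, one_mul] at h
  refine ⟨_, ?_, h⟩
  have hk : ∀ k : ℕ, InH2 (sec 1 (y ^ k * ev p)) := by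
    intro k
    have := sec1_ev (Polynomial.X ^ k * p)
    rwa [ev_mul, ev_pow, ev_X] at this
  exact (((sec1_ev p).add ((hk 1).ofNat_mul 4)).add ((hk 2).ofNat_mul 5)).add ((hk 3).ofNat_mul 2)

theorem sec1_y8_ev (p : Polynomial ℤ) : ∃ G, InH2 G ∧ sec 1 (y ^ 8 * ev p) = 64 * y ^ 2 * G := by
  have h := sec_y4 1 (by norm_num) (ev p) 4
  simp only [Nat.reduceAdd] at h
  have hk : ∀ k : ℕ, ∃ G, InH2 G ∧ sec 1 (y ^ (k + 4) * ev p) = 8 * y * G := by
    intro k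
    have := sec1_y4_ev (Polynomial.X ^ k * p)
    rw [ev_mul, ev_pow, ev_X] at this
    rwa [show y ^ (k + 4) * ev p = y ^ 4 * (y ^ k * ev p) by ring]
  obtain ⟨G0, h0, e0⟩ := hk 0
  obtain ⟨G1, h1, e1⟩ := hk 1
  obtain ⟨G2, h2, e2⟩ := hk 2
  obtain ⟨G3, h3, e3⟩ := hk 3
  simp only [Nat.reduceAdd] at e0 e1 e2 e3
  refine ⟨G0 + 4 * G1 + 5 * G2 + 2 * G3,
    ((h0.add (h1.ofNat_mul 4)).add (h2.ofNat_mul 5)).add (h3.ofNat_mul 2), ?_⟩
  rw [h, e0, e1, e2, e3]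
  ring

end Pool.Agent.Helper53.CP
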