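import Pool.Agent.Helper53.CPBase

set_option autoImplicit false

namespace Pool.Agent.Helper53.CP

open PowerSeries

theorem ev_natCast (n : ℕ) : ev (n : Polynomial ℤ) = n := by
  rw [ev]
  exact map_natCast (Polynomial.aeval y) n
theorem ev_ofNat (n : ℕ) [n.AtLeastTwo] : ev (OfNat.ofNat n : Polynomial ℤ) = OfNat.ofNat n := by
  rw [ev]
  exact map_ofNat (Polynomial.aeval y) n

theorem ev_Pm (mu : ℕ) : ev (Pm mu) = 1 + (15 + 4 * (mu : PowerSeries ℤ)) * y ^ 2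
    + (10 + 8 * (mu : PowerSeries ℤ)) * y ^ 3
    + (3 + 2 * (mu : PowerSeries ℤ)) * y ^ 4 + 4 * y ^ 5
    + (1 + 2 * (mu : PowerSeries ℤ)) * y ^ 6
    + (2 + 4 * (mu : PowerSeries ℤ)) * y ^ 7 := by
  have e15 : ev 15 = 15 := ev_ofNat 15
  have e10 : ev 10 = 10 := ev_ofNat 10
  have e8 : ev 8 = 8 := ev_ofNat 8
  have e4 : ev 4 = 4 := ev_ofNat 4
  have e3 : ev 3 = 3 := ev_ofNat 3
  have e2 : ev 2 = 2 := ev_ofNat 2
  have em := ev_natCast mu
  simp only [Pm, ev_add, ev_mul, ev_pow, ev_X, ev_one, e15, e10, e8, e4, e3, e2, em]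

theorem base_one (mu : ℕ) : ∃ (A B : ℤ) (P Q : Polynomial ℤ),
    T mu 1 (1 + 4 * y) = ((32 * A : ℤ) : PowerSeries ℤ) * w
      + ((64 * (2 * B + 1) : ℤ) : PowerSeries ℤ) * z + 64 * (y ^ 2 * ev P + 2 * y * w * ev Q) := by
  obtain ⟨A, B, C, hU⟩ := U_form mu
  have hU2 : R2 ^ (4 * mu + 3) * (1 + 4 * y) = ev (Pm mu) + 16 * (y * ev A)
      + 8 * (y ^ 4 * ev B) + y ^ 8 * ev C := by
    have := congrArg ev hU
    simp only [ev_add, ev_mul, ev_pow, ev_X, ev_one, ev_r2] at this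
    have e4 : ev 4 = 4 := ev_ofNat 4
    have e16 : ev 16 = 16 := ev_ofNat 16
    have e8 : ev 8 = 8 := ev_ofNat 8
    rw [e4, e16, e8] at this
    rw [this]; ring
  have h1 := sec_y_ev 1 (by norm_num) A
  rw [InH2_iff] at h1
  obtain ⟨_, ⟨a1, b1, p1, q1, rfl⟩, h1⟩ := h1
  obtain ⟨_, ⟨a2, b2, p2, q2, rfl⟩, h2⟩ := sec1_y4_ev B
  obtain ⟨_, ⟨a3, b3, p3, q3, rfl⟩, h3⟩ := sec1_y8_ev C
  have hP : T mu 1 (1 + 4 * y) = (((15 + 4 * (mu : ℤ) : ℤ) : PowerSeries ℤ) * sec 1 (y ^ 2)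
      + ((10 + 8 * (mu : ℤ) : ℤ) : PowerSeries ℤ) * sec 1 (y ^ 3)
      + ((3 + 2 * (mu : ℤ) : ℤ) : PowerSeries ℤ) * sec 1 (y ^ 4)
      + ((4 : ℤ) : PowerSeries ℤ) * sec 1 (y ^ 5)
      + ((1 + 2 * (mu : ℤ) : ℤ) : PowerSeries ℤ) * sec 1 (y ^ 6)
      + ((2 + 4 * (mu : ℤ) : ℤ) : PowerSeries ℤ) * sec 1 (y ^ 7))
      + ((16 : ℤ) : PowerSeries ℤ) * sec 1 (y * ev A)
      + ((8 : ℤ) : PowerSeries ℤ) * sec 1 (y ^ 4 * ev B) + sec 1 (y ^ 8 * ev C) := by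
    rw [T, hU2, ev_Pm]
    have : (1 + (15 + 4 * (mu : PowerSeries ℤ)) * y ^ 2
      + (10 + 8 * (mu : PowerSeries ℤ)) * y ^ 3
      + (3 + 2 * (mu : PowerSeries ℤ)) * y ^ 4 + 4 * y ^ 5
      + (1 + 2 * (mu : PowerSeries ℤ)) * y ^ 6
      + (2 + 4 * (mu : PowerSeries ℤ)) * y ^ 7) + 16 * (y * ev A)
      + 8 * (y ^ 4 * ev B) + y ^ 8 * ev C
      = 1 + ((15 + 4 * (mu : ℤ) : ℤ) : PowerSeries ℤ) * y ^ 2
      + ((10 + 8 * (mu : ℤ) : ℤ) : PowerSeries ℤ) * y ^ 3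
      + ((3 + 2 * (mu : ℤ) : ℤ) : PowerSeries ℤ) * y ^ 4
      + ((4 : ℤ) : PowerSeries ℤ) * y ^ 5
      + ((1 + 2 * (mu : ℤ) : ℤ) : PowerSeries ℤ) * y ^ 6
      + ((2 + 4 * (mu : ℤ) : ℤ) : PowerSeries ℤ) * y ^ 7
      + ((16 : ℤ) : PowerSeries ℤ) * (y * ev A)
      + ((8 : ℤ) : PowerSeries ℤ) * (y ^ 4 * ev B) + y ^ 8 * ev C := by
      push_cast; ring
    rw [this]
    simp only [map_add, sec_intCast_mul]
    rw [sec_one 1 (by norm_num)]
    simp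
  rw [hP, sec1_y2, sec1_y3, sec1_y4, sec1_y5, sec1_y6, sec1_y7, h1, h2, h3]
  refine ⟨a1, 2 + (mu : ℤ) + b1, ?_, ?_, ?_⟩
  · exact (Polynomial.C (116 + 64 * (mu : ℤ)) + Polynomial.C (3680 + 4000 * (mu : ℤ)) * Polynomial.X
      + Polynomial.C (74240 + 128000 * (mu : ℤ)) * Polynomial.X ^ 2
      + Polynomial.C (610304 + 1187840 * (mu : ℤ)) * Polynomial.X ^ 3
      + Polynomial.C (1966080 + 3932160 * (mu : ℤ)) * Polynomial.X ^ 4
      + Polynomial.C (2097152 + 4194304 * (mu : ℤ)) * Polynomial.X ^ 5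
      + Polynomial.C 4 * p1 + Polynomial.C (4 * b2) + Polynomial.C 16 * Polynomial.X * p2
      + Polynomial.C (4 * b3) * Polynomial.X + Polynomial.C 16 * Polynomial.X ^ 2 * p3)
  · exact (Polynomial.C (12 + 7 * (mu : ℤ)) + Polynomial.C (360 + 264 * (mu : ℤ)) * Polynomial.X
      + Polynomial.C (9728 + 15360 * (mu : ℤ)) * Polynomial.X ^ 2
      + Polynomial.C (107520 + 206848 * (mu : ℤ)) * Polynomial.X ^ 3
      + Polynomial.C (425984 + 851968 * (mu : ℤ)) * Polynomial.X ^ 4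
      + Polynomial.C (524288 + 1048576 * (mu : ℤ)) * Polynomial.X ^ 5
      + Polynomial.C 2 * q1 + Polynomial.C a2 + Polynomial.C 8 * Polynomial.X * q2
      + Polynomial.C a3 * Polynomial.X + Polynomial.C 8 * Polynomial.X ^ 2 * q3)
  · simp only [ev_add, ev_mul, ev_pow, ev_X, ev_C, y]
    push_cast
    ring

/-- symmetric form -/
def InS (F : PowerSeries ℤ) : Prop :=
  ∃ (b : ℤ) (p : Polynomial ℤ), F = (b : PowerSeries ℤ) * (4 * y) + 16 * y ^ 2 * ev p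

theorem InS.add {F G : PowerSeries ℤ} (hF : InS F) (hG : InS G) : InS (F + G) := by
  obtain ⟨b, p, rfl⟩ := hF
  obtain ⟨b', p', rfl⟩ := hG
  exact ⟨b + b', p + p', by rw [ev_add]; push_cast; ring⟩

theorem InS.int_mul {F : PowerSeries ℤ} (hF : InS F) (c : ℤ) :
    InS ((c : PowerSeries ℤ) * F) := by
  obtain ⟨b, p, rfl⟩ := hF
  exact ⟨c * b, Polynomial.C c * p, by rw [ev_mul, ev_C]; push_cast; ring⟩

theorem InS.ofNat_mul {F : PowerSeries ℤ} (hF : InS F) (n : ℕ) [n.AtLeastTwo] :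
    InS ((OfNat.ofNat n : PowerSeries ℤ) * F) := by
  have := hF.int_mul (OfNat.ofNat n : ℤ)
  simpa using this

theorem InS.y_mul {F : PowerSeries ℤ} (hF : InS F) : InS (8 * y * F) := by
  obtain ⟨b, p, rfl⟩ := hF
  refine ⟨0, Polynomial.C (2 * b) + Polynomial.C 8 * Polynomial.X * p, ?_⟩
  simp only [ev_add, ev_mul, ev_X, ev_C]
  push_cast; ring

theorem sec0_y1 : sec 0 (y ^ 1) = 4 * y := by
  have h : y ^ 1 = ((2 : ℤ) : PowerSeries ℤ) * w ^ 2 + ((-2 : ℤ) : PowerSeries ℤ) * w ^ 1 := by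
    simp only [y, z]; push_cast; ring
  rw [h]
  simp only [map_add, sec_intCast_mul, sec0_1, sec0_2, y, z]
  push_cast; ring

theorem sec0_y2 : sec 0 (y ^ 2) = 20 * y + 64 * y ^ 2 := by
  have h : y ^ 2 = ((4 : ℤ) : PowerSeries ℤ) * w ^ 4 + ((-8 : ℤ) : PowerSeries ℤ) * w ^ 3
      + ((4 : ℤ) : PowerSeries ℤ) * w ^ 2 := by
    simp only [y, z]; push_cast; ring
  rw [h]
  simp only [map_add, sec_intCast_mul, sec0_2, sec0_3, sec0_4, y, z]
  push_cast; ring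

theorem sec0_y3 : sec 0 (y ^ 3) = 24 * y + 480 * y ^ 2 + 1024 * y ^ 3 := by
  have h : y ^ 3 = ((8 : ℤ) : PowerSeries ℤ) * w ^ 6 + ((-24 : ℤ) : PowerSeries ℤ) * w ^ 5
      + ((24 : ℤ) : PowerSeries ℤ) * w ^ 4 + ((-8 : ℤ) : PowerSeries ℤ) * w ^ 3 := by
    simp only [y, z]; push_cast; ring
  rw [h]
  simp only [map_add, sec_intCast_mul, sec0_3, sec0_4, sec0_5, sec0_6, y, z]
  push_cast; ring

theorem sec0_ypow (k : ℕ) : InS (sec 0 (y ^ (k + 1))) := by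
  induction k using Nat.strong_induction_on with
  | _ k ih =>
    match k, ih with
    | 0, _ => rw [sec0_y1]; exact ⟨1, 0, by simp [ev_zero]⟩
    | 1, _ =>
      rw [sec0_y2]; exact ⟨5, Polynomial.C 4, by rw [ev_C]; push_cast; ring⟩
    | 2, _ =>
      rw [sec0_y3]
      exact ⟨6, Polynomial.C 30 + Polynomial.C 64 * Polynomial.X, by
        simp only [ev_add, ev_mul, ev_X, ev_C]; push_cast; ring⟩
    | 3, ih =>
      have h := sec_y4 0 (by norm_num) 1 0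
      simp only [mul_one] at h
      rw [show 3 + 1 = 0 + 4 from rfl, h, pow_zero, sec_one 0 (by norm_num)]
      have h2 := ((ih 0 (by omega)).ofNat_mul 4).add (((ih 1 (by omega)).ofNat_mul 5).add
        ((ih 2 (by omega)).ofNat_mul 2))
      have h4 : InS (8 * y * (if 0 = 0 then 1 else 0)) :=
        ⟨2, 0, by simp [ev_zero]; ring⟩
      convert h4.add h2.y_mul using 1
      simp only [zero_add, Nat.reduceAdd]
      ring
    | k + 4, ih =>
      have h := sec_y4 0 (by norm_num) 1 (k + 1)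
      simp only [mul_one] at h
      rw [show k + 4 + 1 = (k + 1) + 4 by ring, h]
      exact InS.y_mul ((((ih k (by omega)).add ((ih (k+1) (by omega)).ofNat_mul 4)).add
        ((ih (k+2) (by omega)).ofNat_mul 5)).add ((ih (k+3) (by omega)).ofNat_mul 2))

theorem sec0_y_ev (p : Polynomial ℤ) : InS (sec 0 (y * ev p)) := by
  induction p using Polynomial.induction_on' with
  | add p q hp hq => rw [ev_add, mul_add, map_add]; exact hp.add hq
  | monomial n a =>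
    rw [ev_monomial, show y * ((a : PowerSeries ℤ) * y ^ n) = (a : PowerSeries ℤ) * y ^ (n + 1) by ring,
      sec_intCast_mul]
    exact (sec0_ypow n).int_mul a

theorem r2_pow_form (M : ℕ) : ∃ r : Polynomial ℤ, r2 ^ M = 1 + Polynomial.X * r := by
  induction M with
  | zero => exact ⟨0, by simp⟩
  | succ M ih =>
    obtain ⟨r, hr⟩ := ih
    refine ⟨r * r2 + (4 + 5 * Polynomial.X + 2 * Polynomial.X ^ 2), ?_⟩
    rw [pow_succ, hr, r2_eq]; ring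

theorem T0_one (mu : ℕ) : InS (T mu 0 1 - 1) := by
  obtain ⟨r, hr⟩ := r2_pow_form (4 * mu + 3)
  have h : R2 ^ (4 * mu + 3) * 1 = 1 + y * ev r := by
    rw [R2_pow_ev, hr, ev_add, ev_mul, ev_X, ev_one, mul_one]
  rw [T, h, map_add, sec_one 0 (by norm_num), if_pos rfl, add_sub_cancel_left]
  exact sec0_y_ev r

theorem T0_y (mu : ℕ) (r : Polynomial ℤ) : InS (T mu 0 (y * ev r)) := by
  have := sec0_y_ev (r2 ^ (4 * mu + 3) * r)
  rw [ev_mul, ← R2_pow_ev] at this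
  rw [T, show R2 ^ (4 * mu + 3) * (y * ev r) = y * (R2 ^ (4 * mu + 3) * ev r) by ring]
  exact this

end Pool.Agent.Helper53.CP
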