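import Pool.Agent.Helper53.CPBase2

set_option autoImplicit false

namespace Pool.Agent.Helper53.CP

open PowerSeries

theorem coeff4_rho : coeff 4 (rho * 1) = 82 := by
  have h : rho * 1 = ((-2 : ℤ) : PowerSeries ℤ) * w ^ (0 + 1) + ((7 : ℤ) : PowerSeries ℤ) * w ^ (1 + 1)
      + ((-14 : ℤ) : PowerSeries ℤ) * w ^ (2 + 1) + ((17 : ℤ) : PowerSeries ℤ) * w ^ (3 + 1)
      + ((-12 : ℤ) : PowerSeries ℤ) * w ^ (4 + 1) + ((4 : ℤ) : PowerSeries ℤ) * w ^ (5 + 1) := by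
    simp only [rho, z]; push_cast; ring
  rw [h]
  simp only [map_add, coeff_intCast_mul', coeff_w_pow]
  norm_num [Nat.choose]

theorem coeff4_rho_sq : coeff 4 (rho ^ 2 * 1) = 201 := by
  have h : rho ^ 2 * 1 = ((4 : ℤ) : PowerSeries ℤ) * w ^ (1 + 1) + ((-28 : ℤ) : PowerSeries ℤ) * w ^ (2 + 1)
      + ((105 : ℤ) : PowerSeries ℤ) * w ^ (3 + 1) + ((-264 : ℤ) : PowerSeries ℤ) * w ^ (4 + 1)
      + ((482 : ℤ) : PowerSeries ℤ) * w ^ (5 + 1) + ((-660 : ℤ) : PowerSeries ℤ) * w ^ (6 + 1)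
      + ((681 : ℤ) : PowerSeries ℤ) * w ^ (7 + 1) + ((-520 : ℤ) : PowerSeries ℤ) * w ^ (8 + 1)
      + ((280 : ℤ) : PowerSeries ℤ) * w ^ (9 + 1) + ((-96 : ℤ) : PowerSeries ℤ) * w ^ (10 + 1)
      + ((16 : ℤ) : PowerSeries ℤ) * w ^ (11 + 1) := by
    simp only [rho, z]; push_cast; ring
  rw [h]
  simp only [map_add, coeff_intCast_mul', coeff_w_pow]
  norm_num [Nat.choose]

/-- coefficients of `1 + α·4y + 16 y² P` -/
theorem symm_coeff (a : ℤ) (P : PowerSeries ℤ) :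
    coeff 1 ((a : PowerSeries ℤ) * (4 * y) + 16 * y ^ 2 * P) = 8 * a := by
  have h := (form_coeffs 0 (2 * a) (2 * P) 0).2
  have h1 := (form_coeffs 0 (2 * a) (2 * P) 0).1
  have e : (a : PowerSeries ℤ) * (4 * y) + 16 * y ^ 2 * P
      = X * (((8 * a : ℤ) : PowerSeries ℤ) * w ^ 2 + X * (64 * w ^ 4 * P)) := by
    rw [y_eq]; push_cast; ring
  have h2 : coeff 0 (w ^ 2) = 1 := by
    have := coeff_w_pow 0 1
    simpa using this
  rw [e, show (1 : ℕ) = 0 + 1 from rfl, coeff_succ_X_mul, map_add, coeff_intCast_mul',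
    coeff_zero_X_mul, h2]
  ring

theorem InS_unique {F : PowerSeries ℤ} {a : ℤ} {p : Polynomial ℤ}
    (h : F = (a : PowerSeries ℤ) * (4 * y) + 16 * y ^ 2 * ev p) : coeff 1 F = 8 * a := by
  rw [h, symm_coeff]

theorem coeff_one_ne (n : ℕ) (hn : n ≠ 0) : coeff n (1 : PowerSeries ℤ) = 0 := by
  rw [PowerSeries.coeff_one, if_neg hn]

/-- `T_0 1 = 1 + α·4y + 16 y² P` with `α ≡ 1 mod 4` -/
theorem F1_form (mu : ℕ) : ∃ (a : ℤ) (p : Polynomial ℤ),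
    T mu 0 1 = 1 + (a : PowerSeries ℤ) * (4 * y) + 16 * y ^ 2 * ev p ∧ a % 4 = 1 := by
  obtain ⟨a, p, h⟩ := T0_one mu
  refine ⟨a, p, by linear_combination h, ?_⟩
  have h1 := InS_unique h
  rw [map_sub, coeff_one_ne 1 one_ne_zero, coeff_T] at h1
  obtain ⟨t, ht⟩ := coeff_R2_pow_mul mu (4 * 1 + 0) 1
  rw [ht] at h1
  simp only [Nat.reduceMul, Nat.add_zero] at h1
  rw [coeff4_rho, coeff4_rho_sq, coeff_one_ne 4 (by norm_num)] at h1
  omega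

theorem coeff_y_mul (M n : ℕ) : coeff n (R2 ^ M * y) = 2 * coeff n (R2 ^ M * z) := by
  have : R2 ^ M * y = ((2 : ℤ) : PowerSeries ℤ) * (R2 ^ M * z) := by
    simp only [y]; push_cast; ring
  rw [this, coeff_intCast_mul']

/-- if `F = 1 + α·4y + 16 y² P`, `T_0 F` is again of this form with `α' ≡ α + 4 mod 8` -/
theorem F_next (mu : ℕ) (a : ℤ) (ha : a % 4 = 1) (p : Polynomial ℤ) : ∃ (b : ℤ) (q : Polynomial ℤ),
    T mu 0 (1 + (a : PowerSeries ℤ) * (4 * y) + 16 * y ^ 2 * ev p)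
      = 1 + (b : PowerSeries ℤ) * (4 * y) + 16 * y ^ 2 * ev q ∧
      (∃ a1 : ℤ, 8 * a1 = coeff 4 (R2 ^ (4 * mu + 3) * 1) ∧ (b - a1 - 4) % 8 = 0) := by
  have h1 := T0_one mu
  have h2 := (T0_y mu 1).int_mul (4 * a)
  have h3 := (T0_y mu (Polynomial.X * p)).int_mul 16
  obtain ⟨b, q, h⟩ := (h1.add h2).add h3
  rw [ev_one, mul_one, ev_mul, ev_X] at h
  have e : T mu 0 (1 + (a : PowerSeries ℤ) * (4 * y) + 16 * y ^ 2 * ev p)
      = T mu 0 1 + ((4 * a : ℤ) : PowerSeries ℤ) * T mu 0 y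
        + ((16 : ℤ) : PowerSeries ℤ) * T mu 0 (y * (y * ev p)) := by
    rw [← T_int, ← T_int, ← T_add, ← T_add]
    congr 1; push_cast; ring
  have hf : T mu 0 (1 + (a : PowerSeries ℤ) * (4 * y) + 16 * y ^ 2 * ev p)
      = 1 + (b : PowerSeries ℤ) * (4 * y) + 16 * y ^ 2 * ev q := by
    rw [e]; linear_combination h
  refine ⟨b, q, hf, ?_⟩
  obtain ⟨a1, p1, hF1⟩ := T0_one mu
  have hc1 := InS_unique hF1
  rw [map_sub, coeff_one_ne 1 one_ne_zero, coeff_T] at hc1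
  refine ⟨a1, by simpa using hc1.symm, ?_⟩
  have hc : coeff 1 (T mu 0 1 - 1 + ((4 * a : ℤ) : PowerSeries ℤ) * T mu 0 y
        + ((16 : ℤ) : PowerSeries ℤ) * T mu 0 (y * (y * ev p))) = 8 * b := InS_unique h
  rw [map_add, map_add, InS_unique hF1, coeff_intCast_mul', coeff_intCast_mul', coeff_T, coeff_T,
    coeff_y_mul] at hc
  obtain ⟨tz, z0, z1, z2, z3, z4, z5, z6, z7⟩ := cz mu
  simp only [Nat.reduceMul, Nat.add_zero] at hc
  rw [z4] at hc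
  have e2 : R2 ^ (4 * mu + 3) * (y * (y * ev p))
      = ((4 : ℤ) : PowerSeries ℤ) * (R2 ^ (4 * mu + 3) * (z * (z * ev p))) := by
    simp only [y]; push_cast; ring
  rw [e2, coeff_intCast_mul'] at hc
  obtain ⟨k, hk⟩ : ∃ k, a = 1 + 4 * k := ⟨a / 4, by omega⟩
  subst hk
  have : b = a1 + (1 + 4 * k) * (12 + 16 * tz 4) + 8 * coeff 4 (R2 ^ (4 * mu + 3) * (z * (z * ev p))) := by
    linarith
  rw [this]
  have h9 : a1 + (1 + 4 * k) * (12 + 16 * tz 4) + 8 * coeff 4 (R2 ^ (4 * mu + 3) * (z * (z * ev p)))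
      - a1 - 4 = 8 * (1 + 2 * tz 4 + 6 * k + 8 * k * tz 4
        + coeff 4 (R2 ^ (4 * mu + 3) * (z * (z * ev p)))) := by ring
  rw [h9]
  omega

/-- `T_1` of a symmetric form -/
theorem T1_form (mu : ℕ) (a : ℤ) (ha : a % 4 = 1) (p : Polynomial ℤ) :
    ∃ (A B : ℤ) (P Q : Polynomial ℤ),
      T mu 1 (1 + (a : PowerSeries ℤ) * (4 * y) + 16 * y ^ 2 * ev p)
        = ((32 * A : ℤ) : PowerSeries ℤ) * w + ((64 * (2 * B + 1) : ℤ) : PowerSeries ℤ) * z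
          + 64 * (y ^ 2 * ev P + 2 * y * w * ev Q) ∧
      ∃ t : ℤ, 32 * A = coeff 1 (R2 ^ (4 * mu + 3) * 1) + 8 * a + 128 * t := by
  obtain ⟨k, hk⟩ : ∃ k, a = 1 + 4 * k := ⟨a / 4, by omega⟩
  obtain ⟨A, B, P, Q, h⟩ := base_one mu
  have h1 := T_y_form mu 1 (by norm_num) (Polynomial.C k + Polynomial.X * p)
  rw [InH2_iff] at h1
  obtain ⟨_, ⟨a1, b1, p1, q1, rfl⟩, h1⟩ := h1
  have e : T mu 1 (1 + (a : PowerSeries ℤ) * (4 * y) + 16 * y ^ 2 * ev p)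
      = T mu 1 (1 + 4 * y) + ((16 : ℤ) : PowerSeries ℤ)
        * T mu 1 (y * ev (Polynomial.C k + Polynomial.X * p)) := by
    rw [← T_int, ← T_add, hk]
    congr 1
    rw [ev_add, ev_mul, ev_C, ev_X]
    push_cast; ring
  have hform : T mu 1 (1 + (a : PowerSeries ℤ) * (4 * y) + 16 * y ^ 2 * ev p)
        = ((32 * (A + a1) : ℤ) : PowerSeries ℤ) * w
          + ((64 * (2 * (B + b1) + 1) : ℤ) : PowerSeries ℤ) * z
          + 64 * (y ^ 2 * ev (P + Polynomial.C 4 * p1) + 2 * y * w * ev (Q + Polynomial.C 2 * q1)) := by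
    rw [e, h, h1]
    simp only [ev_add, ev_mul, ev_C, y]
    push_cast; ring
  refine ⟨A + a1, B + b1, P + Polynomial.C 4 * p1, Q + Polynomial.C 2 * q1, hform, ?_⟩
  -- constant coefficient
  have c0 : coeff 0 (T mu 1 (1 + (a : PowerSeries ℤ) * (4 * y) + 16 * y ^ 2 * ev p))
      = 32 * (A + a1) := by
    rw [hform]
    have e3 : ((32 * (A + a1) : ℤ) : PowerSeries ℤ) * w
          + ((64 * (2 * (B + b1) + 1) : ℤ) : PowerSeries ℤ) * z
          + 64 * (y ^ 2 * ev (P + Polynomial.C 4 * p1) + 2 * y * w * ev (Q + Polynomial.C 2 * q1))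
        = ((32 * (A + a1) : ℤ) : PowerSeries ℤ) * w
          + ((16 * (2 * (B + b1) + 1) : ℤ) : PowerSeries ℤ) * (2 * y)
          + 8 * y ^ 2 * (8 * ev (P + Polynomial.C 4 * p1))
          + 8 * y * w * (16 * ev (Q + Polynomial.C 2 * q1)) := by
      simp only [y]; push_cast; ring
    rw [e3, (form_coeffs _ _ _ _).1]
  rw [coeff_T] at c0
  have e4 : R2 ^ (4 * mu + 3) * (1 + (a : PowerSeries ℤ) * (4 * y) + 16 * y ^ 2 * ev p)
      = R2 ^ (4 * mu + 3) * 1 + ((4 * a : ℤ) : PowerSeries ℤ) * (R2 ^ (4 * mu + 3) * y)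
        + X * (X * (64 * w ^ 4 * (R2 ^ (4 * mu + 3) * ev p))) := by
    have hy2 : y ^ 2 = X * (X * (4 * w ^ 4)) := by rw [y_eq]; ring
    rw [hy2]; push_cast; ring
  rw [e4, map_add, map_add, coeff_intCast_mul', coeff_y_mul] at c0
  simp only [Nat.mul_zero, Nat.zero_add] at c0
  obtain ⟨tz, z0, z1, z2, z3, z4, z5, z6, z7⟩ := cz mu
  rw [z1, show (1 : ℕ) = 0 + 1 from rfl, coeff_succ_X_mul, coeff_zero_X_mul] at c0
  refine ⟨a * tz 1, ?_⟩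
  simp only [Nat.zero_add] at c0
  linarith

/-- the base of the induction -/
theorem base (mu : ℕ) : (∃ F, InC F ∧ T mu 1 (T mu 0 1) = 64 * F) ∨
    (∃ F, InC F ∧ T mu 1 (T mu 0 (T mu 0 1)) = 64 * F) := by
  obtain ⟨a, p, h1, ha⟩ := F1_form mu
  obtain ⟨b, q, h2, a1, ha1, hb⟩ := F_next mu a ha p
  have haa : a1 = a := by
    have : T mu 0 1 - 1 = (a : PowerSeries ℤ) * (4 * y) + 16 * y ^ 2 * ev p := by
      linear_combination h1
    have := InS_unique this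
    rw [map_sub, coeff_one_ne 1 one_ne_zero, coeff_T] at this
    simp only [Nat.mul_one, Nat.add_zero] at this
    omega
  have hb4 : b % 4 = 1 := by omega
  obtain ⟨A, B, P, Q, e1, t1, f1⟩ := T1_form mu a ha p
  obtain ⟨A', B', P', Q', e2, t2, f2⟩ := T1_form mu b hb4 q
  rw [← h1] at e1
  rw [← h2, ← h1] at e2
  have hpar : A % 2 = 0 ∨ A' % 2 = 0 := by omega
  rcases hpar with h | h
  · left
    obtain ⟨A2, hA2⟩ : ∃ A2, A = 2 * A2 := ⟨A / 2, by omega⟩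
    refine ⟨(A2 : PowerSeries ℤ) * w + ((2 * B + 1 : ℤ) : PowerSeries ℤ) * z + y ^ 2 * ev P
      + 2 * y * w * ev Q, ⟨A2, 2 * B + 1, P, Q, rfl, ⟨B, by ring⟩⟩, ?_⟩
    rw [e1, hA2]; push_cast; ring
  · right
    obtain ⟨A2, hA2⟩ : ∃ A2, A' = 2 * A2 := ⟨A' / 2, by omega⟩
    refine ⟨(A2 : PowerSeries ℤ) * w + ((2 * B' + 1 : ℤ) : PowerSeries ℤ) * z + y ^ 2 * ev P'
      + 2 * y * w * ev Q', ⟨A2, 2 * B' + 1, P', Q', rfl, ⟨B', by ring⟩⟩, ?_⟩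
    rw [e2, hA2]; push_cast; ring

end Pool.Agent.Helper53.CP
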