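import Mathlib

set_option autoImplicit false
set_option linter.unusedSimpArgs false

namespace Pool.Agent.Helper53.CP

open PowerSeries

/-- sections modulo four -/
noncomputable def sec (r : ℕ) : PowerSeries ℤ →+ PowerSeries ℤ where
  toFun F := PowerSeries.mk fun n => PowerSeries.coeff (4 * n + r) F
  map_add' F G := by ext n; simp
  map_zero' := by ext n; simp

@[simp] theorem coeff_sec (r n : ℕ) (F : PowerSeries ℤ) :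
    PowerSeries.coeff n (sec r F) = PowerSeries.coeff (4 * n + r) F := by
  simp [sec]

noncomputable def E4 : PowerSeries ℤ →ₐ[ℤ] PowerSeries ℤ :=
  PowerSeries.expand 4 (by norm_num)

theorem E4_X : E4 (X : PowerSeries ℤ) = X ^ 4 := by
  simp [E4]

theorem coeff_E4 (n : ℕ) (F : PowerSeries ℤ) :
    PowerSeries.coeff n (E4 F) = if 4 ∣ n then PowerSeries.coeff (n / 4) F else 0 := by
  rw [E4, PowerSeries.coeff_expand]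

theorem sec_mul_E4 (r : ℕ) (hr : r < 4) (F G : PowerSeries ℤ) :
    sec r (F * E4 G) = sec r F * G := by
  ext n
  rw [coeff_sec, PowerSeries.coeff_mul, PowerSeries.coeff_mul]
  symm
  apply Finset.sum_of_injOn (fun q : ℕ × ℕ => (4 * q.1 + r, 4 * q.2))
  · intro a _ b _ h
    simp only [Prod.mk.injEq] at h
    ext <;> omega
  · intro a ha
    rw [Finset.mem_coe, Finset.HasAntidiagonal.mem_antidiagonal] at ha ⊢
    simp only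
    omega
  · intro a ha hna
    rw [coeff_E4]
    split_ifs with h4
    · exfalso
      apply hna
      rw [Finset.HasAntidiagonal.mem_antidiagonal] at ha
      obtain ⟨b, hb⟩ := h4
      refine ⟨(n - b, b), ?_, ?_⟩
      · rw [Finset.mem_coe, Finset.HasAntidiagonal.mem_antidiagonal]
        simp only
        omega
      · ext <;> simp <;> omega
    · simp
  · intro a _
    rw [coeff_sec, coeff_E4]
    simp

theorem sec_X_pow_mul_E4 (r i : ℕ) (hr : r < 4) (hi : i < 4) (G : PowerSeries ℤ) :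
    sec r (X ^ i * E4 G) = if i = r then G else 0 := by
  rw [sec_mul_E4 r hr]
  have : sec r (X ^ i : PowerSeries ℤ) = if i = r then 1 else 0 := by
    ext n
    rw [coeff_sec, PowerSeries.coeff_X_pow]
    split_ifs with h1 h2 h2
    · have : n = 0 := by omega
      subst this; simp
    · omega
    · have : n ≠ 0 := by omega
      rw [PowerSeries.coeff_one]; simp [this]
    · simp
  rw [this]
  split_ifs <;> simp

/-- `w = 1/(1-x)` -/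
noncomputable def w : PowerSeries ℤ := PowerSeries.mk 1

theorem w_mul : w * (1 - X) = 1 := PowerSeries.mk_one_mul_one_sub_eq_one ℤ

theorem X_mul_w : X * w = w - 1 := by linear_combination (-1 : PowerSeries ℤ) * w_mul

noncomputable def W : PowerSeries ℤ := E4 w

theorem X4_mul_W : X ^ 4 * W = W - 1 := by
  have h := congrArg E4 X_mul_w
  rw [map_mul, E4_X, map_sub, map_one] at h
  exact h

theorem W_mul : W * (1 - X ^ 4) = 1 := by linear_combination (-1 : PowerSeries ℤ) * X4_mul_W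

theorem w_eq : w = (1 + X + X ^ 2 + X ^ 3) * W := by
  have h : (1 - X : PowerSeries ℤ) * w = (1 - X) * ((1 + X + X ^ 2 + X ^ 3) * W) := by
    linear_combination w_mul - W_mul
  have h0 : (1 - X : PowerSeries ℤ) ≠ 0 := by
    intro h1
    have := w_mul
    rw [h1] at this
    simp at this
  exact mul_left_cancel₀ h0 h

/-- the polynomial `4w^3-6w^2+4w-1 = w^4-(w-1)^4` -/
theorem w_pow_four : w ^ 4 = W * (4 * w ^ 3 - 6 * w ^ 2 + 4 * w - 1) := by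
  have h1 : (X * w) ^ 4 = (w - 1) ^ 4 := by rw [X_mul_w]
  linear_combination (-w^4) * W_mul + (-W) * h1


/-- `z = x/(1-x)^2` in terms of `w` -/
noncomputable def z : PowerSeries ℤ := w ^ 2 - w
noncomputable def y : PowerSeries ℤ := 2 * z

theorem w_sq : w ^ 2 = X ^ 0 * E4 (4 * w ^ 2 - 3 * w) + X ^ 1 * E4 (4 * w ^ 2 - 2 * w)
    + X ^ 2 * E4 (4 * w ^ 2 - w) + X ^ 3 * E4 (4 * w ^ 2) := by
  simp only [map_sub, map_mul, map_pow, map_ofNat]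
  change _ = X ^ 0 * (4 * W ^ 2 - 3 * W) + X ^ 1 * (4 * W ^ 2 - 2 * W)
    + X ^ 2 * (4 * W ^ 2 - W) + X ^ 3 * (4 * W ^ 2)
  rw [w_eq]
  linear_combination (3 * W + 2 * X * W + X ^ 2 * W) * X4_mul_W

theorem w_cube : w ^ 3 = X ^ 0 * E4 (16 * w ^ 3 - 18 * w ^ 2 + 3 * w)
    + X ^ 1 * E4 (16 * w ^ 3 - 14 * w ^ 2 + w)
    + X ^ 2 * E4 (16 * w ^ 3 - 10 * w ^ 2) + X ^ 3 * E4 (16 * w ^ 3 - 6 * w ^ 2) := by
  simp only [map_sub, map_add, map_mul, map_pow, map_ofNat]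
  change _ = X ^ 0 * (16 * W ^ 3 - 18 * W ^ 2 + 3 * W)
    + X ^ 1 * (16 * W ^ 3 - 14 * W ^ 2 + W)
    + X ^ 2 * (16 * W ^ 3 - 10 * W ^ 2) + X ^ 3 * (16 * W ^ 3 - 6 * W ^ 2)
  rw [w_eq]
  linear_combination ((-3)*W + (15)*W^2 + (-1)*X*W + (13)*X*W^2 + (10)*X^2*W^2 + (6)*X^3*W^2
    + (3)*X^4*W^2 + X^5*W^2) * X4_mul_W

theorem w_one : w ^ 1 = X ^ 0 * E4 w + X ^ 1 * E4 w + X ^ 2 * E4 w + X ^ 3 * E4 w := by
  change _ = X ^ 0 * W + X ^ 1 * W + X ^ 2 * W + X ^ 3 * W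
  rw [w_eq]; ring

theorem w_zero : w ^ 0 = X ^ 0 * E4 1 := by simp

theorem sec_four (r : ℕ) (hr : r < 4) (A B C D : PowerSeries ℤ) :
    sec r (X ^ 0 * E4 A + X ^ 1 * E4 B + X ^ 2 * E4 C + X ^ 3 * E4 D)
      = (if 0 = r then A else 0) + (if 1 = r then B else 0) + (if 2 = r then C else 0)
        + (if 3 = r then D else 0) := by
  simp only [map_add, sec_X_pow_mul_E4 r _ hr (show 0 < 4 by norm_num),
    sec_X_pow_mul_E4 r _ hr (show 1 < 4 by norm_num), sec_X_pow_mul_E4 r _ hr (show 2 < 4 by norm_num),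
    sec_X_pow_mul_E4 r _ hr (show 3 < 4 by norm_num)]

theorem sec0_0 : sec 0 (w ^ 0) = 1 := by
  rw [w_zero, sec_X_pow_mul_E4 0 0 (by norm_num) (by norm_num)]; simp
theorem sec1_0 : sec 1 (w ^ 0) = 0 := by
  rw [w_zero, sec_X_pow_mul_E4 1 0 (by norm_num) (by norm_num)]; simp
theorem sec2_0 : sec 2 (w ^ 0) = 0 := by
  rw [w_zero, sec_X_pow_mul_E4 2 0 (by norm_num) (by norm_num)]; simp
theorem sec3_0 : sec 3 (w ^ 0) = 0 := by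
  rw [w_zero, sec_X_pow_mul_E4 3 0 (by norm_num) (by norm_num)]; simp

theorem sec0_1 : sec 0 (w ^ 1) = w := by rw [w_one, sec_four 0 (by norm_num)]; simp
theorem sec1_1 : sec 1 (w ^ 1) = w := by rw [w_one, sec_four 1 (by norm_num)]; simp
theorem sec2_1 : sec 2 (w ^ 1) = w := by rw [w_one, sec_four 2 (by norm_num)]; simp
theorem sec3_1 : sec 3 (w ^ 1) = w := by rw [w_one, sec_four 3 (by norm_num)]; simp

theorem sec0_2 : sec 0 (w ^ 2) = 4 * w ^ 2 - 3 * w := by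
  conv_lhs => rw [w_sq, sec_four 0 (by norm_num)]
  simp
theorem sec1_2 : sec 1 (w ^ 2) = 4 * w ^ 2 - 2 * w := by
  conv_lhs => rw [w_sq, sec_four 1 (by norm_num)]
  simp
theorem sec2_2 : sec 2 (w ^ 2) = 4 * w ^ 2 - w := by
  conv_lhs => rw [w_sq, sec_four 2 (by norm_num)]
  simp
theorem sec3_2 : sec 3 (w ^ 2) = 4 * w ^ 2 := by
  conv_lhs => rw [w_sq, sec_four 3 (by norm_num)]
  simp

theorem sec0_3 : sec 0 (w ^ 3) = 16 * w ^ 3 - 18 * w ^ 2 + 3 * w := by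
  conv_lhs => rw [w_cube, sec_four 0 (by norm_num)]
  simp
theorem sec1_3 : sec 1 (w ^ 3) = 16 * w ^ 3 - 14 * w ^ 2 + w := by
  conv_lhs => rw [w_cube, sec_four 1 (by norm_num)]
  simp
theorem sec2_3 : sec 2 (w ^ 3) = 16 * w ^ 3 - 10 * w ^ 2 := by
  conv_lhs => rw [w_cube, sec_four 2 (by norm_num)]
  simp
theorem sec3_3 : sec 3 (w ^ 3) = 16 * w ^ 3 - 6 * w ^ 2 := by
  conv_lhs => rw [w_cube, sec_four 3 (by norm_num)]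
  simp

theorem sec_intCast_mul (v : ℕ) (c : ℤ) (F : PowerSeries ℤ) :
    sec v ((c : PowerSeries ℤ) * F) = (c : PowerSeries ℤ) * sec v F := by
  rw [← zsmul_eq_mul, map_zsmul, zsmul_eq_mul]

theorem sec_rec (v : ℕ) (hv : v < 4) (j : ℕ) :
    sec v (w ^ (j + 4)) = w * (4 * sec v (w ^ (j + 3)) - 6 * sec v (w ^ (j + 2))
      + 4 * sec v (w ^ (j + 1)) - sec v (w ^ j)) := by
  have h : w ^ (j + 4) = (((4 : ℤ) : PowerSeries ℤ) * w ^ (j + 3)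
      + ((-6 : ℤ) : PowerSeries ℤ) * w ^ (j + 2)
      + ((4 : ℤ) : PowerSeries ℤ) * w ^ (j + 1) + ((-1 : ℤ) : PowerSeries ℤ) * w ^ j) * E4 w := by
    change _ = _ * W
    rw [pow_add, w_pow_four]
    push_cast
    ring
  rw [h, sec_mul_E4 v hv]
  simp only [map_add, sec_intCast_mul]
  push_cast
  ring

theorem sec_lin (v : ℕ) (c0 c1 c2 c3 c4 c5 c6 c7 : ℤ) :
    sec v ((c0 : PowerSeries ℤ) * w ^ 0 + (c1 : PowerSeries ℤ) * w ^ 1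
      + (c2 : PowerSeries ℤ) * w ^ 2 + (c3 : PowerSeries ℤ) * w ^ 3
      + (c4 : PowerSeries ℤ) * w ^ 4 + (c5 : PowerSeries ℤ) * w ^ 5
      + (c6 : PowerSeries ℤ) * w ^ 6 + (c7 : PowerSeries ℤ) * w ^ 7)
    = (c0 : PowerSeries ℤ) * sec v (w ^ 0) + (c1 : PowerSeries ℤ) * sec v (w ^ 1)
      + (c2 : PowerSeries ℤ) * sec v (w ^ 2) + (c3 : PowerSeries ℤ) * sec v (w ^ 3)
      + (c4 : PowerSeries ℤ) * sec v (w ^ 4) + (c5 : PowerSeries ℤ) * sec v (w ^ 5)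
      + (c6 : PowerSeries ℤ) * sec v (w ^ 6) + (c7 : PowerSeries ℤ) * sec v (w ^ 7) := by
  simp only [map_add, sec_intCast_mul]

/-- evaluation of an integer polynomial at `y` -/
noncomputable def ev (p : Polynomial ℤ) : PowerSeries ℤ := Polynomial.aeval y p

theorem ev_add (p q : Polynomial ℤ) : ev (p + q) = ev p + ev q := by simp [ev]
theorem ev_mul (p q : Polynomial ℤ) : ev (p * q) = ev p * ev q := by simp [ev]
theorem ev_pow (p : Polynomial ℤ) (n : ℕ) : ev (p ^ n) = ev p ^ n := by simp [ev]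
theorem ev_X : ev Polynomial.X = y := by simp [ev]
theorem ev_C (c : ℤ) : ev (Polynomial.C c) = (c : PowerSeries ℤ) := by simp [ev]
theorem ev_zero : ev 0 = 0 := by simp [ev]
theorem ev_one : ev 1 = 1 := by simp [ev]

def InH (F : PowerSeries ℤ) : Prop :=
  ∃ (a b : ℤ) (p q : Polynomial ℤ), F = (a : PowerSeries ℤ) * w + (b : PowerSeries ℤ) * (2 * y)
    + 8 * y ^ 2 * ev p + 8 * y * w * ev q

def InH2 (F : PowerSeries ℤ) : Prop :=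
  ∃ (a b : ℤ) (p q : Polynomial ℤ), F = (a : PowerSeries ℤ) * (2 * w)
    + (b : PowerSeries ℤ) * (4 * y) + 16 * y ^ 2 * ev p + 16 * y * w * ev q

theorem sec0_4 : sec 0 (w ^ 4) = (-1) * w + (34) * w ^ 2 + (-96) * w ^ 3 + (64) * w ^ 4 := by
  have h := sec_rec 0 (by norm_num) 0
  rw [show (4 : ℕ) = 0 + 4 from rfl, h]
  simp only [sec0_0, sec0_1, sec0_2, sec0_3, Nat.reduceAdd]
  ring

theorem sec0_5 : sec 0 (w ^ 5) = (-35) * w ^ 2 + (260) * w ^ 3 + (-480) * w ^ 4 + (256) * w ^ 5 := by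
  have h := sec_rec 0 (by norm_num) 1
  rw [show (5 : ℕ) = 1 + 4 from rfl, h]
  simp only [sec0_1, sec0_2, sec0_3, sec0_4, Nat.reduceAdd]
  ring

theorem sec0_6 : sec 0 (w ^ 6) = (21) * w ^ 2 + (-420) * w ^ 3 + (1680) * w ^ 4 + (-2304) * w ^ 5 + (1024) * w ^ 6 := by
  have h := sec_rec 0 (by norm_num) 2
  rw [show (6 : ℕ) = 2 + 4 from rfl, h]
  simp only [sec0_2, sec0_3, sec0_4, sec0_5, Nat.reduceAdd]
  ring

theorem sec0_7 : sec 0 (w ^ 7) = (-7) * w ^ 2 + (448) * w ^ 3 + (-3640) * w ^ 4 + (9856) * w ^ 5 + (-10752) * w ^ 6 + (4096) * w ^ 7 := by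
  have h := sec_rec 0 (by norm_num) 3
  rw [show (7 : ℕ) = 3 + 4 from rfl, h]
  simp only [sec0_3, sec0_4, sec0_5, sec0_6, Nat.reduceAdd]
  ring

theorem sec1_4 : sec 1 (w ^ 4) = (20) * w ^ 2 + (-80) * w ^ 3 + (64) * w ^ 4 := by
  have h := sec_rec 1 (by norm_num) 0
  rw [show (4 : ℕ) = 0 + 4 from rfl, h]
  simp only [sec1_0, sec1_1, sec1_2, sec1_3, Nat.reduceAdd]
  ring

theorem sec1_5 : sec 1 (w ^ 5) = (-15) * w ^ 2 + (180) * w ^ 3 + (-416) * w ^ 4 + (256) * w ^ 5 := by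
  have h := sec_rec 1 (by norm_num) 1
  rw [show (5 : ℕ) = 1 + 4 from rfl, h]
  simp only [sec1_1, sec1_2, sec1_3, sec1_4, Nat.reduceAdd]
  ring

theorem sec1_6 : sec 1 (w ^ 6) = (6) * w ^ 2 + (-240) * w ^ 3 + (1264) * w ^ 4 + (-2048) * w ^ 5 + (1024) * w ^ 6 := by
  have h := sec_rec 1 (by norm_num) 2
  rw [show (6 : ℕ) = 2 + 4 from rfl, h]
  simp only [sec1_2, sec1_3, sec1_4, sec1_5, Nat.reduceAdd]
  ring

theorem sec1_7 : sec 1 (w ^ 7) = (-1) * w ^ 2 + (208) * w ^ 3 + (-2376) * w ^ 4 + (7808) * w ^ 5 + (-9728) * w ^ 6 + (4096) * w ^ 7 := by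
  have h := sec_rec 1 (by norm_num) 3
  rw [show (7 : ℕ) = 3 + 4 from rfl, h]
  simp only [sec1_3, sec1_4, sec1_5, sec1_6, Nat.reduceAdd]
  ring

theorem sec2_4 : sec 2 (w ^ 4) = (10) * w ^ 2 + (-64) * w ^ 3 + (64) * w ^ 4 := by
  have h := sec_rec 2 (by norm_num) 0
  rw [show (4 : ℕ) = 0 + 4 from rfl, h]
  simp only [sec2_0, sec2_1, sec2_2, sec2_3, Nat.reduceAdd]
  ring

theorem sec2_5 : sec 2 (w ^ 5) = (-5) * w ^ 2 + (116) * w ^ 3 + (-352) * w ^ 4 + (256) * w ^ 5 := by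
  have h := sec_rec 2 (by norm_num) 1
  rw [show (5 : ℕ) = 1 + 4 from rfl, h]
  simp only [sec2_1, sec2_2, sec2_3, sec2_4, Nat.reduceAdd]
  ring

theorem sec2_6 : sec 2 (w ^ 6) = (1) * w ^ 2 + (-124) * w ^ 3 + (912) * w ^ 4 + (-1792) * w ^ 5 + (1024) * w ^ 6 := by
  have h := sec_rec 2 (by norm_num) 2
  rw [show (6 : ℕ) = 2 + 4 from rfl, h]
  simp only [sec2_2, sec2_3, sec2_4, sec2_5, Nat.reduceAdd]
  ring

theorem sec2_7 : sec 2 (w ^ 7) = (84) * w ^ 3 + (-1464) * w ^ 4 + (6016) * w ^ 5 + (-8704) * w ^ 6 + (4096) * w ^ 7 := by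
  have h := sec_rec 2 (by norm_num) 3
  rw [show (7 : ℕ) = 3 + 4 from rfl, h]
  simp only [sec2_3, sec2_4, sec2_5, sec2_6, Nat.reduceAdd]
  ring

theorem sec3_4 : sec 3 (w ^ 4) = (4) * w ^ 2 + (-48) * w ^ 3 + (64) * w ^ 4 := by
  have h := sec_rec 3 (by norm_num) 0
  rw [show (4 : ℕ) = 0 + 4 from rfl, h]
  simp only [sec3_0, sec3_1, sec3_2, sec3_3, Nat.reduceAdd]
  ring

theorem sec3_5 : sec 3 (w ^ 5) = (-1) * w ^ 2 + (68) * w ^ 3 + (-288) * w ^ 4 + (256) * w ^ 5 := by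
  have h := sec_rec 3 (by norm_num) 1
  rw [show (5 : ℕ) = 1 + 4 from rfl, h]
  simp only [sec3_1, sec3_2, sec3_3, sec3_4, Nat.reduceAdd]
  ring

theorem sec3_6 : sec 3 (w ^ 6) = (-56) * w ^ 3 + (624) * w ^ 4 + (-1536) * w ^ 5 + (1024) * w ^ 6 := by
  have h := sec_rec 3 (by norm_num) 2
  rw [show (6 : ℕ) = 2 + 4 from rfl, h]
  simp only [sec3_2, sec3_3, sec3_4, sec3_5, Nat.reduceAdd]
  ring

theorem sec3_7 : sec 3 (w ^ 7) = (28) * w ^ 3 + (-840) * w ^ 4 + (4480) * w ^ 5 + (-7680) * w ^ 6 + (4096) * w ^ 7 := by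
  have h := sec_rec 3 (by norm_num) 3
  rw [show (7 : ℕ) = 3 + 4 from rfl, h]
  simp only [sec3_3, sec3_4, sec3_5, sec3_6, Nat.reduceAdd]
  ring

theorem e0_1_0 : InH (sec 0 (y ^ 0 * w)) := by
  have h := sec_lin 0 (0) (1) (0) (0) (0) (0) (0) (0)
  have hG : (y ^ 0 * w : PowerSeries ℤ) = ((0 : ℤ) : PowerSeries ℤ) * w ^ 0 + ((1 : ℤ) : PowerSeries ℤ) * w ^ 1 + ((0 : ℤ) : PowerSeries ℤ) * w ^ 2 + ((0 : ℤ) : PowerSeries ℤ) * w ^ 3 + ((0 : ℤ) : PowerSeries ℤ) * w ^ 4 + ((0 : ℤ) : PowerSeries ℤ) * w ^ 5 + ((0 : ℤ) : PowerSeries ℤ) * w ^ 6 + ((0 : ℤ) : PowerSeries ℤ) * w ^ 7 := by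
    simp only [y, z]; push_cast; ring
  rw [hG, h]
  simp only [sec0_0, sec0_1, sec0_2, sec0_3, sec0_4, sec0_5, sec0_6, sec0_7]
  refine ⟨1, 0, 0, 0, ?_⟩
  simp only [ev_add, ev_mul, ev_pow, ev_X, ev_C, ev_zero, y, z]
  push_cast
  ring

theorem e0_1_1 : InH (sec 1 (y ^ 0 * w)) := by
  have h := sec_lin 1 (0) (1) (0) (0) (0) (0) (0) (0)
  have hG : (y ^ 0 * w : PowerSeries ℤ) = ((0 : ℤ) : PowerSeries ℤ) * w ^ 0 + ((1 : ℤ) : PowerSeries ℤ) * w ^ 1 + ((0 : ℤ) : PowerSeries ℤ) * w ^ 2 + ((0 : ℤ) : PowerSeries ℤ) * w ^ 3 + ((0 : ℤ) : PowerSeries ℤ) * w ^ 4 + ((0 : ℤ) : PowerSeries ℤ) * w ^ 5 + ((0 : ℤ) : PowerSeries ℤ) * w ^ 6 + ((0 : ℤ) : PowerSeries ℤ) * w ^ 7 := by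
    simp only [y, z]; push_cast; ring
  rw [hG, h]
  simp only [sec1_0, sec1_1, sec1_2, sec1_3, sec1_4, sec1_5, sec1_6, sec1_7]
  refine ⟨1, 0, 0, 0, ?_⟩
  simp only [ev_add, ev_mul, ev_pow, ev_X, ev_C, ev_zero, y, z]
  push_cast
  ring

theorem e0_1_2 : InH (sec 2 (y ^ 0 * w)) := by
  have h := sec_lin 2 (0) (1) (0) (0) (0) (0) (0) (0)
  have hG : (y ^ 0 * w : PowerSeries ℤ) = ((0 : ℤ) : PowerSeries ℤ) * w ^ 0 + ((1 : ℤ) : PowerSeries ℤ) * w ^ 1 + ((0 : ℤ) : PowerSeries ℤ) * w ^ 2 + ((0 : ℤ) : PowerSeries ℤ) * w ^ 3 + ((0 : ℤ) : PowerSeries ℤ) * w ^ 4 + ((0 : ℤ) : PowerSeries ℤ) * w ^ 5 + ((0 : ℤ) : PowerSeries ℤ) * w ^ 6 + ((0 : ℤ) : PowerSeries ℤ) * w ^ 7 := by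
    simp only [y, z]; push_cast; ring
  rw [hG, h]
  simp only [sec2_0, sec2_1, sec2_2, sec2_3, sec2_4, sec2_5, sec2_6, sec2_7]
  refine ⟨1, 0, 0, 0, ?_⟩
  simp only [ev_add, ev_mul, ev_pow, ev_X, ev_C, ev_zero, y, z]
  push_cast
  ring

theorem e0_1_3 : InH (sec 3 (y ^ 0 * w)) := by
  have h := sec_lin 3 (0) (1) (0) (0) (0) (0) (0) (0)
  have hG : (y ^ 0 * w : PowerSeries ℤ) = ((0 : ℤ) : PowerSeries ℤ) * w ^ 0 + ((1 : ℤ) : PowerSeries ℤ) * w ^ 1 + ((0 : ℤ) : PowerSeries ℤ) * w ^ 2 + ((0 : ℤ) : PowerSeries ℤ) * w ^ 3 + ((0 : ℤ) : PowerSeries ℤ) * w ^ 4 + ((0 : ℤ) : PowerSeries ℤ) * w ^ 5 + ((0 : ℤ) : PowerSeries ℤ) * w ^ 6 + ((0 : ℤ) : PowerSeries ℤ) * w ^ 7 := by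
    simp only [y, z]; push_cast; ring
  rw [hG, h]
  simp only [sec3_0, sec3_1, sec3_2, sec3_3, sec3_4, sec3_5, sec3_6, sec3_7]
  refine ⟨1, 0, 0, 0, ?_⟩
  simp only [ev_add, ev_mul, ev_pow, ev_X, ev_C, ev_zero, y, z]
  push_cast
  ring

theorem e1_0_0 : InH2 (sec 0 (y ^ 1)) := by
  have h := sec_lin 0 (0) (-2) (2) (0) (0) (0) (0) (0)
  have hG : (y ^ 1 : PowerSeries ℤ) = ((0 : ℤ) : PowerSeries ℤ) * w ^ 0 + ((-2 : ℤ) : PowerSeries ℤ) * w ^ 1 + ((2 : ℤ) : PowerSeries ℤ) * w ^ 2 + ((0 : ℤ) : PowerSeries ℤ) * w ^ 3 + ((0 : ℤ) : PowerSeries ℤ) * w ^ 4 + ((0 : ℤ) : PowerSeries ℤ) * w ^ 5 + ((0 : ℤ) : PowerSeries ℤ) * w ^ 6 + ((0 : ℤ) : PowerSeries ℤ) * w ^ 7 := by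
    simp only [y, z]; push_cast; ring
  rw [hG, h]
  simp only [sec0_0, sec0_1, sec0_2, sec0_3, sec0_4, sec0_5, sec0_6, sec0_7]
  refine ⟨0, 1, 0, 0, ?_⟩
  simp only [ev_add, ev_mul, ev_pow, ev_X, ev_C, ev_zero, y, z]
  push_cast
  ring

theorem e1_0_1 : InH2 (sec 1 (y ^ 1)) := by
  have h := sec_lin 1 (0) (-2) (2) (0) (0) (0) (0) (0)
  have hG : (y ^ 1 : PowerSeries ℤ) = ((0 : ℤ) : PowerSeries ℤ) * w ^ 0 + ((-2 : ℤ) : PowerSeries ℤ) * w ^ 1 + ((2 : ℤ) : PowerSeries ℤ) * w ^ 2 + ((0 : ℤ) : PowerSeries ℤ) * w ^ 3 + ((0 : ℤ) : PowerSeries ℤ) * w ^ 4 + ((0 : ℤ) : PowerSeries ℤ) * w ^ 5 + ((0 : ℤ) : PowerSeries ℤ) * w ^ 6 + ((0 : ℤ) : PowerSeries ℤ) * w ^ 7 := by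
    simp only [y, z]; push_cast; ring
  rw [hG, h]
  simp only [sec1_0, sec1_1, sec1_2, sec1_3, sec1_4, sec1_5, sec1_6, sec1_7]
  refine ⟨1, 1, 0, 0, ?_⟩
  simp only [ev_add, ev_mul, ev_pow, ev_X, ev_C, ev_zero, y, z]
  push_cast
  ring

theorem e1_0_2 : InH2 (sec 2 (y ^ 1)) := by
  have h := sec_lin 2 (0) (-2) (2) (0) (0) (0) (0) (0)
  have hG : (y ^ 1 : PowerSeries ℤ) = ((0 : ℤ) : PowerSeries ℤ) * w ^ 0 + ((-2 : ℤ) : PowerSeries ℤ) * w ^ 1 + ((2 : ℤ) : PowerSeries ℤ) * w ^ 2 + ((0 : ℤ) : PowerSeries ℤ) * w ^ 3 + ((0 : ℤ) : PowerSeries ℤ) * w ^ 4 + ((0 : ℤ) : PowerSeries ℤ) * w ^ 5 + ((0 : ℤ) : PowerSeries ℤ) * w ^ 6 + ((0 : ℤ) : PowerSeries ℤ) * w ^ 7 := by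
    simp only [y, z]; push_cast; ring
  rw [hG, h]
  simp only [sec2_0, sec2_1, sec2_2, sec2_3, sec2_4, sec2_5, sec2_6, sec2_7]
  refine ⟨2, 1, 0, 0, ?_⟩
  simp only [ev_add, ev_mul, ev_pow, ev_X, ev_C, ev_zero, y, z]
  push_cast
  ring

theorem e1_0_3 : InH2 (sec 3 (y ^ 1)) := by
  have h := sec_lin 3 (0) (-2) (2) (0) (0) (0) (0) (0)
  have hG : (y ^ 1 : PowerSeries ℤ) = ((0 : ℤ) : PowerSeries ℤ) * w ^ 0 + ((-2 : ℤ) : PowerSeries ℤ) * w ^ 1 + ((2 : ℤ) : PowerSeries ℤ) * w ^ 2 + ((0 : ℤ) : PowerSeries ℤ) * w ^ 3 + ((0 : ℤ) : PowerSeries ℤ) * w ^ 4 + ((0 : ℤ) : PowerSeries ℤ) * w ^ 5 + ((0 : ℤ) : PowerSeries ℤ) * w ^ 6 + ((0 : ℤ) : PowerSeries ℤ) * w ^ 7 := by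
    simp only [y, z]; push_cast; ring
  rw [hG, h]
  simp only [sec3_0, sec3_1, sec3_2, sec3_3, sec3_4, sec3_5, sec3_6, sec3_7]
  refine ⟨3, 1, 0, 0, ?_⟩
  simp only [ev_add, ev_mul, ev_pow, ev_X, ev_C, ev_zero, y, z]
  push_cast
  ring

theorem e1_1_0 : InH (sec 0 (y ^ 1 * w)) := by
  have h := sec_lin 0 (0) (0) (-2) (2) (0) (0) (0) (0)
  have hG : (y ^ 1 * w : PowerSeries ℤ) = ((0 : ℤ) : PowerSeries ℤ) * w ^ 0 + ((0 : ℤ) : PowerSeries ℤ) * w ^ 1 + ((-2 : ℤ) : PowerSeries ℤ) * w ^ 2 + ((2 : ℤ) : PowerSeries ℤ) * w ^ 3 + ((0 : ℤ) : PowerSeries ℤ) * w ^ 4 + ((0 : ℤ) : PowerSeries ℤ) * w ^ 5 + ((0 : ℤ) : PowerSeries ℤ) * w ^ 6 + ((0 : ℤ) : PowerSeries ℤ) * w ^ 7 := by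
    simp only [y, z]; push_cast; ring
  rw [hG, h]
  simp only [sec0_0, sec0_1, sec0_2, sec0_3, sec0_4, sec0_5, sec0_6, sec0_7]
  refine ⟨0, -3, 0, Polynomial.C (2), ?_⟩
  simp only [ev_add, ev_mul, ev_pow, ev_X, ev_C, ev_zero, y, z]
  push_cast
  ring

theorem e1_1_1 : InH (sec 1 (y ^ 1 * w)) := by
  have h := sec_lin 1 (0) (0) (-2) (2) (0) (0) (0) (0)
  have hG : (y ^ 1 * w : PowerSeries ℤ) = ((0 : ℤ) : PowerSeries ℤ) * w ^ 0 + ((0 : ℤ) : PowerSeries ℤ) * w ^ 1 + ((-2 : ℤ) : PowerSeries ℤ) * w ^ 2 + ((2 : ℤ) : PowerSeries ℤ) * w ^ 3 + ((0 : ℤ) : PowerSeries ℤ) * w ^ 4 + ((0 : ℤ) : PowerSeries ℤ) * w ^ 5 + ((0 : ℤ) : PowerSeries ℤ) * w ^ 6 + ((0 : ℤ) : PowerSeries ℤ) * w ^ 7 := by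
    simp only [y, z]; push_cast; ring
  rw [hG, h]
  simp only [sec1_0, sec1_1, sec1_2, sec1_3, sec1_4, sec1_5, sec1_6, sec1_7]
  refine ⟨2, -1, 0, Polynomial.C (2), ?_⟩
  simp only [ev_add, ev_mul, ev_pow, ev_X, ev_C, ev_zero, y, z]
  push_cast
  ring

theorem e1_1_2 : InH (sec 2 (y ^ 1 * w)) := by
  have h := sec_lin 2 (0) (0) (-2) (2) (0) (0) (0) (0)
  have hG : (y ^ 1 * w : PowerSeries ℤ) = ((0 : ℤ) : PowerSeries ℤ) * w ^ 0 + ((0 : ℤ) : PowerSeries ℤ) * w ^ 1 + ((-2 : ℤ) : PowerSeries ℤ) * w ^ 2 + ((2 : ℤ) : PowerSeries ℤ) * w ^ 3 + ((0 : ℤ) : PowerSeries ℤ) * w ^ 4 + ((0 : ℤ) : PowerSeries ℤ) * w ^ 5 + ((0 : ℤ) : PowerSeries ℤ) * w ^ 6 + ((0 : ℤ) : PowerSeries ℤ) * w ^ 7 := by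
    simp only [y, z]; push_cast; ring
  rw [hG, h]
  simp only [sec2_0, sec2_1, sec2_2, sec2_3, sec2_4, sec2_5, sec2_6, sec2_7]
  refine ⟨6, 1, 0, Polynomial.C (2), ?_⟩
  simp only [ev_add, ev_mul, ev_pow, ev_X, ev_C, ev_zero, y, z]
  push_cast
  ring

theorem e1_1_3 : InH (sec 3 (y ^ 1 * w)) := by
  have h := sec_lin 3 (0) (0) (-2) (2) (0) (0) (0) (0)
  have hG : (y ^ 1 * w : PowerSeries ℤ) = ((0 : ℤ) : PowerSeries ℤ) * w ^ 0 + ((0 : ℤ) : PowerSeries ℤ) * w ^ 1 + ((-2 : ℤ) : PowerSeries ℤ) * w ^ 2 + ((2 : ℤ) : PowerSeries ℤ) * w ^ 3 + ((0 : ℤ) : PowerSeries ℤ) * w ^ 4 + ((0 : ℤ) : PowerSeries ℤ) * w ^ 5 + ((0 : ℤ) : PowerSeries ℤ) * w ^ 6 + ((0 : ℤ) : PowerSeries ℤ) * w ^ 7 := by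
    simp only [y, z]; push_cast; ring
  rw [hG, h]
  simp only [sec3_0, sec3_1, sec3_2, sec3_3, sec3_4, sec3_5, sec3_6, sec3_7]
  refine ⟨12, 3, 0, Polynomial.C (2), ?_⟩
  simp only [ev_add, ev_mul, ev_pow, ev_X, ev_C, ev_zero, y, z]
  push_cast
  ring

theorem e2_0_0 : InH2 (sec 0 (y ^ 2)) := by
  have h := sec_lin 0 (0) (0) (4) (-8) (4) (0) (0) (0)
  have hG : (y ^ 2 : PowerSeries ℤ) = ((0 : ℤ) : PowerSeries ℤ) * w ^ 0 + ((0 : ℤ) : PowerSeries ℤ) * w ^ 1 + ((4 : ℤ) : PowerSeries ℤ) * w ^ 2 + ((-8 : ℤ) : PowerSeries ℤ) * w ^ 3 + ((4 : ℤ) : PowerSeries ℤ) * w ^ 4 + ((0 : ℤ) : PowerSeries ℤ) * w ^ 5 + ((0 : ℤ) : PowerSeries ℤ) * w ^ 6 + ((0 : ℤ) : PowerSeries ℤ) * w ^ 7 := by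
    simp only [y, z]; push_cast; ring
  rw [hG, h]
  simp only [sec0_0, sec0_1, sec0_2, sec0_3, sec0_4, sec0_5, sec0_6, sec0_7]
  refine ⟨0, 5, Polynomial.C (4), 0, ?_⟩
  simp only [ev_add, ev_mul, ev_pow, ev_X, ev_C, ev_zero, y, z]
  push_cast
  ring

theorem e2_0_1 : InH2 (sec 1 (y ^ 2)) := by
  have h := sec_lin 1 (0) (0) (4) (-8) (4) (0) (0) (0)
  have hG : (y ^ 2 : PowerSeries ℤ) = ((0 : ℤ) : PowerSeries ℤ) * w ^ 0 + ((0 : ℤ) : PowerSeries ℤ) * w ^ 1 + ((4 : ℤ) : PowerSeries ℤ) * w ^ 2 + ((-8 : ℤ) : PowerSeries ℤ) * w ^ 3 + ((4 : ℤ) : PowerSeries ℤ) * w ^ 4 + ((0 : ℤ) : PowerSeries ℤ) * w ^ 5 + ((0 : ℤ) : PowerSeries ℤ) * w ^ 6 + ((0 : ℤ) : PowerSeries ℤ) * w ^ 7 := by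
    simp only [y, z]; push_cast; ring
  rw [hG, h]
  simp only [sec1_0, sec1_1, sec1_2, sec1_3, sec1_4, sec1_5, sec1_6, sec1_7]
  refine ⟨0, 2, Polynomial.C (4), Polynomial.C (2), ?_⟩
  simp only [ev_add, ev_mul, ev_pow, ev_X, ev_C, ev_zero, y, z]
  push_cast
  ring

theorem e2_0_2 : InH2 (sec 2 (y ^ 2)) := by
  have h := sec_lin 2 (0) (0) (4) (-8) (4) (0) (0) (0)
  have hG : (y ^ 2 : PowerSeries ℤ) = ((0 : ℤ) : PowerSeries ℤ) * w ^ 0 + ((0 : ℤ) : PowerSeries ℤ) * w ^ 1 + ((4 : ℤ) : PowerSeries ℤ) * w ^ 2 + ((-8 : ℤ) : PowerSeries ℤ) * w ^ 3 + ((4 : ℤ) : PowerSeries ℤ) * w ^ 4 + ((0 : ℤ) : PowerSeries ℤ) * w ^ 5 + ((0 : ℤ) : PowerSeries ℤ) * w ^ 6 + ((0 : ℤ) : PowerSeries ℤ) * w ^ 7 := by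
    simp only [y, z]; push_cast; ring
  rw [hG, h]
  simp only [sec2_0, sec2_1, sec2_2, sec2_3, sec2_4, sec2_5, sec2_6, sec2_7]
  refine ⟨2, 1, Polynomial.C (4), Polynomial.C (4), ?_⟩
  simp only [ev_add, ev_mul, ev_pow, ev_X, ev_C, ev_zero, y, z]
  push_cast
  ring

theorem e2_0_3 : InH2 (sec 3 (y ^ 2)) := by
  have h := sec_lin 3 (0) (0) (4) (-8) (4) (0) (0) (0)
  have hG : (y ^ 2 : PowerSeries ℤ) = ((0 : ℤ) : PowerSeries ℤ) * w ^ 0 + ((0 : ℤ) : PowerSeries ℤ) * w ^ 1 + ((4 : ℤ) : PowerSeries ℤ) * w ^ 2 + ((-8 : ℤ) : PowerSeries ℤ) * w ^ 3 + ((4 : ℤ) : PowerSeries ℤ) * w ^ 4 + ((0 : ℤ) : PowerSeries ℤ) * w ^ 5 + ((0 : ℤ) : PowerSeries ℤ) * w ^ 6 + ((0 : ℤ) : PowerSeries ℤ) * w ^ 7 := by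
    simp only [y, z]; push_cast; ring
  rw [hG, h]
  simp only [sec3_0, sec3_1, sec3_2, sec3_3, sec3_4, sec3_5, sec3_6, sec3_7]
  refine ⟨8, 2, Polynomial.C (4), Polynomial.C (6), ?_⟩
  simp only [ev_add, ev_mul, ev_pow, ev_X, ev_C, ev_zero, y, z]
  push_cast
  ring

theorem e2_1_0 : InH (sec 0 (y ^ 2 * w)) := by
  have h := sec_lin 0 (0) (0) (0) (4) (-8) (4) (0) (0)
  have hG : (y ^ 2 * w : PowerSeries ℤ) = ((0 : ℤ) : PowerSeries ℤ) * w ^ 0 + ((0 : ℤ) : PowerSeries ℤ) * w ^ 1 + ((0 : ℤ) : PowerSeries ℤ) * w ^ 2 + ((4 : ℤ) : PowerSeries ℤ) * w ^ 3 + ((-8 : ℤ) : PowerSeries ℤ) * w ^ 4 + ((4 : ℤ) : PowerSeries ℤ) * w ^ 5 + ((0 : ℤ) : PowerSeries ℤ) * w ^ 6 + ((0 : ℤ) : PowerSeries ℤ) * w ^ 7 := by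
    simp only [y, z]; push_cast; ring
  rw [hG, h]
  simp only [sec0_0, sec0_1, sec0_2, sec0_3, sec0_4, sec0_5, sec0_6, sec0_7]
  refine ⟨0, -5, Polynomial.C (-12), Polynomial.C (5) + Polynomial.C (32) * Polynomial.X, ?_⟩
  simp only [ev_add, ev_mul, ev_pow, ev_X, ev_C, ev_zero, y, z]
  push_cast
  ring

theorem e2_1_1 : InH (sec 1 (y ^ 2 * w)) := by
  have h := sec_lin 1 (0) (0) (0) (4) (-8) (4) (0) (0)
  have hG : (y ^ 2 * w : PowerSeries ℤ) = ((0 : ℤ) : PowerSeries ℤ) * w ^ 0 + ((0 : ℤ) : PowerSeries ℤ) * w ^ 1 + ((0 : ℤ) : PowerSeries ℤ) * w ^ 2 + ((4 : ℤ) : PowerSeries ℤ) * w ^ 3 + ((-8 : ℤ) : PowerSeries ℤ) * w ^ 4 + ((4 : ℤ) : PowerSeries ℤ) * w ^ 5 + ((0 : ℤ) : PowerSeries ℤ) * w ^ 6 + ((0 : ℤ) : PowerSeries ℤ) * w ^ 7 := by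
    simp only [y, z]; push_cast; ring
  rw [hG, h]
  simp only [sec1_0, sec1_1, sec1_2, sec1_3, sec1_4, sec1_5, sec1_6, sec1_7]
  refine ⟨0, -1, Polynomial.C (-4), Polynomial.C (9) + Polynomial.C (32) * Polynomial.X, ?_⟩
  simp only [ev_add, ev_mul, ev_pow, ev_X, ev_C, ev_zero, y, z]
  push_cast
  ring

theorem e2_1_2 : InH (sec 2 (y ^ 2 * w)) := by
  have h := sec_lin 2 (0) (0) (0) (4) (-8) (4) (0) (0)
  have hG : (y ^ 2 * w : PowerSeries ℤ) = ((0 : ℤ) : PowerSeries ℤ) * w ^ 0 + ((0 : ℤ) : PowerSeries ℤ) * w ^ 1 + ((0 : ℤ) : PowerSeries ℤ) * w ^ 2 + ((4 : ℤ) : PowerSeries ℤ) * w ^ 3 + ((-8 : ℤ) : PowerSeries ℤ) * w ^ 4 + ((4 : ℤ) : PowerSeries ℤ) * w ^ 5 + ((0 : ℤ) : PowerSeries ℤ) * w ^ 6 + ((0 : ℤ) : PowerSeries ℤ) * w ^ 7 := by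
    simp only [y, z]; push_cast; ring
  rw [hG, h]
  simp only [sec2_0, sec2_1, sec2_2, sec2_3, sec2_4, sec2_5, sec2_6, sec2_7]
  refine ⟨4, 1, Polynomial.C (4), Polynomial.C (17) + Polynomial.C (32) * Polynomial.X, ?_⟩
  simp only [ev_add, ev_mul, ev_pow, ev_X, ev_C, ev_zero, y, z]
  push_cast
  ring

theorem e2_1_3 : InH (sec 3 (y ^ 2 * w)) := by
  have h := sec_lin 3 (0) (0) (0) (4) (-8) (4) (0) (0)
  have hG : (y ^ 2 * w : PowerSeries ℤ) = ((0 : ℤ) : PowerSeries ℤ) * w ^ 0 + ((0 : ℤ) : PowerSeries ℤ) * w ^ 1 + ((0 : ℤ) : PowerSeries ℤ) * w ^ 2 + ((4 : ℤ) : PowerSeries ℤ) * w ^ 3 + ((-8 : ℤ) : PowerSeries ℤ) * w ^ 4 + ((4 : ℤ) : PowerSeries ℤ) * w ^ 5 + ((0 : ℤ) : PowerSeries ℤ) * w ^ 6 + ((0 : ℤ) : PowerSeries ℤ) * w ^ 7 := by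
    simp only [y, z]; push_cast; ring
  rw [hG, h]
  simp only [sec3_0, sec3_1, sec3_2, sec3_3, sec3_4, sec3_5, sec3_6, sec3_7]
  refine ⟨20, 5, Polynomial.C (12), Polynomial.C (29) + Polynomial.C (32) * Polynomial.X, ?_⟩
  simp only [ev_add, ev_mul, ev_pow, ev_X, ev_C, ev_zero, y, z]
  push_cast
  ring

theorem e3_0_0 : InH2 (sec 0 (y ^ 3)) := by
  have h := sec_lin 0 (0) (0) (0) (-8) (24) (-24) (8) (0)
  have hG : (y ^ 3 : PowerSeries ℤ) = ((0 : ℤ) : PowerSeries ℤ) * w ^ 0 + ((0 : ℤ) : PowerSeries ℤ) * w ^ 1 + ((0 : ℤ) : PowerSeries ℤ) * w ^ 2 + ((-8 : ℤ) : PowerSeries ℤ) * w ^ 3 + ((24 : ℤ) : PowerSeries ℤ) * w ^ 4 + ((-24 : ℤ) : PowerSeries ℤ) * w ^ 5 + ((8 : ℤ) : PowerSeries ℤ) * w ^ 6 + ((0 : ℤ) : PowerSeries ℤ) * w ^ 7 := by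
    simp only [y, z]; push_cast; ring
  rw [hG, h]
  simp only [sec0_0, sec0_1, sec0_2, sec0_3, sec0_4, sec0_5, sec0_6, sec0_7]
  refine ⟨0, 6, Polynomial.C (30) + Polynomial.C (64) * Polynomial.X, 0, ?_⟩
  simp only [ev_add, ev_mul, ev_pow, ev_X, ev_C, ev_zero, y, z]
  push_cast
  ring

theorem e3_0_1 : InH2 (sec 1 (y ^ 3)) := by
  have h := sec_lin 1 (0) (0) (0) (-8) (24) (-24) (8) (0)
  have hG : (y ^ 3 : PowerSeries ℤ) = ((0 : ℤ) : PowerSeries ℤ) * w ^ 0 + ((0 : ℤ) : PowerSeries ℤ) * w ^ 1 + ((0 : ℤ) : PowerSeries ℤ) * w ^ 2 + ((-8 : ℤ) : PowerSeries ℤ) * w ^ 3 + ((24 : ℤ) : PowerSeries ℤ) * w ^ 4 + ((-24 : ℤ) : PowerSeries ℤ) * w ^ 5 + ((8 : ℤ) : PowerSeries ℤ) * w ^ 6 + ((0 : ℤ) : PowerSeries ℤ) * w ^ 7 := by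
    simp only [y, z]; push_cast; ring
  rw [hG, h]
  simp only [sec1_0, sec1_1, sec1_2, sec1_3, sec1_4, sec1_5, sec1_6, sec1_7]
  refine ⟨0, 1, Polynomial.C (18) + Polynomial.C (64) * Polynomial.X, Polynomial.C (5) + Polynomial.C (32) * Polynomial.X, ?_⟩
  simp only [ev_add, ev_mul, ev_pow, ev_X, ev_C, ev_zero, y, z]
  push_cast
  ring

theorem e3_0_2 : InH2 (sec 2 (y ^ 3)) := by
  have h := sec_lin 2 (0) (0) (0) (-8) (24) (-24) (8) (0)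
  have hG : (y ^ 3 : PowerSeries ℤ) = ((0 : ℤ) : PowerSeries ℤ) * w ^ 0 + ((0 : ℤ) : PowerSeries ℤ) * w ^ 1 + ((0 : ℤ) : PowerSeries ℤ) * w ^ 2 + ((-8 : ℤ) : PowerSeries ℤ) * w ^ 3 + ((24 : ℤ) : PowerSeries ℤ) * w ^ 4 + ((-24 : ℤ) : PowerSeries ℤ) * w ^ 5 + ((8 : ℤ) : PowerSeries ℤ) * w ^ 6 + ((0 : ℤ) : PowerSeries ℤ) * w ^ 7 := by
    simp only [y, z]; push_cast; ring
  rw [hG, h]
  simp only [sec2_0, sec2_1, sec2_2, sec2_3, sec2_4, sec2_5, sec2_6, sec2_7]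
  refine ⟨0, 0, Polynomial.C (14) + Polynomial.C (64) * Polynomial.X, Polynomial.C (14) + Polynomial.C (64) * Polynomial.X, ?_⟩
  simp only [ev_add, ev_mul, ev_pow, ev_X, ev_C, ev_zero, y, z]
  push_cast
  ring

theorem e3_0_3 : InH2 (sec 3 (y ^ 3)) := by
  have h := sec_lin 3 (0) (0) (0) (-8) (24) (-24) (8) (0)
  have hG : (y ^ 3 : PowerSeries ℤ) = ((0 : ℤ) : PowerSeries ℤ) * w ^ 0 + ((0 : ℤ) : PowerSeries ℤ) * w ^ 1 + ((0 : ℤ) : PowerSeries ℤ) * w ^ 2 + ((-8 : ℤ) : PowerSeries ℤ) * w ^ 3 + ((24 : ℤ) : PowerSeries ℤ) * w ^ 4 + ((-24 : ℤ) : PowerSeries ℤ) * w ^ 5 + ((8 : ℤ) : PowerSeries ℤ) * w ^ 6 + ((0 : ℤ) : PowerSeries ℤ) * w ^ 7 := by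
    simp only [y, z]; push_cast; ring
  rw [hG, h]
  simp only [sec3_0, sec3_1, sec3_2, sec3_3, sec3_4, sec3_5, sec3_6, sec3_7]
  refine ⟨4, 1, Polynomial.C (18) + Polynomial.C (64) * Polynomial.X, Polynomial.C (31) + Polynomial.C (96) * Polynomial.X, ?_⟩
  simp only [ev_add, ev_mul, ev_pow, ev_X, ev_C, ev_zero, y, z]
  push_cast
  ring

theorem e3_1_0 : InH (sec 0 (y ^ 3 * w)) := by
  have h := sec_lin 0 (0) (0) (0) (0) (-8) (24) (-24) (8)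
  have hG : (y ^ 3 * w : PowerSeries ℤ) = ((0 : ℤ) : PowerSeries ℤ) * w ^ 0 + ((0 : ℤ) : PowerSeries ℤ) * w ^ 1 + ((0 : ℤ) : PowerSeries ℤ) * w ^ 2 + ((0 : ℤ) : PowerSeries ℤ) * w ^ 3 + ((-8 : ℤ) : PowerSeries ℤ) * w ^ 4 + ((24 : ℤ) : PowerSeries ℤ) * w ^ 5 + ((-24 : ℤ) : PowerSeries ℤ) * w ^ 6 + ((8 : ℤ) : PowerSeries ℤ) * w ^ 7 := by
    simp only [y, z]; push_cast; ring
  rw [hG, h]
  simp only [sec0_0, sec0_1, sec0_2, sec0_3, sec0_4, sec0_5, sec0_6, sec0_7]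
  refine ⟨0, -2, Polynomial.C (-50) + Polynomial.C (-192) * Polynomial.X, Polynomial.C (4) + Polynomial.C (160) * Polynomial.X + Polynomial.C (512) * Polynomial.X ^ 2, ?_⟩
  simp only [ev_add, ev_mul, ev_pow, ev_X, ev_C, ev_zero, y, z]
  push_cast
  ring

theorem e3_1_1 : InH (sec 1 (y ^ 3 * w)) := by
  have h := sec_lin 1 (0) (0) (0) (0) (-8) (24) (-24) (8)
  have hG : (y ^ 3 * w : PowerSeries ℤ) = ((0 : ℤ) : PowerSeries ℤ) * w ^ 0 + ((0 : ℤ) : PowerSeries ℤ) * w ^ 1 + ((0 : ℤ) : PowerSeries ℤ) * w ^ 2 + ((0 : ℤ) : PowerSeries ℤ) * w ^ 3 + ((-8 : ℤ) : PowerSeries ℤ) * w ^ 4 + ((24 : ℤ) : PowerSeries ℤ) * w ^ 5 + ((-24 : ℤ) : PowerSeries ℤ) * w ^ 6 + ((8 : ℤ) : PowerSeries ℤ) * w ^ 7 := by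
    simp only [y, z]; push_cast; ring
  rw [hG, h]
  simp only [sec1_0, sec1_1, sec1_2, sec1_3, sec1_4, sec1_5, sec1_6, sec1_7]
  refine ⟨0, 0, Polynomial.C (-14) + Polynomial.C (-64) * Polynomial.X, Polynomial.C (14) + Polynomial.C (224) * Polynomial.X + Polynomial.C (512) * Polynomial.X ^ 2, ?_⟩
  simp only [ev_add, ev_mul, ev_pow, ev_X, ev_C, ev_zero, y, z]
  push_cast
  ring

theorem e3_1_2 : InH (sec 2 (y ^ 3 * w)) := by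
  have h := sec_lin 2 (0) (0) (0) (0) (-8) (24) (-24) (8)
  have hG : (y ^ 3 * w : PowerSeries ℤ) = ((0 : ℤ) : PowerSeries ℤ) * w ^ 0 + ((0 : ℤ) : PowerSeries ℤ) * w ^ 1 + ((0 : ℤ) : PowerSeries ℤ) * w ^ 2 + ((0 : ℤ) : PowerSeries ℤ) * w ^ 3 + ((-8 : ℤ) : PowerSeries ℤ) * w ^ 4 + ((24 : ℤ) : PowerSeries ℤ) * w ^ 5 + ((-24 : ℤ) : PowerSeries ℤ) * w ^ 6 + ((8 : ℤ) : PowerSeries ℤ) * w ^ 7 := by
    simp only [y, z]; push_cast; ring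
  rw [hG, h]
  simp only [sec2_0, sec2_1, sec2_2, sec2_3, sec2_4, sec2_5, sec2_6, sec2_7]
  refine ⟨0, 0, Polynomial.C (14) + Polynomial.C (64) * Polynomial.X, Polynomial.C (42) + Polynomial.C (352) * Polynomial.X + Polynomial.C (512) * Polynomial.X ^ 2, ?_⟩
  simp only [ev_add, ev_mul, ev_pow, ev_X, ev_C, ev_zero, y, z]
  push_cast
  ring

theorem e3_1_3 : InH (sec 3 (y ^ 3 * w)) := by
  have h := sec_lin 3 (0) (0) (0) (0) (-8) (24) (-24) (8)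
  have hG : (y ^ 3 * w : PowerSeries ℤ) = ((0 : ℤ) : PowerSeries ℤ) * w ^ 0 + ((0 : ℤ) : PowerSeries ℤ) * w ^ 1 + ((0 : ℤ) : PowerSeries ℤ) * w ^ 2 + ((0 : ℤ) : PowerSeries ℤ) * w ^ 3 + ((-8 : ℤ) : PowerSeries ℤ) * w ^ 4 + ((24 : ℤ) : PowerSeries ℤ) * w ^ 5 + ((-24 : ℤ) : PowerSeries ℤ) * w ^ 6 + ((8 : ℤ) : PowerSeries ℤ) * w ^ 7 := by
    simp only [y, z]; push_cast; ring
  rw [hG, h]
  simp only [sec3_0, sec3_1, sec3_2, sec3_3, sec3_4, sec3_5, sec3_6, sec3_7]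
  refine ⟨8, 2, Polynomial.C (50) + Polynomial.C (192) * Polynomial.X, Polynomial.C (104) + Polynomial.C (544) * Polynomial.X + Polynomial.C (512) * Polynomial.X ^ 2, ?_⟩
  simp only [ev_add, ev_mul, ev_pow, ev_X, ev_C, ev_zero, y, z]
  push_cast
  ring


end Pool.Agent.Helper53.CP
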