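import Pool.Agent.Helper53.CPBase3

set_option autoImplicit false

namespace Pool.Agent.Helper53.CP

open PowerSeries

/-- the power series `1/(1-x^q)` -/
noncomputable def geom (q : ℕ) : PowerSeries ℤ := PowerSeries.mk fun j => if q ∣ j then 1 else 0

theorem geom_one : geom 1 = w := by
  ext n; simp [geom, w]

theorem E4_geom (q : ℕ) : E4 (geom q) = geom (4 * q) := by
  ext n
  rw [coeff_E4]
  simp only [geom, coeff_mk]
  by_cases h : 4 ∣ n
  · obtain ⟨k, rfl⟩ := h
    rw [if_pos (Dvd.intro _ rfl), Nat.mul_div_cancel_left _ (by norm_num : 0 < 4)]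
    have : (4 * q ∣ 4 * k) ↔ (q ∣ k) := Nat.mul_dvd_mul_iff_left (by norm_num)
    simp only [this]
  · rw [if_neg h, if_neg]
    intro h2
    exact h (dvd_trans (Dvd.intro _ rfl) h2)

noncomputable def P (m N : ℕ) : PowerSeries ℤ :=
  geom 1 ^ m * ∏ i ∈ Finset.range N, geom (4 ^ i) ^ (m * 3)

theorem w_pow_eight : w ^ 8 = R2 * W ^ 2 := by
  have h := w_pow_four
  have : w ^ 8 = (w ^ 4) ^ 2 := by ring
  rw [this, h]
  simp only [R2, y, z]
  ring

theorem P_succ (M N : ℕ) : P (2 * M) (N + 1) = R2 ^ M * E4 (P (2 * M) N) := by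
  have h1 : E4 (P (2 * M) N) = W ^ (2 * M) * ∏ i ∈ Finset.range N, geom (4 ^ (i + 1)) ^ (2 * M * 3) := by
    rw [P, map_mul, map_pow, map_prod, geom_one]
    congr 1
    apply Finset.prod_congr rfl
    intro i _
    rw [map_pow, E4_geom]
    congr 2
    ring
  have h2 : P (2 * M) (N + 1) = w ^ (2 * M) * (w ^ (2 * M * 3)
      * ∏ i ∈ Finset.range N, geom (4 ^ (i + 1)) ^ (2 * M * 3)) := by
    rw [P, Finset.prod_range_succ', pow_zero, geom_one]
    ring
  rw [h1, h2]
  have h3 : w ^ (2 * M) * w ^ (2 * M * 3) = R2 ^ M * W ^ (2 * M) := by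
    rw [← pow_add, show 2 * M + 2 * M * 3 = 8 * M by ring, pow_mul, w_pow_eight, mul_pow, ← pow_mul]
  rw [← mul_assoc, h3]
  ring

theorem sec_P (mu v N : ℕ) (hv : v < 4) (F : PowerSeries ℤ) :
    sec v (F * P (2 * (4 * mu + 3)) (N + 1)) = T mu v F * P (2 * (4 * mu + 3)) N := by
  rw [P_succ, ← mul_assoc, sec_mul_E4 v hv, T, mul_comm F]

/-- `F` is reached by some word of base-4 digits -/
def Reach (mu : ℕ) (F : PowerSeries ℤ) : Prop :=
  ∃ u j : ℕ, ∀ N n : ℕ, coeff (u + 4 ^ j * n) (P (2 * (4 * mu + 3)) (N + j))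
    = coeff n (F * P (2 * (4 * mu + 3)) N)

theorem Reach_one (mu : ℕ) : Reach mu 1 := ⟨0, 0, fun N n => by simp⟩

theorem Reach.step {mu : ℕ} {F : PowerSeries ℤ} (hF : Reach mu F) (v : ℕ) (hv : v < 4) :
    Reach mu (T mu v F) := by
  obtain ⟨u, j, h⟩ := hF
  refine ⟨u + 4 ^ j * v, j + 1, fun N n => ?_⟩
  have h1 := h (N + 1) (4 * n + v)
  rw [← coeff_sec, sec_P mu v N hv] at h1
  rw [← h1]
  congr 2
  · ring
  · ring

theorem reach_pow (mu k : ℕ) : ∃ F, InC F ∧ Reach mu (((64 * 4 ^ k : ℤ) : PowerSeries ℤ) * F) := by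
  induction k with
  | zero =>
    rcases base mu with ⟨F, hF, h⟩ | ⟨F, hF, h⟩
    · refine ⟨F, hF, ?_⟩
      have := ((Reach_one mu).step 0 (by norm_num)).step 1 (by norm_num)
      rw [h] at this
      simpa using this
    · refine ⟨F, hF, ?_⟩
      have := (((Reach_one mu).step 0 (by norm_num)).step 0 (by norm_num)).step 1 (by norm_num)
      rw [h] at this
      simpa using this
  | succ k ih =>
    obtain ⟨F, hF, h⟩ := ih
    obtain ⟨v, hv, F', hF', hT⟩ := step mu F hF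
    refine ⟨F', hF', ?_⟩
    have := h.step v hv
    rw [T_int, hT] at this
    convert this using 1
    push_cast; ring

theorem geom_form (q : ℕ) (hq : 0 < q) : ∃ G, geom q = 1 + X ^ q * G := by
  refine ⟨geom q, ?_⟩
  ext n
  rw [map_add, PowerSeries.coeff_X_pow_mul', PowerSeries.coeff_one]
  simp only [geom, coeff_mk]
  by_cases h0 : n = 0
  · subst h0; simp [hq.ne']
  · by_cases h1 : q ≤ n
    · rw [if_pos h1, if_neg h0, zero_add]
      have : q ∣ n - q ↔ q ∣ n := by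
        constructor
        · intro h; have := Dvd.dvd.add h (dvd_refl q)
          rwa [Nat.sub_add_cancel h1] at this
        · intro h; exact Nat.dvd_sub h (dvd_refl q)
      simp only [this]
    · rw [if_neg h1, if_neg h0, add_zero, if_neg]
      intro h
      exact h1 (Nat.le_of_dvd (Nat.pos_of_ne_zero h0) h)

theorem one_add_pow_form (q : ℕ) (F : PowerSeries ℤ) (hF : ∃ G, F = 1 + X ^ q * G) (e : ℕ) :
    ∃ G, F ^ e = 1 + X ^ q * G := by
  induction e with
  | zero => exact ⟨0, by simp⟩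
  | succ e ih =>
    obtain ⟨G, hG⟩ := ih
    obtain ⟨G', hG'⟩ := hF
    refine ⟨G + G' + X ^ q * G * G', ?_⟩
    rw [pow_succ, hG, hG']; ring

theorem P_stable (m u N : ℕ) (h : u < 4 ^ N) : coeff u (P m (N + 1)) = coeff u (P m N) := by
  obtain ⟨G, hG⟩ := one_add_pow_form (4 ^ N) (geom (4 ^ N)) (geom_form _ (by positivity)) (m * 3)
  have : P m (N + 1) = P m N + X ^ (4 ^ N) * (P m N * G) := by
    rw [P, Finset.prod_range_succ, ← mul_assoc, hG, P]; ring
  rw [this, map_add, PowerSeries.coeff_X_pow_mul', if_neg (by omega), add_zero]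

theorem P_stable' (m u j : ℕ) : coeff u (P m (u + 1 + j)) = coeff u (P m (u + 1)) := by
  induction j with
  | zero => rfl
  | succ j ih =>
    rw [← ih, show u + 1 + (j + 1) = (u + 1 + j) + 1 by ring]
    apply P_stable
    calc u < 4 ^ u := Nat.lt_pow_self (by norm_num)
      _ ≤ 4 ^ (u + 1 + j) := Nat.pow_le_pow_right (by norm_num) (by omega)

/-- main theorem -/
theorem main (m : ℕ) (hm : m % 8 = 6) (B : ℕ) :
    ∃ n : ℕ, (4 : ℤ) ^ B ∣ coeff n (P m (n + 1)) := by
  obtain ⟨mu, rfl⟩ : ∃ mu, m = 2 * (4 * mu + 3) := ⟨m / 8, by omega⟩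
  obtain ⟨F, hF, u, j, h⟩ := reach_pow mu B
  refine ⟨u, ?_⟩
  have h1 := h (u + 1) 0
  rw [Nat.mul_zero, Nat.add_zero, P_stable', mul_assoc, coeff_intCast_mul'] at h1
  rw [h1]
  exact ⟨64 * coeff 0 (F * P (2 * (4 * mu + 3)) (u + 1)), by ring⟩

end Pool.Agent.Helper53.CP
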