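import Pool.Agent.Helper53.CPBasic

set_option autoImplicit false

namespace Pool.Agent.Helper53.CP

open PowerSeries

theorem w_sub_one_pow_four : (w - 1) ^ 4 = (W - 1) * (4 * w ^ 3 - 6 * w ^ 2 + 4 * w - 1) := by
  linear_combination w_pow_four

/-- the polynomial `R^2 = 1 + 4y + 5y^2 + 2y^3` -/
noncomputable def r2 : Polynomial ℤ :=
  1 + Polynomial.C 4 * Polynomial.X + Polynomial.C 5 * Polynomial.X ^ 2
    + Polynomial.C 2 * Polynomial.X ^ 3

noncomputable def R2 : PowerSeries ℤ := 1 + 4 * y + 5 * y ^ 2 + 2 * y ^ 3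

theorem ev_r2 : ev r2 = R2 := by
  simp only [r2, R2, ev_add, ev_mul, ev_pow, ev_X, ev_C, ev_one]
  push_cast
  ring

theorem E4_z : E4 z = W ^ 2 - W := by
  simp only [z, map_sub, map_pow]; rfl

theorem E4_y : E4 y = 2 * (W ^ 2 - W) := by
  rw [y, map_mul, E4_z, map_ofNat]

theorem y_pow_four : y ^ 4 = (8 * R2) * E4 y := by
  have h1 := w_pow_four
  have h2 := w_sub_one_pow_four
  have h3 : z ^ 4 = w ^ 4 * (w - 1) ^ 4 := by simp only [z]; ring
  have h4 : y ^ 4 = 16 * z ^ 4 := by simp only [y]; ring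
  rw [h4, h3, h1, h2, E4_y]
  simp only [R2, y, z]
  ring

theorem sec_ofNat_mul (v : ℕ) (n : ℕ) [n.AtLeastTwo] (F : PowerSeries ℤ) :
    sec v ((OfNat.ofNat n : PowerSeries ℤ) * F) = (OfNat.ofNat n : PowerSeries ℤ) * sec v F := by
  have := sec_intCast_mul v (OfNat.ofNat n : ℤ) F
  simpa using this

theorem sec_y4 (v : ℕ) (hv : v < 4) (F : PowerSeries ℤ) (k : ℕ) :
    sec v (y ^ (k + 4) * F) = 8 * y * (sec v (y ^ k * F) + 4 * sec v (y ^ (k + 1) * F)
      + 5 * sec v (y ^ (k + 2) * F) + 2 * sec v (y ^ (k + 3) * F)) := by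
  have h : y ^ (k + 4) * F = (8 * (y ^ k * F + 4 * (y ^ (k + 1) * F) + 5 * (y ^ (k + 2) * F)
      + 2 * (y ^ (k + 3) * F))) * E4 y := by
    rw [pow_add y k 4, y_pow_four, R2]
    ring
  rw [h, sec_mul_E4 v hv, sec_ofNat_mul, map_add, map_add, map_add, sec_ofNat_mul, sec_ofNat_mul,
    sec_ofNat_mul]
  ring

theorem InH.add {F G : PowerSeries ℤ} (hF : InH F) (hG : InH G) : InH (F + G) := by
  obtain ⟨a, b, p, q, rfl⟩ := hF
  obtain ⟨a', b', p', q', rfl⟩ := hG
  refine ⟨a + a', b + b', p + p', q + q', ?_⟩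
  simp only [ev_add]
  push_cast
  ring

theorem InH.int_mul {F : PowerSeries ℤ} (hF : InH F) (c : ℤ) :
    InH ((c : PowerSeries ℤ) * F) := by
  obtain ⟨a, b, p, q, rfl⟩ := hF
  refine ⟨c * a, c * b, Polynomial.C c * p, Polynomial.C c * q, ?_⟩
  simp only [ev_mul, ev_C]
  push_cast
  ring

theorem InH.y_mul {F : PowerSeries ℤ} (hF : InH F) : InH (8 * y * F) := by
  obtain ⟨a, b, p, q, rfl⟩ := hF
  refine ⟨0, 0, Polynomial.C (2 * b) + Polynomial.C 8 * Polynomial.X * p,
    Polynomial.C a + Polynomial.C 8 * Polynomial.X * q, ?_⟩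
  simp only [ev_add, ev_mul, ev_C, ev_X]
  push_cast
  ring

theorem InH_zero : InH 0 := ⟨0, 0, 0, 0, by simp [ev_zero]⟩

theorem InH2_iff (F : PowerSeries ℤ) : InH2 F ↔ ∃ G, InH G ∧ F = 2 * G := by
  constructor
  · rintro ⟨a, b, p, q, rfl⟩
    exact ⟨_, ⟨a, b, p, q, rfl⟩, by ring⟩
  · rintro ⟨_, ⟨a, b, p, q, rfl⟩, rfl⟩
    exact ⟨a, b, p, q, by ring⟩

theorem InH2.add {F G : PowerSeries ℤ} (hF : InH2 F) (hG : InH2 G) : InH2 (F + G) := by
  rw [InH2_iff] at *
  obtain ⟨F', hF', rfl⟩ := hF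
  obtain ⟨G', hG', rfl⟩ := hG
  exact ⟨F' + G', hF'.add hG', by ring⟩

theorem InH2.int_mul {F : PowerSeries ℤ} (hF : InH2 F) (c : ℤ) :
    InH2 ((c : PowerSeries ℤ) * F) := by
  rw [InH2_iff] at *
  obtain ⟨F', hF', rfl⟩ := hF
  exact ⟨(c : PowerSeries ℤ) * F', hF'.int_mul c, by ring⟩

theorem InH2.y_mul {F : PowerSeries ℤ} (hF : InH2 F) : InH2 (8 * y * F) := by
  rw [InH2_iff] at *
  obtain ⟨F', hF', rfl⟩ := hF
  exact ⟨8 * y * F', hF'.y_mul, by ring⟩

theorem InH2_zero : InH2 0 := ⟨0, 0, 0, 0, by simp [ev_zero]⟩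

theorem InH.ofNat_mul {F : PowerSeries ℤ} (hF : InH F) (n : ℕ) [n.AtLeastTwo] :
    InH ((OfNat.ofNat n : PowerSeries ℤ) * F) := by
  have := hF.int_mul (OfNat.ofNat n : ℤ)
  simpa using this

theorem InH2.ofNat_mul {F : PowerSeries ℤ} (hF : InH2 F) (n : ℕ) [n.AtLeastTwo] :
    InH2 ((OfNat.ofNat n : PowerSeries ℤ) * F) := by
  have := hF.int_mul (OfNat.ofNat n : ℤ)
  simpa using this

theorem sec_yw (v : ℕ) (hv : v < 4) (k : ℕ) : InH (sec v (y ^ k * w)) := by
  induction k using Nat.strong_induction_on with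
  | _ k ih =>
    match k, ih with
    | 0, _ => interval_cases v <;> [exact e0_1_0; exact e0_1_1; exact e0_1_2; exact e0_1_3]
    | 1, _ => interval_cases v <;> [exact e1_1_0; exact e1_1_1; exact e1_1_2; exact e1_1_3]
    | 2, _ => interval_cases v <;> [exact e2_1_0; exact e2_1_1; exact e2_1_2; exact e2_1_3]
    | 3, _ => interval_cases v <;> [exact e3_1_0; exact e3_1_1; exact e3_1_2; exact e3_1_3]
    | k + 4, ih =>
      rw [sec_y4 v hv]
      exact InH.y_mul ((((ih k (by omega)).add ((ih (k+1) (by omega)).ofNat_mul 4)).add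
        ((ih (k+2) (by omega)).ofNat_mul 5)).add ((ih (k+3) (by omega)).ofNat_mul 2))

theorem sec_one (v : ℕ) (hv : v < 4) : sec v 1 = if v = 0 then 1 else 0 := by
  have h : (1 : PowerSeries ℤ) = w ^ 0 := by simp
  rw [h]
  interval_cases v
  · simpa using sec0_0
  · simpa using sec1_0
  · simpa using sec2_0
  · simpa using sec3_0

theorem sec_y (v : ℕ) (hv : v < 4) (k : ℕ) : InH2 (sec v (y ^ (k + 1))) := by
  induction k using Nat.strong_induction_on with
  | _ k ih =>
    match k, ih with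
    | 0, _ => interval_cases v <;> [exact e1_0_0; exact e1_0_1; exact e1_0_2; exact e1_0_3]
    | 1, _ => interval_cases v <;> [exact e2_0_0; exact e2_0_1; exact e2_0_2; exact e2_0_3]
    | 2, _ => interval_cases v <;> [exact e3_0_0; exact e3_0_1; exact e3_0_2; exact e3_0_3]
    | 3, ih =>
      have h := sec_y4 v hv 1 0
      simp only [mul_one] at h
      rw [show 3 + 1 = 0 + 4 from rfl, h, pow_zero, sec_one v hv]
      have h2 := ((ih 0 (by omega)).ofNat_mul 4).add (((ih 1 (by omega)).ofNat_mul 5).add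
        ((ih 2 (by omega)).ofNat_mul 2))
      have h3 := h2.y_mul
      have h4 : InH2 (8 * y * (if v = 0 then 1 else 0)) := by
        split_ifs
        · exact ⟨0, 2, 0, 0, by simp only [ev_zero]; push_cast; ring⟩
        · rw [mul_zero]; exact InH2_zero
      convert h4.add h3 using 1
      simp only [zero_add, Nat.reduceAdd]
      ring
    | k + 4, ih =>
      have h := sec_y4 v hv 1 (k + 1)
      simp only [mul_one] at h
      rw [show k + 4 + 1 = (k + 1) + 4 by ring, h]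
      exact InH2.y_mul ((((ih k (by omega)).add ((ih (k+1) (by omega)).ofNat_mul 4)).add
        ((ih (k+2) (by omega)).ofNat_mul 5)).add ((ih (k+3) (by omega)).ofNat_mul 2))

theorem ev_monomial (n : ℕ) (a : ℤ) : ev (Polynomial.monomial n a) = (a : PowerSeries ℤ) * y ^ n := by
  rw [← Polynomial.C_mul_X_pow_eq_monomial, ev_mul, ev_pow, ev_X, ev_C]

theorem sec_w_ev (v : ℕ) (hv : v < 4) (p : Polynomial ℤ) : InH (sec v (w * ev p)) := by
  induction p using Polynomial.induction_on' with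
  | add p q hp hq => rw [ev_add, mul_add, map_add]; exact hp.add hq
  | monomial n a =>
    rw [ev_monomial, show w * ((a : PowerSeries ℤ) * y ^ n) = (a : PowerSeries ℤ) * (y ^ n * w) by ring,
      sec_intCast_mul]
    exact (sec_yw v hv n).int_mul a

theorem sec_y_ev (v : ℕ) (hv : v < 4) (p : Polynomial ℤ) : InH2 (sec v (y * ev p)) := by
  induction p using Polynomial.induction_on' with
  | add p q hp hq => rw [ev_add, mul_add, map_add]; exact hp.add hq
  | monomial n a =>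
    rw [ev_monomial, show y * ((a : PowerSeries ℤ) * y ^ n) = (a : PowerSeries ℤ) * y ^ (n + 1) by ring,
      sec_intCast_mul]
    exact (sec_y v hv n).int_mul a

end Pool.Agent.Helper53.CP
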