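import Pool.Agent.Helper53.CPLattice

set_option autoImplicit false

namespace Pool.Agent.Helper53.CP

open PowerSeries

noncomputable def rho : PowerSeries ℤ := 2 * z + 5 * z ^ 2 + 4 * z ^ 3

theorem R2_eq : R2 = 1 + 4 * rho := by simp only [R2, rho, y]; ring

theorem R2_pow (mu : ℕ) : ∃ Q : PowerSeries ℤ,
    R2 ^ (4 * mu + 3) = 1 + (12 + 16 * (mu : PowerSeries ℤ)) * rho + 16 * rho ^ 2 + 32 * Q := by
  induction mu with
  | zero =>
    refine ⟨rho ^ 2 + 2 * rho ^ 3, ?_⟩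
    rw [R2_eq]; push_cast; ring
  | succ mu ih =>
    obtain ⟨Q, hQ⟩ := ih
    have h4 : R2 ^ 4 = 1 + 16 * (rho + 6 * rho ^ 2 + 16 * rho ^ 3 + 16 * rho ^ 4) := by
      rw [R2_eq]; ring
    refine ⟨?_, ?_⟩
    rotate_left
    · rw [show 4 * (mu + 1) + 3 = (4 * mu + 3) + 4 by ring, pow_add, hQ, h4]
      push_cast
      have : ∀ A B C : PowerSeries ℤ, A + 32 * B = A + 32 * C ↔ 32 * B = 32 * C := by
        intros; constructor <;> intro h <;> linear_combination h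
      have key : (1 + (12 + 16 * (mu : PowerSeries ℤ)) * rho + 16 * rho ^ 2 + 32 * Q) *
          (1 + 16 * (rho + 6 * rho ^ 2 + 16 * rho ^ 3 + 16 * rho ^ 4))
        = 1 + (12 + 16 * ((mu : PowerSeries ℤ) + 1)) * rho + 16 * rho ^ 2
          + 32 * ((3 + 6 * rho + 8 * rho ^ 2 + 8 * rho ^ 3) * 0 + (
            Q * (1 + 16 * (rho + 6 * rho ^ 2 + 16 * rho ^ 3 + 16 * rho ^ 4))
            + 3 * rho ^ 2 + 8 * rho ^ 3 + 8 * rho ^ 4
            + (6 + 8 * (mu : PowerSeries ℤ)) * rho * (rho + 6 * rho ^ 2 + 16 * rho ^ 3 + 16 * rho ^ 4)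
            + 8 * rho ^ 2 * (rho + 6 * rho ^ 2 + 16 * rho ^ 3 + 16 * rho ^ 4))) := by ring
      exact key

theorem coeff_intCast_mul' (n : ℕ) (c : ℤ) (F : PowerSeries ℤ) :
    coeff n ((c : PowerSeries ℤ) * F) = c * coeff n F := by
  rw [← zsmul_eq_mul, map_zsmul, zsmul_eq_mul]; simp

theorem coeff_w_pow (n d : ℕ) : coeff n (w ^ (d + 1)) = ((d + n).choose d : ℤ) := by
  rw [w, PowerSeries.mk_one_pow_eq_mk_choose_add, coeff_mk]


theorem coeff_R2_pow_mul (mu n : ℕ) (F : PowerSeries ℤ) : ∃ t : ℤ,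
    coeff n (R2 ^ (4 * mu + 3) * F) = coeff n F + (12 + 16 * (mu : ℤ)) * coeff n (rho * F)
      + 16 * coeff n (rho ^ 2 * F) + 32 * t := by
  obtain ⟨Q, hQ⟩ := R2_pow mu
  refine ⟨coeff n (Q * F), ?_⟩
  rw [hQ]
  have : (1 + (12 + 16 * (mu : PowerSeries ℤ)) * rho + 16 * rho ^ 2 + 32 * Q) * F
      = F + ((12 + 16 * (mu : ℤ) : ℤ) : PowerSeries ℤ) * (rho * F)
        + ((16 : ℤ) : PowerSeries ℤ) * (rho ^ 2 * F) + ((32 : ℤ) : PowerSeries ℤ) * (Q * F) := by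
    push_cast; ring
  rw [this, map_add, map_add, map_add, coeff_intCast_mul', coeff_intCast_mul', coeff_intCast_mul']

theorem coeff_w (n : ℕ) : coeff n w = 1 := by simp [w]

theorem coeff_rho_w (n : ℕ) : coeff n (rho * w) =
    2 * (((2 + n).choose 2 : ℤ) - ((1 + n).choose 1 : ℤ))
    + 5 * (((4 + n).choose 4 : ℤ) - 2 * ((3 + n).choose 3 : ℤ) + ((2 + n).choose 2 : ℤ))
    + 4 * (((6 + n).choose 6 : ℤ) - 3 * ((5 + n).choose 5 : ℤ) + 3 * ((4 + n).choose 4 : ℤ)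
        - ((3 + n).choose 3 : ℤ)) := by
  have h : rho * w = ((2 : ℤ) : PowerSeries ℤ) * w ^ (2 + 1) + ((-2 : ℤ) : PowerSeries ℤ) * w ^ (1 + 1)
      + (((5 : ℤ) : PowerSeries ℤ) * w ^ (4 + 1) + ((-10 : ℤ) : PowerSeries ℤ) * w ^ (3 + 1)
        + ((5 : ℤ) : PowerSeries ℤ) * w ^ (2 + 1))
      + (((4 : ℤ) : PowerSeries ℤ) * w ^ (6 + 1) + ((-12 : ℤ) : PowerSeries ℤ) * w ^ (5 + 1)
        + ((12 : ℤ) : PowerSeries ℤ) * w ^ (4 + 1) + ((-4 : ℤ) : PowerSeries ℤ) * w ^ (3 + 1)) := by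
    simp only [rho, z]; push_cast; ring
  rw [h]
  simp only [map_add, coeff_intCast_mul', coeff_w_pow]
  ring

theorem coeff_z (n : ℕ) : coeff n z = n := by
  have h : z = ((1 : ℤ) : PowerSeries ℤ) * w ^ (1 + 1) + ((-1 : ℤ) : PowerSeries ℤ) * w ^ (0 + 1) := by
    simp only [z]; push_cast; ring
  rw [h]
  simp only [map_add, coeff_intCast_mul', coeff_w_pow, Nat.choose_one_right, Nat.choose_zero_right]
  push_cast; ring

theorem coeff_rho_z (n : ℕ) : coeff n (rho * z) =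
    2 * (((3 + n).choose 3 : ℤ) - 2 * ((2 + n).choose 2 : ℤ) + ((1 + n).choose 1 : ℤ))
    + 5 * (((5 + n).choose 5 : ℤ) - 3 * ((4 + n).choose 4 : ℤ) + 3 * ((3 + n).choose 3 : ℤ)
        - ((2 + n).choose 2 : ℤ))
    + 4 * (((7 + n).choose 7 : ℤ) - 4 * ((6 + n).choose 6 : ℤ) + 6 * ((5 + n).choose 5 : ℤ)
        - 4 * ((4 + n).choose 4 : ℤ) + ((3 + n).choose 3 : ℤ)) := by
  have h : rho * z = (((2 : ℤ) : PowerSeries ℤ) * w ^ (3 + 1) + ((-4 : ℤ) : PowerSeries ℤ) * w ^ (2 + 1)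
        + ((2 : ℤ) : PowerSeries ℤ) * w ^ (1 + 1))
      + (((5 : ℤ) : PowerSeries ℤ) * w ^ (5 + 1) + ((-15 : ℤ) : PowerSeries ℤ) * w ^ (4 + 1)
        + ((15 : ℤ) : PowerSeries ℤ) * w ^ (3 + 1) + ((-5 : ℤ) : PowerSeries ℤ) * w ^ (2 + 1))
      + (((4 : ℤ) : PowerSeries ℤ) * w ^ (7 + 1) + ((-16 : ℤ) : PowerSeries ℤ) * w ^ (6 + 1)
        + ((24 : ℤ) : PowerSeries ℤ) * w ^ (5 + 1) + ((-16 : ℤ) : PowerSeries ℤ) * w ^ (4 + 1)
        + ((4 : ℤ) : PowerSeries ℤ) * w ^ (3 + 1)) := by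
    simp only [rho, z]; push_cast; ring
  rw [h]
  simp only [map_add, coeff_intCast_mul', coeff_w_pow]
  ring

/-- values of the coefficients modulo 16 -/
theorem cw (mu : ℕ) : ∃ t : ℕ → ℤ,
    coeff 0 (R2 ^ (4 * mu + 3) * w) = 1 + 16 * t 0 ∧ coeff 1 (R2 ^ (4 * mu + 3) * w) = 9 + 16 * t 1 ∧
    coeff 2 (R2 ^ (4 * mu + 3) * w) = 5 + 16 * t 2 ∧ coeff 3 (R2 ^ (4 * mu + 3) * w) = 13 + 16 * t 3 ∧
    coeff 4 (R2 ^ (4 * mu + 3) * w) = 5 + 16 * t 4 ∧ coeff 5 (R2 ^ (4 * mu + 3) * w) = 13 + 16 * t 5 ∧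
    coeff 6 (R2 ^ (4 * mu + 3) * w) = 1 + 16 * t 6 ∧ coeff 7 (R2 ^ (4 * mu + 3) * w) = 9 + 16 * t 7 := by
  have h : ∀ n : ℕ, ∃ t : ℤ, coeff n (R2 ^ (4 * mu + 3) * w)
      = 1 + 12 * coeff n (rho * w) + 16 * t := by
    intro n
    obtain ⟨t, ht⟩ := coeff_R2_pow_mul mu n w
    refine ⟨mu * coeff n (rho * w) + coeff n (rho ^ 2 * w) + 2 * t, ?_⟩
    rw [ht, coeff_w]; ring
  choose t ht using h
  have e : ∀ n, coeff n (rho * w) = _ := coeff_rho_w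
  refine ⟨fun n => (1 + 12 * coeff n (rho * w) + 16 * t n
    - (if n = 0 then 1 else if n = 1 then 9 else if n = 2 then 5 else if n = 3 then 13
      else if n = 4 then 5 else if n = 5 then 13 else if n = 6 then 1 else 9)) / 16, ?_⟩
  simp only [ht, e]
  norm_num [Nat.choose]
  omega

theorem cz (mu : ℕ) : ∃ t : ℕ → ℤ,
    coeff 0 (R2 ^ (4 * mu + 3) * z) = 0 + 16 * t 0 ∧ coeff 1 (R2 ^ (4 * mu + 3) * z) = 1 + 16 * t 1 ∧
    coeff 2 (R2 ^ (4 * mu + 3) * z) = 10 + 16 * t 2 ∧ coeff 3 (R2 ^ (4 * mu + 3) * z) = 15 + 16 * t 3 ∧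
    coeff 4 (R2 ^ (4 * mu + 3) * z) = 12 + 16 * t 4 ∧ coeff 5 (R2 ^ (4 * mu + 3) * z) = 1 + 16 * t 5 ∧
    coeff 6 (R2 ^ (4 * mu + 3) * z) = 14 + 16 * t 6 ∧ coeff 7 (R2 ^ (4 * mu + 3) * z) = 15 + 16 * t 7 := by
  have h : ∀ n : ℕ, ∃ t : ℤ, coeff n (R2 ^ (4 * mu + 3) * z)
      = n + 12 * coeff n (rho * z) + 16 * t := by
    intro n
    obtain ⟨t, ht⟩ := coeff_R2_pow_mul mu n z
    refine ⟨mu * coeff n (rho * z) + coeff n (rho ^ 2 * z) + 2 * t, ?_⟩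
    rw [ht, coeff_z]; ring
  choose t ht using h
  have e : ∀ n, coeff n (rho * z) = _ := coeff_rho_z
  refine ⟨fun n => (n + 12 * coeff n (rho * z) + 16 * t n
    - (if n = 0 then 0 else if n = 1 then 1 else if n = 2 then 10 else if n = 3 then 15
      else if n = 4 then 12 else if n = 5 then 1 else if n = 6 then 14 else 15)) / 16, ?_⟩
  simp only [ht, e]
  norm_num [Nat.choose]
  omega


noncomputable def T (mu v : ℕ) (F : PowerSeries ℤ) : PowerSeries ℤ := sec v (R2 ^ (4 * mu + 3) * F)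

theorem T_add (mu v : ℕ) (F G : PowerSeries ℤ) : T mu v (F + G) = T mu v F + T mu v G := by
  simp only [T, mul_add, map_add]

theorem T_int (mu v : ℕ) (c : ℤ) (F : PowerSeries ℤ) :
    T mu v ((c : PowerSeries ℤ) * F) = (c : PowerSeries ℤ) * T mu v F := by
  simp only [T]
  rw [← sec_intCast_mul]
  congr 1; ring

theorem coeff_T (mu v n : ℕ) (F : PowerSeries ℤ) :
    coeff n (T mu v F) = coeff (4 * n + v) (R2 ^ (4 * mu + 3) * F) := by
  simp [T]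

theorem y_eq : y = X * (2 * w ^ 2) := by
  simp only [y, z]
  linear_combination (-2 * w) * X_mul_w

theorem form_coeffs (a b : ℤ) (P Q : PowerSeries ℤ) :
    coeff 0 ((a : PowerSeries ℤ) * w + (b : PowerSeries ℤ) * (2 * y) + 8 * y ^ 2 * P
      + 8 * y * w * Q) = a ∧
    ∃ t : ℤ, coeff 1 ((a : PowerSeries ℤ) * w + (b : PowerSeries ℤ) * (2 * y) + 8 * y ^ 2 * P
      + 8 * y * w * Q) = a + 4 * b + 16 * t := by
  have h : (a : PowerSeries ℤ) * w + (b : PowerSeries ℤ) * (2 * y) + 8 * y ^ 2 * P + 8 * y * w * Q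
      = (a : PowerSeries ℤ) * w + X * (((4 * b : ℤ) : PowerSeries ℤ) * w ^ 2
        + X * (32 * w ^ 4 * P) + ((16 : ℤ) : PowerSeries ℤ) * (w ^ 3 * Q)) := by
    rw [y_eq]; push_cast; ring
  rw [h]
  constructor
  · rw [map_add, coeff_intCast_mul', coeff_w, coeff_zero_X_mul]; ring
  · refine ⟨coeff 0 (w ^ 3 * Q), ?_⟩
    have h2 : coeff 0 (w ^ 2) = 1 := by
      have := coeff_w_pow 0 1
      simpa using this
    rw [map_add, coeff_intCast_mul', coeff_w, show (1 : ℕ) = 0 + 1 from rfl, coeff_succ_X_mul, map_add,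
      map_add, coeff_intCast_mul', coeff_intCast_mul', coeff_zero_X_mul, h2]
    ring

theorem R2_pow_ev (M : ℕ) : R2 ^ M = ev (r2 ^ M) := by rw [ev_pow, ev_r2]

theorem T_w_form (mu v : ℕ) (hv : v < 4) : ∃ (a b : ℤ) (p q : Polynomial ℤ),
    T mu v w = (a : PowerSeries ℤ) * w + (b : PowerSeries ℤ) * (2 * y) + 8 * y ^ 2 * ev p
      + 8 * y * w * ev q := by
  have := sec_w_ev v hv (r2 ^ (4 * mu + 3))
  rw [← R2_pow_ev, mul_comm] at this
  exact this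

theorem T_y_form (mu v : ℕ) (hv : v < 4) (r : Polynomial ℤ) : InH2 (T mu v (y * ev r)) := by
  have := sec_y_ev v hv (r2 ^ (4 * mu + 3) * r)
  rw [ev_mul, ← R2_pow_ev] at this
  rw [T, show R2 ^ (4 * mu + 3) * (y * ev r) = y * (R2 ^ (4 * mu + 3) * ev r) by ring]
  exact this

theorem T_wr_form (mu v : ℕ) (hv : v < 4) (r : Polynomial ℤ) : InH (T mu v (w * ev r)) := by
  have := sec_w_ev v hv (r2 ^ (4 * mu + 3) * r)
  rw [ev_mul, ← R2_pow_ev] at this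
  rw [T, show R2 ^ (4 * mu + 3) * (w * ev r) = w * (R2 ^ (4 * mu + 3) * ev r) by ring]
  exact this

theorem two_cancel {A B : PowerSeries ℤ} (h : 2 * A = 2 * B) : A = B := by
  ext n
  have h1 := congrArg (coeff n) h
  have hA := coeff_intCast_mul' n 2 A
  have hB := coeff_intCast_mul' n 2 B
  push_cast at hA hB
  rw [hA, hB] at h1
  omega

theorem T_z_form (mu v : ℕ) (hv : v < 4) : InH (T mu v z) := by
  have h := T_y_form mu v hv 1
  rw [ev_one, mul_one, InH2_iff] at h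
  obtain ⟨G, hG, h⟩ := h
  have h2 : T mu v y = 2 * T mu v z := by
    have := T_int mu v 2 z
    push_cast at this
    rw [← this, y]
  have h3 : T mu v z = G := two_cancel (by rw [← h2, h])
  rw [h3]; exact hG

/-- the class `s w + g z + y² p + 2 y w q` with `g` odd -/
def InC (F : PowerSeries ℤ) : Prop :=
  ∃ (s g : ℤ) (p q : Polynomial ℤ), F = (s : PowerSeries ℤ) * w + (g : PowerSeries ℤ) * z
    + y ^ 2 * ev p + 2 * y * w * ev q ∧ Odd g

theorem T_e_form (mu v : ℕ) (hv : v < 4) (p q : Polynomial ℤ) :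
    ∃ (a b : ℤ) (p' q' : Polynomial ℤ), T mu v (y ^ 2 * ev p + 2 * y * w * ev q)
      = 4 * ((a : PowerSeries ℤ) * w + ((2 * b : ℤ) : PowerSeries ℤ) * z + y ^ 2 * ev p'
          + 2 * y * w * ev q') := by
  have h1 := T_y_form mu v hv (Polynomial.X * p)
  have h2 := (T_wr_form mu v hv (Polynomial.X * q)).int_mul 1
  rw [ev_mul, ev_X, InH2_iff] at h1
  rw [ev_mul, ev_X] at h2
  obtain ⟨G, hG, h1⟩ := h1
  obtain ⟨a, b, p1, q1, hab⟩ := hG.add h2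
  push_cast at hab
  have h3 : T mu v (y ^ 2 * ev p + 2 * y * w * ev q)
      = 2 * ((a : PowerSeries ℤ) * w + (b : PowerSeries ℤ) * (2 * y) + 8 * y ^ 2 * ev p1
        + 8 * y * w * ev q1) := by
    rw [← hab, T_add]
    have e1 : y ^ 2 * ev p = y * (y * ev p) := by ring
    have e2 : (2 * y * w * ev q : PowerSeries ℤ) = ((2 : ℤ) : PowerSeries ℤ) * (w * (y * ev q)) := by
      push_cast; ring
    rw [e1, h1, e2, T_int]
    push_cast; ring
  have h4 : (2 : ℤ) ∣ a := by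
    have c := (form_coeffs a b (ev p1) (ev q1)).1
    have c0 : coeff 0 (T mu v (y ^ 2 * ev p + 2 * y * w * ev q)) = 2 * a := by
      rw [h3]
      have := coeff_intCast_mul' 0 2 ((a : PowerSeries ℤ) * w + (b : PowerSeries ℤ) * (2 * y)
        + 8 * y ^ 2 * ev p1 + 8 * y * w * ev q1)
      push_cast at this
      rw [this, c]
    have c1 : T mu v (y ^ 2 * ev p + 2 * y * w * ev q)
        = ((4 : ℤ) : PowerSeries ℤ) * T mu v (z ^ 2 * ev p + z * w * ev q) := by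
      rw [← T_int]
      congr 1
      simp only [y]; push_cast; ring
    rw [c1, coeff_intCast_mul'] at c0
    omega
  obtain ⟨a', rfl⟩ := h4
  refine ⟨a', b, Polynomial.C 4 * p1, Polynomial.C 2 * q1, ?_⟩
  rw [h3]
  simp only [ev_mul, ev_C, y]
  push_cast
  ring

theorem step (mu : ℕ) (F : PowerSeries ℤ) (hF : InC F) :
    ∃ v < 4, ∃ F', InC F' ∧ T mu v F = 4 * F' := by
  obtain ⟨s, g, p, q, rfl, hg⟩ := hF
  -- general computation for each v
  have main : ∀ v < 4, ∃ (pv kv bv cv a b : ℤ) (P Q : Polynomial ℤ),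
      T mu v ((s : PowerSeries ℤ) * w + (g : PowerSeries ℤ) * z + y ^ 2 * ev p + 2 * y * w * ev q)
        = ((s * pv + g * cv + 4 * a : ℤ) : PowerSeries ℤ) * w
          + ((4 * (s * kv + g * bv + 2 * b) : ℤ) : PowerSeries ℤ) * z
          + 4 * (y ^ 2 * ev P + 2 * y * w * ev Q) ∧
      coeff v (R2 ^ (4 * mu + 3) * w) = pv ∧
      (∃ t : ℤ, coeff (4 + v) (R2 ^ (4 * mu + 3) * w) = pv + 4 * kv + 16 * t) ∧
      coeff v (R2 ^ (4 * mu + 3) * z) = cv ∧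
      (∃ t : ℤ, coeff (4 + v) (R2 ^ (4 * mu + 3) * z) = cv + 4 * bv + 16 * t) := by
    intro v hv
    obtain ⟨pv, kv, p1, q1, h1⟩ := T_w_form mu v hv
    obtain ⟨cv, bv, p2, q2, h2⟩ := T_z_form mu v hv
    obtain ⟨a, b, p3, q3, h3⟩ := T_e_form mu v hv p q
    refine ⟨pv, kv, bv, cv, a, b, Polynomial.C (2 * s) * p1 + Polynomial.C (2 * g) * p2 + p3,
      Polynomial.C s * q1 + Polynomial.C g * q2 + q3, ?_, ?_, ?_, ?_, ?_⟩
    · rw [add_assoc, T_add, T_add, T_int, T_int, h1, h2, h3]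
      simp only [ev_add, ev_mul, ev_C, y]
      push_cast
      ring
    · have := (form_coeffs pv kv (ev p1) (ev q1)).1
      rw [← h1, coeff_T] at this
      simpa using this
    · have := (form_coeffs pv kv (ev p1) (ev q1)).2
      rw [← h1, coeff_T] at this
      simpa using this
    · have := (form_coeffs cv bv (ev p2) (ev q2)).1
      rw [← h2, coeff_T] at this
      simpa using this
    · have := (form_coeffs cv bv (ev p2) (ev q2)).2
      rw [← h2, coeff_T] at this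
      simpa using this
  obtain ⟨tw, w0, w1, w2, w3, w4, w5, w6, w7⟩ := cw mu
  obtain ⟨tz, z0, z1, z2, z3, z4, z5, z6, z7⟩ := cz mu
  obtain ⟨g', hg'⟩ := hg
  -- conclusion from divisibility
  have fin : ∀ (v : ℕ) (hv : v < 4) (A B : ℤ) (P Q : Polynomial ℤ), Odd B →
      T mu v ((s : PowerSeries ℤ) * w + (g : PowerSeries ℤ) * z + y ^ 2 * ev p + 2 * y * w * ev q)
        = ((4 * A : ℤ) : PowerSeries ℤ) * w + ((4 * B : ℤ) : PowerSeries ℤ) * z
          + 4 * (y ^ 2 * ev P + 2 * y * w * ev Q) →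
      ∃ v < 4, ∃ F', InC F' ∧ T mu v ((s : PowerSeries ℤ) * w + (g : PowerSeries ℤ) * z
        + y ^ 2 * ev p + 2 * y * w * ev q) = 4 * F' := by
    intro v hv A B P Q hB h
    refine ⟨v, hv, (A : PowerSeries ℤ) * w + (B : PowerSeries ℤ) * z + y ^ 2 * ev P
      + 2 * y * w * ev Q, ⟨A, B, P, Q, rfl, hB⟩, ?_⟩
    rw [h]; push_cast; ring
  have hcase : (s + 0 * g) % 4 = 0 ∨ (s + 1 * g) % 4 = 0 ∨ (s + 2 * g) % 4 = 0 ∨ (s + 3 * g) % 4 = 0 := by
    rcases Int.even_or_odd' g' with ⟨k, hk | hk⟩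
    · rw [hg', hk]; omega
    · rw [hg', hk]; omega
  rcases hcase with h | h | h | h
  · obtain ⟨pv, kv, bv, cv, a, b, P, Q, hT, e1, ⟨t1, e2⟩, e3, ⟨t2, e4⟩⟩ := main 0 (by norm_num)
    simp only [Nat.reduceAdd] at e2 e4
    rw [w0] at e1; rw [w4] at e2; rw [z0] at e3; rw [z4] at e4
    have hk : kv = 1 + 4 * (tw 4 - tw 0 - t1) := by omega
    have hb : bv = 3 + 4 * (tz 4 - tz 0 - t2) := by omega
    have hs : ∃ s', s = 4 * s' := ⟨s / 4, by omega⟩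
    obtain ⟨s', hs'⟩ := hs
    refine fin 0 (by norm_num) (s' * pv + g * (4 * tz 0) + a) (s * kv + g * bv + 2 * b) P Q ?_ ?_
    · rw [hk, hb, hs', hg']
      refine ⟨2 * s' * (1 + 4 * (tw 4 - tw 0 - t1)) + g' * (3 + 4 * (tz 4 - tz 0 - t2)) + 1
        + 2 * (tz 4 - tz 0 - t2) + b, ?_⟩
      ring
    · rw [hT, ← e3]
      congr 3
      rw [hs']; push_cast; ring
  · obtain ⟨pv, kv, bv, cv, a, b, P, Q, hT, e1, ⟨t1, e2⟩, e3, ⟨t2, e4⟩⟩ := main 1 (by norm_num)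
    simp only [Nat.reduceAdd] at e2 e4
    rw [w1] at e1; rw [w5] at e2; rw [z1] at e3; rw [z5] at e4
    have hk : kv = 1 + 4 * (tw 5 - tw 1 - t1) := by omega
    have hb : bv = 4 * (tz 5 - tz 1 - t2) := by omega
    have hs : ∃ s', s = -g + 4 * s' := ⟨(s + g) / 4, by omega⟩
    obtain ⟨s', hs'⟩ := hs
    refine fin 1 (by norm_num) (s' * pv - g * (2 + 4 * tw 1) + g * (4 * tz 1) + a)
      (s * kv + g * bv + 2 * b) P Q ?_ ?_
    · rw [hk, hb, hs', hg']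
      refine ⟨(-g' - 1 + 2 * s') + (-(2 * g' + 1) + 4 * s') * (2 * (tw 5 - tw 1 - t1))
        + (2 * g' + 1) * (2 * (tz 5 - tz 1 - t2)) + b, ?_⟩
      ring
    · rw [hT, ← e3, ← e1]
      congr 3
      rw [hs']; push_cast; ring
  · obtain ⟨pv, kv, bv, cv, a, b, P, Q, hT, e1, ⟨t1, e2⟩, e3, ⟨t2, e4⟩⟩ := main 2 (by norm_num)
    simp only [Nat.reduceAdd] at e2 e4
    rw [w2] at e1; rw [w6] at e2; rw [z2] at e3; rw [z6] at e4
    have hk : kv = -1 + 4 * (tw 6 - tw 2 - t1) := by omega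
    have hb : bv = 1 + 4 * (tz 6 - tz 2 - t2) := by omega
    have hs : ∃ s', s = -2 * g + 4 * s' := ⟨(s + 2 * g) / 4, by omega⟩
    obtain ⟨s', hs'⟩ := hs
    refine fin 2 (by norm_num) (s' * pv - 2 * g * (4 * tw 2) + g * (4 * tz 2) + a)
      (s * kv + g * bv + 2 * b) P Q ?_ ?_
    · rw [hk, hb, hs', hg']
      refine ⟨(-(2 * g' + 1) + 2 * s') * (-1 + 4 * (tw 6 - tw 2 - t1)) + g'
        + (2 * g' + 1) * (2 * (tz 6 - tz 2 - t2)) + b, ?_⟩
      ring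
    · rw [hT, ← e3, ← e1]
      congr 3
      rw [hs']; push_cast; ring
  · obtain ⟨pv, kv, bv, cv, a, b, P, Q, hT, e1, ⟨t1, e2⟩, e3, ⟨t2, e4⟩⟩ := main 3 (by norm_num)
    simp only [Nat.reduceAdd] at e2 e4
    rw [w3] at e1; rw [w7] at e2; rw [z3] at e3; rw [z7] at e4
    have hk : kv = -1 + 4 * (tw 7 - tw 3 - t1) := by omega
    have hb : bv = 4 * (tz 7 - tz 3 - t2) := by omega
    have hs : ∃ s', s = -3 * g + 4 * s' := ⟨(s + 3 * g) / 4, by omega⟩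
    obtain ⟨s', hs'⟩ := hs
    refine fin 3 (by norm_num) (s' * pv - 3 * g * (2 + 4 * tw 3) - 3 * g + g * (4 * tz 3) + 3 * g + a)
      (s * kv + g * bv + 2 * b) P Q ?_ ?_
    · rw [hk, hb, hs', hg']
      refine ⟨3 * g' + 1 - 2 * s' + (-3 * (2 * g' + 1) + 4 * s') * (2 * (tw 7 - tw 3 - t1))
        + (2 * g' + 1) * (2 * (tz 7 - tz 3 - t2)) + b, ?_⟩
      ring
    · rw [hT, ← e3, ← e1]
      congr 3
      rw [hs']; push_cast; ring

end Pool.Agent.Helper53.CP
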