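import Pool.Agent.Helper53.CubBasic

set_option autoImplicit false

namespace Pool.Agent.Helper53.HD

open MeasureTheory Measure

noncomputable section

theorem summable_mx {p : ℝ} (hp : 1 < p) : Summable fun m : ℤ => mx m ^ (-p) := by
  have h1 := Real.summable_abs_int_rpow hp
  have h2 : Summable fun m : ℤ => if m = 0 then (1 : ℝ) else 0 :=
    (hasSum_ite_eq (0 : ℤ) (1 : ℝ)).summable
  refine Summable.of_nonneg_of_le (fun m => Real.rpow_nonneg (mx_pos m).le _) (fun m => ?_)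
    (h1.add h2)
  by_cases hm : m = 0
  · subst hm
    simp [mx]
    exact Real.rpow_nonneg le_rfl _
  · have : mx m = |(m : ℝ)| := by
      rw [mx, max_eq_right]
      exact_mod_cast Int.one_le_abs hm
    rw [this]; simp [hm]

def mkP (k : ℤ × ℤ × ℤ) (a : ℤ) : Cub := ![a, k.1, k.2.1, k.2.2]

def tI (B c w : ℝ) (k : (ℤ × ℤ × ℤ) × ℕ) (i : ℤ × Bool × Bool) : Set ℝ :=
  {x | |x| ≤ B ∧ |f (mkP k.1 i.1) x| ≤ Pi (mkP k.1 i.1) ^ (-w) ∧
    c * 2 ^ k.2 ≤ sg i.2.1 * f1 (mkP k.1 i.1) x ∧ |f1 (mkP k.1 i.1) x| ≤ c * 2 ^ (k.2 + 1) ∧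
    0 ≤ sg i.2.2 * f2 (mkP k.1 i.1) x}

theorem f1_mkP (k : ℤ × ℤ × ℤ) (a b : ℤ) (x : ℝ) : f1 (mkP k a) x = f1 (mkP k b) x := rfl
theorem f2_mkP (k : ℤ × ℤ × ℤ) (a b : ℤ) (x : ℝ) : f2 (mkP k a) x = f2 (mkP k b) x := rfl
theorem Pi_mkP (k : ℤ × ℤ × ℤ) (a : ℤ) : Pi (mkP k a) = mx k.1 * mx k.2.1 * mx k.2.2 := rfl
theorem f_mkP (k : ℤ × ℤ × ℤ) (a b : ℤ) (x : ℝ) :
    f (mkP k b) x = f (mkP k a) x + ((b : ℝ) - a) := by
  simp [f, mkP]; ring

theorem Pi_rpow_le_one (P : Cub) {w : ℝ} (hw : 0 ≤ w) : Pi P ^ (-w) ≤ 1 :=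
  Real.rpow_le_one_of_one_le_of_nonpos (one_le_Pi P) (by linarith)

/-- bound for the constant coefficient -/
theorem abs_a0_le {B x : ℝ} (k : ℤ × ℤ × ℤ) (a : ℤ) (hx : |x| ≤ B) (h : |f (mkP k a) x| ≤ 1) :
    |(a : ℝ)| ≤ 1 + |(k.1 : ℝ)| * B + |(k.2.1 : ℝ)| * B ^ 2 + |(k.2.2 : ℝ)| * B ^ 3 := by
  have e : (a : ℝ) = f (mkP k a) x - (k.1 * x + k.2.1 * x ^ 2 + k.2.2 * x ^ 3) := by
    simp [f, mkP]
  rw [e]
  have hB : 0 ≤ B := (abs_nonneg x).trans hx
  calc |f (mkP k a) x - (k.1 * x + k.2.1 * x ^ 2 + k.2.2 * x ^ 3)|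
      ≤ |f (mkP k a) x| + |(k.1 * x + k.2.1 * x ^ 2 + k.2.2 * x ^ 3 : ℝ)| := abs_sub _ _
    _ ≤ 1 + (|(k.1 : ℝ) * x| + |(k.2.1 : ℝ) * x ^ 2| + |(k.2.2 : ℝ) * x ^ 3|) :=
        add_le_add h (abs_add_three _ _ _)
    _ ≤ _ := by
        rw [abs_mul, abs_mul, abs_mul, abs_pow, abs_pow]
        have h1 : |x| ^ 2 ≤ B ^ 2 := pow_le_pow_left₀ (abs_nonneg x) hx 2
        have h2 : |x| ^ 3 ≤ B ^ 3 := pow_le_pow_left₀ (abs_nonneg x) hx 3
        have := mul_le_mul_of_nonneg_left hx (abs_nonneg (k.1 : ℝ))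
        have := mul_le_mul_of_nonneg_left h1 (abs_nonneg (k.2.1 : ℝ))
        have := mul_le_mul_of_nonneg_left h2 (abs_nonneg (k.2.2 : ℝ))
        linarith

def MI (B : ℝ) (k : ℤ × ℤ × ℤ) : ℤ :=
  ⌈1 + |(k.1 : ℝ)| * B + |(k.2.1 : ℝ)| * B ^ 2 + |(k.2.2 : ℝ)| * B ^ 3⌉

open Classical in
def FI (B c w : ℝ) (k : (ℤ × ℤ × ℤ) × ℕ) : Finset (ℤ × Bool × Bool) :=
  ((Finset.Icc (-MI B k.1) (MI B k.1)) ×ˢ Finset.univ).filter fun i => (tI B c w k i).Nonempty

theorem mem_FI {B c w : ℝ} (hw : 0 ≤ w) {k : (ℤ × ℤ × ℤ) × ℕ} {i : ℤ × Bool × Bool} :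
    i ∈ FI B c w k ↔ (tI B c w k i).Nonempty := by
  classical
  rw [FI, Finset.mem_filter, and_iff_right_iff_imp]
  rintro ⟨x, h1, h2, -⟩
  rw [Finset.mem_product, Finset.mem_Icc]
  refine ⟨?_, Finset.mem_univ _⟩
  have h := abs_a0_le k.1 i.1 h1 (h2.trans (Pi_rpow_le_one _ hw))
  have h3 : |(i.1 : ℝ)| ≤ (MI B k.1 : ℝ) := h.trans (Int.le_ceil _)
  have h4 : |i.1| ≤ MI B k.1 := by exact_mod_cast h3
  exact abs_le.1 h4

theorem card_FI {B c w : ℝ} (hB : 1 ≤ B) (hc : 0 < c) (hw : 0 ≤ w) (k : (ℤ × ℤ × ℤ) × ℕ) :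
    ((FI B c w k).card : ℝ) ≤ 4 * (3 + 10 * B * c) * 2 ^ k.2 := by
  classical
  have h2j : (1 : ℝ) ≤ 2 ^ k.2 := one_le_pow₀ (by norm_num)
  have hBc : 0 < B * c := mul_pos (by linarith) hc
  have fib : ∀ e : Bool × Bool, (((FI B c w k).filter fun i => i.2 = e).card : ℝ)
      ≤ (3 + 10 * B * c) * 2 ^ k.2 := by
    intro e
    set A : Finset ℤ := ((FI B c w k).filter fun i => i.2 = e).image Prod.fst with hA
    have hcard : ((FI B c w k).filter fun i => i.2 = e).card = A.card := by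
      rw [hA, Finset.card_image_of_injOn]
      rintro ⟨a, e1⟩ h1 ⟨b, e2⟩ h2 h
      simp only [Finset.coe_filter, Set.mem_ofPred_eq] at h1 h2
      simp only at h
      rw [h, h1.2, h2.2]
    rw [hcard]
    have hM : (0 : ℝ) ≤ 2 + 14 / 3 * B * (c * 2 ^ (k.2 + 1)) := by positivity
    refine (card_le_of_diam hM ?_).trans ?_
    · intro a ha b hb
      rw [hA, Finset.mem_image] at ha hb
      obtain ⟨⟨a', e1⟩, ha', rfl⟩ := ha
      obtain ⟨⟨b', e2⟩, hb', rfl⟩ := hb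
      rw [Finset.mem_filter, mem_FI hw] at ha' hb'
      obtain ⟨⟨x, x1, x2, x3, x4, x5⟩, rfl⟩ := ha'
      obtain ⟨⟨y, y1, y2, y3, y4, y5⟩, h'⟩ := hb'
      simp only at h' x1 x2 x3 x4 x5 y1 y2 y3 y4 y5 ⊢
      subst h'
      have hv := vary_bound (mkP k.1 a') e2.2 x4 (by rw [f1_mkP _ _ b']; exact y4) x5
        (by rw [f2_mkP _ _ b']; exact y5)
      have hxy : |y - x| ≤ 2 * B := (abs_sub _ _).trans (by linarith)
      have hfb := f_mkP k.1 a' b' y
      have e : (a' : ℝ) - b' = (f (mkP k.1 a') y - f (mkP k.1 a') x) + f (mkP k.1 a') x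
          - f (mkP k.1 b') y := by rw [hfb]; ring
      rw [e]
      have p1 : |f (mkP k.1 a') x| ≤ 1 := x2.trans (Pi_rpow_le_one _ hw)
      have p2 : |f (mkP k.1 b') y| ≤ 1 := y2.trans (Pi_rpow_le_one _ hw)
      calc |(f (mkP k.1 a') y - f (mkP k.1 a') x) + f (mkP k.1 a') x - f (mkP k.1 b') y|
          ≤ |(f (mkP k.1 a') y - f (mkP k.1 a') x) + f (mkP k.1 a') x| + |f (mkP k.1 b') y| :=
            abs_sub _ _
        _ ≤ |f (mkP k.1 a') y - f (mkP k.1 a') x| + |f (mkP k.1 a') x| + |f (mkP k.1 b') y| := by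
            gcongr; exact abs_add_le _ _
        _ ≤ 7 / 3 * (c * 2 ^ (k.2 + 1)) * (2 * B) + 1 + 1 := by
            have : 7 / 3 * (c * 2 ^ (k.2 + 1)) * |y - x| ≤ 7 / 3 * (c * 2 ^ (k.2 + 1)) * (2 * B) :=
              mul_le_mul_of_nonneg_left hxy (by positivity)
            linarith
        _ = _ := by ring
    · rw [pow_succ]
      nlinarith
  have : (FI B c w k).card = ∑ e : Bool × Bool, ((FI B c w k).filter fun i => i.2 = e).card :=
    Finset.card_eq_sum_card_fiberwise (fun i _ => Finset.mem_univ _)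
  rw [this]
  push_cast
  calc ∑ e : Bool × Bool, (((FI B c w k).filter fun i => i.2 = e).card : ℝ)
      ≤ ∑ _e : Bool × Bool, (3 + 10 * B * c) * 2 ^ k.2 := Finset.sum_le_sum fun e _ => fib e
    _ = _ := by
        rw [Finset.sum_const, Finset.card_univ]
        simp; ring

/-- the largest of the three `mx` -/
def GG (k : ℤ × ℤ × ℤ) : ℝ := max (mx k.1) (max (mx k.2.1) (mx k.2.2))

theorem GG_pos (k : ℤ × ℤ × ℤ) : 0 < GG k := (mx_pos _).trans_le (le_max_left _ _)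

theorem GG_rpow_le (k : ℤ × ℤ × ℤ) (q : ℝ) :
    GG k ^ q ≤ mx k.1 ^ q + mx k.2.1 ^ q + mx k.2.2 ^ q := by
  have h1 := Real.rpow_nonneg (mx_pos k.1).le q
  have h2 := Real.rpow_nonneg (mx_pos k.2.1).le q
  have h3 := Real.rpow_nonneg (mx_pos k.2.2).le q
  rcases max_choice (mx k.1) (max (mx k.2.1) (mx k.2.2)) with h | h
  · rw [GG, h]; linarith
  · rw [GG, h]
    rcases max_choice (mx k.2.1) (mx k.2.2) with h | h <;> rw [h] <;> linarith

theorem abs_f1_le {B : ℝ} (hB : 1 ≤ B) (k : ℤ × ℤ × ℤ) (a : ℤ) {x : ℝ} (hx : |x| ≤ B) :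
    |f1 (mkP k a) x| ≤ 6 * B ^ 2 * GG k := by
  have e : f1 (mkP k a) x = k.1 + 2 * k.2.1 * x + 3 * k.2.2 * x ^ 2 := rfl
  rw [e]
  have g1 : |(k.1 : ℝ)| ≤ GG k := (abs_le_mx _).trans (le_max_left _ _)
  have g2 : |(k.2.1 : ℝ)| ≤ GG k :=
    (abs_le_mx _).trans ((le_max_left _ _).trans (le_max_right _ _))
  have g3 : |(k.2.2 : ℝ)| ≤ GG k :=
    (abs_le_mx _).trans ((le_max_right _ _).trans (le_max_right _ _))
  have hG := (GG_pos k).le
  have h1 : |x| ^ 2 ≤ B ^ 2 := pow_le_pow_left₀ (abs_nonneg x) hx 2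
  have hB2 : B ≤ B ^ 2 := by nlinarith
  calc |(k.1 : ℝ) + 2 * k.2.1 * x + 3 * k.2.2 * x ^ 2|
      ≤ |(k.1 : ℝ)| + |2 * (k.2.1 : ℝ) * x| + |3 * (k.2.2 : ℝ) * x ^ 2| := abs_add_three _ _ _
    _ = |(k.1 : ℝ)| + 2 * (|(k.2.1 : ℝ)| * |x|) + 3 * (|(k.2.2 : ℝ)| * |x| ^ 2) := by
        rw [abs_mul, abs_mul, abs_mul, abs_mul, abs_pow]
        norm_num; ring
    _ ≤ GG k + 2 * (GG k * B) + 3 * (GG k * B ^ 2) := by
        have := mul_le_mul g2 hx (abs_nonneg x) hG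
        have := mul_le_mul g3 h1 (by positivity) hG
        linarith
    _ ≤ _ := by nlinarith [mul_le_mul_of_nonneg_left hB2 hG, mul_le_mul_of_nonneg_left hB hG]

theorem classI {B c w s : ℝ} (hB : 1 ≤ B) (hc : 0 < c) (hw : 1 < w)
    (hs : 2 < (w + 1) * s) (hs1 : s < 1) :
    μH[s] {x : ℝ | |x| ≤ B ∧ {P : Cub | |f P x| < Pi P ^ (-w) ∧ c ≤ |f1 P x|}.Infinite} = 0 := by
  have hs0 : 0 < s := by
    by_contra h
    push Not at h
    nlinarith
  set ε : ℝ := ((w + 1) * s - 2) / 2 with hε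
  have hεp : 0 < ε := by rw [hε]; linarith
  set q : ℝ := 1 - s + ε with hq
  have hq0 : 0 < q := by rw [hq]; linarith
  set C' : ℝ := 6 * B ^ 2 / c with hC'
  have hC'0 : 0 < C' := by rw [hC']; positivity
  set K : ℝ := 4 * (3 + 10 * B * c) with hK
  have hK0 : 0 < K := by rw [hK]; positivity
  have hws : 1 < w * s - q := by rw [hq]; nlinarith
  have hws' : 1 < w * s := by linarith
  refine hausdorff_cantelli_count s hs0 (FI B c w) (tI B c w)
    (fun k => 2 * (mx k.1.1 * mx k.1.2.1 * mx k.1.2.2) ^ (-w) / (c * 2 ^ k.2)) ?_ ?_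
    (fun k => K * 2 ^ k.2 * (C' * GG k.1 / 2 ^ k.2) ^ q) ?_ ?_ _ ?_
  · intro k
    have := Real.rpow_nonneg (mul_nonneg (mul_nonneg (mx_pos k.1.1).le (mx_pos k.1.2.1).le)
      (mx_pos k.1.2.2).le) (-w)
    positivity
  · rintro k i - x ⟨-, x2, x3, x4, x5⟩ y ⟨-, y2, y3, y4, y5⟩
    exact close_of_large_deriv _ (by positivity) i.2.1 i.2.2 x3 y3 x5 y5 x2 y2
  · intro k
    rcases (FI B c w k).eq_empty_or_nonempty with h | ⟨i, hi⟩
    · have : (0 : ℝ) ≤ (C' * GG k.1 / 2 ^ k.2) ^ q :=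
        Real.rpow_nonneg (by have := GG_pos k.1; positivity) _
      rw [h]; simp only [Finset.card_empty, Nat.cast_zero]; positivity
    · rw [mem_FI (by linarith)] at hi
      obtain ⟨x, x1, x2, x3, x4, x5⟩ := hi
      have h1 : c * 2 ^ k.2 ≤ 6 * B ^ 2 * GG k.1 := by
        refine x3.trans ((le_abs_self _).trans ?_)
        rw [abs_mul, abs_sg, one_mul]
        exact abs_f1_le hB _ _ x1
      have h2 : 1 ≤ C' * GG k.1 / 2 ^ k.2 := by
        rw [le_div_iff₀ (by positivity), hC', one_mul, div_mul_eq_mul_div, le_div_iff₀ hc]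
        linarith
      have h3 := Real.one_le_rpow h2 hq0.le
      refine (card_FI hB hc (by linarith) k).trans ?_
      rw [← hK]
      exact le_mul_of_one_le_right (by positivity) h3
  · -- summability
    set r : ℝ := (2 : ℝ) ^ (-ε) with hr
    have hr0 : 0 ≤ r := Real.rpow_nonneg (by norm_num) _
    have hr1 : r < 1 := Real.rpow_lt_one_of_one_lt_of_neg (by norm_num) (by linarith)
    set v : ℤ → ℝ := fun m => mx m ^ (-(w * s)) with hv
    set u : ℤ → ℝ := fun m => mx m ^ (-(w * s - q)) with hu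
    have hvs : Summable v := summable_mx hws'
    have hus : Summable u := summable_mx hws
    have hv0 : ∀ m, 0 ≤ v m := fun m => Real.rpow_nonneg (mx_pos m).le _
    have hu0 : ∀ m, 0 ≤ u m := fun m => Real.rpow_nonneg (mx_pos m).le _
    have s3 : ∀ a b d : ℤ → ℝ, Summable a → Summable b → Summable d → (∀ m, 0 ≤ a m) →
        (∀ m, 0 ≤ b m) → (∀ m, 0 ≤ d m) →
        Summable fun k : ℤ × ℤ × ℤ => a k.1 * (b k.2.1 * d k.2.2) := by
      intro a b d ha hb hd ha0 hb0 hd0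
      have h1 := hb.mul_of_nonneg hd hb0 hd0
      exact ha.mul_of_nonneg h1 ha0 (fun p => mul_nonneg (hb0 _) (hd0 _))
    have S1 := s3 u v v hus hvs hvs hu0 hv0 hv0
    have S2 := s3 v u v hvs hus hvs hv0 hu0 hv0
    have S3 := s3 v v u hvs hvs hus hv0 hv0 hu0
    have S4 := ((S1.add S2).add S3).mul_of_nonneg (summable_geometric_of_lt_one hr0 hr1)
      (fun k => add_nonneg (add_nonneg (mul_nonneg (hu0 _) (mul_nonneg (hv0 _) (hv0 _)))
        (mul_nonneg (hv0 _) (mul_nonneg (hu0 _) (hv0 _))))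
        (mul_nonneg (hv0 _) (mul_nonneg (hv0 _) (hu0 _)))) (fun j => pow_nonneg hr0 j)
    refine Summable.of_nonneg_of_le ?_ ?_ (S4.mul_left (K * C' ^ q * (2 / c) ^ s))
    · intro k
      have := GG_pos k.1
      have := mx_pos k.1.1
      have := mx_pos k.1.2.1
      have := mx_pos k.1.2.2
      positivity
    · rintro ⟨⟨a1, a2, a3⟩, j⟩
      simp only
      have m1 := mx_pos a1
      have m2 := mx_pos a2
      have m3 := mx_pos a3
      have hG := GG_pos (a1, a2, a3)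
      have h2j : (0 : ℝ) < 2 ^ j := by positivity
      have e1 : (C' * GG (a1, a2, a3) / 2 ^ j) ^ q
          = C' ^ q * GG (a1, a2, a3) ^ q * ((2 : ℝ) ^ j) ^ (-q) := by
        rw [Real.div_rpow (by positivity) h2j.le, Real.mul_rpow hC'0.le hG.le,
          Real.rpow_neg h2j.le, div_eq_mul_inv]
      have e2 : (2 * (mx a1 * mx a2 * mx a3) ^ (-w) / (c * 2 ^ j)) ^ s
          = (2 / c) ^ s * (v a1 * (v a2 * v a3)) * ((2 : ℝ) ^ j) ^ (-s) := by
        have : 2 * (mx a1 * mx a2 * mx a3) ^ (-w) / (c * 2 ^ j)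
            = (2 / c) * (mx a1 * mx a2 * mx a3) ^ (-w) * ((2 : ℝ) ^ j)⁻¹ := by
          field_simp
        rw [this, Real.mul_rpow (by positivity) (by positivity),
          Real.mul_rpow (by positivity) (by positivity), ← Real.rpow_mul (by positivity),
          Real.inv_rpow h2j.le, ← Real.rpow_neg h2j.le]
        simp only [hv]
        rw [show -w * s = -(w * s) by ring, Real.mul_rpow (by positivity) m3.le,
          Real.mul_rpow m1.le m2.le]
        ring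
      have e3 : (2 : ℝ) ^ j * ((2 : ℝ) ^ j) ^ (-q) * ((2 : ℝ) ^ j) ^ (-s) = r ^ j := by
        have : (2 : ℝ) ^ j * ((2 : ℝ) ^ j) ^ (-q) * ((2 : ℝ) ^ j) ^ (-s)
            = ((2 : ℝ) ^ j) ^ ((1 : ℝ) + -q + -s) := by
          rw [Real.rpow_add h2j, Real.rpow_add h2j, Real.rpow_one]
        rw [this, hr, ← Real.rpow_natCast ((2 : ℝ) ^ (-ε)) j, ← Real.rpow_mul (by norm_num),
          ← Real.rpow_natCast (2 : ℝ) j, ← Real.rpow_mul (by norm_num)]
        congr 1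
        rw [hq]; ring
      have e4 : GG (a1, a2, a3) ^ q * (v a1 * (v a2 * v a3))
          ≤ u a1 * (v a2 * v a3) + v a1 * (u a2 * v a3) + v a1 * (v a2 * u a3) := by
        have hg := GG_rpow_le (a1, a2, a3) q
        simp only at hg
        have huv : ∀ m, u m = mx m ^ q * v m := by
          intro m
          simp only [hu, hv]
          rw [← Real.rpow_add (mx_pos m)]
          congr 1; ring
        rw [huv, huv, huv]
        have := mul_le_mul_of_nonneg_right hg (mul_nonneg (hv0 a1) (mul_nonneg (hv0 a2) (hv0 a3)))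
        refine this.trans (le_of_eq ?_)
        ring
      rw [e1, e2]
      calc K * 2 ^ j * (C' ^ q * GG (a1, a2, a3) ^ q * ((2 : ℝ) ^ j) ^ (-q))
            * ((2 / c) ^ s * (v a1 * (v a2 * v a3)) * ((2 : ℝ) ^ j) ^ (-s))
          = K * C' ^ q * (2 / c) ^ s * ((GG (a1, a2, a3) ^ q * (v a1 * (v a2 * v a3)))
            * ((2 : ℝ) ^ j * ((2 : ℝ) ^ j) ^ (-q) * ((2 : ℝ) ^ j) ^ (-s))) := by ring
        _ = K * C' ^ q * (2 / c) ^ s * ((GG (a1, a2, a3) ^ q * (v a1 * (v a2 * v a3)))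
            * r ^ j) := by rw [e3]
        _ ≤ _ := by
            apply mul_le_mul_of_nonneg_left _ (by positivity)
            exact mul_le_mul_of_nonneg_right e4 (pow_nonneg hr0 j)
  · rintro x ⟨hx, hinf⟩
    -- map P to its class
    have hex : ∀ P : Cub, c ≤ |f1 P x| → ∃ j : ℕ, c * 2 ^ j ≤ |f1 P x| ∧
        |f1 P x| ≤ c * 2 ^ (j + 1) := by
      intro P hP
      obtain ⟨n, h1, h2⟩ := exists_nat_pow_near (x := |f1 P x| / c) (y := 2)
        (by rwa [one_le_div hc]) (by norm_num)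
      rw [le_div_iff₀ hc] at h1
      rw [div_lt_iff₀ hc] at h2
      exact ⟨n, by linarith, by linarith⟩
    choose! j hj1 hj2 using hex
    choose e he using fun y : ℝ => exists_sg y
    refine Set.infinite_of_injOn_mapsTo (s := {P : Cub | |f P x| < Pi P ^ (-w) ∧ c ≤ |f1 P x|})
      (f := fun P => (((P 1, P 2, P 3), j P), (P 0, e (f1 P x), e (f2 P x)))) ?_ ?_ hinf
    · intro P _ Q _ h
      simp only [Prod.mk.injEq] at h
      funext i
      fin_cases i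
      · exact h.2.1
      · exact h.1.1.1
      · exact h.1.1.2.1
      · exact h.1.1.2.2
    · rintro P ⟨h1, h2⟩
      have hP : mkP (P 1, P 2, P 3) (P 0) = P := by
        funext i; fin_cases i <;> rfl
      have hmem : x ∈ tI B c w ((P 1, P 2, P 3), j P) (P 0, e (f1 P x), e (f2 P x)) := by
        refine ⟨hx, ?_⟩
        simp only [hP]
        refine ⟨h1.le, ?_, hj2 P h2, ?_⟩
        · rw [← he]; exact hj1 P h2
        · rw [← he]; exact abs_nonneg _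
      exact ⟨(mem_FI (by linarith)).2 ⟨x, hmem⟩, hmem⟩

end

end Pool.Agent.Helper53.HD
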