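import Pool.Agent.Helper53.SepD
import Pool.Agent.Helper53.ClassI

set_option autoImplicit false

namespace Pool.Agent.Helper53.HD

open MeasureTheory Measure

noncomputable section

theorem card_Icc_floor {t : ℝ} (ht : 0 ≤ t) :
    ((Finset.Icc ⌊-t⌋ ⌊t⌋).card : ℝ) ≤ 2 * t + 2 := by
  rw [Int.card_Icc]
  have h1 : ⌊-t⌋ ≤ ⌊t⌋ := Int.floor_le_floor (by linarith)
  have h2 : (0 : ℤ) ≤ ⌊t⌋ + 1 - ⌊-t⌋ := by linarith
  have h3 : (((⌊t⌋ + 1 - ⌊-t⌋).toNat : ℤ) : ℝ) = (⌊t⌋ : ℝ) + 1 - ⌊-t⌋ := by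
    rw [Int.toNat_of_nonneg h2]; push_cast; ring
  have h4 : (((⌊t⌋ + 1 - ⌊-t⌋).toNat : ℕ) : ℝ) = (⌊t⌋ : ℝ) + 1 - ⌊-t⌋ := by
    rw [← h3]; push_cast; rfl
  rw [h4]
  have := Int.floor_le t
  have := Int.lt_floor_add_one (-t)
  linarith

theorem floor_mem {u U ℓ : ℝ} (hℓ : 0 < ℓ) (hu : |u| ≤ U) :
    ⌊u / ℓ⌋ ∈ Finset.Icc ⌊-(U / ℓ)⌋ ⌊U / ℓ⌋ := by
  rw [Finset.mem_Icc]
  obtain ⟨h1, h2⟩ := abs_le.1 hu
  constructor
  · apply Int.floor_le_floor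
    rw [← neg_div]
    exact div_le_div_of_nonneg_right h1 hℓ.le
  · apply Int.floor_le_floor
    exact div_le_div_of_nonneg_right h2 hℓ.le

theorem abs_lt_of_floor {u v ℓ : ℝ} (hℓ : 0 < ℓ) (h : ⌊u / ℓ⌋ = ⌊v / ℓ⌋) : |u - v| < ℓ := by
  have := Int.abs_sub_lt_one_of_floor_eq_floor h
  rw [← sub_div, abs_div, abs_of_pos hℓ, div_lt_one hℓ] at this
  exact this

theorem card_le_of_sep2 {α : Type*} (S : Finset α) (u v : α → ℝ) {ℓ g U V : ℝ} (hℓ : 0 < ℓ)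
    (hg : 0 < g) (hU0 : 0 ≤ U) (hV0 : 0 ≤ V) (hU : ∀ a ∈ S, |u a| ≤ U) (hV : ∀ a ∈ S, |v a| ≤ V)
    (h : ∀ a ∈ S, ∀ b ∈ S, |u a - u b| < ℓ → |v a - v b| < g → a = b) :
    (S.card : ℝ) ≤ (2 * (U / ℓ) + 2) * (2 * (V / g) + 2) := by
  classical
  set T : Finset (ℤ × ℤ) := (Finset.Icc ⌊-(U / ℓ)⌋ ⌊U / ℓ⌋) ×ˢ (Finset.Icc ⌊-(V / g)⌋ ⌊V / g⌋)
  have hc : S.card ≤ T.card := by
    apply Finset.card_le_card_of_injOn (fun a => (⌊u a / ℓ⌋, ⌊v a / g⌋))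
    · intro a ha
      exact Finset.mem_product.2 ⟨floor_mem hℓ (hU a ha), floor_mem hg (hV a ha)⟩
    · intro a ha b hb hab
      simp only [Prod.mk.injEq] at hab
      exact h a ha b hb (abs_lt_of_floor hℓ hab.1) (abs_lt_of_floor hg hab.2)
  have hT : (T.card : ℝ) ≤ (2 * (U / ℓ) + 2) * (2 * (V / g) + 2) := by
    rw [Finset.card_product]
    push_cast
    exact mul_le_mul (card_Icc_floor (by positivity)) (card_Icc_floor (by positivity))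
      (Nat.cast_nonneg _) (by positivity)
  exact (Nat.cast_le.2 hc).trans hT

/-- class II pieces -/
def tII (B c w ε : ℝ) (m : Fin 4) (k : ℤ × ℕ × ℕ) (i : Cub × Bool × Bool) : Set ℝ :=
  {x | 1 ≤ B * |x| ∧ |x| ≤ B ∧ NoRat i.1 ∧ i.1 m = k.1 ∧
    (∀ l, l ≠ 0 → |(i.1 l : ℝ)| ≤ 2 * 2 ^ k.2.1) ∧
    (∀ l, l ≠ 0 → l ≠ m → ε * 2 ^ k.2.1 ≤ |(i.1 l : ℝ)|) ∧
    |f i.1 x| ≤ Pi i.1 ^ (-w) ∧ |f i.1 x| ≤ (c / 2 ^ k.2.2) ^ 2 / 2 ^ k.2.1 ∧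
    c / 2 ^ k.2.2 / 2 ≤ sg i.2.1 * f1 i.1 x ∧ |f1 i.1 x| ≤ c / 2 ^ k.2.2 ∧
    0 ≤ sg i.2.2 * f2 i.1 x ∧ 1 ≤ 2 * 2 ^ k.2.1 * (c / 2 ^ k.2.2) ^ 2}

theorem abs_P0_le {B x M : ℝ} (P : Cub) (hB : 1 ≤ B) (hx : |x| ≤ B) (h : |f P x| ≤ 1)
    (hM : ∀ l, l ≠ 0 → |(P l : ℝ)| ≤ M) : |(P 0 : ℝ)| ≤ 1 + 3 * B ^ 3 * M := by
  have hP : mkP (P 1, P 2, P 3) (P 0) = P := by
    funext i; fin_cases i <;> rfl
  have h1 := abs_a0_le (P 1, P 2, P 3) (P 0) hx (by rw [hP]; exact h)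
  simp only at h1
  have m1 := hM 1 (by decide)
  have m2 := hM 2 (by decide)
  have m3 := hM 3 (by decide)
  have hM0 : 0 ≤ M := (abs_nonneg _).trans m1
  have hB3 : B ≤ B ^ 3 := by
    calc B = B ^ 1 := (pow_one B).symm
      _ ≤ B ^ 3 := pow_le_pow_right₀ hB (by norm_num)
  have hB23 : B ^ 2 ≤ B ^ 3 := pow_le_pow_right₀ hB (by norm_num)
  have e1 : |(P 1 : ℝ)| * B ≤ M * B ^ 3 := by gcongr
  have e2 : |(P 2 : ℝ)| * B ^ 2 ≤ M * B ^ 3 := by gcongr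
  have e3 : |(P 3 : ℝ)| * B ^ 3 ≤ M * B ^ 3 := by gcongr
  linarith

open Classical in
/-- all polynomials with coefficients bounded by `M`, with two signs -/
def boxF (M : ℤ) : Finset (Cub × Bool × Bool) :=
  (Fintype.piFinset fun _ : Fin 4 => Finset.Icc (-M) M) ×ˢ Finset.univ

theorem mem_boxF {M : ℝ} {i : Cub × Bool × Bool} (h : ∀ l, |(i.1 l : ℝ)| ≤ M) :
    i ∈ boxF ⌈M⌉ := by
  rw [boxF, Finset.mem_product]
  refine ⟨?_, Finset.mem_univ _⟩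
  rw [Fintype.mem_piFinset]
  intro l
  rw [Finset.mem_Icc]
  have h3 : |(i.1 l : ℝ)| ≤ (⌈M⌉ : ℝ) := (h l).trans (Int.le_ceil _)
  have h4 : |i.1 l| ≤ ⌈M⌉ := by exact_mod_cast h3
  exact abs_le.1 h4

open Classical in
def FII (B c w ε : ℝ) (m : Fin 4) (k : ℤ × ℕ × ℕ) : Finset (Cub × Bool × Bool) :=
  (boxF ⌈1 + 3 * B ^ 3 * (2 * 2 ^ k.2.1)⌉).filter fun i => (tII B c w ε m k i).Nonempty

theorem mem_FII {B c w ε : ℝ} (hB : 1 ≤ B) (hw : 0 ≤ w) {m : Fin 4} {k : ℤ × ℕ × ℕ}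
    {i : Cub × Bool × Bool} : i ∈ FII B c w ε m k ↔ (tII B c w ε m k i).Nonempty := by
  classical
  rw [FII, Finset.mem_filter, and_iff_right_iff_imp]
  rintro ⟨x, h1, h2, h3, h4, h5, h6, h7, -⟩
  apply mem_boxF
  intro l
  have h0 := abs_P0_le i.1 hB h2 (h7.trans (Pi_rpow_le_one _ hw)) h5
  by_cases hl : l = 0
  · rw [hl]; exact h0
  · refine (h5 l hl).trans ?_
    have hB3 : 1 ≤ B ^ 3 := one_le_pow₀ hB
    have h2k : (0 : ℝ) < 2 ^ k.2.1 := by positivity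
    nlinarith

theorem card_FII {B w ε : ℝ} (hB : 1 ≤ B) (hw : 0 ≤ w) {m : Fin 4} (hm : m ≠ 0)
    (k : ℤ × ℕ × ℕ) :
    ((FII B (1 / (1000 * B ^ 3)) w ε m k).card : ℝ)
      ≤ 128 * 10 ^ 6 * B ^ 5 * (2 ^ k.2.1) ^ 2 * (1 / (1000 * B ^ 3) / 2 ^ k.2.2) := by
  classical
  set c : ℝ := 1 / (1000 * B ^ 3) with hc
  have hB0 : 0 < B := by linarith
  have hc0 : 0 < c := by rw [hc]; positivity
  set D : ℝ := c / 2 ^ k.2.2 with hD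
  set H : ℝ := 2 ^ k.2.1 with hH
  have hD0 : 0 < D := by rw [hD]; positivity
  have hH1 : 1 ≤ H := one_le_pow₀ (by norm_num)
  have hDc : 1000 * B ^ 3 * D ≤ 1 := by
    have h1 : D ≤ c := div_le_self hc0.le (one_le_pow₀ (by norm_num))
    calc 1000 * B ^ 3 * D ≤ 1000 * B ^ 3 * c := by gcongr
      _ = 1 := by rw [hc]; field_simp
  obtain ⟨d1, d2, d3⟩ := basic_small hB hD0 hDc
  rcases (FII B c w ε m k).eq_empty_or_nonempty with hemp | ⟨i0, hi0⟩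
  · rw [hemp]; simp only [Finset.card_empty, Nat.cast_zero]; positivity
  have hDH : 1 ≤ 2 * H * D ^ 2 := by
    rw [mem_FII hB hw] at hi0
    obtain ⟨x, -, -, -, -, -, -, -, -, -, -, -, h⟩ := hi0
    exact h
  set S : Finset Cub := (FII B c w ε m k).image Prod.fst with hS
  have hcard : (FII B c w ε m k).card ≤ S.card * 4 := by
    have hsub : FII B c w ε m k ⊆ S ×ˢ (Finset.univ : Finset (Bool × Bool)) := by
      intro i hi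
      exact Finset.mem_product.2 ⟨Finset.mem_image_of_mem _ hi, Finset.mem_univ _⟩
    refine (Finset.card_le_card hsub).trans ?_
    rw [Finset.card_product, Finset.card_univ]
    simp
  have hex : ∀ P : Cub, P ∈ S → ∃ x : ℝ, 1 ≤ B * |x| ∧ |x| ≤ B ∧ NoRat P ∧ P m = k.1 ∧
      (∀ l, l ≠ 0 → |(P l : ℝ)| ≤ 2 * H) ∧ |f P x| ≤ D ^ 2 / H ∧ |f1 P x| ≤ D := by
    intro P hP
    rw [hS, Finset.mem_image] at hP
    obtain ⟨i, hi, rfl⟩ := hP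
    rw [mem_FII hB hw] at hi
    obtain ⟨x, h1, h2, h3, h4, h5, h6, h7, h8, h9, h10, h11, h12⟩ := hi
    exact ⟨x, h1, h2, h3, h4, h5, h8, h10⟩
  choose! xp p1 p2 p3 p4 p5 p6 p7 using hex
  have hcs := card_le_of_sep2 S xp (fun P => (P (im m) : ℝ)) (ℓ := D / H)
    (g := 1 / (10 ^ 6 * B ^ 4 * D ^ 2)) (U := B) (V := 2 * H) (by positivity) (by positivity)
    hB0.le (by positivity) p2 ?_ ?_
  · have e1 : 2 * (B / (D / H)) + 2 ≤ 4 * (B * H / D) := by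
      have : 1 ≤ B * H / D := by
        rw [one_le_div hD0]
        nlinarith
      have e : B / (D / H) = B * H / D := by field_simp
      rw [e]; linarith
    have e2 : 2 * (2 * H / (1 / (10 ^ 6 * B ^ 4 * D ^ 2))) + 2 ≤ 8 * 10 ^ 6 * B ^ 4 * (H * D ^ 2) := by
      have e : 2 * (2 * H / (1 / (10 ^ 6 * B ^ 4 * D ^ 2))) = 4 * 10 ^ 6 * B ^ 4 * (H * D ^ 2) := by
        field_simp; ring
      rw [e]
      have hB4 : 1 ≤ B ^ 4 := one_le_pow₀ hB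
      have : 1 / 2 ≤ H * D ^ 2 := by linarith
      nlinarith
    have hcS : (S.card : ℝ) ≤ 4 * (B * H / D) * (8 * 10 ^ 6 * B ^ 4 * (H * D ^ 2)) :=
      hcs.trans (mul_le_mul e1 e2 (by positivity) (by positivity))
    have hcF : ((FII B c w ε m k).card : ℝ) ≤ S.card * 4 := by exact_mod_cast hcard
    refine hcF.trans ((mul_le_mul_of_nonneg_right hcS (by norm_num)).trans (le_of_eq ?_))
    field_simp
    ring
  · intro P hP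
    apply p5 P hP
    unfold im
    split <;> decide
  · intro P hP Q hQ h1 h2
    by_contra hne
    have := sep hB hD0 hDc hH1 hDH hm hne ((p4 P hP).trans (p4 Q hQ).symm) (p3 P hP) (p1 P hP)
      (p2 P hP) (p2 Q hQ) h1.le (p5 P hP) (p5 Q hQ) (p6 P hP) (p7 P hP) (p6 Q hQ) (p7 Q hQ)
    rw [lt_div_iff₀ (by positivity)] at h2
    nlinarith

end

end Pool.Agent.Helper53.HD
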