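import Pool.Agent.Helper53.ClassII

set_option autoImplicit false

namespace Pool.Agent.Helper53.HD

open MeasureTheory Measure

noncomputable section

/-- `max(1,|a1|,|a2|,|a3|)` -/
def GP (P : Cub) : ℝ := max (mx (P 1)) (max (mx (P 2)) (mx (P 3)))

theorem one_le_GP (P : Cub) : 1 ≤ GP P := (one_le_mx _).trans (le_max_left _ _)
theorem GP_pos (P : Cub) : 0 < GP P := zero_lt_one.trans_le (one_le_GP P)

theorem mx_le_GP (P : Cub) {l : Fin 4} (hl : l ≠ 0) : mx (P l) ≤ GP P := by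
  fin_cases l
  · exact absurd rfl hl
  · exact le_max_left _ _
  · exact (le_max_left _ _).trans (le_max_right _ _)
  · exact (le_max_right _ _).trans (le_max_right _ _)

theorem abs_le_GP (P : Cub) {l : Fin 4} (hl : l ≠ 0) : |(P l : ℝ)| ≤ GP P :=
  (abs_le_mx _).trans (mx_le_GP P hl)

theorem finite_small {B M x : ℝ} (hB : 1 ≤ B) (hx : |x| ≤ B) :
    {P : Cub | GP P ≤ M ∧ |f P x| ≤ 1}.Finite := by
  classical
  have hsub : {P : Cub | GP P ≤ M ∧ |f P x| ≤ 1} ⊆
      (fun i : Cub × Bool × Bool => i.1) '' (boxF ⌈1 + 3 * B ^ 3 * M⌉ : Set (Cub × Bool × Bool)) := by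
    rintro P ⟨h1, h2⟩
    refine ⟨(P, true, true), ?_, rfl⟩
    have hM : ∀ l, l ≠ 0 → |(P l : ℝ)| ≤ M := fun l hl => (abs_le_GP P hl).trans h1
    have h1M : 1 ≤ M := (one_le_GP P).trans h1
    apply Finset.mem_coe.2
    apply mem_boxF
    intro l
    have h0 := abs_P0_le P hB hx h2 hM
    by_cases hl : l = 0
    · rw [hl]; exact h0
    · refine (hM l hl).trans ?_
      have hB3 : 1 ≤ B ^ 3 := one_le_pow₀ hB
      nlinarith
  exact ((Finset.finite_toSet _).image _).subset hsub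

/-- dyadic size -/
theorem exists_dyadic (P : Cub) : ∃ h : ℕ, (2 : ℝ) ^ h ≤ GP P ∧ GP P ≤ 2 * 2 ^ h := by
  obtain ⟨n, h1, h2⟩ := exists_nat_pow_near (x := GP P) (y := 2) (one_le_GP P) (by norm_num)
  exact ⟨n, h1, by rw [pow_succ] at h2; linarith⟩

theorem Pi_ge (P : Cub) {m : Fin 4} (hm : m ≠ 0) {t : ℝ} (ht : 0 ≤ t)
    (h : ∀ l, l ≠ 0 → l ≠ m → t ≤ |(P l : ℝ)|) : mx (P m) * t ^ 2 ≤ Pi P := by
  have h' : ∀ l, l ≠ 0 → l ≠ m → t ≤ mx (P l) := fun l h1 h2 => (h l h1 h2).trans (abs_le_mx _)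
  have p1 := mx_pos (P 1)
  have p2 := mx_pos (P 2)
  have p3 := mx_pos (P 3)
  unfold Pi
  fin_cases m
  · exact absurd rfl hm
  · have a := h' 2 (by decide) (by decide)
    have b := h' 3 (by decide) (by decide)
    have := mul_le_mul a b ht p2.le
    have := mul_le_mul_of_nonneg_left this p1.le
    show mx (P 1) * t ^ 2 ≤ _
    nlinarith
  · have a := h' 1 (by decide) (by decide)
    have b := h' 3 (by decide) (by decide)
    have := mul_le_mul a b ht p1.le
    have := mul_le_mul_of_nonneg_left this p2.le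
    show mx (P 2) * t ^ 2 ≤ _
    nlinarith
  · have a := h' 1 (by decide) (by decide)
    have b := h' 2 (by decide) (by decide)
    have := mul_le_mul a b ht p1.le
    have := mul_le_mul_of_nonneg_left this p3.le
    show mx (P 3) * t ^ 2 ≤ _
    nlinarith

theorem classII_m {B w s ε : ℝ} (hB : 1 ≤ B) (hw : 1 < w) (hs : 2 < (w + 1) * s)
    (hs1 : s < 1) (hε : 0 < ε) {m : Fin 4} (hm : m ≠ 0) :
    μH[s] {x : ℝ | 1 ≤ B * |x| ∧ |x| ≤ B ∧ {P : Cub | NoRat P ∧ |f P x| < Pi P ^ (-w) ∧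
      1 ≤ GP P * |f1 P x| ^ 2 ∧ |f1 P x| < 1 / (1000 * B ^ 3) ∧
      (∀ l, l ≠ 0 → l ≠ m → ε * GP P ≤ |(P l : ℝ)|)}.Infinite} = 0 := by
  set c : ℝ := 1 / (1000 * B ^ 3) with hc
  have hB0 : 0 < B := by linarith
  have hc0 : 0 < c := by rw [hc]; positivity
  have hs0 : 0 < s := by
    by_contra h
    push Not at h
    nlinarith
  have hws : 1 < w * s := by nlinarith
  set K : ℝ := 128 * 10 ^ 6 * B ^ 5 with hK
  have hK0 : 0 < K := by rw [hK]; positivity
  refine hausdorff_cantelli_count s hs0 (FII B c w ε m) (tII B c w ε m)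
    (fun k => 4 * (mx k.1 * (ε * 2 ^ k.2.1) ^ 2) ^ (-w) / (c / 2 ^ k.2.2)) ?_ ?_
    (fun k => K * (2 ^ k.2.1) ^ 2 * (c / 2 ^ k.2.2)) ?_ ?_ _ ?_
  · intro k
    have := mx_pos k.1
    positivity
  · rintro k i - x ⟨x1, x2, x3, x4, x5, x6, x7, x8, x9, x10, x11, x12⟩ y
      ⟨y1, y2, y3, y4, y5, y6, y7, y8, y9, y10, y11, y12⟩
    have hδ : Pi i.1 ^ (-w) ≤ (mx k.1 * (ε * 2 ^ k.2.1) ^ 2) ^ (-w) := by
      apply Real.rpow_le_rpow_of_nonpos _ _ (by linarith)
      · have := mx_pos k.1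
        positivity
      · rw [← x4]
        exact Pi_ge i.1 hm (by positivity) x6
    have := close_of_large_deriv i.1 (by positivity) i.2.1 i.2.2 x9 y9 x11 y11 (x7.trans hδ)
      (y7.trans hδ)
    refine this.trans (le_of_eq ?_)
    field_simp
    ring
  · intro k
    exact card_FII hB (by linarith) hm k
  · -- summability
    set r : ℝ := (2 : ℝ) ^ (2 - 2 * (w * s)) with hr
    set r' : ℝ := (2 : ℝ) ^ (s - 1) with hr'
    have hr0 : 0 ≤ r := Real.rpow_nonneg (by norm_num) _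
    have hr1 : r < 1 := Real.rpow_lt_one_of_one_lt_of_neg (by norm_num) (by linarith)
    have hr'0 : 0 ≤ r' := Real.rpow_nonneg (by norm_num) _
    have hr'1 : r' < 1 := Real.rpow_lt_one_of_one_lt_of_neg (by norm_num) (by linarith)
    have S1 := (summable_geometric_of_lt_one hr0 hr1).mul_of_nonneg
      (summable_geometric_of_lt_one hr'0 hr'1) (fun j => pow_nonneg hr0 j)
      (fun j => pow_nonneg hr'0 j)
    have S2 := (summable_mx hws).mul_of_nonneg S1 (fun m => Real.rpow_nonneg (mx_pos m).le _)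
      (fun p => mul_nonneg (pow_nonneg hr0 _) (pow_nonneg hr'0 _))
    refine (S2.mul_left (K * c * (4 / c) ^ s * (ε ^ 2) ^ (-(w * s)))).congr ?_
    rintro ⟨A, h, j⟩
    simp only
    have mA := mx_pos A
    have h2j : (0 : ℝ) < 2 ^ j := by positivity
    have h2h : (0 : ℝ) < 2 ^ h := by positivity
    have e1 : (4 * (mx A * (ε * 2 ^ h) ^ 2) ^ (-w) / (c / 2 ^ j)) ^ s
        = (4 / c) ^ s * (mx A ^ (-(w * s)) * ((ε ^ 2) ^ (-(w * s)) * ((2 ^ h) ^ 2) ^ (-(w * s))))
          * ((2 : ℝ) ^ j) ^ s := by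
      have : 4 * (mx A * (ε * 2 ^ h) ^ 2) ^ (-w) / (c / 2 ^ j)
          = 4 / c * (mx A * (ε ^ 2 * (2 ^ h) ^ 2)) ^ (-w) * 2 ^ j := by
        rw [mul_pow]
        field_simp
      rw [this, Real.mul_rpow (by positivity) (by positivity),
          Real.mul_rpow (by positivity) (by positivity), ← Real.rpow_mul (by positivity),
          show -w * s = -(w * s) by ring, Real.mul_rpow (by positivity) (by positivity),
          Real.mul_rpow (by positivity) (by positivity)]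
    have e2 : ((2 : ℝ) ^ h) ^ 2 * (((2 : ℝ) ^ h) ^ 2) ^ (-(w * s)) = r ^ h := by
      have : ((2 : ℝ) ^ h) ^ 2 * (((2 : ℝ) ^ h) ^ 2) ^ (-(w * s))
          = (((2 : ℝ) ^ h) ^ 2) ^ (1 + -(w * s)) := by
        rw [Real.rpow_add (by positivity), Real.rpow_one]
      rw [this, hr, ← Real.rpow_natCast ((2 : ℝ) ^ (2 - 2 * (w * s))) h,
        ← Real.rpow_mul (by norm_num), ← pow_mul, ← Real.rpow_natCast (2 : ℝ) (h * 2),
        ← Real.rpow_mul (by norm_num)]
      congr 1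
      push_cast; ring
    have e3 : ((2 : ℝ) ^ j)⁻¹ * ((2 : ℝ) ^ j) ^ s = r' ^ j := by
      have : ((2 : ℝ) ^ j)⁻¹ * ((2 : ℝ) ^ j) ^ s = ((2 : ℝ) ^ j) ^ (-1 + s) := by
        rw [Real.rpow_add h2j, Real.rpow_neg_one]
      rw [this, hr', ← Real.rpow_natCast ((2 : ℝ) ^ (s - 1)) j,
        ← Real.rpow_mul (by norm_num), ← Real.rpow_natCast (2 : ℝ) j,
        ← Real.rpow_mul (by norm_num)]
      congr 1
      ring
    rw [e1, ← e2, ← e3]
    ring
  · rintro x ⟨hx1, hx, hinf⟩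
    -- threshold
    obtain ⟨M, hM⟩ : ∃ M : ℝ, 1 ≤ M ∧ ∀ H : ℝ, 1 ≤ H → M < 2 * H →
        ((ε * H) ^ 2) ^ (-w) ≤ 1 / (2 * H ^ 2) := by
      have hlim := tendsto_rpow_atTop (y := 2 * w - 2) (by linarith)
      obtain ⟨M0, hM0⟩ := (hlim.eventually_ge_atTop (2 * (ε ^ 2) ^ (-w))).exists_forall_of_atTop
      refine ⟨max 1 (2 * M0), le_max_left _ _, fun H hH1 hH => ?_⟩
      have h1 := hM0 H (by linarith [le_max_right 1 (2 * M0)])
      have hH0 : 0 < H := by linarith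
      rw [mul_pow, Real.mul_rpow (by positivity) (by positivity), le_div_iff₀ (by positivity)]
      have e : (H ^ 2) ^ (-w) * (H ^ (2 * w - 2) * H ^ 2) = 1 := by
        rw [← Real.rpow_natCast H 2, ← Real.rpow_mul hH0.le, ← Real.rpow_add hH0,
          ← Real.rpow_add hH0]
        norm_num
      have hp : 0 < (H ^ 2) ^ (-w) := by positivity
      calc (ε ^ 2) ^ (-w) * (H ^ 2) ^ (-w) * (2 * H ^ 2)
          = 2 * (ε ^ 2) ^ (-w) * ((H ^ 2) ^ (-w) * H ^ 2) := by ring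
        _ ≤ H ^ (2 * w - 2) * ((H ^ 2) ^ (-w) * H ^ 2) :=
            mul_le_mul_of_nonneg_right h1 (by positivity)
        _ = 1 := by rw [← e]; ring
    have hinf2 := hinf.sdiff (finite_small (M := M) hB hx)
    have hexj : ∀ P : Cub, 1 ≤ GP P * |f1 P x| ^ 2 → |f1 P x| < c →
        ∃ j : ℕ, c / 2 ^ j / 2 ≤ |f1 P x| ∧ |f1 P x| ≤ c / 2 ^ j := by
      intro P hP1 hP2
      have hpos : 0 < |f1 P x| := by
        by_contra hcon
        have : |f1 P x| = 0 := le_antisymm (not_lt.1 hcon) (abs_nonneg _)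
        rw [this] at hP1
        norm_num at hP1
      obtain ⟨n, h1, h2⟩ := exists_nat_pow_near (x := c / |f1 P x|) (y := 2)
        (by rw [one_le_div hpos]; exact hP2.le) (by norm_num)
      rw [le_div_iff₀ hpos] at h1
      rw [div_lt_iff₀ hpos] at h2
      have h2n : (0 : ℝ) < 2 ^ n := by positivity
      refine ⟨n, ?_, ?_⟩
      · rw [div_div, div_le_iff₀ (by positivity), ← pow_succ, mul_comm]; exact h2.le
      · rw [le_div_iff₀ h2n, mul_comm]; exact h1
    choose! j hj1 hj2 using hexj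
    choose h hh1 hh2 using exists_dyadic
    choose e he using fun y : ℝ => exists_sg y
    refine Set.infinite_of_injOn_mapsTo (f := fun P : Cub => ((P m, h P, j P),
      (P, e (f1 P x), e (f2 P x)))) ?_ ?_ hinf2
    · intro P _ Q _ h
      simp only [Prod.mk.injEq] at h
      exact h.2.1
    · rintro P ⟨⟨h1, h2, h3, h4, h5⟩, hnot⟩
      have hbig : M < GP P := by
        by_contra hcon
        exact hnot ⟨not_lt.1 hcon, h2.le.trans (Pi_rpow_le_one _ (by linarith))⟩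
      have hHpos : (0 : ℝ) < 2 ^ h P := by positivity
      have hDH : 1 ≤ 2 * 2 ^ h P * (c / 2 ^ j P) ^ 2 := by
        have := hj2 P h3 h4
        have h6 : |f1 P x| ^ 2 ≤ (c / 2 ^ j P) ^ 2 := pow_le_pow_left₀ (abs_nonneg _) this 2
        calc 1 ≤ GP P * |f1 P x| ^ 2 := h3
          _ ≤ (2 * 2 ^ h P) * (c / 2 ^ j P) ^ 2 :=
              mul_le_mul (hh2 P) h6 (by positivity) (by positivity)
      have h5' : ∀ l, l ≠ 0 → l ≠ m → ε * 2 ^ h P ≤ |(P l : ℝ)| := fun l a b =>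
        (mul_le_mul_of_nonneg_left (hh1 P) hε.le).trans (h5 l a b)
      have hmem : x ∈ tII B c w ε m (P m, h P, j P) (P, e (f1 P x), e (f2 P x)) := by
        refine ⟨hx1, hx, h1, rfl, fun l hl => (abs_le_GP P hl).trans (hh2 P), h5', h2.le, ?_, ?_,
          hj2 P h3 h4, ?_, hDH⟩
        · refine h2.le.trans ?_
          have a1 : Pi P ^ (-w) ≤ ((ε * 2 ^ h P) ^ 2) ^ (-w) := by
            apply Real.rpow_le_rpow_of_nonpos (by positivity) _ (by linarith)
            refine le_trans ?_ (Pi_ge P hm (by positivity) h5')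
            exact le_mul_of_one_le_left (by positivity) (one_le_mx _)
          refine a1.trans ((hM.2 (2 ^ h P) (one_le_pow₀ (by norm_num))
            (hbig.trans_le (hh2 P))).trans ?_)
          show 1 / (2 * ((2 : ℝ) ^ h P) ^ 2) ≤ (c / 2 ^ j P) ^ 2 / 2 ^ h P
          rw [div_le_div_iff₀ (by positivity) hHpos]
          nlinarith
        · show _ ≤ sg (e (f1 P x)) * f1 P x
          rw [← he]; exact hj1 P h3 h4
        · show 0 ≤ sg (e (f2 P x)) * f2 P x
          rw [← he]; exact abs_nonneg _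
      exact ⟨(mem_FII hB (by linarith)).2 ⟨x, hmem⟩, hmem⟩

end

end Pool.Agent.Helper53.HD
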