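import Pool.Agent.Helper53.BezB
import Pool.Agent.Helper53.ClassIIM

set_option autoImplicit false

namespace Pool.Agent.Helper53.HD

open MeasureTheory Measure

noncomputable section

theorem sepIII {B H r lam : ℝ} (hB : 1 ≤ B) (hlam : lam = 1 / (10 ^ 6 * B ^ 3)) (hH : 1 ≤ H)
    (hr : 0 < r) (hrH : r ^ 2 * H = 1) {P Q : Cub}
    (hP : Irreducible (toP P)) (hQ : Irreducible (toP Q)) (hP3 : P 3 ≠ 0) (hQ3 : Q 3 ≠ 0)
    {x y : ℝ} (hx : |x| ≤ B) (hy : |y| ≤ B) (hxy : |x - y| ≤ lam * r ^ 3)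
    (cP : ∀ l, l ≠ 0 → |(P l : ℝ)| ≤ 2 * H) (cQ : ∀ l, l ≠ 0 → |(Q l : ℝ)| ≤ 2 * H)
    (fP : |f P x| ≤ lam * r ^ 4) (f1P : |f1 P x| ≤ r)
    (fQ : |f Q y| ≤ lam * r ^ 4) (f1Q : |f1 Q y| ≤ r) : P = Q ∨ P = -Q := by
  have hB3 : 1 ≤ B ^ 3 := one_le_pow₀ hB
  have hB0 : 0 < B := by linarith
  have hlam0 : 0 < lam := by rw [hlam]; positivity
  have hlamB : lam * (10 ^ 6 * B ^ 3) = 1 := by rw [hlam]; field_simp
  have hBB3 : B ≤ B ^ 3 := by
    calc B = B ^ 1 := (pow_one B).symm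
      _ ≤ B ^ 3 := pow_le_pow_right₀ hB (by norm_num)
  have hlam1 : 16 * B * lam ≤ 1 := by nlinarith
  have hH0 : 0 < H := by linarith
  have hr1 : r ≤ 1 := by
    by_contra hcon
    push Not at hcon
    nlinarith [mul_pos hr hr]
  set α : ℝ := 1 / (200 * (8 * B) ^ 3) with hα
  have hα3 : 3 * lam ≤ α := by
    rw [hα, hlam, mul_one_div, div_le_div_iff₀ (by positivity) (by positivity)]
    nlinarith
  have e2Q : ∀ z : ℝ, |z| ≤ B → |f2 Q z| ≤ 16 * B * H := fun z hz =>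
    abs_f2_le hB hH0.le hz (cQ 2 (by decide)) (cQ 3 (by decide))
  have e2P : ∀ z : ℝ, |z| ≤ B → |f2 P z| ≤ 16 * B * H := fun z hz =>
    abs_f2_le hB hH0.le hz (cP 2 (by decide)) (cP 3 (by decide))
  have hdet : (bezM P Q).det = 0 := by
    apply int_eq_zero_of_abs_lt
    rw [← det_tay P Q x]
    refine det_bound (K := 8 * B) (by linarith) hα hr hr1 _ _ ?_ ?_ ?_ ?_ ?_ ?_ ?_ ?_
    · show |f P x| ≤ _
      have : lam * r ^ 4 ≤ α * r ^ 4 := mul_le_mul_of_nonneg_right (by linarith) (by positivity)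
      exact fP.trans this
    · show |f1 P x| ≤ _
      linarith
    · show |f2 P x / 2| * r ^ 2 ≤ _
      rw [abs_div, abs_two]
      have := mul_le_mul_of_nonneg_right (e2P x hx) (sq_nonneg r)
      nlinarith
    · show |(P 3 : ℝ)| * r ^ 2 ≤ _
      have := mul_le_mul_of_nonneg_right (cP 3 (by decide)) (sq_nonneg r)
      nlinarith
    · show |f Q x| ≤ _
      have h1 := taylor_a Q y x
      have e : f Q x = f Q y + f1 Q y * (x - y) + (x - y) ^ 2 * (f2 Q y / 3 + f2 Q x / 6) := by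
        linarith
      rw [e]
      have b1 : |f1 Q y * (x - y)| ≤ lam * r ^ 4 := by
        rw [abs_mul]
        have := mul_le_mul f1Q hxy (abs_nonneg _) hr.le
        nlinarith
      have b2 : |(x - y) ^ 2 * (f2 Q y / 3 + f2 Q x / 6)| ≤ lam * r ^ 4 := by
        rw [abs_mul, abs_pow]
        have s1 : |f2 Q y / 3 + f2 Q x / 6| ≤ 8 * B * H := by
          refine (abs_add_le _ _).trans ?_
          rw [abs_div, abs_div, abs_of_pos (by norm_num : (0 : ℝ) < 3),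
            abs_of_pos (by norm_num : (0 : ℝ) < 6)]
          linarith [e2Q x hx, e2Q y hy]
        have s2 : |x - y| ^ 2 ≤ (lam * r ^ 3) ^ 2 := pow_le_pow_left₀ (abs_nonneg _) hxy 2
        calc |x - y| ^ 2 * |f2 Q y / 3 + f2 Q x / 6|
            ≤ (lam * r ^ 3) ^ 2 * (8 * B * H) := mul_le_mul s2 s1 (abs_nonneg _) (by positivity)
          _ = (8 * B * lam) * (lam * r ^ 4) * (r ^ 2 * H) := by ring
          _ = (8 * B * lam) * (lam * r ^ 4) := by rw [hrH, mul_one]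
          _ ≤ 1 * (lam * r ^ 4) := by
              apply mul_le_mul_of_nonneg_right _ (by positivity)
              linarith
          _ = _ := one_mul _
      calc |f Q y + f1 Q y * (x - y) + (x - y) ^ 2 * (f2 Q y / 3 + f2 Q x / 6)|
          ≤ |f Q y| + |f1 Q y * (x - y)| + |(x - y) ^ 2 * (f2 Q y / 3 + f2 Q x / 6)| :=
            abs_add_three _ _ _
        _ ≤ 3 * lam * r ^ 4 := by linarith
        _ ≤ α * r ^ 4 := mul_le_mul_of_nonneg_right hα3 (by positivity)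
    · show |f1 Q x| ≤ _
      have h1 := taylor_1 Q y x
      have e : f1 Q x = f1 Q y + (x - y) * (f2 Q y + f2 Q x) / 2 := by linarith
      rw [e]
      have b1 : |(x - y) * (f2 Q y + f2 Q x) / 2| ≤ r := by
        rw [abs_div, abs_two, abs_mul]
        have s1 : |f2 Q y + f2 Q x| ≤ 32 * B * H := by
          refine (abs_add_le _ _).trans ?_
          linarith [e2Q x hx, e2Q y hy]
        have := mul_le_mul hxy s1 (abs_nonneg _) (by positivity)
        have e3 : lam * r ^ 3 * (32 * B * H) = 2 * (16 * B * lam) * r * (r ^ 2 * H) := by ring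
        rw [e3, hrH] at this
        nlinarith
      exact (abs_add_le _ _).trans (by linarith)
    · show |f2 Q x / 2| * r ^ 2 ≤ _
      rw [abs_div, abs_two]
      have := mul_le_mul_of_nonneg_right (e2Q x hx) (sq_nonneg r)
      nlinarith
    · show |(Q 3 : ℝ)| * r ^ 2 ≤ _
      have := mul_le_mul_of_nonneg_right (cQ 3 (by decide)) (sq_nonneg r)
      nlinarith
  exact bez_zero hP hQ hP3 hQ3 hdet

/-- two points on the same piece with `|f| ≤ τ |f2|` are close -/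
theorem close_of_f2 (P : Cub) {τ : ℝ} {x y : ℝ} (e1 e2 : Bool)
    (h1x : 0 ≤ sg e1 * f1 P x) (h1y : 0 ≤ sg e1 * f1 P y)
    (h2x : 0 < sg e2 * f2 P x) (h2y : 0 < sg e2 * f2 P y)
    (hx : |f P x| ≤ τ * (sg e2 * f2 P x)) (hy : |f P y| ≤ τ * (sg e2 * f2 P y)) :
    |x - y| ≤ Real.sqrt (6 * τ) := by
  have key : ∀ u v : ℝ, u ≤ v → 0 ≤ sg e1 * f1 P u → 0 ≤ sg e1 * f1 P v →
      0 < sg e2 * f2 P u → 0 < sg e2 * f2 P v → |f P u| ≤ τ * (sg e2 * f2 P u) →
      |f P v| ≤ τ * (sg e2 * f2 P v) → |u - v| ≤ Real.sqrt (6 * τ) := by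
    intro u v huv a1 a2 a3 a4 a5 a6
    apply Real.abs_le_sqrt
    have h : 0 ≤ v - u := sub_nonneg.2 huv
    set s := sg e2 * f2 P u + sg e2 * f2 P v with hs
    have hs0 : 0 < s := by rw [hs]; linarith
    have h1 : |f P v - f P u| ≤ τ * s := by
      refine (abs_sub _ _).trans ?_
      rw [hs]; linarith
    have h2 : (v - u) ^ 2 * (s / 6) ≤ |f P v - f P u| := by
      have h3 : (v - u) ^ 2 * (s / 6) ≤ sg e1 * (f P v - f P u) ∨
          (v - u) ^ 2 * (s / 6) ≤ -(sg e1 * (f P v - f P u)) := by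
        rcases e1 with _ | _ <;> rcases e2 with _ | _ <;>
          simp only [sg, if_true, Bool.false_eq_true, if_false] at *
        · left
          rw [taylor_a]
          nlinarith [mul_nonneg a1 h, mul_nonneg (sq_nonneg (v - u)) a3.le]
        · left
          rw [taylor_b]
          nlinarith [mul_nonneg a2 h, mul_nonneg (sq_nonneg (v - u)) a4.le]
        · left
          rw [taylor_b]
          nlinarith [mul_nonneg a2 h, mul_nonneg (sq_nonneg (v - u)) a4.le]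
        · left
          rw [taylor_a]
          nlinarith [mul_nonneg a1 h, mul_nonneg (sq_nonneg (v - u)) a3.le]
      have h4 : |sg e1 * (f P v - f P u)| = |f P v - f P u| := by
        rw [abs_mul, abs_sg, one_mul]
      rw [← h4]
      rcases h3 with h3 | h3
      · exact h3.trans (le_abs_self _)
      · exact h3.trans (neg_le_abs _)
    have h5 := h2.trans h1
    have h6 : (v - u) ^ 2 * s ≤ 6 * τ * s := by linarith
    have h7 := le_of_mul_le_mul_right h6 hs0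
    calc (u - v) ^ 2 = (v - u) ^ 2 := by ring
      _ ≤ 6 * τ := h7
  rcases le_total x y with h | h
  · exact key x y h h1x h1y h2x h2y hx hy
  · rw [abs_sub_comm]; exact key y x h h1y h1x h2y h2x hy hx

/-- class III pieces; `k` is the dyadic exponent -/
def tIII (B w C : ℝ) (k : ℕ) (i : Cub × Bool × Bool) : Set ℝ :=
  {x | |x| ≤ B ∧ Irreducible (toP i.1) ∧ i.1 3 ≠ 0 ∧
    (∀ l, l ≠ 0 → |(i.1 l : ℝ)| ≤ 2 * 2 ^ k) ∧ 2 ^ k * |f1 i.1 x| ^ 2 ≤ 1 ∧
    (2 ^ k) ^ 2 * |f i.1 x| ≤ 1 / (10 ^ 6 * B ^ 3) ∧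
    0 ≤ sg i.2.1 * f1 i.1 x ∧ 0 < sg i.2.2 * f2 i.1 x ∧
    |f i.1 x| ≤ C * ((2 : ℝ) ^ k) ^ (-(2 * w + 1)) * (sg i.2.2 * f2 i.1 x)}

open Classical in
def FIII (B w C : ℝ) (k : ℕ) : Finset (Cub × Bool × Bool) :=
  (boxF ⌈1 + 3 * B ^ 3 * (2 * 2 ^ k)⌉).filter fun i => (tIII B w C k i).Nonempty

theorem mem_FIII {B w C : ℝ} (hB : 1 ≤ B) {k : ℕ} {i : Cub × Bool × Bool} :
    i ∈ FIII B w C k ↔ (tIII B w C k i).Nonempty := by
  classical
  rw [FIII, Finset.mem_filter, and_iff_right_iff_imp]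
  rintro ⟨x, h1, h2, h3, h4, h5, h6, -⟩
  apply mem_boxF
  intro l
  have hf1 : |f i.1 x| ≤ 1 := by
    have hB3 : 1 ≤ B ^ 3 := one_le_pow₀ hB
    have h7 : (1 : ℝ) / (10 ^ 6 * B ^ 3) ≤ 1 := by
      rw [div_le_one (by positivity)]; nlinarith
    have h8 : (1 : ℝ) ≤ (2 ^ k) ^ 2 := one_le_pow₀ (one_le_pow₀ (by norm_num))
    nlinarith [abs_nonneg (f i.1 x)]
  have h0 := abs_P0_le i.1 hB h1 hf1 h4
  by_cases hl : l = 0
  · rw [hl]; exact h0
  · refine (h4 l hl).trans ?_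
    have hB3 : 1 ≤ B ^ 3 := one_le_pow₀ hB
    have h2k : (0 : ℝ) < 2 ^ k := by positivity
    nlinarith

theorem card_FIII {B w C : ℝ} (hB : 1 ≤ B) (k : ℕ) :
    ((FIII B w C k).card : ℝ) ≤ 64 * 10 ^ 6 * B ^ 4 * ((2 : ℝ) ^ k) ^ (3 / 2 : ℝ) := by
  classical
  set H : ℝ := 2 ^ k with hH
  have hH1 : 1 ≤ H := one_le_pow₀ (by norm_num)
  have hH0 : 0 < H := by linarith
  have hB0 : 0 < B := by linarith
  set r : ℝ := H ^ (-(1 / 2) : ℝ) with hr
  have hr0 : 0 < r := Real.rpow_pos_of_pos hH0 _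
  have hrH : r ^ 2 * H = 1 := by
    rw [hr, ← Real.rpow_natCast (H ^ (-(1 / 2) : ℝ)) 2, ← Real.rpow_mul hH0.le]
    have : (-(1 / 2) : ℝ) * ((2 : ℕ) : ℝ) = -1 := by norm_num
    rw [this, Real.rpow_neg_one]
    field_simp
  set lam : ℝ := 1 / (10 ^ 6 * B ^ 3) with hlam
  have hlam0 : 0 < lam := by rw [hlam]; positivity
  set S : Finset Cub := (FIII B w C k).image Prod.fst with hS
  have hcard : (FIII B w C k).card ≤ S.card * 4 := by
    have hsub : FIII B w C k ⊆ S ×ˢ (Finset.univ : Finset (Bool × Bool)) := by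
      intro i hi
      exact Finset.mem_product.2 ⟨Finset.mem_image_of_mem _ hi, Finset.mem_univ _⟩
    refine (Finset.card_le_card hsub).trans ?_
    rw [Finset.card_product, Finset.card_univ]
    simp
  have hex : ∀ P : Cub, P ∈ S → ∃ x : ℝ, |x| ≤ B ∧ Irreducible (toP P) ∧ P 3 ≠ 0 ∧
      (∀ l, l ≠ 0 → |(P l : ℝ)| ≤ 2 * H) ∧ H * |f1 P x| ^ 2 ≤ 1 ∧ H ^ 2 * |f P x| ≤ lam := by
    intro P hP
    rw [hS, Finset.mem_image] at hP
    obtain ⟨i, hi, rfl⟩ := hP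
    rw [mem_FIII hB] at hi
    obtain ⟨x, h1, h2, h3, h4, h5, h6, h7, h8, h9⟩ := hi
    exact ⟨x, h1, h2, h3, h4, h5, h6⟩
  choose! xp p1 p2 p3 p4 p5 p6 using hex
  have hcs := card_le_of_sep2 S xp (fun P => ((P 3).sign : ℝ)) (ℓ := lam * r ^ 3)
    (g := 1) (U := B) (V := 1) (by positivity) (by positivity)
    hB0.le (by positivity) p1 ?_ ?_
  · have hr3 : r ^ 3 * H ^ (3 / 2 : ℝ) = 1 := by
      rw [hr, ← Real.rpow_natCast (H ^ (-(1 / 2) : ℝ)) 3, ← Real.rpow_mul hH0.le,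
        ← Real.rpow_add hH0]
      norm_num
    have hH32 : 0 < H ^ (3 / 2 : ℝ) := Real.rpow_pos_of_pos hH0 _
    have e1 : B / (lam * r ^ 3) = 10 ^ 6 * B ^ 4 * H ^ (3 / 2 : ℝ) := by
      rw [div_eq_iff (by positivity)]
      calc B = B * (r ^ 3 * H ^ (3 / 2 : ℝ)) * ((10 ^ 6 * B ^ 3) * lam) := by
            rw [hr3, hlam]; field_simp
        _ = _ := by ring
    rw [e1] at hcs
    have h1 : 1 ≤ H ^ (3 / 2 : ℝ) := Real.one_le_rpow hH1 (by norm_num)
    have hB4 : 1 ≤ B ^ 4 := one_le_pow₀ hB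
    have h2 : 1 ≤ B ^ 4 * H ^ (3 / 2 : ℝ) := one_le_mul_of_one_le_of_one_le hB4 h1
    have hcF : ((FIII B w C k).card : ℝ) ≤ S.card * 4 := by exact_mod_cast hcard
    refine hcF.trans ?_
    nlinarith
  · intro P hP
    have : |((P 3).sign : ℤ)| ≤ 1 := by
      rcases lt_trichotomy (P 3) 0 with h | h | h
      · rw [Int.sign_eq_neg_one_of_neg h]; norm_num
      · rw [h]; norm_num
      · rw [Int.sign_eq_one_of_pos h]; norm_num
    exact_mod_cast this
  · intro P hP Q hQ h1 h2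
    have habs : ∀ {P : Cub}, H * |f1 P (xp P)| ^ 2 ≤ 1 → |f1 P (xp P)| ≤ r := by
      intro P hP
      apply le_of_sq_le_sq _ hr0.le |>.trans le_rfl
      nlinarith
    have hfr : ∀ {P : Cub}, H ^ 2 * |f P (xp P)| ≤ lam → |f P (xp P)| ≤ lam * r ^ 4 := by
      intro P hP
      have : r ^ 4 * H ^ 2 = 1 := by
        calc r ^ 4 * H ^ 2 = (r ^ 2 * H) ^ 2 := by ring
          _ = 1 := by rw [hrH]; norm_num
      calc |f P (xp P)| = (H ^ 2 * |f P (xp P)|) * r ^ 4 := by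
            linear_combination (-|f P (xp P)|) * this
        _ ≤ _ := mul_le_mul_of_nonneg_right hP (by positivity)
    have h3 := sepIII hB hlam hH1 hr0 hrH (p2 P hP) (p2 Q hQ) (p3 P hP) (p3 Q hQ) (p1 P hP)
      (p1 Q hQ) h1.le (p4 P hP) (p4 Q hQ) (hfr (p6 P hP)) (habs (p5 P hP)) (hfr (p6 Q hQ))
      (habs (p5 Q hQ))
    rcases h3 with h3 | h3
    · exact h3
    · exfalso
      have h4 : (P 3).sign = (Q 3).sign := by
        have h5 : (((P 3).sign - (Q 3).sign : ℤ) : ℝ) = ((P 3).sign : ℝ) - (Q 3).sign := by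
          push_cast; ring
        rw [← h5] at h2
        exact sub_eq_zero.1 (int_eq_zero_of_abs_lt h2)
      rw [h3, Pi.neg_apply, Int.sign_neg] at h4
      have h6 : (Q 3).sign ≠ 0 := by
        rw [Ne, Int.sign_eq_zero_iff_zero]; exact p3 Q hQ
      omega

theorem classIII' {B w s C : ℝ} (hB : 1 ≤ B) (hw : 1 < w) (hs : 2 < (w + 1) * s)
    (hs1 : s < 1) (hC : 0 ≤ C) :
    μH[s] {x : ℝ | |x| ≤ B ∧ {P : Cub | Irreducible (toP P) ∧ P 3 ≠ 0 ∧
      GP P * |f1 P x| ^ 2 ≤ 1 ∧ GP P ^ 2 * |f P x| ≤ 1 / (10 ^ 6 * B ^ 3) ∧ f2 P x ≠ 0 ∧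
      |f P x| ≤ C * GP P ^ (-(2 * w + 1)) * |f2 P x|}.Infinite} = 0 := by
  have hs0 : 0 < s := by
    by_contra h
    push Not at h
    nlinarith
  have hws : 3 < (2 * w + 1) * s := by nlinarith
  refine hausdorff_cantelli_count s hs0 (FIII B w C) (tIII B w C)
    (fun k => Real.sqrt (6 * (C * ((2 : ℝ) ^ k) ^ (-(2 * w + 1))))) ?_ ?_
    (fun k => 64 * 10 ^ 6 * B ^ 4 * ((2 : ℝ) ^ k) ^ (3 / 2 : ℝ)) ?_ ?_ _ ?_
  · intro k; positivity
  · rintro k i - x ⟨x1, x2, x3, x4, x5, x6, x7, x8, x9⟩ y ⟨y1, y2, y3, y4, y5, y6, y7, y8, y9⟩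
    exact close_of_f2 i.1 i.2.1 i.2.2 x7 y7 x8 y8 x9 y9
  · intro k
    exact card_FIII hB k
  · set r : ℝ := (2 : ℝ) ^ (3 / 2 - (2 * w + 1) * s / 2) with hr
    have hr0 : 0 ≤ r := Real.rpow_nonneg (by norm_num) _
    have hr1 : r < 1 := Real.rpow_lt_one_of_one_lt_of_neg (by norm_num) (by linarith)
    refine ((summable_geometric_of_lt_one hr0 hr1).mul_left
      (64 * 10 ^ 6 * B ^ 4 * (6 * C) ^ (s / 2))).congr ?_
    intro k
    have hH0 : (0 : ℝ) < 2 ^ k := by positivity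
    have e0 : Real.sqrt (6 * (C * ((2 : ℝ) ^ k) ^ (-(2 * w + 1)))) ^ s
        = (6 * C) ^ (s / 2) * ((2 : ℝ) ^ k) ^ (-(2 * w + 1) * (1 / 2 * s)) := by
      rw [Real.sqrt_eq_rpow, ← Real.rpow_mul (by positivity), ← mul_assoc 6 C,
        Real.mul_rpow (x := 6 * C) (by positivity) (by positivity), ← Real.rpow_mul hH0.le]
      congr 2; ring
    have e : r ^ k = ((2 : ℝ) ^ k) ^ (3 / 2 : ℝ) * ((2 : ℝ) ^ k) ^ (-(2 * w + 1) * (1 / 2 * s)) := by
      rw [hr, ← Real.rpow_natCast ((2 : ℝ) ^ (3 / 2 - (2 * w + 1) * s / 2)) k,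
        ← Real.rpow_mul (by norm_num), ← Real.rpow_natCast (2 : ℝ) k,
        ← Real.rpow_mul (by norm_num), ← Real.rpow_mul (by norm_num),
        ← Real.rpow_add (by norm_num)]
      congr 1; ring
    rw [e, e0]
    ring
  · rintro x ⟨hx, hinf⟩
    choose h hh1 hh2 using exists_dyadic
    choose e he using fun y : ℝ => exists_sg y
    refine Set.infinite_of_injOn_mapsTo (f := fun P : Cub => (h P,
      (P, e (f1 P x), e (f2 P x)))) ?_ ?_ hinf
    · intro P _ Q _ h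
      simp only [Prod.mk.injEq] at h
      exact h.2.1
    · rintro P ⟨h1, h2, h3, h4, h5, h6⟩
      have hHpos : (0 : ℝ) < 2 ^ h P := by positivity
      have hmem : x ∈ tIII B w C (h P) (P, e (f1 P x), e (f2 P x)) := by
        refine ⟨hx, h1, h2, fun l hl => (abs_le_GP P hl).trans (hh2 P), ?_, ?_, ?_, ?_, ?_⟩
        · exact (mul_le_mul_of_nonneg_right (hh1 P) (by positivity)).trans h3
        · have : ((2 : ℝ) ^ h P) ^ 2 ≤ GP P ^ 2 := pow_le_pow_left₀ hHpos.le (hh1 P) 2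
          exact (mul_le_mul_of_nonneg_right this (abs_nonneg _)).trans h4
        · show 0 ≤ sg (e (f1 P x)) * f1 P x
          rw [← he]; exact abs_nonneg _
        · show 0 < sg (e (f2 P x)) * f2 P x
          rw [← he]; exact abs_pos.2 h5
        · show |f P x| ≤ C * ((2 : ℝ) ^ h P) ^ (-(2 * w + 1)) * (sg (e (f2 P x)) * f2 P x)
          rw [← he]
          refine h6.trans ?_
          apply mul_le_mul_of_nonneg_right _ (abs_nonneg _)
          apply mul_le_mul_of_nonneg_left _ hC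
          exact Real.rpow_le_rpow_of_nonpos hHpos (hh1 P) (by linarith)
      exact ⟨(mem_FIII hB).2 ⟨x, hmem⟩, hmem⟩

end

end Pool.Agent.Helper53.HD
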