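import Pool.Agent.Helper53.IrrLemmas
import Pool.Agent.Helper53.ClassIII

set_option autoImplicit false

namespace Pool.Agent.Helper53.HD

open MeasureTheory Measure

noncomputable section

/-- if `f1` and `f2` are small then all three coefficients are large -/
theorem three_large {B x : ℝ} (hB : 1 ≤ B) (hx1 : 1 ≤ B * |x|) (hx : |x| ≤ B) {P : Cub}
    (h1 : |f1 P x| < 1 / (1000 * B ^ 3)) (hG : 1 < GP P)
    (h2 : |f2 P x| < 1 / (8 * B ^ 3) * GP P) :
    ∀ l, l ≠ 0 → 1 / (20 * B ^ 3) * GP P ≤ |(P l : ℝ)| := by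
  set G := GP P with hGdef
  have hB0 : 0 < B := by linarith
  have hG0 : 0 < G := by linarith
  have hmax : ∃ k : Fin 4, k ≠ 0 ∧ |(P k : ℝ)| = G := by
    have hmx : ∀ m : ℤ, mx m = G → |(m : ℝ)| = G := by
      intro m hm
      rcases max_choice 1 |(m : ℝ)| with h | h
      · exfalso; rw [mx, h] at hm; linarith
      · rw [← hm, mx, h]
    rcases max_choice (mx (P 1)) (max (mx (P 2)) (mx (P 3))) with h | h
    · exact ⟨1, by decide, hmx _ (by rw [hGdef, GP, h])⟩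
    · rcases max_choice (mx (P 2)) (mx (P 3)) with h' | h'
      · exact ⟨2, by decide, hmx _ (by rw [hGdef, GP, h, h'])⟩
      · exact ⟨3, by decide, hmx _ (by rw [hGdef, GP, h, h'])⟩
  have hx0 : 0 < |x| := by
    by_contra hcon
    have : |x| = 0 := le_antisymm (not_lt.1 hcon) (abs_nonneg _)
    rw [this] at hx1; linarith
  -- g := G / B^3
  obtain ⟨g, hg⟩ : ∃ g, G = g * B ^ 3 := ⟨G / B ^ 3, by field_simp⟩
  have hB3 : 0 < B ^ 3 := by positivity
  have hg0 : 0 < g := by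
    by_contra hcon
    push Not at hcon
    nlinarith
  have e1 : 1 / (20 * B ^ 3) * G = g / 20 := by rw [hg]; field_simp
  have e2 : 1 / (8 * B ^ 3) * G = g / 8 := by rw [hg]; field_simp
  rw [e1]
  rw [e2] at h2
  have h1' : |f1 P x| ≤ g / 1000 := by
    have : 1 / (1000 * B ^ 3) ≤ g / 1000 := by
      rw [div_le_div_iff₀ (by positivity) (by norm_num)]
      nlinarith
    linarith
  have i1 : |(P 1 : ℝ) - 3 * P 3 * x ^ 2| ≤ g / 1000 + B * (g / 8) := by
    have e : (P 1 : ℝ) - 3 * P 3 * x ^ 2 = f1 P x - x * f2 P x := by unfold f1 f2; ring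
    rw [e]
    refine (abs_sub _ _).trans ?_
    rw [abs_mul]
    exact add_le_add h1' (mul_le_mul hx h2.le (abs_nonneg _) hB0.le)
  have i2 : |(P 2 : ℝ) + 3 * P 3 * x| ≤ g / 16 := by
    have e : (P 2 : ℝ) + 3 * P 3 * x = f2 P x / 2 := by unfold f2; ring
    rw [e, abs_div, abs_two]
    linarith
  have i3 : |(P 1 : ℝ) + P 2 * x| ≤ g / 1000 + B * (g / 16) := by
    have e : (P 1 : ℝ) + P 2 * x = f1 P x - x * (f2 P x / 2) := by unfold f1 f2; ring
    rw [e]
    refine (abs_sub _ _).trans ?_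
    rw [abs_mul, abs_div, abs_two]
    exact add_le_add h1' (mul_le_mul hx (by linarith) (by positivity) hB0.le)
  have t13 : ∀ {a b t : ℝ}, |a - b| ≤ t → |a| ≤ |b| + t ∧ |b| ≤ |a| + t := by
    intro a b t h
    have := abs_sub_abs_le_abs_sub a b
    have := abs_sub_abs_le_abs_sub b a
    rw [abs_sub_comm b a] at this
    constructor <;> linarith
  have a3 : |3 * (P 3 : ℝ) * x ^ 2| = 3 * (|(P 3 : ℝ)| * |x| ^ 2) := by
    rw [abs_mul, abs_mul, abs_pow]; norm_num; ring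
  have a3' : |3 * (P 3 : ℝ) * x| = 3 * (|(P 3 : ℝ)| * |x|) := by
    rw [abs_mul, abs_mul]; norm_num; ring
  have a2 : |(P 2 : ℝ) * x| = |(P 2 : ℝ)| * |x| := abs_mul _ _
  obtain ⟨j1, j1'⟩ := t13 i1
  have i2' : |(P 2 : ℝ) - -(3 * P 3 * x)| ≤ g / 16 := by rw [sub_neg_eq_add]; exact i2
  have i3' : |(P 1 : ℝ) - -(P 2 * x)| ≤ g / 1000 + B * (g / 16) := by
    rw [sub_neg_eq_add]; exact i3
  obtain ⟨j2, j2'⟩ := t13 i2'
  obtain ⟨j3, j3'⟩ := t13 i3'
  rw [abs_neg] at j2 j2' j3 j3'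
  rw [a3] at j1 j1'
  rw [a3'] at j2 j2'
  rw [a2] at j3 j3'
  have hx2 : |x| ^ 2 ≤ B ^ 2 := pow_le_pow_left₀ (abs_nonneg x) hx 2
  have hB2x : 1 ≤ B ^ 2 * |x| ^ 2 := by
    calc (1 : ℝ) ≤ (B * |x|) ^ 2 := one_le_pow₀ hx1
      _ = _ := by ring
  have q1 : 1 ≤ B ^ 2 := one_le_pow₀ hB
  have q3 : B ≤ B ^ 2 := by nlinarith
  have p1 := abs_nonneg (P 1 : ℝ)
  have p2 := abs_nonneg (P 2 : ℝ)
  have p3 := abs_nonneg (P 3 : ℝ)
  have hgB : g ≤ g * B := le_mul_of_one_le_right hg0.le hB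
  have hgB2 : g * B ≤ g * B ^ 2 := mul_le_mul_of_nonneg_left q3 hg0.le
  have hgB3 : g * B ^ 2 ≤ g * B ^ 3 :=
    mul_le_mul_of_nonneg_left (pow_le_pow_right₀ hB (by norm_num)) hg0.le
  obtain ⟨k, hk0, hk⟩ := hmax
  -- bounds for the products
  have u2 : |(P 2 : ℝ)| * |x| ≤ |(P 2 : ℝ)| * B := mul_le_mul_of_nonneg_left hx p2
  have u3 : |(P 3 : ℝ)| * |x| ≤ |(P 3 : ℝ)| * B := mul_le_mul_of_nonneg_left hx p3
  have u3' : |(P 3 : ℝ)| * |x| ^ 2 ≤ |(P 3 : ℝ)| * B ^ 2 := mul_le_mul_of_nonneg_left hx2 p3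
  have cancel : ∀ {a n : ℝ}, 0 < n → g / 20 * n ≤ a * n → g / 20 ≤ a := fun hn h =>
    le_of_mul_le_mul_right h hn
  fin_cases k
  · exact absurd rfl hk0
  · -- |P 1| = G
    have hk' : |(P 1 : ℝ)| = g * B ^ 3 := by rw [← hg]; exact hk
    have r2 : g / 20 ≤ |(P 2 : ℝ)| := by
      apply cancel hB0
      have : g * B ^ 3 ≤ |(P 2 : ℝ)| * B + (g / 1000 + B * (g / 16)) := by linarith
      nlinarith
    have r3 : g / 20 ≤ |(P 3 : ℝ)| := by
      apply cancel (n := B ^ 2) (by positivity)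
      have : g * B ^ 3 ≤ 3 * (|(P 3 : ℝ)| * B ^ 2) + (g / 1000 + B * (g / 8)) := by linarith
      nlinarith
    intro l hl
    fin_cases l
    · exact absurd rfl hl
    · show _ ≤ |(P 1 : ℝ)|
      rw [hk']; linarith
    · exact r2
    · exact r3
  · have hk' : |(P 2 : ℝ)| = g * B ^ 3 := by rw [← hg]; exact hk
    have r1 : g / 20 ≤ |(P 1 : ℝ)| := by
      have : g * B ^ 2 ≤ |(P 2 : ℝ)| * |x| := by
        rw [hk']
        calc g * B ^ 2 = g * B ^ 2 * 1 := by ring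
          _ ≤ g * B ^ 2 * (B * |x|) := mul_le_mul_of_nonneg_left hx1 (by positivity)
          _ = _ := by ring
      nlinarith
    have r3 : g / 20 ≤ |(P 3 : ℝ)| := by
      apply cancel hB0
      have : g * B ^ 3 ≤ 3 * (|(P 3 : ℝ)| * B) + g / 16 := by linarith
      nlinarith
    intro l hl
    fin_cases l
    · exact absurd rfl hl
    · exact r1
    · show _ ≤ |(P 2 : ℝ)|
      rw [hk']; linarith
    · exact r3
  · have hk' : |(P 3 : ℝ)| = g * B ^ 3 := by rw [← hg]; exact hk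
    have r1 : g / 20 ≤ |(P 1 : ℝ)| := by
      have : g * B ≤ |(P 3 : ℝ)| * |x| ^ 2 := by
        rw [hk']
        calc g * B = g * B * 1 := by ring
          _ ≤ g * B * (B ^ 2 * |x| ^ 2) := mul_le_mul_of_nonneg_left hB2x (by positivity)
          _ = _ := by ring
      nlinarith
    have r2 : g / 20 ≤ |(P 2 : ℝ)| := by
      have : g * B ^ 2 ≤ |(P 3 : ℝ)| * |x| := by
        rw [hk']
        calc g * B ^ 2 = g * B ^ 2 * 1 := by ring
          _ ≤ g * B ^ 2 * (B * |x|) := mul_le_mul_of_nonneg_left hx1 (by positivity)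
          _ = _ := by ring
      nlinarith
    intro l hl
    fin_cases l
    · exact absurd rfl hl
    · exact r1
    · exact r2
    · show _ ≤ |(P 3 : ℝ)|
      rw [hk']; linarith

theorem disc_f2 {G : ℝ} (hG : 1 < G) {P : Cub} {x : ℝ} (hP : NoRat P) (h3 : P 3 ≠ 0)
    (hc : |f1 P x| ≤ 1 / 1000) (hGf1 : G * |f1 P x| ^ 2 < 1) (ha : |(P 3 : ℝ)| ≤ G)
    (hb : |f2 P x| ≤ 2 * G) (hd : G ^ 3 * |f P x| ≤ 1 / 100) : 1 ≤ |f2 P x| := by
  have hdisc : (1 : ℝ) ≤ |disc (P 3 : ℝ) (f2 P x / 2) (f1 P x) (f P x)| := by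
    rw [disc_tay]
    exact_mod_cast Int.one_le_abs (disc_ne_zero hP h3)
  have hG0 : 0 < G := by linarith
  set b := |f2 P x| / 2 with hbdef
  have hb' : |f2 P x / 2| = b := by rw [abs_div, abs_two]
  have hb0 : 0 ≤ b := by rw [hbdef]; positivity
  have hbG : b ≤ G := by rw [hbdef]; linarith
  set c := |f1 P x|
  have hc0 : 0 ≤ c := abs_nonneg _
  set d := |f P x|
  have hd0 : 0 ≤ d := abs_nonneg _
  set a := |(P 3 : ℝ)|
  have ha0 : 0 ≤ a := abs_nonneg _
  have hupper : |disc (P 3 : ℝ) (f2 P x / 2) (f1 P x) (f P x)|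
      ≤ b ^ 2 * c ^ 2 + 4 * a * c ^ 3 + 4 * b ^ 3 * d + 27 * a ^ 2 * d ^ 2
        + 18 * a * b * c * d := by
    unfold disc
    have n4 : |(4 : ℝ)| = 4 := by norm_num
    have n27 : |(27 : ℝ)| = 27 := by norm_num
    have n18 : |(18 : ℝ)| = 18 := by norm_num
    have s1 : |(f2 P x / 2) ^ 2 * f1 P x ^ 2| = b ^ 2 * c ^ 2 := by
      rw [abs_mul, abs_pow, abs_pow, hb']
    have s2 : |4 * (P 3 : ℝ) * f1 P x ^ 3| = 4 * a * c ^ 3 := by
      rw [abs_mul, abs_mul, abs_pow, n4]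
    have s3 : |4 * (f2 P x / 2) ^ 3 * f P x| = 4 * b ^ 3 * d := by
      rw [abs_mul, abs_mul, abs_pow, hb', n4]
    have s4 : |27 * (P 3 : ℝ) ^ 2 * f P x ^ 2| = 27 * a ^ 2 * d ^ 2 := by
      rw [abs_mul, abs_mul, abs_pow, abs_pow, n27]
    have s5 : |18 * (P 3 : ℝ) * (f2 P x / 2) * f1 P x * f P x| = 18 * a * b * c * d := by
      rw [abs_mul, abs_mul, abs_mul, abs_mul, hb', n18]
    rw [← s1, ← s2, ← s3, ← s4, ← s5]
    refine (abs_add_le _ _).trans (add_le_add_left ((abs_sub _ _).trans (add_le_add_left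
      ((abs_sub _ _).trans (add_le_add_left (abs_sub _ _) _)) _)) _)
  have t2 : 4 * a * c ^ 3 ≤ 4 / 1000 := by
    calc 4 * a * c ^ 3 = 4 * (a * c ^ 2) * c := by ring
      _ ≤ 4 * (G * c ^ 2) * (1 / 1000) := by gcongr
      _ ≤ 4 * 1 * (1 / 1000) := by gcongr
      _ = _ := by norm_num
  have t3 : 4 * b ^ 3 * d ≤ 4 / 100 := by
    calc 4 * b ^ 3 * d ≤ 4 * G ^ 3 * d := by gcongr
      _ = 4 * (G ^ 3 * d) := by ring
      _ ≤ 4 * (1 / 100) := by gcongr
      _ = _ := by norm_num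
  have hGd : G * d ≤ 1 / 100 := by
    have : G ≤ G ^ 3 := by
      calc G = G ^ 1 := (pow_one G).symm
        _ ≤ G ^ 3 := pow_le_pow_right₀ hG.le (by norm_num)
    exact (mul_le_mul_of_nonneg_right this hd0).trans hd
  have hG2d : G ^ 2 * d ≤ 1 / 100 :=
    (mul_le_mul_of_nonneg_right (pow_le_pow_right₀ hG.le (by norm_num)) hd0).trans hd
  have t4 : 27 * a ^ 2 * d ^ 2 ≤ 27 / 10000 := by
    calc 27 * a ^ 2 * d ^ 2 ≤ 27 * G ^ 2 * d ^ 2 := by gcongr
      _ = 27 * (G * d) ^ 2 := by ring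
      _ ≤ 27 * (1 / 100) ^ 2 := by gcongr
      _ = _ := by norm_num
  have t5 : 18 * a * b * c * d ≤ 18 / 100 := by
    calc 18 * a * b * c * d ≤ 18 * G * G * 1 * d := by gcongr; linarith
      _ = 18 * (G ^ 2 * d) := by ring
      _ ≤ 18 * (1 / 100) := by gcongr
      _ = _ := by norm_num
  have t1 : 7 / 10 ≤ b ^ 2 * c ^ 2 := by linarith
  by_contra hcon
  push Not at hcon
  have hb1 : b < 1 / 2 := by rw [hbdef]; linarith
  have : b ^ 2 * c ^ 2 ≤ 1 := by
    have : b ^ 2 ≤ 1 := by nlinarith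
    have : c ^ 2 ≤ 1 := by nlinarith
    nlinarith [sq_nonneg b, sq_nonneg c]
  have hb2 : b ^ 2 ≤ 1 / 4 := by nlinarith
  have hc2 : c ^ 2 ≤ 1 := by nlinarith
  nlinarith [sq_nonneg b, sq_nonneg c]

theorem classIII_reduce {B w : ℝ} (hB : 1 ≤ B) (hw : 1 < w) :
    ∃ C M : ℝ, 0 ≤ C ∧ 1 ≤ M ∧ ∀ (x : ℝ) (P : Cub), 1 ≤ B * |x| → |x| ≤ B →
      Irreducible (toP P) → |f P x| < Pi P ^ (-w) → |f1 P x| < 1 / (1000 * B ^ 3) →
      GP P * |f1 P x| ^ 2 < 1 → M < GP P →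
      P 3 ≠ 0 ∧ GP P ^ 2 * |f P x| ≤ 1 / (10 ^ 6 * B ^ 3) ∧ f2 P x ≠ 0 ∧
        |f P x| ≤ C * GP P ^ (-(2 * w + 1)) * |f2 P x| := by
  have hB0 : 0 < B := by linarith
  set ε : ℝ := 1 / (20 * B ^ 3) with hε
  have hε0 : 0 < ε := by rw [hε]; positivity
  set c0 : ℝ := 1 / (8 * B ^ 3) with hc0
  have hc00 : 0 < c0 := by rw [hc0]; positivity
  set Ka : ℝ := (ε ^ 2) ^ (-w) with hKa
  set Kb : ℝ := (ε ^ 3) ^ (-w) with hKb
  have hKa0 : 0 < Ka := by rw [hKa]; positivity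
  have hKb0 : 0 < Kb := by rw [hKb]; positivity
  have lim1 := tendsto_rpow_atTop (y := 2 * w - 2) (by linarith)
  have lim2 := tendsto_rpow_atTop (y := 3 * w - 3) (by linarith)
  obtain ⟨M1, hM1⟩ := (lim1.eventually_ge_atTop (Ka * (10 ^ 6 * B ^ 3))).exists_forall_of_atTop
  obtain ⟨M2, hM2⟩ := (lim2.eventually_ge_atTop (Kb * 100)).exists_forall_of_atTop
  refine ⟨Ka / c0 + Kb, max 2 (max M1 M2), by positivity,
    (by norm_num : (1 : ℝ) ≤ 2).trans (le_max_left _ _), ?_⟩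
  intro x P hx1 hx hirr hf hf1 hGf1 hM
  set G := GP P with hGdef
  have hG2 : 2 < G := (le_max_left _ _).trans_lt hM
  have hGM1 : M1 ≤ G := ((le_max_left _ _).trans (le_max_right _ _)).trans hM.le
  have hGM2 : M2 ≤ G := ((le_max_right _ _).trans (le_max_right _ _)).trans hM.le
  have hG0 : 0 < G := by linarith
  obtain ⟨m, hm0, hm⟩ := two_large hB hx1 hx hf1 (by linarith : 1 < GP P)
  have hB3 : 1 ≤ B ^ 3 := one_le_pow₀ hB
  have hc1 : (1 : ℝ) / (1000 * B ^ 3) ≤ 1 / 1000 := by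
    rw [div_le_div_iff₀ (by positivity) (by norm_num)]; linarith
  have hf1' : |f1 P x| ≤ 1 / 1000 := hf1.le.trans hc1
  have hNR : NoRat P := noRat_of_irr hirr (x := x) (by linarith)
  have hPi2 : Pi P ^ (-w) ≤ Ka * G ^ (-(2 * w)) := by
    have h1 : (ε * G) ^ 2 ≤ Pi P := by
      refine le_trans ?_ (Pi_ge P hm0 (by positivity) hm)
      exact le_mul_of_one_le_left (by positivity) (one_le_mx _)
    have h2 : Pi P ^ (-w) ≤ ((ε * G) ^ 2) ^ (-w) :=
      Real.rpow_le_rpow_of_nonpos (by positivity) h1 (by linarith)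
    refine h2.trans (le_of_eq ?_)
    rw [mul_pow, Real.mul_rpow (by positivity) (by positivity), ← Real.rpow_natCast G 2,
      ← Real.rpow_mul hG0.le, hKa]
    congr 2
    push_cast; ring
  have hfa : |f P x| ≤ Ka * G ^ (-(2 * w)) := hf.le.trans hPi2
  have hsmall : G ^ 2 * |f P x| ≤ 1 / (10 ^ 6 * B ^ 3) := by
    have e : G ^ (2 * w - 2) * (G ^ 2 * G ^ (-(2 * w))) = 1 := by
      rw [← Real.rpow_natCast G 2, ← Real.rpow_add hG0, ← Real.rpow_add hG0,
        ← Real.rpow_zero G]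
      congr 1
      push_cast; ring
    have h1 := hM1 G hGM1
    have hp : 0 < G ^ 2 * G ^ (-(2 * w)) := by positivity
    rw [le_div_iff₀ (by positivity)]
    calc G ^ 2 * |f P x| * (10 ^ 6 * B ^ 3)
        ≤ G ^ 2 * (Ka * G ^ (-(2 * w))) * (10 ^ 6 * B ^ 3) := by gcongr
      _ = (Ka * (10 ^ 6 * B ^ 3)) * (G ^ 2 * G ^ (-(2 * w))) := by ring
      _ ≤ G ^ (2 * w - 2) * (G ^ 2 * G ^ (-(2 * w))) :=
          mul_le_mul_of_nonneg_right h1 hp.le
      _ = 1 := e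
  have hsm : (1 : ℝ) / (10 ^ 6 * B ^ 3) ≤ 1 / 10 ^ 6 := by
    rw [div_le_div_iff₀ (by positivity) (by norm_num)]; linarith
  have h3 : P 3 ≠ 0 := by
    intro h3
    have hm3 : m = 3 := by
      by_contra hne
      have := hm 3 (by decide) (Ne.symm hne)
      rw [h3] at this
      simp only [Int.cast_zero, abs_zero] at this
      have : 0 < ε * G := by positivity
      linarith
    subst hm3
    have hP2 : P 2 ≠ 0 := by
      intro h2
      have := hm 2 (by decide) (by decide)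
      rw [h2] at this
      simp only [Int.cast_zero, abs_zero] at this
      have : 0 < ε * G := by positivity
      linarith
    have hd : P 1 ^ 2 - 4 * P 2 * P 0 = 0 := by
      apply int_eq_zero_of_abs_lt
      have e : ((P 1 ^ 2 - 4 * P 2 * P 0 : ℤ) : ℝ) = f1 P x ^ 2 - 4 * P 2 * f P x := by
        unfold f1 f
        rw [h3]
        push_cast; ring
      rw [e]
      refine (abs_sub _ _).trans_lt ?_
      rw [abs_pow, abs_mul, abs_mul]
      have h4 : |(4 : ℝ)| = 4 := by norm_num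
      rw [h4]
      have h5 : |(P 2 : ℝ)| ≤ G := abs_le_GP P (by decide)
      have h6 : 4 * |(P 2 : ℝ)| * |f P x| ≤ 4 * (G ^ 2 * |f P x|) := by
        have : |(P 2 : ℝ)| ≤ G ^ 2 := by nlinarith
        nlinarith [abs_nonneg (f P x)]
      have h7 : |f1 P x| ^ 2 ≤ 1 / 2 := by nlinarith [abs_nonneg (f1 P x)]
      nlinarith
    apply hNR (-P 1) (2 * P 2) (mul_ne_zero (by norm_num) hP2)
    rw [h3]
    linear_combination (-2 * P 2 ^ 2) * hd
  refine ⟨h3, hsmall, ?_⟩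
  by_cases hty : |f2 P x| < c0 * G
  · -- type b
    have hall := three_large hB hx1 hx hf1 (by linarith : 1 < GP P) hty
    have hPi3 : Pi P ^ (-w) ≤ Kb * G ^ (-(3 * w)) := by
      have h1 : (ε * G) ^ 3 ≤ Pi P := by
        have g1 := (hall 1 (by decide)).trans (abs_le_mx _)
        have g2 := (hall 2 (by decide)).trans (abs_le_mx _)
        have g3 := (hall 3 (by decide)).trans (abs_le_mx _)
        have hεG : 0 ≤ ε * G := by positivity
        unfold Pi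
        calc (ε * G) ^ 3 = ε * G * (ε * G) * (ε * G) := by ring
          _ ≤ _ := mul_le_mul (mul_le_mul g1 g2 hεG (mx_pos _).le) g3 hεG
              (mul_nonneg (mx_pos _).le (mx_pos _).le)
      have h2 : Pi P ^ (-w) ≤ ((ε * G) ^ 3) ^ (-w) :=
        Real.rpow_le_rpow_of_nonpos (by positivity) h1 (by linarith)
      refine h2.trans (le_of_eq ?_)
      rw [mul_pow, Real.mul_rpow (by positivity) (by positivity), ← Real.rpow_natCast G 3,
        ← Real.rpow_mul hG0.le, hKb]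
      congr 2
      push_cast; ring
    have hfb : |f P x| ≤ Kb * G ^ (-(3 * w)) := hf.le.trans hPi3
    have hd : G ^ 3 * |f P x| ≤ 1 / 100 := by
      have e : G ^ (3 * w - 3) * (G ^ 3 * G ^ (-(3 * w))) = 1 := by
        rw [← Real.rpow_natCast G 3, ← Real.rpow_add hG0, ← Real.rpow_add hG0,
          ← Real.rpow_zero G]
        congr 1
        push_cast; ring
      have h1 := hM2 G hGM2
      have hp : 0 < G ^ 3 * G ^ (-(3 * w)) := by positivity
      rw [le_div_iff₀ (by positivity)]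
      calc G ^ 3 * |f P x| * 100
          ≤ G ^ 3 * (Kb * G ^ (-(3 * w))) * 100 := by gcongr
        _ = (Kb * 100) * (G ^ 3 * G ^ (-(3 * w))) := by ring
        _ ≤ G ^ (3 * w - 3) * (G ^ 3 * G ^ (-(3 * w))) :=
            mul_le_mul_of_nonneg_right h1 hp.le
        _ = 1 := e
    have hc0G : c0 * G ≤ 2 * G := by
      have : c0 ≤ 2 := by
        rw [hc0, div_le_iff₀ (by positivity)]; nlinarith
      exact mul_le_mul_of_nonneg_right this hG0.le
    have hf2 := disc_f2 (by linarith : 1 < G) hNR h3 hf1' hGf1 (abs_le_GP P (by decide))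
      (hty.le.trans hc0G) hd
    refine ⟨?_, ?_⟩
    · intro h0
      rw [h0] at hf2; norm_num at hf2
    · refine hfb.trans ?_
      have h1 : G ^ (-(3 * w)) ≤ G ^ (-(2 * w + 1)) :=
        Real.rpow_le_rpow_of_exponent_le (by linarith) (by linarith)
      have h2 : 0 ≤ G ^ (-(2 * w + 1)) := by positivity
      have h3 : 0 ≤ Ka / c0 := by positivity
      calc Kb * G ^ (-(3 * w)) ≤ Kb * G ^ (-(2 * w + 1)) :=
            mul_le_mul_of_nonneg_left h1 hKb0.le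
        _ ≤ (Ka / c0 + Kb) * G ^ (-(2 * w + 1)) :=
            mul_le_mul_of_nonneg_right (by linarith) h2
        _ ≤ (Ka / c0 + Kb) * G ^ (-(2 * w + 1)) * |f2 P x| :=
            le_mul_of_one_le_right (by positivity) hf2
  · push Not at hty
    have hpos : 0 < |f2 P x| := lt_of_lt_of_le (by positivity) hty
    refine ⟨abs_pos.1 hpos, hfa.trans ?_⟩
    have e : G ^ (-(2 * w)) = G ^ (-(2 * w + 1)) * G := by
      nth_rewrite 3 [← Real.rpow_one G]
      rw [← Real.rpow_add hG0]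
      congr 1; ring
    have h2 : 0 ≤ G ^ (-(2 * w + 1)) := by positivity
    rw [e]
    calc Ka * (G ^ (-(2 * w + 1)) * G)
        = (Ka / c0) * G ^ (-(2 * w + 1)) * (c0 * G) := by field_simp
      _ ≤ (Ka / c0) * G ^ (-(2 * w + 1)) * |f2 P x| := by gcongr
      _ ≤ _ := by
          apply mul_le_mul_of_nonneg_right _ hpos.le
          apply mul_le_mul_of_nonneg_right _ h2
          linarith

theorem classIII {B w s : ℝ} (hB : 1 ≤ B) (hw : 1 < w) (hs : 2 < (w + 1) * s)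
    (hs1 : s < 1) :
    μH[s] {x : ℝ | 1 ≤ B * |x| ∧ |x| ≤ B ∧ {P : Cub | Irreducible (toP P) ∧
      |f P x| < Pi P ^ (-w) ∧ |f1 P x| < 1 / (1000 * B ^ 3) ∧
      GP P * |f1 P x| ^ 2 < 1}.Infinite} = 0 := by
  obtain ⟨C, M, hC, hM, key⟩ := classIII_reduce hB hw
  refine measure_mono_null ?_ (classIII' hB hw hs hs1 hC)
  rintro x ⟨hx1, hx, hinf⟩
  refine ⟨hx, ?_⟩
  refine (hinf.sdiff (finite_small (M := M) hB hx)).mono ?_
  rintro P ⟨⟨h1, h2, h3, h4⟩, hnot⟩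
  have hbig : M < GP P := by
    by_contra hcon
    exact hnot ⟨not_lt.1 hcon, h2.le.trans (Pi_rpow_le_one _ (by linarith))⟩
  obtain ⟨k1, k2, k3, k4⟩ := key x P hx1 hx h1 h2 h3 h4 hbig
  exact ⟨h1, k1, h4.le, k2, k3, k4⟩

end

end Pool.Agent.Helper53.HD
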