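import Pool.Agent.Helper53.HCant

set_option autoImplicit false

namespace Pool.Agent.Helper53.HD

/-- integer cubic polynomials by coefficients -/
abbrev Cub := Fin 4 → ℤ

noncomputable section

def f (P : Cub) (x : ℝ) : ℝ := P 0 + P 1 * x + P 2 * x ^ 2 + P 3 * x ^ 3
def f1 (P : Cub) (x : ℝ) : ℝ := P 1 + 2 * P 2 * x + 3 * P 3 * x ^ 2
def f2 (P : Cub) (x : ℝ) : ℝ := 2 * P 2 + 6 * P 3 * x

/-- `max 1 |m|` -/
def mx (m : ℤ) : ℝ := max 1 |(m : ℝ)|

theorem one_le_mx (m : ℤ) : 1 ≤ mx m := le_max_left _ _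
theorem mx_pos (m : ℤ) : 0 < mx m := zero_lt_one.trans_le (one_le_mx m)
theorem abs_le_mx (m : ℤ) : |(m : ℝ)| ≤ mx m := le_max_right _ _

def Pi (P : Cub) : ℝ := mx (P 1) * mx (P 2) * mx (P 3)

theorem one_le_Pi (P : Cub) : 1 ≤ Pi P :=
  one_le_mul_of_one_le_of_one_le (one_le_mul_of_one_le_of_one_le (one_le_mx _) (one_le_mx _))
    (one_le_mx _)

theorem Pi_pos (P : Cub) : 0 < Pi P := zero_lt_one.trans_le (one_le_Pi P)

/-- sign of a boolean -/
def sg (e : Bool) : ℝ := if e then 1 else -1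

theorem sg_sq (e : Bool) : sg e * sg e = 1 := by cases e <;> simp [sg]

theorem abs_sg (e : Bool) : |sg e| = 1 := by cases e <;> simp [sg]

theorem exists_sg (y : ℝ) : ∃ e, |y| = sg e * y := by
  rcases le_total 0 y with h | h
  · exact ⟨true, by simp [sg, abs_of_nonneg h]⟩
  · exact ⟨false, by simp [sg, abs_of_nonpos h]⟩

theorem taylor_a (P : Cub) (x y : ℝ) :
    f P y - f P x = f1 P x * (y - x) + (y - x) ^ 2 * (f2 P x / 3 + f2 P y / 6) := by
  unfold f f1 f2; ring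

theorem taylor_b (P : Cub) (x y : ℝ) :
    f P y - f P x = f1 P y * (y - x) - (y - x) ^ 2 * (f2 P y / 3 + f2 P x / 6) := by
  unfold f f1 f2; ring

theorem taylor_1 (P : Cub) (x y : ℝ) :
    f1 P y - f1 P x = (y - x) * (f2 P x + f2 P y) / 2 := by
  unfold f1 f2; ring

theorem mono_bound_aux (P : Cub) {D : ℝ} {x y : ℝ} (hxy : x ≤ y) (e1 e2 : Bool)
    (h1x : D ≤ sg e1 * f1 P x) (h1y : D ≤ sg e1 * f1 P y)
    (h2x : 0 ≤ sg e2 * f2 P x) (h2y : 0 ≤ sg e2 * f2 P y) :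
    D * (y - x) ≤ sg e1 * (f P y - f P x) := by
  have h : 0 ≤ y - x := sub_nonneg.2 hxy
  cases e1 <;> cases e2 <;> simp only [sg, if_true, Bool.false_eq_true, if_false] at *
  · -- f1 ≤ -D, f2 ≤ 0
    rw [taylor_a]
    have h3 : 0 ≤ (y - x) ^ 2 * (-(f2 P x / 3 + f2 P y / 6)) :=
      mul_nonneg (sq_nonneg _) (by linarith)
    nlinarith [mul_nonneg (sub_nonneg.2 h1x) h]
  · rw [taylor_b]
    have h3 : 0 ≤ (y - x) ^ 2 * (f2 P y / 3 + f2 P x / 6) :=
      mul_nonneg (sq_nonneg _) (by linarith)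
    nlinarith [mul_nonneg (sub_nonneg.2 h1y) h]
  · rw [taylor_b]
    have h3 : 0 ≤ (y - x) ^ 2 * (-(f2 P y / 3 + f2 P x / 6)) :=
      mul_nonneg (sq_nonneg _) (by linarith)
    nlinarith [mul_nonneg (sub_nonneg.2 h1y) h]
  · rw [taylor_a]
    have h3 : 0 ≤ (y - x) ^ 2 * (f2 P x / 3 + f2 P y / 6) :=
      mul_nonneg (sq_nonneg _) (by linarith)
    nlinarith [mul_nonneg (sub_nonneg.2 h1x) h]

/-- two points with `|f|` small and `|f1|` large on the same piece are close -/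
theorem close_of_large_deriv (P : Cub) {D δ : ℝ} (hD : 0 < D) {x y : ℝ} (e1 e2 : Bool)
    (h1x : D ≤ sg e1 * f1 P x) (h1y : D ≤ sg e1 * f1 P y)
    (h2x : 0 ≤ sg e2 * f2 P x) (h2y : 0 ≤ sg e2 * f2 P y)
    (hx : |f P x| ≤ δ) (hy : |f P y| ≤ δ) : |x - y| ≤ 2 * δ / D := by
  have key : ∀ u v : ℝ, u ≤ v → D ≤ sg e1 * f1 P u → D ≤ sg e1 * f1 P v →
      0 ≤ sg e2 * f2 P u → 0 ≤ sg e2 * f2 P v → |f P u| ≤ δ → |f P v| ≤ δ →
      |u - v| ≤ 2 * δ / D := by
    intro u v huv a1 a2 a3 a4 a5 a6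
    have h := mono_bound_aux P huv e1 e2 a1 a2 a3 a4
    rw [abs_sub_comm, abs_of_nonneg (sub_nonneg.2 huv), le_div_iff₀ hD, mul_comm]
    refine h.trans ((le_abs_self _).trans ?_)
    rw [abs_mul, abs_sg, one_mul]
    exact (abs_sub _ _).trans (by linarith)
  rcases le_total x y with h | h
  · exact key x y h h1x h1y h2x h2y hx hy
  · rw [abs_sub_comm]; exact key y x h h1y h1x h2y h2x hy hx

/-- on a piece where `|f1| ≤ D` and `f2` has constant sign, `f` varies little -/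
theorem vary_bound (P : Cub) {D : ℝ} {x y : ℝ} (e2 : Bool)
    (h1x : |f1 P x| ≤ D) (h1y : |f1 P y| ≤ D)
    (h2x : 0 ≤ sg e2 * f2 P x) (h2y : 0 ≤ sg e2 * f2 P y) :
    |f P y - f P x| ≤ 7 / 3 * D * |y - x| := by
  rw [taylor_a]
  have h1 : |(y - x) * (f2 P x + f2 P y) / 2| ≤ 2 * D := by
    rw [← taylor_1]
    exact (abs_sub _ _).trans (by linarith)
  have h2 : |(y - x) ^ 2 * (f2 P x / 3 + f2 P y / 6)| ≤ 4 / 3 * D * |y - x| := by
    have e : (y - x) ^ 2 * (f2 P x / 3 + f2 P y / 6)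
        = ((y - x) * (f2 P x / 3 + f2 P y / 6)) * (y - x) := by ring
    rw [e, abs_mul]
    apply mul_le_mul_of_nonneg_right _ (abs_nonneg _)
    have e2' : |(y - x) * (f2 P x / 3 + f2 P y / 6)|
        ≤ 2 / 3 * |(y - x) * (f2 P x + f2 P y) / 2| := by
      rw [abs_div, abs_mul, abs_mul, abs_two]
      have : |f2 P x / 3 + f2 P y / 6| ≤ 1 / 3 * |f2 P x + f2 P y| := by
        have a1 : |f2 P x / 3 + f2 P y / 6| = sg e2 * (f2 P x / 3 + f2 P y / 6) := by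
          rw [← abs_of_nonneg (a := sg e2 * (f2 P x / 3 + f2 P y / 6)) (by nlinarith), abs_mul,
            abs_sg, one_mul]
        have a2 : |f2 P x + f2 P y| = sg e2 * (f2 P x + f2 P y) := by
          rw [← abs_of_nonneg (a := sg e2 * (f2 P x + f2 P y)) (by nlinarith), abs_mul,
            abs_sg, one_mul]
        rw [a1, a2]; nlinarith
      nlinarith [abs_nonneg (y - x), mul_le_mul_of_nonneg_left this (abs_nonneg (y - x))]
    linarith
  calc |f1 P x * (y - x) + (y - x) ^ 2 * (f2 P x / 3 + f2 P y / 6)|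
      ≤ |f1 P x * (y - x)| + |(y - x) ^ 2 * (f2 P x / 3 + f2 P y / 6)| := abs_add_le _ _
    _ ≤ D * |y - x| + 4 / 3 * D * |y - x| := by
        rw [abs_mul]
        exact add_le_add (mul_le_mul_of_nonneg_right h1x (abs_nonneg _)) h2
    _ = 7 / 3 * D * |y - x| := by ring

/-- a finite set of integers of diameter `≤ M` has at most `M + 1` elements -/
theorem card_le_of_diam {A : Finset ℤ} {M : ℝ} (hM : 0 ≤ M)
    (h : ∀ a ∈ A, ∀ b ∈ A, |(a : ℝ) - b| ≤ M) : (A.card : ℝ) ≤ M + 1 := by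
  rcases A.eq_empty_or_nonempty with rfl | hne
  · simp; linarith
  have hsub : A ⊆ Finset.Icc (A.min' hne) (A.min' hne + ⌊M⌋) := by
    intro a ha
    rw [Finset.mem_Icc]
    refine ⟨A.min'_le a ha, ?_⟩
    have h1 := h a ha _ (A.min'_mem hne)
    have h2 : ((a - A.min' hne : ℤ) : ℝ) ≤ M := by
      push_cast; exact (le_abs_self _).trans h1
    have := Int.le_floor.2 h2
    linarith
  have hc := Finset.card_le_card hsub
  rw [Int.card_Icc] at hc
  have h3 : (0 : ℤ) ≤ ⌊M⌋ := Int.floor_nonneg.2 hM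
  have h4 : ((A.min' hne + ⌊M⌋ + 1 - A.min' hne).toNat : ℤ) = ⌊M⌋ + 1 := by
    rw [Int.toNat_of_nonneg (by linarith)]; ring
  have h5 : (A.card : ℤ) ≤ ⌊M⌋ + 1 := by
    rw [← h4]; exact_mod_cast hc
  have h6 : (A.card : ℝ) ≤ (⌊M⌋ : ℝ) + 1 := by exact_mod_cast h5
  exact h6.trans (by linarith [Int.floor_le M])

end

end Pool.Agent.Helper53.HD
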