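import Mathlib

set_option autoImplicit false

namespace Pool.Agent.Helper53.HD

open MeasureTheory Measure Filter Topology ENNReal Metric

/-- Hausdorff-Cantelli lemma -/
theorem hausdorff_cantelli {ι : Type*} [Countable ι] (s : ℝ) (hs : 0 < s) (t : ι → Set ℝ)
    (d : ι → ℝ≥0∞) (hd : ∀ i, ediam (t i) ≤ d i) (hsum : ∑' i, (d i) ^ s ≠ ∞) (S : Set ℝ)
    (hS : ∀ x ∈ S, {i | x ∈ t i}.Infinite) : μH[s] S = 0 := by
  have htail := ENNReal.tendsto_tsum_compl_atTop_zero hsum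
  have hr : Tendsto (fun F : Finset ι => (∑' b : { x // x ∉ F }, (d b) ^ s) ^ (1 / s)) atTop
      (𝓝 0) := by
    have := htail.ennrpow_const (1 / s)
    rwa [ENNReal.zero_rpow_of_pos (by positivity)] at this
  have key := hausdorffMeasure_le_liminf_tsum (X := ℝ) (β := Finset ι)
    (ι := fun F => {x : ι // x ∉ F}) s S (l := atTop) _ hr (fun F i => t i) ?_ ?_
  · refine le_antisymm (key.trans ?_) bot_le
    have h1 : ∀ F : Finset ι, ∑' i : {x : ι // x ∉ F}, ediam (t i) ^ s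
        ≤ ∑' b : { x // x ∉ F }, (d b) ^ s := fun F =>
      ENNReal.tsum_le_tsum fun i => ENNReal.rpow_le_rpow (hd i) hs.le
    calc liminf (fun F : Finset ι => ∑' i : {x : ι // x ∉ F}, ediam (t i) ^ s) atTop
        ≤ liminf (fun F : Finset ι => ∑' b : { x // x ∉ F }, (d b) ^ s) atTop :=
          liminf_le_liminf (Eventually.of_forall h1)
      _ = 0 := htail.liminf_eq
  · refine Eventually.of_forall fun F i => (hd i).trans ?_
    have : (d i) ^ s ≤ ∑' b : { x // x ∉ F }, (d b) ^ s :=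
      ENNReal.le_tsum (f := fun b : { x // x ∉ F } => (d b) ^ s) i
    calc d i = ((d i) ^ s) ^ (1 / s) := by
          rw [← ENNReal.rpow_mul, mul_one_div_cancel hs.ne', ENNReal.rpow_one]
      _ ≤ _ := ENNReal.rpow_le_rpow this (by positivity)
  · refine Eventually.of_forall fun F x hx => ?_
    obtain ⟨i, hi, hiF⟩ := (hS x hx).exists_notMem_finset F
    exact Set.mem_iUnion.2 ⟨⟨i, hiF⟩, hi⟩

/-- counting form -/
theorem hausdorff_cantelli_count {κ ι : Type*} [Countable κ] [Countable ι] (s : ℝ) (hs : 0 < s)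
    (F : κ → Finset ι) (t : κ → ι → Set ℝ) (ρ : κ → ℝ) (hρ : ∀ k, 0 ≤ ρ k)
    (hd : ∀ k, ∀ i ∈ F k, ∀ x ∈ t k i, ∀ y ∈ t k i, |x - y| ≤ ρ k)
    (N : κ → ℝ) (hN : ∀ k, ((F k).card : ℝ) ≤ N k)
    (hsum : Summable fun k => N k * ρ k ^ s) (S : Set ℝ)
    (hS : ∀ x ∈ S, {p : κ × ι | p.2 ∈ F p.1 ∧ x ∈ t p.1 p.2}.Infinite) : μH[s] S = 0 := by
  refine hausdorff_cantelli (ι := Σ k : κ, {i : ι // i ∈ F k}) s hs (fun p => t p.1 p.2)
    (fun p => ENNReal.ofReal (ρ p.1)) ?_ ?_ S ?_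
  · rintro ⟨k, i, hi⟩
    refine ediam_le fun x hx y hy => ?_
    rw [edist_dist, Real.dist_eq]
    exact ENNReal.ofReal_le_ofReal (hd k i hi x hx y hy)
  · rw [ENNReal.tsum_sigma']
    have h1 : ∀ k : κ, ∑' i : {i : ι // i ∈ F k}, (ENNReal.ofReal (ρ k)) ^ s
        ≤ ENNReal.ofReal (N k * ρ k ^ s) := by
      intro k
      rw [tsum_fintype, Finset.sum_const, Finset.card_univ, Fintype.card_coe, nsmul_eq_mul,
        ENNReal.ofReal_rpow_of_nonneg (hρ k) hs.le,
        ENNReal.ofReal_mul ((Nat.cast_nonneg _).trans (hN k))]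
      gcongr
      rw [← ENNReal.ofReal_natCast]
      exact ENNReal.ofReal_le_ofReal (hN k)
    refine ne_top_of_le_ne_top ?_ (ENNReal.tsum_le_tsum h1)
    rw [← ENNReal.ofReal_tsum_of_nonneg (fun k => mul_nonneg ((Nat.cast_nonneg _).trans (hN k))
      (Real.rpow_nonneg (hρ k) s)) hsum]
    exact ENNReal.ofReal_ne_top
  · intro x hx
    have h := hS x hx
    have : {p : κ × ι | p.2 ∈ F p.1 ∧ x ∈ t p.1 p.2}
        = (fun q : Σ k : κ, {i : ι // i ∈ F k} => (q.1, (q.2 : ι))) '' 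
          {q | x ∈ t q.1 q.2} := by
      ext ⟨k, i⟩
      simp only [Set.mem_ofPred_eq, Set.mem_image, Prod.mk.injEq, Sigma.exists, Subtype.exists]
      constructor
      · rintro ⟨h1, h2⟩
        exact ⟨k, i, h1, h2, rfl, rfl⟩
      · rintro ⟨k', i', h1, h2, rfl, rfl⟩
        exact ⟨h1, h2⟩
    rw [this] at h
    exact h.of_image _

end Pool.Agent.Helper53.HD
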