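import Pool.Agent.Helper53.RedB

set_option autoImplicit false

namespace Pool.Agent.Helper53.HD

open MeasureTheory Measure Polynomial

noncomputable section

theorem prod_eq_Pi (p : ℤ[X]) :
    ((∏ i ∈ Finset.Icc 1 3, max (1 : ℤ) |p.coeff i| : ℤ) : ℝ) = Pi (ofP p) := by
  have : Finset.Icc 1 3 = ({1, 2, 3} : Finset ℕ) := by decide
  rw [this]
  rw [Finset.prod_insert (by decide), Finset.prod_insert (by decide), Finset.prod_singleton]
  unfold Pi mx ofP
  push_cast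
  ring_nf
  rfl

/-- from all polynomials to primitive ones -/
theorem infinite_primitive {w x : ℝ} (hw : 0 ≤ w) (htr : Transcendental ℤ x)
    (hinf : {p : ℤ[X] | p.natDegree ≤ 3 ∧ |aeval x p| < Pi (ofP p) ^ (-w)}.Infinite) :
    {Q : Cub | (toP Q).IsPrimitive ∧ |f Q x| < Pi Q ^ (-w)}.Infinite := by
  intro hfin
  obtain ⟨C, hC0, -, hC⟩ := exists_lower hfin (fun Q => |f Q x|) (by
    rintro Q ⟨hQ, -⟩
    rw [abs_pos, ← aeval_toP]
    intro h0
    exact htr ⟨toP Q, hQ.ne_zero, h0⟩)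
  apply hinf
  set N : ℤ := ⌈1 / C⌉ with hN
  have hfin2 : ((fun q : ℤ × Cub => Polynomial.C q.1 * toP q.2) ''
      ((Set.Icc (-N) N) ×ˢ {Q : Cub | (toP Q).IsPrimitive ∧ |f Q x| < Pi Q ^ (-w)})).Finite :=
    ((Set.finite_Icc _ _).prod hfin).image _
  refine (hfin2.union (Set.finite_singleton (0 : ℤ[X]))).subset ?_
  rintro p ⟨hp3, hp⟩
  by_cases hp0 : p = 0
  · right; exact hp0
  left
  have hpe := p.eq_C_content_mul_primPart
  have hcont : p.content ≠ 0 := by rwa [Ne, content_eq_zero_iff]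
  have hd : p.primPart.natDegree ≤ 3 := by rw [natDegree_primPart]; exact hp3
  have hcoef : ∀ i, p.coeff i = p.content * p.primPart.coeff i := by
    intro i
    conv_lhs => rw [hpe]
    rw [coeff_C_mul]
  have hmx : ∀ i, mx (p.primPart.coeff i) ≤ mx (p.coeff i) := by
    intro i
    rw [hcoef]
    have h1 : (1 : ℝ) ≤ |(p.content : ℝ)| := by exact_mod_cast Int.one_le_abs hcont
    unfold mx
    apply max_le_max le_rfl
    push_cast
    rw [abs_mul]
    exact le_mul_of_one_le_left (abs_nonneg _) h1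
  have hPi : Pi (ofP p.primPart) ≤ Pi (ofP p) := by
    unfold Pi
    exact mul_le_mul (mul_le_mul (hmx 1) (hmx 2) (mx_pos _).le (mx_pos _).le) (hmx 3)
      (mx_pos _).le (mul_nonneg (mx_pos _).le (mx_pos _).le)
  have hev : aeval x p = p.content * aeval x p.primPart := by
    conv_lhs => rw [hpe]
    rw [map_mul, aeval_C]; rfl
  have h1 : (1 : ℝ) ≤ |(p.content : ℝ)| := by exact_mod_cast Int.one_le_abs hcont
  have hmem : ofP p.primPart ∈ {Q : Cub | (toP Q).IsPrimitive ∧ |f Q x| < Pi Q ^ (-w)} := by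
    refine ⟨by rw [toP_ofP hd]; exact p.isPrimitive_primPart, ?_⟩
    rw [f_ofP hd]
    calc |aeval x p.primPart| ≤ |(p.content : ℝ)| * |aeval x p.primPart| :=
          le_mul_of_one_le_left (abs_nonneg _) h1
      _ = |aeval x p| := by rw [hev, abs_mul]
      _ < Pi (ofP p) ^ (-w) := hp
      _ ≤ Pi (ofP p.primPart) ^ (-w) :=
          Real.rpow_le_rpow_of_nonpos (Pi_pos _) hPi (by linarith)
  refine ⟨(p.content, ofP p.primPart), ⟨?_, hmem⟩, ?_⟩
  · have h2 := hC _ hmem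
    simp only [f_ofP hd] at h2
    have h3 : |(p.content : ℝ)| * |aeval x p.primPart| ≤ 1 := by
      rw [← abs_mul, ← hev]
      exact hp.le.trans (Pi_rpow_le_one _ hw)
    have h4 : |(p.content : ℝ)| ≤ 1 / C := by
      rw [le_div_iff₀ hC0]
      exact (mul_le_mul_of_nonneg_left h2 (abs_nonneg _)).trans h3
    have h5 : |(p.content : ℝ)| ≤ (N : ℝ) := h4.trans (Int.le_ceil _)
    have h6 : |p.content| ≤ N := by exact_mod_cast h5
    exact abs_le.1 h6
  · show Polynomial.C p.content * toP (ofP p.primPart) = p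
    rw [toP_ofP hd]
    exact hpe.symm

theorem null_set {w s : ℝ} (hw : 1 < w) (hs : 2 < (w + 1) * s) (hs1 : s < 1) :
    μH[s] {x : ℝ | {p : ℤ[X] | p.natDegree ≤ 3 ∧ |aeval x p| < Pi (ofP p) ^ (-w)}.Infinite}
      = 0 := by
  have hs0 : 0 < s := by
    by_contra h
    push Not at h
    nlinarith
  -- choose w'
  obtain ⟨w', hw'1, hw'2, hw's⟩ : ∃ w' : ℝ, 1 < w' ∧ w' < w ∧ 2 < (w' + 1) * s := by
    have h1 : max 1 (2 / s - 1) < w := by
      rw [max_lt_iff]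
      refine ⟨hw, ?_⟩
      rw [sub_lt_iff_lt_add, div_lt_iff₀ hs0]
      exact hs
    obtain ⟨w', h2, h3⟩ := exists_between h1
    rw [max_lt_iff] at h2
    refine ⟨w', h2.1, h3, ?_⟩
    have := h2.2
    rwa [sub_lt_iff_lt_add, div_lt_iff₀ hs0] at this
  have hna : μH[s] {x : ℝ | IsAlgebraic ℤ x} = 0 := by
    have hc : {x : ℝ | IsAlgebraic ℤ x}.Countable := Algebraic.countable ℤ ℝ
    have := nullSingletonClass_hausdorff ℝ hs0
    exact hc.measure_zero _
  have hB : ∀ n : ℕ, μH[s] ({x : ℝ | |x| ≤ ((n : ℝ) + 1) ∧ {P : Cub | |f P x| < Pi P ^ (-w') ∧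
      1 / (1000 * ((n : ℝ) + 1) ^ 3) ≤ |f1 P x|}.Infinite} ∪
      {x : ℝ | 1 ≤ ((n : ℝ) + 1) * |x| ∧ |x| ≤ ((n : ℝ) + 1) ∧ {P : Cub | Irreducible (toP P) ∧
      |f P x| < Pi P ^ (-w)}.Infinite}) = 0 := by
    intro n
    have hn : (1 : ℝ) ≤ (n : ℝ) + 1 := by
      have : (0 : ℝ) ≤ n := Nat.cast_nonneg n
      linarith
    exact measure_union_null (classI hn (by positivity) hw'1 hw's hs1)
      (class_irr hn hw hs hs1)
  refine measure_mono_null ?_ (measure_union_null hna (measure_iUnion_null hB))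
  intro x hx
  by_cases hax : IsAlgebraic ℤ x
  · left; exact hax
  right
  have htr : Transcendental ℤ x := hax
  have hx0 : x ≠ 0 := by
    rintro rfl
    exact hax (isAlgebraic_zero)
  have hxpos : 0 < |x| := abs_pos.2 hx0
  obtain ⟨n, hn⟩ := exists_nat_ge (max |x| (1 / |x|))
  rw [Set.mem_iUnion]
  refine ⟨n, ?_⟩
  have hxn : |x| ≤ (n : ℝ) + 1 := by linarith [le_max_left |x| (1 / |x|)]
  have hxn1 : 1 ≤ ((n : ℝ) + 1) * |x| := by
    have : 1 / |x| ≤ (n : ℝ) + 1 := by linarith [le_max_right |x| (1 / |x|)]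
    rwa [div_le_iff₀ hxpos] at this
  have hn1 : (1 : ℝ) ≤ (n : ℝ) + 1 := by
    have : (0 : ℝ) ≤ n := Nat.cast_nonneg n
    linarith
  by_cases hI : {P : Cub | |f P x| < Pi P ^ (-w') ∧
      1 / (1000 * ((n : ℝ) + 1) ^ 3) ≤ |f1 P x|}.Infinite
  · left; exact ⟨hxn, hI⟩
  right
  refine ⟨hxn1, hxn, ?_⟩
  rw [Set.not_infinite] at hI
  have hred := red_finite hn1 hxn1 hxn hw'1 hw'2 htr hI
  have hprim := infinite_primitive (by linarith : (0 : ℝ) ≤ w) htr hx
  refine (hprim.sdiff hred).mono ?_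
  rintro P ⟨⟨h1, h2⟩, h3⟩
  refine ⟨?_, h2⟩
  by_contra hirr
  exact h3 ⟨h1, hirr, h2⟩

theorem main (τ : ℝ) (hτ : 1 < τ) :
    dimH {ξ : ℝ | {P : Polynomial ℤ | P.natDegree ≤ 3 ∧
          ((∏ i ∈ Finset.Icc 1 3, max (1 : ℤ) |P.coeff i| : ℤ) : ℝ) ^ (2 * τ - 1)
            * |(Polynomial.aeval ξ P : ℝ)| < 1}.Infinite}
      ≤ ENNReal.ofReal (1 / τ) := by
  have hset : {ξ : ℝ | {P : Polynomial ℤ | P.natDegree ≤ 3 ∧
          ((∏ i ∈ Finset.Icc 1 3, max (1 : ℤ) |P.coeff i| : ℤ) : ℝ) ^ (2 * τ - 1)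
            * |(Polynomial.aeval ξ P : ℝ)| < 1}.Infinite}
      = {x : ℝ | {p : ℤ[X] | p.natDegree ≤ 3 ∧
          |aeval x p| < Pi (ofP p) ^ (-(2 * τ - 1))}.Infinite} := by
    ext x
    simp only [Set.mem_ofPred_eq]
    have : {P : Polynomial ℤ | P.natDegree ≤ 3 ∧
          ((∏ i ∈ Finset.Icc 1 3, max (1 : ℤ) |P.coeff i| : ℤ) : ℝ) ^ (2 * τ - 1)
            * |(Polynomial.aeval x P : ℝ)| < 1} = {p : ℤ[X] | p.natDegree ≤ 3 ∧
          |aeval x p| < Pi (ofP p) ^ (-(2 * τ - 1))} := by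
      ext p
      simp only [Set.mem_ofPred_eq]
      rw [prod_eq_Pi]
      apply and_congr_right
      intro _
      have hpos : 0 < Pi (ofP p) ^ (2 * τ - 1) := Real.rpow_pos_of_pos (Pi_pos _) _
      rw [Real.rpow_neg (Pi_pos _).le, ← one_div, lt_div_iff₀' hpos]
    rw [this]
  rw [hset]
  have hτ0 : 0 < τ := by linarith
  have h1τ : 1 / τ < 1 := by rw [div_lt_one hτ0]; exact hτ
  have key : ∀ s : ℝ, 1 / τ < s → s < 1 → dimH {x : ℝ | {p : ℤ[X] | p.natDegree ≤ 3 ∧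
          |aeval x p| < Pi (ofP p) ^ (-(2 * τ - 1))}.Infinite} ≤ ENNReal.ofReal s := by
    intro s hs1 hs2
    have hs0 : 0 ≤ s := (by positivity : (0 : ℝ) ≤ 1 / τ).trans hs1.le
    have h := null_set (w := 2 * τ - 1) (s := s) (by linarith) (by
      have : 1 < τ * s := by
        rw [div_lt_iff₀ hτ0] at hs1; linarith
      nlinarith) hs2
    have h2 : dimH {x : ℝ | {p : ℤ[X] | p.natDegree ≤ 3 ∧
          |aeval x p| < Pi (ofP p) ^ (-(2 * τ - 1))}.Infinite} ≤ (s.toNNReal : ENNReal) := by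
      apply dimH_le_of_hausdorffMeasure_ne_top
      rw [Real.coe_toNNReal s hs0, h]
      exact ENNReal.zero_ne_top
    exact h2
  have hlim : Filter.Tendsto (fun s : ℝ => ENNReal.ofReal s) (nhdsWithin (1 / τ) (Set.Ioi (1 / τ)))
      (nhds (ENNReal.ofReal (1 / τ))) :=
    (ENNReal.continuous_ofReal.tendsto _).mono_left nhdsWithin_le_nhds
  refine ge_of_tendsto hlim ?_
  have hmem : Set.Ioo (1 / τ) 1 ∈ nhdsWithin (1 / τ) (Set.Ioi (1 / τ)) := Ioo_mem_nhdsGT h1τ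
  filter_upwards [hmem] with s hs
  exact key s hs.1 hs.2

end

end Pool.Agent.Helper53.HD
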