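import Pool.Agent.Helper53.Bez
import Pool.Agent.Helper53.ClassIIM

set_option autoImplicit false

namespace Pool.Agent.Helper53.HD

open Polynomial

noncomputable section

/-- discriminant of the cubic -/
def disc {R : Type*} [CommRing R] (a b c d : R) : R :=
  b ^ 2 * c ^ 2 - 4 * a * c ^ 3 - 4 * b ^ 3 * d - 27 * a ^ 2 * d ^ 2 + 18 * a * b * c * d

theorem disc_ne_zero {P : Cub} (hP : NoRat P) (h3 : P 3 ≠ 0) :
    disc (P 3) (P 2) (P 1) (P 0) ≠ 0 := by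
  intro h
  unfold disc at h
  by_cases h0 : P 2 ^ 2 - 3 * P 3 * P 1 = 0
  · have h1 : (2 * P 2 ^ 3 - 9 * P 3 * P 2 * P 1 + 27 * P 3 ^ 2 * P 0) ^ 2 = 0 := by
      linear_combination (4 * (P 2 ^ 2 - 3 * P 3 * P 1) ^ 2) * h0 - 27 * P 3 ^ 2 * h
    have h2 := pow_eq_zero_iff (two_ne_zero) |>.1 h1
    apply hP (-P 2) (3 * P 3) (mul_ne_zero (by norm_num) h3)
    linear_combination P 3 * h2
  · apply hP (9 * P 3 * P 0 - P 2 * P 1) (2 * (P 2 ^ 2 - 3 * P 3 * P 1))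
      (mul_ne_zero (by norm_num) h0)
    linear_combination (-(2 * P 2 ^ 3 - 9 * P 3 * P 2 * P 1 + 27 * P 3 ^ 2 * P 0)) * h

theorem disc_tay (P : Cub) (x : ℝ) : disc (P 3 : ℝ) (f2 P x / 2) (f1 P x) (f P x)
    = (disc (P 3) (P 2) (P 1) (P 0) : ℤ) := by
  unfold disc f f1 f2
  push_cast
  ring

theorem noRat_of_irr {P : Cub} (h : Irreducible (toP P)) {x : ℝ} (hx : |f1 P x| < 1) :
    NoRat P := by
  intro r s hs heq
  by_cases hdeg : (toP P).natDegree = 0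
  · have c1 : P 1 = 0 := by
      rw [← toP_coeff P 1]; exact coeff_eq_zero_of_natDegree_lt (by rw [hdeg]; decide)
    have c2 : P 2 = 0 := by
      rw [← toP_coeff P 2]; exact coeff_eq_zero_of_natDegree_lt (by rw [hdeg]; decide)
    have c3 : P 3 = 0 := by
      rw [← toP_coeff P 3]; exact coeff_eq_zero_of_natDegree_lt (by rw [hdeg]; decide)
    rw [c1, c2, c3] at heq
    have h0 : P 0 = 0 := by
      have : P 0 * s ^ 3 = 0 := by linarith
      rcases mul_eq_zero.1 this with h | h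
      · exact h
      · exact absurd (pow_eq_zero_iff (by norm_num) |>.1 h) hs
    apply h.ne_zero
    rw [toP, c1, c2, c3, h0]; simp
  · have hprim := h.isPrimitive hdeg
    have hirr := (IsPrimitive.Int.irreducible_iff_irreducible_map_cast hprim).1 h
    have hroot : IsRoot ((toP P).map (Int.castRingHom ℚ)) ((r : ℚ) / s) := by
      rw [IsRoot, eval_map, toP]
      rw [eval₂_add, eval₂_add, eval₂_add, eval₂_mul, eval₂_mul, eval₂_mul, eval₂_C, eval₂_C,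
        eval₂_C, eval₂_C, eval₂_X_pow, eval₂_X_pow, eval₂_X]
      simp only [Int.coe_castRingHom]
      have hs' : (s : ℚ) ≠ 0 := by exact_mod_cast hs
      have : ((P 0 * s ^ 3 + P 1 * r * s ^ 2 + P 2 * r ^ 2 * s + P 3 * r ^ 3 : ℤ) : ℚ) = 0 := by
        exact_mod_cast heq
      push_cast at this
      field_simp
      linear_combination this
    have hd1 := degree_eq_one_of_irreducible_of_root hirr hroot
    rw [degree_map_eq_of_injective (Int.cast_injective)] at hd1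
    have hn : (toP P).natDegree = 1 := natDegree_eq_of_degree_eq_some hd1
    have c2 : P 2 = 0 := by
      rw [← toP_coeff P 2]; exact coeff_eq_zero_of_natDegree_lt (by rw [hn]; decide)
    have c3 : P 3 = 0 := by
      rw [← toP_coeff P 3]; exact coeff_eq_zero_of_natDegree_lt (by rw [hn]; decide)
    have c1 : P 1 ≠ 0 := by
      intro h1
      have := toP_coeff P 1
      rw [h1] at this
      have h3 : (toP P).leadingCoeff = 0 := by rw [leadingCoeff, hn]; exact this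
      exact h.ne_zero (leadingCoeff_eq_zero.1 h3)
    have : f1 P x = P 1 := by rw [f1, c2, c3]; simp
    rw [this] at hx
    exact c1 (int_eq_zero_of_abs_lt hx)

/-- at least two of the three top coefficients are large -/
theorem two_large {B x : ℝ} (hB : 1 ≤ B) (hx1 : 1 ≤ B * |x|) (hx : |x| ≤ B) {P : Cub}
    (h1 : |f1 P x| < 1 / (1000 * B ^ 3)) (hG : 1 < GP P) :
    ∃ m : Fin 4, m ≠ 0 ∧ ∀ l, l ≠ 0 → l ≠ m → 1 / (20 * B ^ 3) * GP P ≤ |(P l : ℝ)| := by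
  set G := GP P with hGdef
  set ε : ℝ := 1 / (20 * B ^ 3) with hε
  have hB0 : 0 < B := by linarith
  have hεB : ε * (20 * B ^ 3) = 1 := by rw [hε]; field_simp
  have hε0 : 0 < ε := by rw [hε]; positivity
  have hc : 1 / (1000 * B ^ 3) = ε / 50 := by rw [hε]; field_simp; norm_num
  rw [hc] at h1
  -- maximum is attained
  have hmax : ∃ k : Fin 4, k ≠ 0 ∧ |(P k : ℝ)| = G := by
    have hmx : ∀ m : ℤ, mx m = G → |(m : ℝ)| = G := by
      intro m hm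
      rcases max_choice 1 |(m : ℝ)| with h | h
      · exfalso; rw [mx, h] at hm; linarith
      · rw [← hm, mx, h]
    rcases max_choice (mx (P 1)) (max (mx (P 2)) (mx (P 3))) with h | h
    · exact ⟨1, by decide, hmx _ (by rw [hGdef, GP, h])⟩
    · rcases max_choice (mx (P 2)) (mx (P 3)) with h' | h'
      · exact ⟨2, by decide, hmx _ (by rw [hGdef, GP, h, h'])⟩
      · exact ⟨3, by decide, hmx _ (by rw [hGdef, GP, h, h'])⟩
  have hx0 : 0 < |x| := by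
    by_contra hcon
    have : |x| = 0 := le_antisymm (not_lt.1 hcon) (abs_nonneg _)
    rw [this] at hx1; linarith
  have hf1 : f1 P x = P 1 + 2 * P 2 * x + 3 * P 3 * x ^ 2 := rfl
  have q1 : B ^ 2 ≤ B ^ 3 := pow_le_pow_right₀ hB (by norm_num)
  have q2 : B ≤ B ^ 3 := by
    calc B = B ^ 1 := (pow_one B).symm
      _ ≤ B ^ 3 := pow_le_pow_right₀ hB (by norm_num)
  have q0 : 1 ≤ B ^ 3 := one_le_pow₀ hB
  have hG0 : 0 < G := by linarith
  have hx2 : |x| ^ 2 ≤ B ^ 2 := pow_le_pow_left₀ (abs_nonneg x) hx 2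
  have t2 : |2 * (P 2 : ℝ) * x| = 2 * (|(P 2 : ℝ)| * |x|) := by
    rw [abs_mul, abs_mul, abs_two]; ring
  have t3 : |3 * (P 3 : ℝ) * x ^ 2| = 3 * (|(P 3 : ℝ)| * |x| ^ 2) := by
    rw [abs_mul, abs_mul, abs_pow]; norm_num; ring
  -- three inequalities
  have i1 : |(P 1 : ℝ)| ≤ |f1 P x| + 2 * (|(P 2 : ℝ)| * |x|) + 3 * (|(P 3 : ℝ)| * |x| ^ 2) := by
    have e : (P 1 : ℝ) = f1 P x - 2 * P 2 * x - 3 * P 3 * x ^ 2 := by rw [hf1]; ring
    calc |(P 1 : ℝ)| = |f1 P x - 2 * P 2 * x - 3 * P 3 * x ^ 2| := by rw [← e]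
      _ ≤ |f1 P x - 2 * P 2 * x| + |3 * (P 3 : ℝ) * x ^ 2| := abs_sub _ _
      _ ≤ |f1 P x| + |2 * (P 2 : ℝ) * x| + |3 * (P 3 : ℝ) * x ^ 2| := by
          gcongr; exact abs_sub _ _
      _ = _ := by rw [t2, t3]
  have i2 : 2 * (|(P 2 : ℝ)| * |x|) ≤ |f1 P x| + |(P 1 : ℝ)| + 3 * (|(P 3 : ℝ)| * |x| ^ 2) := by
    rw [← t2, ← t3]
    have e : (2 * P 2 * x : ℝ) = f1 P x - P 1 - 3 * P 3 * x ^ 2 := by rw [hf1]; ring
    calc |(2 * P 2 * x : ℝ)| = |f1 P x - P 1 - 3 * P 3 * x ^ 2| := by rw [← e]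
      _ ≤ |f1 P x - P 1| + |3 * (P 3 : ℝ) * x ^ 2| := abs_sub _ _
      _ ≤ _ := by gcongr; exact abs_sub _ _
  have i3 : 3 * (|(P 3 : ℝ)| * |x| ^ 2) ≤ |f1 P x| + |(P 1 : ℝ)| + 2 * (|(P 2 : ℝ)| * |x|) := by
    rw [← t2, ← t3]
    have e : (3 * P 3 * x ^ 2 : ℝ) = f1 P x - P 1 - 2 * P 2 * x := by rw [hf1]; ring
    calc |(3 * P 3 * x ^ 2 : ℝ)| = |f1 P x - P 1 - 2 * P 2 * x| := by rw [← e]
      _ ≤ |f1 P x - P 1| + |2 * (P 2 : ℝ) * x| := abs_sub _ _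
      _ ≤ _ := by gcongr; exact abs_sub _ _
  have hB2x : 1 ≤ B ^ 2 * |x| ^ 2 := by
    calc (1 : ℝ) ≤ (B * |x|) ^ 2 := one_le_pow₀ hx1
      _ = _ := by ring
  have hεG : 0 < ε * G := mul_pos hε0 hG0
  have hεG' : ε * G * (20 * B ^ 3) = G := by
    calc ε * G * (20 * B ^ 3) = (ε * (20 * B ^ 3)) * G := by ring
      _ = G := by rw [hεB, one_mul]
  have small : ε / 50 ≤ ε * G / 50 := by
    have := mul_le_mul_of_nonneg_left hG.le hε0.le
    linarith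
  -- if |P i| < εG and |P j| < ε G with third = G, contradiction
  have c1 : ¬ (|(P 1 : ℝ)| = G ∧ |(P 2 : ℝ)| < ε * G ∧ |(P 3 : ℝ)| < ε * G) := by
    rintro ⟨a1, a2, a3⟩
    have b2 : |(P 2 : ℝ)| * |x| ≤ ε * G * B := mul_le_mul a2.le hx hx0.le hεG.le
    have b3 : |(P 3 : ℝ)| * |x| ^ 2 ≤ ε * G * B ^ 2 :=
      mul_le_mul a3.le hx2 (by positivity) hεG.le
    nlinarith [mul_le_mul_of_nonneg_left q1 hεG.le, mul_le_mul_of_nonneg_left q2 hεG.le,
      mul_le_mul_of_nonneg_left q0 hεG.le]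
  have c2 : ¬ (|(P 2 : ℝ)| = G ∧ |(P 1 : ℝ)| < ε * G ∧ |(P 3 : ℝ)| < ε * G) := by
    rintro ⟨a2, a1, a3⟩
    have b3 : |(P 3 : ℝ)| * |x| ^ 2 ≤ ε * G * B ^ 2 :=
      mul_le_mul a3.le hx2 (by positivity) hεG.le
    rw [a2] at i2
    have j2 := mul_le_mul_of_nonneg_left i2 hB0.le
    have j3 : 2 * G ≤ B * (2 * (G * |x|)) := by
      nlinarith
    have j4 : B * (|f1 P x| + |(P 1 : ℝ)| + 3 * (|(P 3 : ℝ)| * |x| ^ 2))
        ≤ B * (ε * G / 50 + ε * G + 3 * (ε * G * B ^ 2)) := by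
      apply mul_le_mul_of_nonneg_left _ hB0.le
      linarith
    have j5 : B * (ε * G / 50 + ε * G + 3 * (ε * G * B ^ 2))
        = ε * G * B * (51 / 50) + 3 * (ε * G * B ^ 3) := by ring
    nlinarith [mul_le_mul_of_nonneg_left q2 hεG.le]
  have c3 : ¬ (|(P 3 : ℝ)| = G ∧ |(P 1 : ℝ)| < ε * G ∧ |(P 2 : ℝ)| < ε * G) := by
    rintro ⟨a3, a1, a2⟩
    have b2 : |(P 2 : ℝ)| * |x| ≤ ε * G * B := mul_le_mul a2.le hx hx0.le hεG.le
    rw [a3] at i3
    have hB2 : 0 < B ^ 2 := by positivity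
    have j2 := mul_le_mul_of_nonneg_left i3 hB2.le
    have j3 : 3 * G ≤ B ^ 2 * (3 * (G * |x| ^ 2)) := by
      nlinarith
    have j4 : B ^ 2 * (|f1 P x| + |(P 1 : ℝ)| + 2 * (|(P 2 : ℝ)| * |x|))
        ≤ B ^ 2 * (ε * G / 50 + ε * G + 2 * (ε * G * B)) := by
      apply mul_le_mul_of_nonneg_left _ hB2.le
      linarith
    have j5 : B ^ 2 * (ε * G / 50 + ε * G + 2 * (ε * G * B))
        = ε * G * B ^ 2 * (51 / 50) + 2 * (ε * G * B ^ 3) := by ring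
    nlinarith [mul_le_mul_of_nonneg_left q1 hεG.le]
  have hε1 : ε * G < G := by nlinarith
  by_contra hcon
  push Not at hcon
  obtain ⟨k, hk0, hk⟩ := hmax
  obtain ⟨l, hl0, hlk, hl⟩ := hcon k hk0
  obtain ⟨m, hm0, hml, hm⟩ := hcon l hl0
  have hmk : m ≠ k := by
    rintro rfl
    rw [hk] at hm; linarith
  fin_cases k <;> fin_cases l <;> fin_cases m <;>
    first
    | exact hk0 rfl
    | exact hl0 rfl
    | exact hm0 rfl
    | exact hlk rfl
    | exact hml rfl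
    | exact hmk rfl
    | exact c1 ⟨hk, hl, hm⟩
    | exact c1 ⟨hk, hm, hl⟩
    | exact c2 ⟨hk, hl, hm⟩
    | exact c2 ⟨hk, hm, hl⟩
    | exact c3 ⟨hk, hl, hm⟩
    | exact c3 ⟨hk, hm, hl⟩

end

end Pool.Agent.Helper53.HD
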