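import Pool.Agent.Helper53.QVal

set_option autoImplicit false

namespace Pool.Agent.Helper53.QC

open Polynomial

abbrev Zq := Polynomial ℤ
abbrev Kq := FractionRing (Polynomial ℤ)

/-- the indeterminate -/
noncomputable def q : Kq := algebraMap Zq Kq X

theorem cyc_prime {n : ℕ} (hn : 0 < n) : Prime (cyclotomic n ℤ) :=
  (cyclotomic.irreducible hn).prime

theorem root_of_dvd {n : ℕ} (hn : 0 < n) {P : Polynomial ℤ} (h : cyclotomic n ℤ ∣ P) (μ : ℂ)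
    (hμ : IsPrimitiveRoot μ n) : (P.map (Int.castRingHom ℂ)).IsRoot μ := by
  obtain ⟨Q, rfl⟩ := h
  have : NeZero ((n : ℂ)) := ⟨by exact_mod_cast hn.ne'⟩
  rw [Polynomial.map_mul, map_cyclotomic, Polynomial.IsRoot.def, Polynomial.eval_mul]
  have : (cyclotomic n ℂ).IsRoot μ := (isRoot_cyclotomic_iff (n := n)).2 hμ
  rw [Polynomial.IsRoot.def] at this
  rw [this, zero_mul]

theorem cyc_not_dvd_X_pow {n m : ℕ} (hn : 0 < n) (hnm : ¬ n ∣ m) :
    ¬ cyclotomic n ℤ ∣ (X ^ m - 1 : Polynomial ℤ) := by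
  intro h
  have hμ := Complex.isPrimitiveRoot_exp n hn.ne'
  have := root_of_dvd hn h _ hμ
  rw [Polynomial.IsRoot.def] at this
  simp only [Polynomial.map_sub, Polynomial.map_pow, Polynomial.map_X, Polynomial.map_one,
    Polynomial.eval_sub, Polynomial.eval_pow, Polynomial.eval_X, Polynomial.eval_one] at this
  exact hnm (hμ.dvd_of_pow_eq_one _ (sub_eq_zero.1 this))

theorem cyc_not_dvd_cyc {n d : ℕ} (hn : 0 < n) (hd : 0 < d) (hnd : n ≠ d) :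
    ¬ cyclotomic n ℤ ∣ cyclotomic d ℤ := by
  intro h
  have hμ := Complex.isPrimitiveRoot_exp n hn.ne'
  have hr := root_of_dvd hn h _ hμ
  rw [map_cyclotomic] at hr
  have : NeZero ((d : ℂ)) := ⟨by exact_mod_cast hd.ne'⟩
  rw [isRoot_cyclotomic_iff] at hr
  exact hnd (hμ.unique hr)

theorem cyc_not_dvd_X {n : ℕ} (hn : 0 < n) : ¬ cyclotomic n ℤ ∣ (X : Polynomial ℤ) := by
  intro h
  have hμ := Complex.isPrimitiveRoot_exp n hn.ne'
  have := root_of_dvd hn h _ hμ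
  rw [Polynomial.IsRoot.def, Polynomial.map_X, Polynomial.eval_X] at this
  exact hμ.ne_zero hn.ne' this

theorem X_pow_factor {n m : ℕ} (hn : 0 < n) (hm : 0 < m) (hnm : n ∣ m) :
    ∃ g : Polynomial ℤ, X ^ m - 1 = cyclotomic n ℤ * g ∧ ¬ cyclotomic n ℤ ∣ g := by
  refine ⟨∏ d ∈ (Nat.divisors m).erase n, cyclotomic d ℤ, ?_, ?_⟩
  · rw [Finset.mul_prod_erase _ (fun d => cyclotomic d ℤ) (Nat.mem_divisors.2 ⟨hnm, hm.ne'⟩),
      prod_cyclotomic_eq_X_pow_sub_one hm]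
  · intro h
    rw [Prime.dvd_finsetProd_iff (cyc_prime hn)] at h
    obtain ⟨d, hd, h⟩ := h
    rw [Finset.mem_erase, Nat.mem_divisors] at hd
    exact cyc_not_dvd_cyc hn (Nat.pos_of_dvd_of_pos hd.2.1 hm) (Ne.symm hd.1) h

variable {n : ℕ}

theorem Va_q (hn : 0 < n) : Va Kq (cyclotomic n ℤ) 0 q :=
  ⟨X, 1, cyc_not_dvd_X hn, fun h => (cyc_prime hn).not_isUnit (isUnit_of_dvd_one h), by simp [q]⟩

theorem q_ne_zero : q ≠ 0 := by
  intro h
  rw [q, map_eq_zero_iff _ (IsFractionRing.injective Zq Kq)] at h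
  exact X_ne_zero h

theorem Va_zpow (hn : 0 < n) {F : Kq} (hF : Va Kq (cyclotomic n ℤ) 0 F) (e : ℤ) :
    Va Kq (cyclotomic n ℤ) 0 (F ^ e) := by
  rcases e with e | e
  · have := hF.pow (cyc_prime hn) e
    simpa using this
  · have := (hF.pow (cyc_prime hn) (e + 1)).inv (cyc_prime hn)
    rw [zpow_negSucc]
    simpa using this

theorem one_sub_pow_eq (m : ℕ) : (1 : Kq) - q ^ m = algebraMap Zq Kq (-(X ^ m - 1)) := by
  simp [q]

theorem Va_neg (hn : 0 < n) {e : ℤ} {F : Kq} (hF : Va Kq (cyclotomic n ℤ) e F) :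
    Va Kq (cyclotomic n ℤ) e (-F) := by
  obtain ⟨a, b, ha, hb, h⟩ := hF
  refine ⟨-a, b, by rwa [dvd_neg], hb, ?_⟩
  rw [map_neg]; linear_combination -h

theorem V0_nat (hn : 0 < n) {m : ℕ} (h : ¬ n ∣ m) : Va Kq (cyclotomic n ℤ) 0 (1 - q ^ m) := by
  refine ⟨-(X ^ m - 1), 1, ?_, fun h => (cyc_prime hn).not_isUnit (isUnit_of_dvd_one h), ?_⟩
  · rw [dvd_neg]; exact cyc_not_dvd_X_pow hn h
  · rw [one_sub_pow_eq]; simp

theorem V1_nat (hn : 0 < n) {m : ℕ} (hm : 0 < m) (h : n ∣ m) :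
    Va Kq (cyclotomic n ℤ) 1 (1 - q ^ m) := by
  obtain ⟨g, hg, hg'⟩ := X_pow_factor hn hm h
  refine ⟨-g, 1, by rwa [dvd_neg], fun h => (cyc_prime hn).not_isUnit (isUnit_of_dvd_one h), ?_⟩
  rw [one_sub_pow_eq, hg]; simp

theorem one_sub_zpow_neg (m : ℕ) : (1 : Kq) - q ^ (-(m : ℤ)) = -(q ^ (-(m : ℤ)) * (1 - q ^ m)) := by
  have := q_ne_zero
  rw [zpow_neg, zpow_natCast]
  field_simp
  ring

theorem V0 (hn : 0 < n) {e : ℤ} (h : ¬ (n : ℤ) ∣ e) : Va Kq (cyclotomic n ℤ) 0 (1 - q ^ e) := by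
  obtain ⟨m, rfl | rfl⟩ := Int.eq_nat_or_neg e
  · rw [zpow_natCast]
    exact V0_nat hn (by rwa [Int.natCast_dvd_natCast] at h)
  · rw [one_sub_zpow_neg]
    apply Va_neg hn
    have := (Va_zpow hn (Va_q hn) (-(m : ℤ))).mul (cyc_prime hn)
      (V0_nat hn (m := m) (by rwa [dvd_neg, Int.natCast_dvd_natCast] at h))
    simpa using this

theorem V1 (hn : 0 < n) {e : ℤ} (he : e ≠ 0) (h : (n : ℤ) ∣ e) :
    Va Kq (cyclotomic n ℤ) 1 (1 - q ^ e) := by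
  obtain ⟨m, rfl | rfl⟩ := Int.eq_nat_or_neg e
  · rw [zpow_natCast]
    exact V1_nat hn (by omega) (by rwa [Int.natCast_dvd_natCast] at h)
  · rw [one_sub_zpow_neg]
    apply Va_neg hn
    have := (Va_zpow hn (Va_q hn) (-(m : ℤ))).mul (cyc_prime hn)
      (V1_nat hn (m := m) (by omega) (by rwa [dvd_neg, Int.natCast_dvd_natCast] at h))
    simpa using this

theorem I1 (hn : 0 < n) {e : ℤ} (h : (n : ℤ) ∣ e) : In Kq (cyclotomic n ℤ) 1 (1 - q ^ e) := by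
  by_cases he : e = 0
  · subst he; simpa using In_zero (cyc_prime hn) 1
  · exact (V1 hn he h).toIn' (m := 1) rfl

end Pool.Agent.Helper53.QC
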