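import Pool.Agent.Helper53.QMain

set_option autoImplicit false

namespace Pool.Agent.Helper53.QC

open Polynomial

/-- turning the localisation form of a congruence into reduced fractions -/
theorem reduced_of_In {n : ℕ} (hn : 0 < n) (m : ℕ) {F : Kq} (hF : In Kq (cyclotomic n ℤ) m F) :
    ∃ A B : Zq, B ≠ 0 ∧ F = algebraMap Zq Kq A / algebraMap Zq Kq B ∧ IsRelPrime A B ∧
      IsRelPrime B (cyclotomic n ℤ ^ m) ∧ cyclotomic n ℤ ^ m ∣ A := by
  have hπ := cyc_prime hn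
  obtain ⟨a, b, hb, h⟩ := hF
  obtain ⟨A, B, hAB, hmk⟩ := IsFractionRing.exists_reduced_fraction Zq F
  have hB0 : (B : Zq) ≠ 0 := nonZeroDivisors.ne_zero B.2
  have hBne : algebraMap Zq Kq (B : Zq) ≠ 0 := by
    intro h0
    exact hB0 ((map_eq_zero_iff _ (IsFractionRing.injective Zq Kq)).1 h0)
  have hF : F = algebraMap Zq Kq A / algebraMap Zq Kq (B : Zq) := by
    rw [← hmk, IsFractionRing.mk'_eq_div]
  have key : A * b = (B : Zq) * (cyclotomic n ℤ ^ m * a) := by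
    apply IsFractionRing.injective Zq Kq
    rw [map_mul, map_mul, ← h, hF]
    field_simp
  have hBb : (B : Zq) ∣ b := by
    apply IsRelPrime.dvd_of_dvd_mul_left hAB.symm
    exact ⟨_, key⟩
  have hBπ : ¬ cyclotomic n ℤ ∣ (B : Zq) := fun hh => hb (hh.trans hBb)
  refine ⟨A, B, hB0, hF, hAB, ?_, ?_⟩
  · exact IsRelPrime.pow_right ((hπ.irreducible.isRelPrime_iff_not_dvd.2 hBπ).symm)
  · apply hπ.pow_dvd_of_dvd_mul_right m hb
    rw [key]
    exact ⟨B * a, by ring⟩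


theorem rr_closed (i : ℕ) : rr i = ((1 - q * (q ^ 2) ^ i) / (1 - q ^ 2 * (q ^ 2) ^ i)) ^ 2
    * ((1 - q ^ 2 * (q ^ 4) ^ i) / (1 - q ^ 4 * (q ^ 4) ^ i)) * q ^ 2 := by
  have h1 : q * (q ^ 2) ^ i = q ^ (2 * i + 1) := by ring
  have h2 : q ^ 2 * (q ^ 2) ^ i = (q ^ 2) ^ (i + 1) := by ring
  have h3 : q ^ 2 * (q ^ 4) ^ i = (q ^ 2) ^ (2 * i + 1) := by ring
  have h4 : q ^ 4 * (q ^ 4) ^ i = (q ^ 2) ^ (2 * i + 2) := by ring
  rw [rr, cf, h1, h2, h3, h4, div_pow, div_mul_div_comm, div_mul_eq_mul_div, mul_div_assoc']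
  congr 1
  ring

theorem cc_closed (k : ℕ) : cc k =
    ((∏ j ∈ Finset.range k, (1 - q * (q ^ 2) ^ j)) / ∏ j ∈ Finset.range k, (1 - q ^ 2 * (q ^ 2) ^ j)) ^ 2
    * ((∏ j ∈ Finset.range k, (1 - q ^ 2 * (q ^ 4) ^ j)) / ∏ j ∈ Finset.range k, (1 - q ^ 4 * (q ^ 4) ^ j))
    * q ^ (2 * k) := by
  rw [cc, Finset.prod_congr rfl fun i _ => rr_closed i, Finset.prod_mul_distrib,
    Finset.prod_mul_distrib, Finset.prod_pow, Finset.prod_div_distrib, Finset.prod_div_distrib,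
    Finset.prod_const, Finset.card_range, ← pow_mul]

theorem final_cong (n : ℕ) (h : n % 4 = 3) (r : ℕ) (hr : 1 ≤ r) :
    (∃ A B : Zq, B ≠ 0 ∧ ∑ k ∈ Finset.range (r * n - 1 + 1), cc k
        = algebraMap Zq Kq A / algebraMap Zq Kq B ∧ IsRelPrime A B ∧
      IsRelPrime B (cyclotomic n ℤ ^ 2) ∧ cyclotomic n ℤ ^ 2 ∣ A) ∧
    (∃ A B : Zq, B ≠ 0 ∧ ∑ k ∈ Finset.range (r * n + (n - 1) / 2 + 1), cc k
        = algebraMap Zq Kq A / algebraMap Zq Kq B ∧ IsRelPrime A B ∧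
      IsRelPrime B (cyclotomic n ℤ ^ 2) ∧ cyclotomic n ℤ ^ 2 ∣ A) := by
  have hn : 0 < n := by omega
  have hN : n = 2 * ((n - 1) / 2) + 1 := by omega
  have hodd : ((n - 1) / 2) % 2 = 1 := by omega
  have hrn : r * n - 1 + 1 = r * n := Nat.sub_add_cancel (Nat.mul_pos hr hn)
  constructor
  · rw [hrn]; exact reduced_of_In hn 2 (main_In hN hodd r)
  · rw [add_assoc]; exact reduced_of_In hn 2 (main_In' hN hodd r)

end Pool.Agent.Helper53.QC
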