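import Mathlib

set_option autoImplicit false

namespace Pool.Agent.Helper53.QC

variable {K : Type*} [Field K] (p : K)

/-- common factor -/
def cf (i : ℕ) : K := (1 - p ^ (2 * i + 1)) * p / ((1 - p ^ (i + 1)) ^ 2 * (1 - p ^ (2 * i + 2)))

/-- ratio of consecutive terms in the terminating sum -/
def sr (M i : ℕ) : K := (1 - p ^ i / p ^ M) * (1 - p ^ (M + 1 + i)) * cf p i

def Ut (M k : ℕ) : K := ∏ i ∈ Finset.range k, sr p M i

def fs (M : ℕ) : K := ∑ k ∈ Finset.range (M + 1), Ut p M k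

variable {p}

theorem Ut_zero_of_lt {M k : ℕ} (hp : p ≠ 0) (h : M < k) : Ut p M k = 0 := by
  apply Finset.prod_eq_zero (Finset.mem_range.2 h)
  rw [sr, div_self (pow_ne_zero M hp)]; ring

theorem Ut_rel (hp : p ≠ 0) (M k : ℕ) :
    Ut p M k * ((1 - p ^ M * p * p ^ k) * (1 - p ^ M * p ^ 2 * p ^ k))
      = Ut p (M + 2) k * ((p ^ M * p ^ 2 - p ^ k) * (p ^ M * p - p ^ k)) := by
  induction k with
  | zero => simp [Ut]; ring
  | succ k ih =>
    have h1 : Ut p M (k + 1) = Ut p M k * sr p M k := Finset.prod_range_succ _ _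
    have h2 : Ut p (M + 2) (k + 1) = Ut p (M + 2) k * sr p (M + 2) k := Finset.prod_range_succ _ _
    rw [h1, h2]
    have hM : p ^ M ≠ 0 := pow_ne_zero M hp
    have e1 : sr p M k * (1 - p ^ M * p * p ^ (k + 1))
        = (p ^ M - p ^ k) / p ^ M * (1 - p ^ M * p * p ^ k) * (1 - p ^ M * p ^ 2 * p ^ k) * cf p k := by
      rw [sr]; field_simp; ring
    have e2 : sr p (M + 2) k * ((p ^ M * p ^ 2 - p ^ (k + 1)) * (p ^ M * p - p ^ (k + 1)))
        = (p ^ M * p ^ 2 - p ^ k) * (p ^ M * p - p ^ k) * (p ^ M - p ^ k) / p ^ M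
          * (1 - p ^ M * p ^ 2 * p ^ (k + 1)) * cf p k := by
      rw [sr]; field_simp; ring
    calc Ut p M k * sr p M k * ((1 - p ^ M * p * p ^ (k + 1)) * (1 - p ^ M * p ^ 2 * p ^ (k + 1)))
        = Ut p M k * (sr p M k * (1 - p ^ M * p * p ^ (k + 1))) * (1 - p ^ M * p ^ 2 * p ^ (k + 1)) := by ring
      _ = (Ut p M k * ((1 - p ^ M * p * p ^ k) * (1 - p ^ M * p ^ 2 * p ^ k)))
          * ((p ^ M - p ^ k) / p ^ M) * cf p k * (1 - p ^ M * p ^ 2 * p ^ (k + 1)) := by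
          rw [e1]; ring
      _ = Ut p (M + 2) k * ((p ^ M * p ^ 2 - p ^ k) * (p ^ M * p - p ^ k))
          * ((p ^ M - p ^ k) / p ^ M) * cf p k * (1 - p ^ M * p ^ 2 * p ^ (k + 1)) := by rw [ih]
      _ = Ut p (M + 2) k * sr p (M + 2) k
          * ((p ^ M * p ^ 2 - p ^ (k + 1)) * (p ^ M * p - p ^ (k + 1))) := by
          rw [mul_assoc (Ut p (M + 2) k) (sr p (M + 2) k), e2]; ring

/-- certificate -/
noncomputable def Gc (p : K) (M k : ℕ) : K :=
  -(p ^ M * p ^ 2 * (1 - p ^ M * p ^ M * p ^ 3)) * ((1 - p ^ k) ^ 2 * (1 - p ^ k * p ^ k))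
    / p ^ k * (Ut p (M + 2) k / ((1 - p ^ M * p * p ^ k) * (1 - p ^ M * p ^ 2 * p ^ k)))

theorem wz (hp : p ≠ 0) (hp1 : ∀ j : ℕ, 0 < j → 1 - p ^ j ≠ 0) (M k : ℕ) :
    (1 - p ^ M * p ^ 2) ^ 2 * Ut p (M + 2) k - p * (1 - p ^ M * p) ^ 2 * Ut p M k
      = Gc p M (k + 1) - Gc p M k := by
  have hM : p ^ M ≠ 0 := pow_ne_zero M hp
  have hk : p ^ k ≠ 0 := pow_ne_zero k hp
  have d1 : 1 - p ^ M * p * p ^ k ≠ 0 := by
    have := hp1 (M + 1 + k) (by omega); rwa [pow_add, pow_add, pow_one] at this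
  have d2 : 1 - p ^ M * p ^ 2 * p ^ k ≠ 0 := by
    have := hp1 (M + 2 + k) (by omega); rwa [pow_add, pow_add] at this
  have d3 : 1 - p ^ M * p ^ 3 * p ^ k ≠ 0 := by
    have := hp1 (M + 3 + k) (by omega); rwa [pow_add, pow_add] at this
  have d4 : 1 - p ^ k * p ≠ 0 := by
    have := hp1 (k + 1) (by omega); rwa [pow_add, pow_one] at this
  have d5 : 1 - p ^ k * p ^ k * p ^ 2 ≠ 0 := by
    have := hp1 (2 * k + 2) (by omega)
    rwa [pow_add, two_mul, pow_add] at this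
  have hrel := Ut_rel hp M k
  have hU : Ut p M k = Ut p (M + 2) k * ((p ^ M * p ^ 2 - p ^ k) * (p ^ M * p - p ^ k))
      / ((1 - p ^ M * p * p ^ k) * (1 - p ^ M * p ^ 2 * p ^ k)) := by
    rw [← hrel]; field_simp
  have h2 : Ut p (M + 2) (k + 1) = Ut p (M + 2) k * sr p (M + 2) k := Finset.prod_range_succ _ _
  have hs : sr p (M + 2) k = (1 - p ^ k / (p ^ M * p ^ 2)) * (1 - p ^ M * p ^ 3 * p ^ k)
      * ((1 - p ^ k * p ^ k * p) * p / ((1 - p ^ k * p) ^ 2 * (1 - p ^ k * p ^ k * p ^ 2))) := by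
    have e1 : p ^ (2 * k + 1) = p ^ k * p ^ k * p := by ring
    have e2 : p ^ (2 * k + 2) = p ^ k * p ^ k * p ^ 2 := by ring
    have e3 : p ^ (k + 1) = p ^ k * p := by ring
    have e4 : p ^ (M + 2 + 1 + k) = p ^ M * p ^ 3 * p ^ k := by ring
    have e5 : p ^ (M + 2) = p ^ M * p ^ 2 := by ring
    rw [sr, cf, e1, e2, e3, e4, e5]
  have hG1 : Gc p M (k + 1) = -((1 - p ^ M * p ^ M * p ^ 3) * (p ^ M * p ^ 2 - p ^ k)
      * (1 - p ^ k * p ^ k * p) * Ut p (M + 2) k) / (p ^ k * (1 - p ^ M * p ^ 2 * p ^ k)) := by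
    rw [Gc, h2, hs]
    rw [show p ^ (k + 1) = p ^ k * p by ring]
    have d1' : 1 - p ^ M * p * (p ^ k * p) ≠ 0 := by
      intro h; apply d2; rw [← h]; ring
    have d2' : 1 - p ^ M * p ^ 2 * (p ^ k * p) ≠ 0 := by
      intro h; apply d3; rw [← h]; ring
    have f1 : 1 - p ^ M * p * (p ^ k * p) = 1 - p ^ M * p ^ 2 * p ^ k := by ring
    have f2 : 1 - p ^ M * p ^ 2 * (p ^ k * p) = 1 - p ^ M * p ^ 3 * p ^ k := by ring
    have f3 : 1 - p ^ k * p * (p ^ k * p) = 1 - p ^ k * p ^ k * p ^ 2 := by ring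
    have f4 : 1 - p ^ k / (p ^ M * p ^ 2) = (p ^ M * p ^ 2 - p ^ k) / (p ^ M * p ^ 2) := by
      field_simp
    rw [f1, f2, f3, f4]
    generalize Ut p (M + 2) k = U
    clear hU hrel h2 hs f1 f2 f3 f4 d1' d2'
    generalize hA : 1 - p ^ M * p ^ 2 * p ^ k = A at *
    generalize hB : 1 - p ^ M * p ^ 3 * p ^ k = B at *
    generalize hC : 1 - p ^ k * p = C at *
    generalize hD : 1 - p ^ k * p ^ k * p ^ 2 = D at *
    field_simp
  rw [hG1, Gc, hU]
  generalize Ut p (M + 2) k = U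
  clear hU hrel h2 hs hG1
  generalize hP : p ^ M = P at *
  generalize hKK : p ^ k = KK at *
  field_simp
  ring

theorem fs_rec (hp : p ≠ 0) (hp1 : ∀ j : ℕ, 0 < j → 1 - p ^ j ≠ 0) (M : ℕ) :
    (1 - p ^ M * p ^ 2) ^ 2 * fs p (M + 2) = p * (1 - p ^ M * p) ^ 2 * fs p M := by
  have h1 : fs p M = ∑ k ∈ Finset.range (M + 3), Ut p M k := by
    rw [Finset.sum_range_succ, Finset.sum_range_succ, Ut_zero_of_lt hp (by omega : M < M + 1),
      Ut_zero_of_lt hp (by omega : M < M + 2), add_zero, add_zero]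
    rfl
  have h2 : ∑ k ∈ Finset.range (M + 3), ((1 - p ^ M * p ^ 2) ^ 2 * Ut p (M + 2) k
      - p * (1 - p ^ M * p) ^ 2 * Ut p M k) = Gc p M (M + 3) - Gc p M 0 := by
    rw [← Finset.sum_range_sub]
    exact Finset.sum_congr rfl fun k _ => wz hp hp1 M k
  have h3 : Gc p M (M + 3) = 0 := by
    rw [Gc, Ut_zero_of_lt hp (by omega : M + 2 < M + 3)]; simp
  have h4 : Gc p M 0 = 0 := by rw [Gc]; simp
  rw [Finset.sum_sub_distrib, ← Finset.mul_sum, ← Finset.mul_sum, ← h1, h3, h4] at h2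
  have : fs p (M + 2) = ∑ k ∈ Finset.range (M + 3), Ut p (M + 2) k := rfl
  rw [← this] at h2
  linear_combination h2

theorem fs_odd (hp : p ≠ 0) (hp1 : ∀ j : ℕ, 0 < j → 1 - p ^ j ≠ 0) (m : ℕ) :
    fs p (2 * m + 1) = 0 := by
  induction m with
  | zero =>
    have h1 := hp1 1 (by norm_num)
    have h2 := hp1 2 (by norm_num)
    rw [pow_one] at h1
    simp only [fs, Ut, Finset.sum_range_succ, Finset.sum_range_zero, Finset.prod_range_zero,
      Finset.prod_range_succ, sr, cf]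
    norm_num
    field_simp
    ring
  | succ m ih =>
    have h := fs_rec hp hp1 (2 * m + 1)
    rw [ih, mul_zero] at h
    have hd := hp1 (2 * m + 1 + 2) (by omega)
    rw [pow_add] at hd
    rw [show 2 * (m + 1) + 1 = 2 * m + 1 + 2 by ring]
    exact (mul_eq_zero.1 h).resolve_left (pow_ne_zero 2 hd)

theorem fs_even (hp : p ≠ 0) (hp1 : ∀ j : ℕ, 0 < j → 1 - p ^ j ≠ 0) (m : ℕ) :
    fs p (2 * m) = p ^ m * (∏ i ∈ Finset.range m, ((1 - p ^ (2 * i + 1)) / (1 - p ^ (2 * i + 2)))) ^ 2 := by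
  induction m with
  | zero => simp [fs, Ut]
  | succ m ih =>
    have h := fs_rec hp hp1 (2 * m)
    have hd := hp1 (2 * m + 2) (by omega)
    rw [ih] at h
    rw [Finset.prod_range_succ, show 2 * (m + 1) = 2 * m + 2 by ring]
    have hd2 : 1 - p ^ (2 * m) * p ^ 2 ≠ 0 := by rwa [pow_add] at hd
    have : fs p (2 * m + 2) = p * (1 - p ^ (2 * m) * p) ^ 2 * (p ^ m * (∏ i ∈ Finset.range m,
        ((1 - p ^ (2 * i + 1)) / (1 - p ^ (2 * i + 2)))) ^ 2) / (1 - p ^ (2 * m) * p ^ 2) ^ 2 := by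
      rw [eq_div_iff (pow_ne_zero 2 hd2), ← h]; ring
    rw [this, pow_succ p (2 * m), pow_add p (2 * m) 2]
    field_simp
    ring

end Pool.Agent.Helper53.QC
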