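import Pool.Agent.Helper53.QCyc
import Pool.Agent.Helper53.QWhipple

set_option autoImplicit false

namespace Pool.Agent.Helper53.QC

open Polynomial

noncomputable def rr (i : ℕ) : Kq := (1 - q ^ (2 * i + 1)) ^ 2 * cf (q ^ 2) i

noncomputable def cc (k : ℕ) : Kq := ∏ i ∈ Finset.range k, rr i

section
variable {n N : ℕ}

/-- exponent of `Φ_n` -/
def ex (n i : ℕ) : ℤ := (if n ∣ 2 * i + 1 then 3 else 0) - (if n ∣ i + 1 then 3 else 0)

theorem not_both (hN : n = 2 * N + 1) (hn3 : 1 < n) {i : ℕ} (h1 : n ∣ 2 * i + 1) : ¬ n ∣ i + 1 := by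
  intro h2
  have h3 : n ∣ 2 * (i + 1) - (2 * i + 1) := Nat.dvd_sub (Dvd.dvd.mul_left h2 2) h1
  have : 2 * (i + 1) - (2 * i + 1) = 1 := by omega
  rw [this] at h3
  have := Nat.le_of_dvd one_pos h3
  omega

theorem dvd_two_mul (hN : n = 2 * N + 1) {m : ℕ} : n ∣ 2 * m ↔ n ∣ m := by
  have : Nat.Coprime n 2 := by
    rw [hN]; simp
  constructor
  · intro h; exact this.dvd_of_dvd_mul_left h
  · intro h; exact Dvd.dvd.mul_left h 2

theorem Va_cf (hN : n = 2 * N + 1) (i : ℕ) :
    Va Kq (cyclotomic n ℤ) ((if n ∣ 2 * i + 1 then 1 else 0) - (if n ∣ i + 1 then 3 else 0))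
      (cf (q ^ 2) i) := by
  have hn : 0 < n := by omega
  have hπ := cyc_prime hn
  have hq2 : Va Kq (cyclotomic n ℤ) 0 (q ^ 2) := by simpa using (Va_q hn).pow hπ 2
  have e1 : (1 : Kq) - (q ^ 2) ^ (2 * i + 1) = 1 - q ^ (2 * (2 * i + 1)) := by rw [← pow_mul]
  have e2 : (1 : Kq) - (q ^ 2) ^ (i + 1) = 1 - q ^ (2 * (i + 1)) := by rw [← pow_mul]
  have e3 : (1 : Kq) - (q ^ 2) ^ (2 * i + 2) = 1 - q ^ (2 * (2 * (i + 1))) := by
    rw [← pow_mul]; ring
  rw [cf, e1, e2, e3]
  have v1 : Va Kq (cyclotomic n ℤ) (if n ∣ 2 * i + 1 then 1 else 0) (1 - q ^ (2 * (2 * i + 1))) := by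
    split_ifs with h
    · exact V1_nat hn (by omega) ((dvd_two_mul hN).2 h)
    · exact V0_nat hn (fun hh => h ((dvd_two_mul hN).1 hh))
  have v2 : Va Kq (cyclotomic n ℤ) (if n ∣ i + 1 then 1 else 0) (1 - q ^ (2 * (i + 1))) := by
    split_ifs with h
    · exact V1_nat hn (by omega) ((dvd_two_mul hN).2 h)
    · exact V0_nat hn (fun hh => h ((dvd_two_mul hN).1 hh))
  have v3 : Va Kq (cyclotomic n ℤ) (if n ∣ i + 1 then 1 else 0) (1 - q ^ (2 * (2 * (i + 1)))) := by
    split_ifs with h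
    · exact V1_nat hn (by omega) ((dvd_two_mul hN).2 ((dvd_two_mul hN).2 h))
    · exact V0_nat hn (fun hh => h ((dvd_two_mul hN).1 ((dvd_two_mul hN).1 hh)))
  have := (v1.mul hπ hq2).div hπ ((v2.pow hπ 2).mul hπ v3)
  convert this using 1
  split_ifs <;> norm_num

theorem Va_rr (hN : n = 2 * N + 1) (i : ℕ) : Va Kq (cyclotomic n ℤ) (ex n i) (rr i) := by
  have hn : 0 < n := by omega
  have hπ := cyc_prime hn
  have v1 : Va Kq (cyclotomic n ℤ) (if n ∣ 2 * i + 1 then 1 else 0) (1 - q ^ (2 * i + 1)) := by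
    split_ifs with h
    · exact V1_nat hn (by omega) h
    · exact V0_nat hn h
  have := (v1.pow hπ 2).mul hπ (Va_cf hN i)
  rw [rr]
  convert this using 1
  rw [ex]
  split_ifs <;> norm_num

/-- the two parametric factors -/
theorem sr_eq (M i : ℕ) : sr (q ^ 2) M i
    = (1 - q ^ ((2 * i + 1 : ℤ) - (2 * M + 1))) * (1 - q ^ ((2 * i + 1 : ℤ) + (2 * M + 1)))
      * cf (q ^ 2) i := by
  have hq := q_ne_zero
  rw [sr]
  congr 2
  · congr 1
    rw [← pow_mul, ← pow_mul, ← zpow_natCast, ← zpow_natCast, ← zpow_sub₀ hq]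
    congr 1; push_cast; ring
  · congr 1
    rw [← pow_mul, ← zpow_natCast]
    congr 1; push_cast; ring

theorem Va_sr (hN : n = 2 * N + 1) {M i : ℕ} (hM : n ∣ 2 * M + 1) (hi : i < M) :
    Va Kq (cyclotomic n ℤ) (ex n i) (sr (q ^ 2) M i) := by
  have hn : 0 < n := by omega
  have hπ := cyc_prime hn
  have hM' : (n : ℤ) ∣ (2 * M + 1 : ℤ) := by exact_mod_cast hM
  have v1 : Va Kq (cyclotomic n ℤ) (if n ∣ 2 * i + 1 then 1 else 0)
      (1 - q ^ ((2 * i + 1 : ℤ) - (2 * M + 1))) := by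
    split_ifs with h
    · apply V1 hn (by omega)
      exact dvd_sub (by exact_mod_cast h) hM'
    · apply V0 hn
      intro hh
      apply h
      have := dvd_add hh hM'
      rw [sub_add_cancel] at this
      exact_mod_cast this
  have v2 : Va Kq (cyclotomic n ℤ) (if n ∣ 2 * i + 1 then 1 else 0)
      (1 - q ^ ((2 * i + 1 : ℤ) + (2 * M + 1))) := by
    split_ifs with h
    · apply V1 hn (by omega)
      exact dvd_add (by exact_mod_cast h) hM'
    · apply V0 hn
      intro hh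
      apply h
      have := dvd_sub hh hM'
      rw [add_sub_cancel_right] at this
      exact_mod_cast this
  have := (v1.mul hπ v2).mul hπ (Va_cf hN i)
  rw [sr_eq]
  convert this using 1
  rw [ex]
  split_ifs <;> norm_num

theorem sr_sub_rr (hN : n = 2 * N + 1) {M i : ℕ} (hM : n ∣ 2 * M + 1)
    (h1 : ¬ n ∣ 2 * i + 1) (h2 : ¬ n ∣ i + 1) :
    In Kq (cyclotomic n ℤ) 2 (sr (q ^ 2) M i - rr i) := by
  have hn : 0 < n := by omega
  have hπ := cyc_prime hn
  have hq := q_ne_zero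
  have e : sr (q ^ 2) M i - rr i
      = -(q ^ (2 * i + 1) * (q ^ (2 * M + 1))⁻¹) * ((1 - q ^ (2 * M + 1)) * (1 - q ^ (2 * M + 1)))
        * cf (q ^ 2) i := by
    rw [sr, rr]
    have h3 : (1 - (q ^ 2) ^ i / (q ^ 2) ^ M) * (1 - (q ^ 2) ^ (M + 1 + i)) - (1 - q ^ (2 * i + 1)) ^ 2
        = -(q ^ (2 * i + 1) * (q ^ (2 * M + 1))⁻¹) * ((1 - q ^ (2 * M + 1)) * (1 - q ^ (2 * M + 1))) := by
      rw [← pow_mul, ← pow_mul, ← pow_mul]
      have hM0 : q ^ (2 * M) ≠ 0 := pow_ne_zero _ hq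
      have e1 : q ^ (2 * (M + 1 + i)) = q ^ (2 * M) * q ^ (2 * i) * q ^ 2 := by ring
      have e2 : q ^ (2 * M + 1) = q ^ (2 * M) * q := by ring
      have e3 : q ^ (2 * i + 1) = q ^ (2 * i) * q := by ring
      rw [e1, e2, e3]
      generalize q ^ (2 * M) = P at *
      generalize q ^ (2 * i) = J at *
      field_simp
      ring
    linear_combination cf (q ^ 2) i * h3
  rw [e]
  have i1 : In Kq (cyclotomic n ℤ) 1 (1 - q ^ (2 * M + 1)) :=
    (V1_nat hn (by omega) hM).toIn' (m := 1) rfl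
  have i2 : In Kq (cyclotomic n ℤ) 0 (-(q ^ (2 * i + 1) * (q ^ (2 * M + 1))⁻¹)) := by
    have a1 := (Va_q hn).pow hπ (2 * i + 1)
    have a2 := ((Va_q hn).pow hπ (2 * M + 1)).inv hπ
    have := Va_neg hn (a1.mul hπ a2)
    exact this.toIn' (m := 0) (by simp)
  have i3 : In Kq (cyclotomic n ℤ) 0 (cf (q ^ 2) i) := by
    have := Va_cf hN i
    rw [if_neg h1, if_neg h2] at this
    exact this.toIn' (m := 0) (by simp)
  have := (i2.mul hπ (i1.mul hπ i1)).mul hπ i3
  simpa using this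

theorem ex_zero {i : ℕ} (h1 : ¬ n ∣ 2 * i + 1) (h2 : ¬ n ∣ i + 1) : ex n i = 0 := by
  rw [ex, if_neg h1, if_neg h2]; rfl

theorem nd1 (hN : n = 2 * N + 1) (j : ℕ) {i : ℕ} (hi : i < N) : ¬ n ∣ 2 * (j * n + i) + 1 := by
  intro h
  have h1 : n ∣ 2 * i + 1 := by
    have : 2 * (j * n + i) + 1 = n * (2 * j) + (2 * i + 1) := by ring
    rw [this] at h
    exact (Nat.dvd_add_right (Dvd.intro _ rfl)).1 h
  have := Nat.le_of_dvd (by omega) h1
  omega

theorem nd1' (hN : n = 2 * N + 1) (j : ℕ) {i : ℕ} (hi : i < n) :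
    n ∣ 2 * (j * n + i) + 1 ↔ i = N := by
  constructor
  · intro h
    have h1 : n ∣ 2 * i + 1 := by
      have : 2 * (j * n + i) + 1 = n * (2 * j) + (2 * i + 1) := by ring
      rw [this] at h
      exact (Nat.dvd_add_right (Dvd.intro _ rfl)).1 h
    obtain ⟨c, hc⟩ := h1
    have hc2 : c < 2 := by
      by_contra hcc
      have : n * 2 ≤ n * c := Nat.mul_le_mul_left _ (by omega)
      omega
    interval_cases c <;> omega
  · rintro rfl
    exact ⟨2 * j + 1, by rw [hN]; ring⟩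

theorem nd2 (hN : n = 2 * N + 1) (j : ℕ) {i : ℕ} (hi : i + 1 < n) : ¬ n ∣ (j * n + i) + 1 := by
  intro h
  have h1 : n ∣ i + 1 := by
    have : (j * n + i) + 1 = n * j + (i + 1) := by ring
    rw [this] at h
    exact (Nat.dvd_add_right (Dvd.intro _ rfl)).1 h
  have := Nat.le_of_dvd (by omega) h1
  omega

theorem nd2' (hN : n = 2 * N + 1) (j : ℕ) {i : ℕ} (hi : i < n) :
    n ∣ (j * n + i) + 1 ↔ i = n - 1 := by
  constructor
  · intro h
    by_contra hne
    exact nd2 hN j (by omega) h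
  · rintro rfl
    exact ⟨j + 1, by
      have : j * n + (n - 1) + 1 = j * n + n := by omega
      rw [this]; ring⟩

theorem ex_block (hN : n = 2 * N + 1) (j : ℕ) {i : ℕ} (hi : i < n) :
    ex n (j * n + i) = (if i = N then 3 else 0) - (if i = n - 1 then 3 else 0) := by
  rw [ex]
  simp only [nd1' hN j hi, nd2' hN j hi]

theorem sum_ex (hN : n = 2 * N + 1) (j b : ℕ) (hb : b ≤ n) :
    ∑ i ∈ Finset.range b, ex n (j * n + i) = (if N < b then 3 else 0) - (if b = n then 3 else 0) := by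
  have : ∀ i ∈ Finset.range b, ex n (j * n + i)
      = (if i = N then 3 else 0) - (if i = n - 1 then 3 else 0) := fun i hi =>
    ex_block hN j (by rw [Finset.mem_range] at hi; omega)
  rw [Finset.sum_congr rfl this, Finset.sum_sub_distrib, Finset.sum_ite_eq', Finset.sum_ite_eq']
  simp only [Finset.mem_range]
  congr 1
  by_cases h : b = n
  · rw [if_pos (by omega), if_pos h]
  · rw [if_neg (by omega), if_neg h]

/-- block products of `rr` -/
theorem Va_block (hN : n = 2 * N + 1) (j b : ℕ) (hb : b ≤ n) :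
    Va Kq (cyclotomic n ℤ) ((if N < b then 3 else 0) - (if b = n then 3 else 0))
      (∏ i ∈ Finset.range b, rr (j * n + i)) := by
  have hπ := cyc_prime (n := n) (by omega)
  rw [← sum_ex hN j b hb]
  exact Va_prod hπ (fun i => ex n (j * n + i)) _ b fun i _ => Va_rr hN _

theorem cc_add (a b : ℕ) : cc (a + b) = cc a * ∏ i ∈ Finset.range b, rr (a + i) := by
  rw [cc, Finset.prod_range_add]; rfl

theorem Va_cc (hN : n = 2 * N + 1) (hn1 : 1 < n) (j : ℕ) : Va Kq (cyclotomic n ℤ) 0 (cc (j * n)) := by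
  have hπ := cyc_prime (n := n) (by omega)
  induction j with
  | zero => simpa [cc] using Va_one hπ
  | succ j ih =>
    rw [add_mul, one_mul, cc_add]
    have := ih.mul hπ (Va_block hN j n le_rfl)
    rw [if_pos (by omega), if_pos rfl] at this
    simpa using this

/-- normalised block sums -/
noncomputable def GG (n N j : ℕ) : Kq :=
  ∑ b ∈ Finset.range (N + 1), ∏ i ∈ Finset.range b, rr (j * n + i)

theorem LU_one_sub (hn : 0 < n) (m l : ℕ) (h : ¬ n ∣ m) :
    LU Kq (cyclotomic n ℤ) (fun j => 1 - q ^ (m + j * (n * l))) := by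
  have hπ := cyc_prime hn
  have hδ : In Kq (cyclotomic n ℤ) 1 (q ^ (n * l) - 1) := by
    have := (I1 hn (e := ((n * l : ℕ) : ℤ)) (by exact_mod_cast Dvd.intro _ rfl)).neg
    rw [zpow_natCast, neg_sub] at this
    exact this
  have hqm : In Kq (cyclotomic n ℤ) 0 (q ^ m) := ((Va_q hn).pow hπ m).toIn' (m := 0) (by simp)
  refine ⟨fun j => V0_nat hn ?_, 1 - q ^ m, -(q ^ m * (q ^ (n * l) - 1)), V0_nat hn h, ?_, ?_⟩
  · intro hh
    apply h
    rw [show m + j * (n * l) = n * (j * l) + m by ring] at hh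
    exact (Nat.dvd_add_right (Dvd.intro _ rfl)).1 hh
  · have := (hqm.mul hπ hδ).neg
    rwa [zero_add] at this
  · intro j
    have e : 1 - q ^ (m + j * (n * l)) - (1 - q ^ m + j * -(q ^ m * (q ^ (n * l) - 1)))
        = -(q ^ m * ((1 + (q ^ (n * l) - 1)) ^ j - (1 + j * (q ^ (n * l) - 1)))) := by
      rw [add_sub_cancel, ← pow_mul, pow_add, mul_comm j]
      ring
    rw [e]
    have := (hqm.mul hπ (pow_affine hπ hδ j)).neg
    rwa [zero_add] at this

theorem LU_rr (hN : n = 2 * N + 1) {i : ℕ} (hi : i < N) :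
    LU Kq (cyclotomic n ℤ) (fun j => rr (j * n + i)) := by
  have hn : 0 < n := by omega
  have hπ := cyc_prime hn
  have h1 : ¬ n ∣ 2 * i + 1 := by simpa using nd1 hN 0 hi
  have h2 : ¬ n ∣ i + 1 := by simpa using nd2 hN 0 (i := i) (by omega)
  have l1 := LU_one_sub hn (2 * i + 1) 2 h1
  have l2 := LU_one_sub hn (2 * (2 * i + 1)) 4 (fun h => h1 ((dvd_two_mul hN).1 h))
  have l3 := (LU_one_sub hn (2 * (i + 1)) 2 (fun h => h2 ((dvd_two_mul hN).1 h))).inv hπ
  have l4 := (LU_one_sub hn (2 * (2 * (i + 1))) 4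
    (fun h => h2 ((dvd_two_mul hN).1 ((dvd_two_mul hN).1 h)))).inv hπ
  have lq : LU Kq (cyclotomic n ℤ) (fun _ => q ^ 2) :=
    LU_const hπ (by simpa using (Va_q hn).pow hπ 2)
  have := ((((l1.mul hπ l1).mul hπ l2).mul hπ lq).mul hπ (l3.mul hπ l3)).mul hπ l4
  convert this using 2 with j
  rw [rr, cf]
  have e1 : (q ^ 2) ^ (2 * (j * n + i) + 1) = q ^ (2 * (2 * i + 1) + j * (n * 4)) := by
    rw [← pow_mul]; ring
  have e2 : (q ^ 2) ^ (j * n + i + 1) = q ^ (2 * (i + 1) + j * (n * 2)) := by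
    rw [← pow_mul]; ring
  have e3 : (q ^ 2) ^ (2 * (j * n + i) + 2) = q ^ (2 * (2 * (i + 1)) + j * (n * 4)) := by
    rw [← pow_mul]; ring
  have e4 : q ^ (2 * (j * n + i) + 1) = q ^ (2 * i + 1 + j * (n * 2)) := by ring
  rw [e1, e2, e3, e4, div_eq_mul_inv, mul_inv, pow_two (1 - q ^ (2 * (i + 1) + j * (n * 2))), mul_inv]
  ring

theorem LA_GG (hN : n = 2 * N + 1) : LA Kq (cyclotomic n ℤ) (fun j => GG n N j) := by
  have hπ := cyc_prime (n := n) (by omega)
  apply LA_sum hπ (fun b j => ∏ i ∈ Finset.range b, rr (j * n + i)) (N + 1)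
  intro b hb
  apply LU.toLA
  exact LU_prod hπ (fun i j => rr (j * n + i)) b fun i hi => LU_rr hN (by omega)

theorem q_pow_ne (j : ℕ) (hj : 0 < j) : (1 : Kq) - (q ^ 2) ^ j ≠ 0 := by
  rw [← pow_mul]
  have := V0_nat (n := 2 * j + 1) (by omega) (m := 2 * j)
    (fun h => by have := Nat.le_of_dvd (by omega) h; omega)
  exact this.ne_zero (cyc_prime (by omega))

/-- `G_0 ≡ 0 mod Φ_n²` -/
theorem G_zero (hN : n = 2 * N + 1) (hodd : N % 2 = 1) : In Kq (cyclotomic n ℤ) 2 (GG n N 0) := by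
  have hn : 0 < n := by omega
  have hπ := cyc_prime hn
  have hq2 : (q ^ 2 : Kq) ≠ 0 := pow_ne_zero 2 q_ne_zero
  obtain ⟨m, hm⟩ : ∃ m, N = 2 * m + 1 := ⟨N / 2, by omega⟩
  have hz : fs (q ^ 2) N = 0 := by rw [hm]; exact fs_odd hq2 q_pow_ne m
  have key : In Kq (cyclotomic n ℤ) 2 (fs (q ^ 2) N - GG n N 0) := by
    rw [fs, GG, ← Finset.sum_sub_distrib]
    apply In_sum hπ
    intro b hb
    rw [Finset.mem_range] at hb
    have := prod_congr_In hπ (m := 2) (sr (q ^ 2) N) (fun i => rr (0 * n + i)) b ?_ ?_ ?_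
    · exact this.1
    · intro i hi
      have := Va_sr hN (M := N) (i := i) (by rw [← hN]) (by omega)
      rw [ex_zero (by simpa using nd1 hN 0 (i := i) (by omega))
        (by simpa using nd2 hN 0 (i := i) (by omega))] at this
      exact this.toIn' (m := 0) rfl
    · intro i hi
      have := Va_rr hN (0 * n + i)
      rw [ex_zero (nd1 hN 0 (i := i) (by omega)) (nd2 hN 0 (i := i) (by omega))] at this
      exact this.toIn' (m := 0) rfl
    · intro i hi
      have := sr_sub_rr hN (M := N) (i := i) (by rw [← hN])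
        (by simpa using nd1 hN 0 (i := i) (by omega)) (by simpa using nd2 hN 0 (i := i) (by omega))
      simpa using this
  rw [hz, zero_sub] at key
  simpa using key.neg

/-- `G_1 ≡ 0 mod Φ_n²` -/
theorem G_one (hN : n = 2 * N + 1) (hodd : N % 2 = 1) : In Kq (cyclotomic n ℤ) 2 (GG n N 1) := by
  have hn : 0 < n := by omega
  have hπ := cyc_prime hn
  have hq2 : (q ^ 2 : Kq) ≠ 0 := pow_ne_zero 2 q_ne_zero
  obtain ⟨m, hm⟩ : ∃ m, n + N = 2 * m := ⟨(n + N) / 2, by omega⟩
  have hM : n ∣ 2 * (n + N) + 1 := ⟨3, by omega⟩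
  -- the value of the sum
  have hval : In Kq (cyclotomic n ℤ) 2 (fs (q ^ 2) (n + N)) := by
    rw [hm, fs_even hq2 q_pow_ne m]
    have v : Va Kq (cyclotomic n ℤ) 1
        (∏ i ∈ Finset.range m, ((1 - (q ^ 2) ^ (2 * i + 1)) / (1 - (q ^ 2) ^ (2 * i + 2)))) := by
      have : (1 : ℤ) = ∑ i ∈ Finset.range m, (if i = N then 1 else 0) := by
        rw [Finset.sum_ite_eq', if_pos (Finset.mem_range.2 (by omega))]
      rw [this]
      apply Va_prod hπ
      intro i hi
      have hin : i < n := by omega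
      have w1 : Va Kq (cyclotomic n ℤ) (if i = N then 1 else 0) (1 - (q ^ 2) ^ (2 * i + 1)) := by
        rw [← pow_mul]
        have hiff := nd1' hN 0 hin
        rw [zero_mul, zero_add] at hiff
        split_ifs with h
        · exact V1_nat hn (by omega) ((dvd_two_mul hN).2 (hiff.2 h))
        · exact V0_nat hn (fun hh => h (hiff.1 ((dvd_two_mul hN).1 hh)))
      have w2 : Va Kq (cyclotomic n ℤ) 0 (1 - (q ^ 2) ^ (2 * i + 2)) := by
        rw [← pow_mul, show 2 * (2 * i + 2) = 2 * (2 * (i + 1)) by ring]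
        apply V0_nat hn
        intro hh
        have h3 := (dvd_two_mul hN).1 ((dvd_two_mul hN).1 hh)
        have := Nat.le_of_dvd (by omega) h3
        omega
      have := w1.div hπ w2
      rwa [sub_zero] at this
    have a1 := (v.pow hπ 2)
    have a2 : Va Kq (cyclotomic n ℤ) 0 ((q ^ 2) ^ m : Kq) := by
      have := ((Va_q hn).pow hπ 2).pow hπ m
      simpa using this
    exact (a2.mul hπ a1).toIn' (m := 2) (by norm_num)
  -- splitting of the sum
  have hsplit : fs (q ^ 2) (n + N) = (∑ b ∈ Finset.range (N + 1), Ut (q ^ 2) (n + N) b)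
      + (∑ b ∈ Finset.range N, Ut (q ^ 2) (n + N) (N + 1 + b))
      + ∑ b ∈ Finset.range (N + 1), Ut (q ^ 2) (n + N) (n + b) := by
    rw [fs, show n + N + 1 = (N + 1 + N) + (N + 1) by omega, Finset.sum_range_add,
      Finset.sum_range_add]
    congr 1
    apply Finset.sum_congr rfl
    intro b _
    congr 1
    omega
  have UVa : ∀ b ≤ n, Va Kq (cyclotomic n ℤ) ((if N < b then 3 else 0) - (if b = n then 3 else 0))
      (Ut (q ^ 2) (n + N) b) := by
    intro b hb
    rw [← sum_ex hN 0 b hb]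
    apply Va_prod hπ
    intro i hi
    rw [zero_mul, zero_add]
    exact Va_sr hN hM (by omega)
  -- first part
  have p1 : In Kq (cyclotomic n ℤ) 2 ((∑ b ∈ Finset.range (N + 1), Ut (q ^ 2) (n + N) b) - GG n N 0) := by
    rw [GG, ← Finset.sum_sub_distrib]
    apply In_sum hπ
    intro b hb
    rw [Finset.mem_range] at hb
    have := prod_congr_In hπ (m := 2) (sr (q ^ 2) (n + N)) (fun i => rr (0 * n + i)) b ?_ ?_ ?_
    · exact this.1
    · intro i hi
      have := Va_sr hN (M := n + N) (i := i) hM (by omega)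
      rw [ex_zero (by simpa using nd1 hN 0 (i := i) (by omega))
        (by simpa using nd2 hN 0 (i := i) (by omega))] at this
      exact this.toIn' (m := 0) rfl
    · intro i hi
      have := Va_rr hN (0 * n + i)
      rw [ex_zero (nd1 hN 0 (i := i) (by omega)) (nd2 hN 0 (i := i) (by omega))] at this
      exact this.toIn' (m := 0) rfl
    · intro i hi
      have := sr_sub_rr hN (M := n + N) (i := i) hM
        (by simpa using nd1 hN 0 (i := i) (by omega)) (by simpa using nd2 hN 0 (i := i) (by omega))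
      simpa using this
  -- second part
  have p2 : In Kq (cyclotomic n ℤ) 2 (∑ b ∈ Finset.range N, Ut (q ^ 2) (n + N) (N + 1 + b)) := by
    apply In_sum hπ
    intro b hb
    rw [Finset.mem_range] at hb
    have := UVa (N + 1 + b) (by omega)
    rw [if_pos (by omega), if_neg (by omega), sub_zero] at this
    exact (this.toIn' (m := 3) rfl).le (by norm_num)
  -- third part
  have p3 : In Kq (cyclotomic n ℤ) 2 ((∑ b ∈ Finset.range (N + 1), Ut (q ^ 2) (n + N) (n + b))
      - Ut (q ^ 2) (n + N) n * GG n N 1) := by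
    rw [GG, Finset.mul_sum, ← Finset.sum_sub_distrib]
    apply In_sum hπ
    intro b hb
    rw [Finset.mem_range] at hb
    have e : Ut (q ^ 2) (n + N) (n + b) = Ut (q ^ 2) (n + N) n
        * ∏ i ∈ Finset.range b, sr (q ^ 2) (n + N) (n + i) := by
      rw [Ut, Finset.prod_range_add]; rfl
    rw [e, ← mul_sub]
    have hU : In Kq (cyclotomic n ℤ) 0 (Ut (q ^ 2) (n + N) n) := by
      have := UVa n le_rfl
      rw [if_pos (by omega), if_pos rfl, sub_self] at this
      exact this.toIn' (m := 0) rfl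
    have := prod_congr_In hπ (m := 2) (fun i => sr (q ^ 2) (n + N) (n + i))
      (fun i => rr (1 * n + i)) b ?_ ?_ ?_
    · have h2 := hU.mul hπ this.1
      rwa [zero_add] at h2
    · intro i hi
      have := Va_sr hN (M := n + N) (i := n + i) hM (by omega)
      have a1 := nd1 hN 1 (i := i) (by omega)
      have a2 := nd2 hN 1 (i := i) (by omega)
      rw [one_mul] at a1 a2
      rw [ex_zero a1 a2] at this
      exact this.toIn' (m := 0) rfl
    · intro i hi
      have := Va_rr hN (1 * n + i)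
      rw [ex_zero (nd1 hN 1 (i := i) (by omega)) (nd2 hN 1 (i := i) (by omega))] at this
      exact this.toIn' (m := 0) rfl
    · intro i hi
      have a1 := nd1 hN 1 (i := i) (by omega)
      have a2 := nd2 hN 1 (i := i) (by omega)
      rw [one_mul] at a1 a2
      have := sr_sub_rr hN (M := n + N) (i := n + i) hM a1 a2
      simpa using this
  have G0 := G_zero hN hodd
  have hU : Va Kq (cyclotomic n ℤ) 0 (Ut (q ^ 2) (n + N) n) := by
    have := UVa n le_rfl
    rwa [if_pos (by omega), if_pos rfl, sub_self] at this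
  apply In_of_mul_unit hπ hU
  have : Ut (q ^ 2) (n + N) n * GG n N 1 = fs (q ^ 2) (n + N)
      - ((∑ b ∈ Finset.range (N + 1), Ut (q ^ 2) (n + N) b) - GG n N 0) - GG n N 0
      - (∑ b ∈ Finset.range N, Ut (q ^ 2) (n + N) (N + 1 + b))
      - ((∑ b ∈ Finset.range (N + 1), Ut (q ^ 2) (n + N) (n + b))
        - Ut (q ^ 2) (n + N) n * GG n N 1) := by
    rw [hsplit]; ring
  rw [this]
  exact (((hval.sub hπ p1).sub hπ G0).sub hπ p2).sub hπ p3

theorem GG_all (hN : n = 2 * N + 1) (hodd : N % 2 = 1) (j : ℕ) :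
    In Kq (cyclotomic n ℤ) 2 (GG n N j) :=
  (LA_GG hN).vanish (cyc_prime (by omega)) (G_zero hN hodd) (G_one hN hodd) j

theorem half_block (hN : n = 2 * N + 1) (hodd : N % 2 = 1) (j : ℕ) :
    In Kq (cyclotomic n ℤ) 2 (∑ b ∈ Finset.range (N + 1), cc (j * n + b)) := by
  have hπ := cyc_prime (n := n) (by omega)
  have : ∑ b ∈ Finset.range (N + 1), cc (j * n + b) = cc (j * n) * GG n N j := by
    rw [GG, Finset.mul_sum]
    exact Finset.sum_congr rfl fun b _ => cc_add _ _
  rw [this]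
  have := ((Va_cc hN (by omega) j).toIn' (m := 0) rfl).mul hπ (GG_all hN hodd j)
  rwa [zero_add] at this

theorem full_block (hN : n = 2 * N + 1) (hodd : N % 2 = 1) (j : ℕ) :
    In Kq (cyclotomic n ℤ) 2 (∑ b ∈ Finset.range n, cc (j * n + b)) := by
  have hπ := cyc_prime (n := n) (by omega)
  have e : ∑ b ∈ Finset.range n, cc (j * n + b) = ∑ b ∈ Finset.range (N + 1), cc (j * n + b)
      + ∑ b ∈ Finset.range N, cc (j * n + (N + 1 + b)) := by
    rw [← Finset.sum_range_add (fun b => cc (j * n + b)), show N + 1 + N = n by omega]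
  rw [e]
  apply (half_block hN hodd j).add hπ
  apply In_sum hπ
  intro b hb
  rw [Finset.mem_range] at hb
  rw [cc_add]
  have v1 := (Va_cc hN (by omega) j).mul hπ (Va_block hN j (N + 1 + b) (by omega))
  rw [if_pos (by omega), if_neg (by omega)] at v1
  exact (v1.toIn' (m := 3) (by norm_num)).le (by norm_num)

theorem main_In (hN : n = 2 * N + 1) (hodd : N % 2 = 1) (r : ℕ) :
    In Kq (cyclotomic n ℤ) 2 (∑ k ∈ Finset.range (r * n), cc k) := by
  have hπ := cyc_prime (n := n) (by omega)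
  induction r with
  | zero => simpa using In_zero hπ 2
  | succ r ih =>
    rw [add_mul, one_mul, Finset.sum_range_add]
    exact ih.add hπ (full_block hN hodd r)

theorem main_In' (hN : n = 2 * N + 1) (hodd : N % 2 = 1) (r : ℕ) :
    In Kq (cyclotomic n ℤ) 2 (∑ k ∈ Finset.range (r * n + (N + 1)), cc k) := by
  have hπ := cyc_prime (n := n) (by omega)
  rw [Finset.sum_range_add]
  exact (main_In hN hodd r).add hπ (half_block hN hodd r)

end

end Pool.Agent.Helper53.QC
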