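import Mathlib

set_option autoImplicit false
set_option linter.unusedSectionVars false

namespace Pool.Agent.Helper53.QC

section general

variable {R K : Type*} [CommRing R] [IsDomain R] [Field K] [Algebra R K] [IsFractionRing R K]

/-- `F` is `π^m` times an element of the localisation at `π` -/
def In (K : Type*) [Field K] [Algebra R K] (π : R) (m : ℕ) (F : K) : Prop :=
  ∃ a b : R, ¬ π ∣ b ∧ F * algebraMap R K b = algebraMap R K (π ^ m * a)

/-- `F` is `π^e` times a unit of the localisation at `π` -/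
def Va (K : Type*) [Field K] [Algebra R K] (π : R) (e : ℤ) (F : K) : Prop :=
  ∃ a b : R, ¬ π ∣ a ∧ ¬ π ∣ b ∧
    F * algebraMap R K b = (algebraMap R K π) ^ e * algebraMap R K a

variable {π : R}

theorem map_ne_zero_of {b : R} (hb : ¬ π ∣ b) : algebraMap R K b ≠ 0 := by
  intro h
  rw [map_eq_zero_iff _ (IsFractionRing.injective R K)] at h
  exact hb (h ▸ dvd_zero π)

theorem pi_ne {K : Type*} [Field K] [Algebra R K] [IsFractionRing R K] (hπ : Prime π) :
    algebraMap R K π ≠ 0 := by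
  intro h
  rw [map_eq_zero_iff _ (IsFractionRing.injective R K)] at h
  exact hπ.ne_zero h

theorem In.add (hπ : Prime π) {m : ℕ} {F G : K} (hF : In K π m F) (hG : In K π m G) :
    In K π m (F + G) := by
  obtain ⟨a, b, hb, h⟩ := hF
  obtain ⟨c, d, hd, h'⟩ := hG
  refine ⟨a * d + c * b, b * d, fun hh => (hπ.dvd_or_dvd hh).elim hb hd, ?_⟩
  simp only [map_mul, map_add, map_pow] at *
  linear_combination (algebraMap R K d) * h + (algebraMap R K b) * h'

theorem In.mul (hπ : Prime π) {m k : ℕ} {F G : K} (hF : In K π m F) (hG : In K π k G) :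
    In K π (m + k) (F * G) := by
  obtain ⟨a, b, hb, h⟩ := hF
  obtain ⟨c, d, hd, h'⟩ := hG
  refine ⟨a * c, b * d, fun hh => (hπ.dvd_or_dvd hh).elim hb hd, ?_⟩
  simp only [map_mul, map_pow, pow_add] at *
  linear_combination (G * algebraMap R K d) * h
    + ((algebraMap R K π) ^ m * algebraMap R K a) * h'

theorem In.mono (m k : ℕ) {F : K} (hF : In K π (m + k) F) : In K π m F := by
  obtain ⟨a, b, hb, h⟩ := hF
  refine ⟨π ^ k * a, b, hb, ?_⟩
  rw [h]; congr 1; ring

theorem In.le {m k : ℕ} (hmk : m ≤ k) {F : K} (hF : In K π k F) : In K π m F := by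
  obtain ⟨d, rfl⟩ := Nat.exists_eq_add_of_le hmk
  exact hF.mono

theorem In.neg {m : ℕ} {F : K} (hF : In K π m F) : In K π m (-F) := by
  obtain ⟨a, b, hb, h⟩ := hF
  refine ⟨-a, b, hb, ?_⟩
  simp only [map_mul, map_pow, map_neg] at *
  linear_combination -h

theorem In.sub (hπ : Prime π) {m : ℕ} {F G : K} (hF : In K π m F) (hG : In K π m G) :
    In K π m (F - G) := by
  rw [sub_eq_add_neg]; exact hF.add hπ hG.neg

theorem In_zero (hπ : Prime π) (m : ℕ) : In K π m (0 : K) := by
  refine ⟨0, 1, fun h => hπ.not_isUnit (isUnit_of_dvd_one h), ?_⟩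
  simp

theorem In_alg (hπ : Prime π) (a : R) : In K π 0 (algebraMap R K a) := by
  refine ⟨a, 1, fun h => hπ.not_isUnit (isUnit_of_dvd_one h), ?_⟩
  simp

theorem In_alg_of_dvd (hπ : Prime π) {a : R} {m : ℕ} (h : π ^ m ∣ a) :
    In K π m (algebraMap R K a) := by
  obtain ⟨c, rfl⟩ := h
  exact ⟨c, 1, fun h => hπ.not_isUnit (isUnit_of_dvd_one h), by simp⟩

theorem In_sum (hπ : Prime π) {m : ℕ} {ι : Type*} (s : Finset ι) (f : ι → K)
    (h : ∀ i ∈ s, In K π m (f i)) : In K π m (∑ i ∈ s, f i) := by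
  classical
  induction s using Finset.induction_on with
  | empty => simpa using In_zero hπ m
  | insert a s ha ih =>
    rw [Finset.sum_insert ha]
    exact (h a (Finset.mem_insert_self a s)).add hπ (ih fun i hi => h i (Finset.mem_insert_of_mem hi))

theorem Va.mul (hπ : Prime π) {e e' : ℤ} {F G : K} (hF : Va K π e F) (hG : Va K π e' G) :
    Va K π (e + e') (F * G) := by
  obtain ⟨a, b, ha, hb, h⟩ := hF
  obtain ⟨c, d, hc, hd, h'⟩ := hG
  refine ⟨a * c, b * d, fun hh => (hπ.dvd_or_dvd hh).elim ha hc,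
    fun hh => (hπ.dvd_or_dvd hh).elim hb hd, ?_⟩
  rw [zpow_add₀ (pi_ne hπ)]
  simp only [map_mul] at *
  linear_combination (G * algebraMap R K d) * h
    + ((algebraMap R K π) ^ e * algebraMap R K a) * h'

theorem Va.inv (hπ : Prime π) {e : ℤ} {F : K} (hF : Va K π e F) : Va K π (-e) F⁻¹ := by
  obtain ⟨a, b, ha, hb, h⟩ := hF
  refine ⟨b, a, hb, ha, ?_⟩
  have hπ0 : algebraMap R K π ≠ 0 := pi_ne hπ
  have ha0 : algebraMap R K a ≠ 0 := map_ne_zero_of ha
  have hb0 : algebraMap R K b ≠ 0 := map_ne_zero_of hb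
  have hF0 : F ≠ 0 := by
    rintro rfl
    rw [zero_mul] at h
    exact (mul_ne_zero (zpow_ne_zero e hπ0) ha0) h.symm
  rw [zpow_neg]
  have hz : (algebraMap R K π) ^ e ≠ 0 := zpow_ne_zero e hπ0
  field_simp
  linear_combination -h

theorem Va.ne_zero (hπ : Prime π) {e : ℤ} {F : K} (hF : Va K π e F) : F ≠ 0 := by
  obtain ⟨a, b, ha, hb, h⟩ := hF
  rintro rfl
  rw [zero_mul] at h
  exact (mul_ne_zero (zpow_ne_zero e (pi_ne hπ)) (map_ne_zero_of ha)) h.symm

theorem Va.div (hπ : Prime π) {e e' : ℤ} {F G : K} (hF : Va K π e F) (hG : Va K π e' G) :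
    Va K π (e - e') (F / G) := by
  rw [div_eq_mul_inv, sub_eq_add_neg]; exact hF.mul hπ (hG.inv hπ)

theorem Va.pow (hπ : Prime π) {e : ℤ} {F : K} (hF : Va K π e F) (k : ℕ) :
    Va K π (k * e) (F ^ k) := by
  induction k with
  | zero =>
    refine ⟨1, 1, fun h => hπ.not_isUnit (isUnit_of_dvd_one h),
      fun h => hπ.not_isUnit (isUnit_of_dvd_one h), by simp⟩
  | succ k ih =>
    rw [pow_succ]
    convert ih.mul hπ hF using 1
    push_cast; ring

theorem Va.toIn {m : ℕ} {F : K} (hF : Va K π m F) : In K π m F := by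
  obtain ⟨a, b, ha, hb, h⟩ := hF
  refine ⟨a, b, hb, ?_⟩
  rw [h]; simp

theorem Va.toIn' {e : ℤ} {m : ℕ} (hem : e = m) {F : K} (hF : Va K π e F) : In K π m F := by
  subst hem; exact hF.toIn

theorem Va_one (hπ : Prime π) : Va K π 0 (1 : K) :=
  ⟨1, 1, fun h => hπ.not_isUnit (isUnit_of_dvd_one h),
      fun h => hπ.not_isUnit (isUnit_of_dvd_one h), by simp⟩

theorem Va_prod (hπ : Prime π) (e : ℕ → ℤ) (f : ℕ → K) (b : ℕ) (h : ∀ i < b, Va K π (e i) (f i)) :
    Va K π (∑ i ∈ Finset.range b, e i) (∏ i ∈ Finset.range b, f i) := by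
  induction b with
  | zero => simpa using Va_one hπ
  | succ b ih =>
    rw [Finset.sum_range_succ, Finset.prod_range_succ]
    exact (ih fun i hi => h i (by omega)).mul hπ (h b (by omega))

theorem In_of_mul_unit (hπ : Prime π) {m : ℕ} {F U : K} (hU : Va K π 0 U)
    (h : In K π m (U * F)) : In K π m F := by
  have h1 := (hU.inv hπ)
  rw [neg_zero] at h1
  have h2 := (h1.toIn' (m := 0) rfl).mul hπ h
  rw [zero_add, ← mul_assoc, inv_mul_cancel₀ (hU.ne_zero hπ), one_mul] at h2
  exact h2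

/-- congruent products -/
theorem prod_congr_In (hπ : Prime π) {m : ℕ} (f g : ℕ → K) (b : ℕ)
    (hf : ∀ i < b, In K π 0 (f i)) (hg : ∀ i < b, In K π 0 (g i))
    (h : ∀ i < b, In K π m (f i - g i)) :
    In K π m (∏ i ∈ Finset.range b, f i - ∏ i ∈ Finset.range b, g i) ∧
    In K π 0 (∏ i ∈ Finset.range b, f i) ∧ In K π 0 (∏ i ∈ Finset.range b, g i) := by
  induction b with
  | zero =>
    refine ⟨by simpa using In_zero hπ m, ?_, ?_⟩ <;>
    · simpa using (Va_one (K := K) hπ).toIn' (m := 0) rfl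
  | succ b ih =>
    obtain ⟨h1, h2, h3⟩ := ih (fun i hi => hf i (by omega)) (fun i hi => hg i (by omega))
      (fun i hi => h i (by omega))
    refine ⟨?_, ?_, ?_⟩
    · rw [Finset.prod_range_succ, Finset.prod_range_succ]
      have e : (∏ i ∈ Finset.range b, f i) * f b - (∏ i ∈ Finset.range b, g i) * g b
          = (∏ i ∈ Finset.range b, f i - ∏ i ∈ Finset.range b, g i) * f b
            + (∏ i ∈ Finset.range b, g i) * (f b - g b) := by ring
      rw [e]
      have a1 := h1.mul hπ (hf b (by omega))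
      have a2 := h3.mul hπ (h b (by omega))
      rw [add_zero] at a1
      rw [zero_add] at a2
      exact a1.add hπ a2
    · rw [Finset.prod_range_succ]
      have := h2.mul hπ (hf b (by omega))
      rwa [add_zero] at this
    · rw [Finset.prod_range_succ]
      have := h3.mul hπ (hg b (by omega))
      rwa [add_zero] at this

/-- functions of `j` which are affine modulo `π^2`, with unit values -/
def LU (K : Type*) [Field K] [Algebra R K] (π : R) (f : ℕ → K) : Prop :=
  (∀ j, Va K π 0 (f j)) ∧ ∃ a d : K, Va K π 0 a ∧ In K π 1 d ∧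
    ∀ j : ℕ, In K π 2 (f j - (a + j * d))

def LA (K : Type*) [Field K] [Algebra R K] (π : R) (f : ℕ → K) : Prop :=
  ∃ a d : K, In K π 0 a ∧ In K π 1 d ∧ ∀ j : ℕ, In K π 2 (f j - (a + j * d))

theorem LU.toLA {f : ℕ → K} (h : LU K π f) : LA K π f := by
  obtain ⟨_, a, d, ha, hd, h⟩ := h
  exact ⟨a, d, ha.toIn' (m := 0) rfl, hd, h⟩

theorem In_natCast (hπ : Prime π) (j : ℕ) : In K π 0 (j : K) := by
  have := In_alg (K := K) hπ (j : R)
  simpa using this

theorem LU.mul (hπ : Prime π) {f g : ℕ → K} (hf : LU K π f) (hg : LU K π g) :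
    LU K π (fun j => f j * g j) := by
  obtain ⟨uf, a, d, ha, hd, h⟩ := hf
  obtain ⟨ug, a', d', ha', hd', h'⟩ := hg
  refine ⟨fun j => by simpa using (uf j).mul hπ (ug j), a * a', a * d' + a' * d, ?_, ?_, ?_⟩
  · simpa using ha.mul hπ ha'
  · have h1 := (ha.toIn' (m := 0) rfl).mul hπ hd'
    have h2 := (ha'.toIn' (m := 0) rfl).mul hπ hd
    rw [zero_add] at h1 h2
    exact h1.add hπ h2
  · intro j
    have e : f j * g j - (a * a' + j * (a * d' + a' * d))
        = (f j - (a + j * d)) * g j + (a + j * d) * (g j - (a' + j * d'))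
          + (j * j : K) * (d * d') := by ring
    rw [e]
    have i1 := (h j).mul hπ ((ug j).toIn' (m := 0) rfl)
    have jd : In K π 0 ((j : K) * d) := by
      have := (In_natCast (K := K) hπ j).mul hπ hd
      exact this.le (by norm_num)
    have i2 := (((ha.toIn' (m := 0) rfl)).add hπ jd).mul hπ (h' j)
    have i3 := ((In_natCast (K := K) hπ j).mul hπ (In_natCast (K := K) hπ j)).mul hπ (hd.mul hπ hd')
    rw [add_zero] at i1
    rw [zero_add] at i2
    exact (i1.add hπ i2).add hπ i3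

theorem LU.inv (hπ : Prime π) {f : ℕ → K} (hf : LU K π f) : LU K π (fun j => (f j)⁻¹) := by
  obtain ⟨uf, a, d, ha, hd, h⟩ := hf
  have ha0 := ha.ne_zero hπ
  have hai : Va K π 0 a⁻¹ := by simpa using ha.inv hπ
  refine ⟨fun j => by simpa using (uf j).inv hπ, a⁻¹, -(a⁻¹ * a⁻¹ * d), hai, ?_, ?_⟩
  · have h1 := ((hai.mul hπ hai).toIn' (m := 0) (by simp)).mul hπ hd
    rw [zero_add] at h1
    exact h1.neg
  · intro j
    have hfj := (uf j).ne_zero hπ
    have ufi : Va K π 0 (f j)⁻¹ := by simpa using (uf j).inv hπ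
    have e : (f j)⁻¹ - (a⁻¹ + j * (-(a⁻¹ * a⁻¹ * d)))
        = ((f j)⁻¹ * a⁻¹ * a⁻¹) * ((j * j : K) * (d * d) - (f j - (a + j * d)) * (a - j * d)) := by
      field_simp
      ring
    rw [e]
    have jd : In K π 0 ((j : K) * d) := by
      have := (In_natCast (K := K) hπ j).mul hπ hd
      exact this.le (by norm_num)
    have i1 := ((In_natCast (K := K) hπ j).mul hπ (In_natCast (K := K) hπ j)).mul hπ (hd.mul hπ hd)
    have i2 := (h j).mul hπ ((ha.toIn' (m := 0) rfl).sub hπ jd)
    rw [add_zero] at i2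
    have i3 := (((ufi.mul hπ hai).mul hπ hai).toIn' (m := 0) (by simp)).mul hπ
      ((show In K π 2 ((j * j : K) * (d * d)) from i1).sub hπ i2)
    rw [zero_add] at i3
    exact i3

theorem LU_const (hπ : Prime π) {c : K} (hc : Va K π 0 c) : LU K π (fun _ => c) :=
  ⟨fun _ => hc, c, 0, hc, In_zero hπ 1, fun j => by simpa using In_zero hπ 2⟩

theorem LU_prod (hπ : Prime π) (f : ℕ → ℕ → K) (b : ℕ) (h : ∀ i < b, LU K π (fun j => f i j)) :
    LU K π (fun j => ∏ i ∈ Finset.range b, f i j) := by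
  induction b with
  | zero => simpa using LU_const hπ (Va_one hπ)
  | succ b ih =>
    simp only [Finset.prod_range_succ]
    exact (ih fun i hi => h i (by omega)).mul hπ (h b (by omega))

theorem LA_sum (hπ : Prime π) (f : ℕ → ℕ → K) (b : ℕ) (h : ∀ i < b, LA K π (fun j => f i j)) :
    LA K π (fun j => ∑ i ∈ Finset.range b, f i j) := by
  induction b with
  | zero =>
    refine ⟨0, 0, In_zero hπ 0, In_zero hπ 1, fun j => by simpa using In_zero hπ 2⟩
  | succ b ih =>
    obtain ⟨a, d, ha, hd, h1⟩ := ih fun i hi => h i (by omega)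
    obtain ⟨a', d', ha', hd', h2⟩ := h b (by omega)
    refine ⟨a + a', d + d', ha.add hπ ha', hd.add hπ hd', fun j => ?_⟩
    simp only [Finset.sum_range_succ]
    have e : ∑ i ∈ Finset.range b, f i j + f b j - (a + a' + j * (d + d'))
        = (∑ i ∈ Finset.range b, f i j - (a + j * d)) + (f b j - (a' + j * d')) := by ring
    rw [e]
    exact (h1 j).add hπ (h2 j)

/-- an affine-modulo-`π²` function vanishing at `0` and `1` modulo `π²` vanishes modulo `π²` -/
theorem LA.vanish (hπ : Prime π) {f : ℕ → K} (hf : LA K π f) (h0 : In K π 2 (f 0))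
    (h1 : In K π 2 (f 1)) (j : ℕ) : In K π 2 (f j) := by
  obtain ⟨a, d, ha, hd, h⟩ := hf
  have e0 := h 0
  have e1 := h 1
  simp only [Nat.cast_zero, zero_mul, add_zero, Nat.cast_one, one_mul] at e0 e1
  have ia : In K π 2 a := by
    have := h0.sub hπ e0
    simpa using this
  have iad : In K π 2 (a + d) := by
    have := h1.sub hπ e1
    simpa using this
  have id : In K π 2 d := by
    have := iad.sub hπ ia
    simpa using this
  have jd := (In_natCast (K := K) hπ j).mul hπ id
  rw [zero_add] at jd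
  have := (h j).add hπ (ia.add hπ jd)
  simpa using this

theorem pow_affine (hπ : Prime π) {δ : K} (hδ : In K π 1 δ) (j : ℕ) :
    In K π 2 ((1 + δ) ^ j - (1 + j * δ)) := by
  induction j with
  | zero => simpa using In_zero hπ 2
  | succ j ih =>
    have e : (1 + δ) ^ (j + 1) - (1 + ((j + 1 : ℕ) : K) * δ)
        = (1 + δ) * ((1 + δ) ^ j - (1 + j * δ)) + (j : K) * (δ * δ) := by
      push_cast; ring
    rw [e]
    have i1 : In K π 0 (1 + δ) := ((Va_one (K := K) hπ).toIn' (m := 0) rfl).add hπ (hδ.le (by norm_num))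
    have i2 := i1.mul hπ ih
    have i3 := (In_natCast (K := K) hπ j).mul hπ (hδ.mul hπ hδ)
    rw [zero_add] at i2 i3
    exact i2.add hπ i3

end general

end Pool.Agent.Helper53.QC
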