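import Pool.Agent.Helper53.ClassIIIM

set_option autoImplicit false

namespace Pool.Agent.Helper53.HD

open MeasureTheory Measure Polynomial

noncomputable section

/-- irreducible polynomials contribute a null set -/
theorem class_irr {B w s : ℝ} (hB : 1 ≤ B) (hw : 1 < w) (hs : 2 < (w + 1) * s)
    (hs1 : s < 1) :
    μH[s] {x : ℝ | 1 ≤ B * |x| ∧ |x| ≤ B ∧ {P : Cub | Irreducible (toP P) ∧
      |f P x| < Pi P ^ (-w)}.Infinite} = 0 := by
  set c : ℝ := 1 / (1000 * B ^ 3) with hc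
  have hB0 : 0 < B := by linarith
  have hc0 : 0 < c := by rw [hc]; positivity
  set ε : ℝ := 1 / (20 * B ^ 3) with hε
  have hε0 : 0 < ε := by rw [hε]; positivity
  have h1 := classI hB hc0 hw hs hs1
  have h2 := fun (m : Fin 4) (hm : m ≠ 0) => classII_m hB hw hs hs1 hε0 hm
  have h3 := classIII hB hw hs hs1
  have h4 := measure_union_null (measure_union_null (measure_union_null (measure_union_null
    h1 (h2 1 (by decide))) (h2 2 (by decide))) (h2 3 (by decide))) h3
  refine measure_mono_null ?_ h4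
  rintro x ⟨hx1, hx, hinf⟩
  by_contra hcon
  simp only [Set.mem_union, not_or, Set.mem_ofPred_eq, not_and, Set.not_infinite] at hcon
  obtain ⟨⟨⟨⟨n1, n2⟩, n3⟩, n4⟩, n5⟩ := hcon
  have m1 := n1 hx
  have m2 := n2 hx1 hx
  have m3 := n3 hx1 hx
  have m4 := n4 hx1 hx
  have m5 := n5 hx1 hx
  refine hinf ((((((finite_small (M := 1) hB hx).union m1).union m2).union m3).union m4).union
    m5 |>.subset ?_)
  rintro P ⟨p1, p2⟩
  have hP1 : |f P x| ≤ 1 := p2.le.trans (Pi_rpow_le_one _ (by linarith))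
  by_cases hG : GP P ≤ 1
  · left; left; left; left; left; exact ⟨hG, hP1⟩
  by_cases hf1 : c ≤ |f1 P x|
  · left; left; left; left; right; exact ⟨p2, hf1⟩
  push Not at hG hf1
  by_cases hGf : GP P * |f1 P x| ^ 2 < 1
  · right; exact ⟨p1, p2, hf1, hGf⟩
  push Not at hGf
  obtain ⟨m, hm0, hm⟩ := two_large hB hx1 hx hf1 hG
  have hB3 : 1 ≤ B ^ 3 := one_le_pow₀ hB
  have hNR : NoRat P := noRat_of_irr p1 (x := x) (by
    refine hf1.trans_le ?_
    rw [hc, div_le_one (by positivity)]; nlinarith)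
  fin_cases m
  · exact absurd rfl hm0
  · left; left; left; right; exact ⟨hNR, p2, hGf, hf1, hm⟩
  · left; left; right; exact ⟨hNR, p2, hGf, hf1, hm⟩
  · left; right; exact ⟨hNR, p2, hGf, hf1, hm⟩

/-- coefficients of a polynomial -/
def ofP (p : ℤ[X]) : Cub := fun i => p.coeff i

theorem toP_ofP {p : ℤ[X]} (hp : p.natDegree ≤ 3) : toP (ofP p) = p := by
  ext n
  by_cases hn : n < 4
  · exact toP_coeff (ofP p) ⟨n, hn⟩
  · rw [coeff_eq_zero_of_natDegree_lt (p := p) (by omega), coeff_eq_zero_of_natDegree_lt]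
    have : (toP (ofP p)).natDegree ≤ 3 := natDegree_cubic_le
    omega

theorem ofP_toP (P : Cub) : ofP (toP P) = P := by
  funext i
  exact toP_coeff P i

theorem toP_natDegree_le (P : Cub) : (toP P).natDegree ≤ 3 := natDegree_cubic_le

theorem aeval_toP (P : Cub) (x : ℝ) : aeval x (toP P) = f P x := by
  unfold toP f
  simp only [map_add, map_mul, map_pow, aeval_X, aeval_C, algebraMap_int_eq, Int.coe_castRingHom]
  ring

theorem f_ofP {p : ℤ[X]} (hp : p.natDegree ≤ 3) (x : ℝ) : f (ofP p) x = aeval x p := by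
  rw [← aeval_toP, toP_ofP hp]

theorem split_of_reducible {p : ℤ[X]} (hp : p.IsPrimitive) (h1 : 1 ≤ p.natDegree)
    (hirr : ¬ Irreducible p) : ∃ a b : ℤ[X], p = a * b ∧ 1 ≤ a.natDegree ∧ 1 ≤ b.natDegree := by
  rw [irreducible_iff] at hirr
  push Not at hirr
  have hnu : ¬ IsUnit p := by
    intro h
    have := natDegree_eq_zero_of_isUnit h
    omega
  obtain ⟨a, b, hab, ha, hb⟩ := hirr hnu
  have key : ∀ a : ℤ[X], a ∣ p → ¬ IsUnit a → 1 ≤ a.natDegree := by
    intro a had hau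
    by_contra hcon
    have h0 : a.natDegree = 0 := by omega
    rw [natDegree_eq_zero] at h0
    obtain ⟨r, rfl⟩ := h0
    exact hau ((hp r had).map C)
  exact ⟨a, b, hab, key a ⟨b, hab⟩ ha, key b ⟨a, by rw [hab, mul_comm]⟩ hb⟩

/-- a positive lower bound on a finite set -/
theorem exists_lower {α : Type*} {S : Set α} (hS : S.Finite) (g : α → ℝ) (hg : ∀ a ∈ S, 0 < g a) :
    ∃ C : ℝ, 0 < C ∧ C ≤ 1 ∧ ∀ a ∈ S, C ≤ g a := by
  induction S, hS using Set.Finite.induction_on with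
  | empty => exact ⟨1, one_pos, le_rfl, by simp⟩
  | @insert a S _ _ ih =>
    obtain ⟨C, h1, h2, h3⟩ := ih fun b hb => hg b (Set.mem_insert_of_mem _ hb)
    refine ⟨min C (g a), lt_min h1 (hg a (Set.mem_insert _ _)), (min_le_left _ _).trans h2, ?_⟩
    intro b hb
    rcases Set.mem_insert_iff.1 hb with rfl | hb
    · exact min_le_right _ _
    · exact (min_le_left _ _).trans (h3 b hb)

theorem star_bound {c w x : ℝ} (hc : 0 < c) (hw : 0 ≤ w) (hx : Transcendental ℤ x)
    (hI : {P : Cub | |f P x| < Pi P ^ (-w) ∧ c ≤ |f1 P x|}.Finite) :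
    ∃ C : ℝ, 0 < C ∧ C ≤ 1 ∧ ∀ P : Cub, c ≤ |f1 P x| → C * Pi P ^ (-w) ≤ |f P x| := by
  obtain ⟨C, h1, h2, h3⟩ := exists_lower hI (fun P => |f P x|) (by
    rintro P ⟨-, hP⟩
    rw [abs_pos, ← aeval_toP]
    intro h0
    have h4 : toP P = 0 := by
      by_contra hne
      exact hx ⟨toP P, hne, h0⟩
    have hco : ∀ n, P n = 0 := by
      intro n; rw [← toP_coeff P n, h4, coeff_zero]
    have : f1 P x = 0 := by rw [f1, hco, hco, hco]; simp
    rw [this, abs_zero] at hP
    linarith)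
  refine ⟨C, h1, h2, fun P hP => ?_⟩
  have hPi := Pi_rpow_le_one P hw
  have hPi0 : 0 ≤ Pi P ^ (-w) := Real.rpow_nonneg (Pi_pos P).le _
  by_cases h : |f P x| < Pi P ^ (-w)
  · refine (mul_le_of_le_one_right h1.le hPi).trans (h3 P ⟨h, hP⟩)
  · push Not at h
    exact (mul_le_of_le_one_left hPi0 h2).trans h

/-- Gelfond's inequality for a linear factor -/
theorem gelfond {H l0 l1 q0 q1 q2 : ℝ} (h0 : |l0 * q0| ≤ H) (h1 : |l0 * q1 + l1 * q0| ≤ H)
    (h2 : |l0 * q2 + l1 * q1| ≤ H) (h3 : |l1 * q2| ≤ H) :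
    |l1| * |q1| ≤ 3 * H ∧ |l1| * |q2| ≤ 3 * H := by
  have hH : 0 ≤ H := (abs_nonneg _).trans h0
  rw [abs_mul] at h0 h3
  have t : ∀ {a b : ℝ}, |a + b| ≤ H → |a| ≤ H + |b| := by
    intro a b h
    have : |a| ≤ |a + b| + |b| := by
      calc |a| = |a + b - b| := by ring_nf
        _ ≤ _ := abs_sub _ _
    linarith
  have u1 := t h1
  have u2 := t h2
  have v1 := t (a := l1 * q0) (b := l0 * q1) (by rw [add_comm]; exact h1)
  have v2 := t (a := l1 * q1) (b := l0 * q2) (by rw [add_comm]; exact h2)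
  rw [abs_mul, abs_mul] at u1 u2 v1 v2
  refine ⟨?_, by linarith⟩
  rcases le_total |l0| |l1| with h | h
  · have := mul_le_mul_of_nonneg_right h (abs_nonneg q2)
    linarith
  · have a1 := mul_le_mul_of_nonneg_right h (abs_nonneg q0)
    have a2 := mul_le_mul_of_nonneg_right h (abs_nonneg q1)
    linarith

end

end Pool.Agent.Helper53.HD
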