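import Pool.Agent.Helper53.Red

set_option autoImplicit false

namespace Pool.Agent.Helper53.HD

open MeasureTheory Measure Polynomial

noncomputable section

theorem mx_eq {m : ℤ} (hm : m ≠ 0) : mx m = |(m : ℝ)| := by
  rw [mx, max_eq_right]; exact_mod_cast Int.one_le_abs hm

theorem mx_zero : mx 0 = 1 := by simp [mx]

theorem ofP_zero {p : ℤ[X]} {n : Fin 4} (h : p.natDegree < n) : ofP p n = 0 :=
  coeff_eq_zero_of_natDegree_lt h

theorem linear_lower {c w x C : ℝ} (hc1 : c ≤ 1)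
    (hstar : ∀ P : Cub, c ≤ |f1 P x| → C * Pi P ^ (-w) ≤ |f P x|) {p : ℤ[X]}
    (hp : p.natDegree = 1) : C * |(p.coeff 1 : ℝ)| ^ (-w) ≤ |aeval x p| := by
  have h2 : ofP p 2 = 0 := ofP_zero (by rw [hp]; decide)
  have h3 : ofP p 3 = 0 := ofP_zero (by rw [hp]; decide)
  have hne : p.coeff 1 ≠ 0 := by
    intro h
    have : p.leadingCoeff = 0 := by rw [leadingCoeff, hp]; exact h
    rw [leadingCoeff_eq_zero] at this
    rw [this] at hp; simp at hp
  have h1 : ofP p 1 = p.coeff 1 := rfl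
  have hf1 : f1 (ofP p) x = p.coeff 1 := by rw [f1, h2, h3, h1]; simp
  have hPi : Pi (ofP p) = |(p.coeff 1 : ℝ)| := by
    rw [Pi, h2, h3, h1, mx_zero, mx_eq hne]; ring
  have := hstar (ofP p) (by
    rw [hf1]
    exact hc1.trans (by exact_mod_cast Int.one_le_abs hne))
  rwa [hPi, f_ofP (by omega)] at this

theorem coeff_ne_zero_of_natDegree {p : ℤ[X]} {n : ℕ} (hn : n ≠ 0) (hp : p.natDegree = n) :
    p.coeff n ≠ 0 := by
  intro h
  have : p.leadingCoeff = 0 := by rw [leadingCoeff, hp]; exact h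
  rw [leadingCoeff_eq_zero] at this
  rw [this] at hp; simp at hp
  exact hn hp.symm

theorem low_lower {c w x C : ℝ} (hc : c ≤ 1 / 2) (hw : 1 ≤ w) (hC0 : 0 < C) (hC1 : C ≤ 1)
    (hstar : ∀ P : Cub, c ≤ |f1 P x| → C * Pi P ^ (-w) ≤ |f P x|) {p : ℤ[X]}
    (hprim : p.IsPrimitive) (hp1 : 1 ≤ p.natDegree) (hp2 : p.natDegree ≤ 2) :
    C ^ 2 / 8 * GP (ofP p) ^ (-(2 * w)) ≤ |aeval x p| := by
  set h := GP (ofP p) with hh
  have hh1 : 1 ≤ h := one_le_GP _
  have hh0 : 0 < h := by linarith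
  have hC2 : C ^ 2 ≤ C := by nlinarith
  have h3 : ofP p 3 = 0 := by
    apply ofP_zero
    show p.natDegree < 3
    omega
  rw [← f_ofP (by omega : p.natDegree ≤ 3)]
  have hq1 : mx (ofP p 1) ≤ h := mx_le_GP _ (by decide)
  have hq2 : mx (ofP p 2) ≤ h := mx_le_GP _ (by decide)
  have hhw : 0 < h ^ (-(2 * w)) := by positivity
  by_cases hf1 : c ≤ |f1 (ofP p) x|
  · have h4 := hstar _ hf1
    have h5 : h ^ (-(2 * w)) ≤ Pi (ofP p) ^ (-w) := by
      have : Pi (ofP p) ≤ h ^ 2 := by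
        rw [Pi, h3, mx_zero, mul_one, sq]
        exact mul_le_mul hq1 hq2 (mx_pos _).le hh0.le
      have h6 := Real.rpow_le_rpow_of_nonpos (z := -w) (Pi_pos (ofP p)) this (by linarith)
      refine le_trans (le_of_eq ?_) h6
      rw [← Real.rpow_natCast h 2, ← Real.rpow_mul hh0.le]
      congr 1; push_cast; ring
    calc C ^ 2 / 8 * h ^ (-(2 * w)) ≤ C * h ^ (-(2 * w)) := by
          apply mul_le_mul_of_nonneg_right _ hhw.le
          nlinarith [sq_nonneg C]
      _ ≤ C * Pi (ofP p) ^ (-w) := mul_le_mul_of_nonneg_left h5 hC0.le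
      _ ≤ _ := h4
  · push Not at hf1
    -- natDegree must be 2
    have hd2 : p.natDegree = 2 := by
      by_contra hne
      have hd1 : p.natDegree = 1 := by omega
      have h2 : ofP p 2 = 0 := ofP_zero (by rw [hd1]; decide)
      have h1 : ofP p 1 = p.coeff 1 := rfl
      have hf1' : f1 (ofP p) x = p.coeff 1 := by rw [f1, h2, h3, h1]; simp
      rw [hf1'] at hf1
      exact coeff_ne_zero_of_natDegree one_ne_zero hd1 (int_eq_zero_of_abs_lt (by linarith))
    have hp2' : ofP p 2 ≠ 0 := coeff_ne_zero_of_natDegree two_ne_zero hd2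
    by_cases hirr : Irreducible p
    · have hNR : NoRat (ofP p) := noRat_of_irr (x := x) (by rwa [toP_ofP (by omega)])
        (by linarith)
      have hd : ofP p 1 ^ 2 - 4 * ofP p 2 * ofP p 0 ≠ 0 := by
        intro hd
        apply hNR (-ofP p 1) (2 * ofP p 2) (mul_ne_zero (by norm_num) hp2')
        rw [h3]
        linear_combination (-2 * ofP p 2 ^ 2) * hd
      have hd1 : (1 : ℝ) ≤ |((ofP p 1 ^ 2 - 4 * ofP p 2 * ofP p 0 : ℤ) : ℝ)| := by
        exact_mod_cast Int.one_le_abs hd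
      have e : ((ofP p 1 ^ 2 - 4 * ofP p 2 * ofP p 0 : ℤ) : ℝ)
          = f1 (ofP p) x ^ 2 - 4 * ofP p 2 * f (ofP p) x := by
        unfold f1 f
        rw [h3]
        push_cast; ring
      rw [e] at hd1
      have h5 := abs_sub (f1 (ofP p) x ^ 2) (4 * ofP p 2 * f (ofP p) x)
      rw [abs_pow, abs_mul, abs_mul] at h5
      have h4 : |(4 : ℝ)| = 4 := by norm_num
      rw [h4] at h5
      have h6 : |(ofP p 2 : ℝ)| ≤ h := abs_le_GP _ (by decide)
      have h7 : |f1 (ofP p) x| ^ 2 ≤ 1 / 4 := by nlinarith [abs_nonneg (f1 (ofP p) x)]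
      have h8 : |(ofP p 2 : ℝ)| * |f (ofP p) x| ≤ h * |f (ofP p) x| :=
        mul_le_mul_of_nonneg_right h6 (abs_nonneg _)
      have h9 : 3 / 16 ≤ h * |f (ofP p) x| := by nlinarith
      have h10 : h ^ (-(2 * w)) ≤ h⁻¹ := by
        rw [← Real.rpow_neg_one]
        exact Real.rpow_le_rpow_of_exponent_le hh1 (by linarith)
      calc C ^ 2 / 8 * h ^ (-(2 * w)) ≤ 1 / 8 * h⁻¹ := by
            apply mul_le_mul _ h10 hhw.le (by norm_num)
            nlinarith
        _ ≤ 3 / 16 * h⁻¹ := by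
            have : 0 ≤ h⁻¹ := by positivity
            linarith
        _ ≤ (h * |f (ofP p) x|) * h⁻¹ := mul_le_mul_of_nonneg_right h9 (by positivity)
        _ = |f (ofP p) x| := by field_simp
    · obtain ⟨a, b, hab, ha, hb⟩ := split_of_reducible hprim hp1 hirr
      have hp0 : p ≠ 0 := by rintro rfl; simp at hp1
      have ha0 : a ≠ 0 := by rintro rfl; simp at ha
      have hb0 : b ≠ 0 := by rintro rfl; simp at hb
      have hdeg : a.natDegree + b.natDegree = 2 := by rw [← natDegree_mul ha0 hb0, ← hab, hd2]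
      have ha1 : a.natDegree = 1 := by omega
      have hb1 : b.natDegree = 1 := by omega
      have la := linear_lower (by linarith : c ≤ 1) hstar ha1
      have lb := linear_lower (by linarith : c ≤ 1) hstar hb1
      have hlead : p.coeff 2 = a.coeff 1 * b.coeff 1 := by
        have := leadingCoeff_mul a b
        rw [← hab] at this
        simpa [leadingCoeff, hd2, ha1, hb1] using this
      have e : f (ofP p) x = aeval x a * aeval x b := by
        rw [f_ofP (by omega), hab, map_mul]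
      rw [e, abs_mul]
      have na : |(a.coeff 1 : ℝ)| ≠ 0 := by
        rw [Ne, abs_eq_zero]
        exact_mod_cast coeff_ne_zero_of_natDegree one_ne_zero ha1
      have nb : |(b.coeff 1 : ℝ)| ≠ 0 := by
        rw [Ne, abs_eq_zero]
        exact_mod_cast coeff_ne_zero_of_natDegree one_ne_zero hb1
      have h6 : |(ofP p 2 : ℝ)| ≤ h := abs_le_GP _ (by decide)
      have h7 : |(a.coeff 1 : ℝ)| * |(b.coeff 1 : ℝ)| ≤ h := by
        rw [← abs_mul]
        have : ((ofP p 2 : ℤ) : ℝ) = (a.coeff 1 : ℝ) * b.coeff 1 := by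
          show ((p.coeff 2 : ℤ) : ℝ) = _
          rw [hlead]; push_cast; ring
        rwa [← this]
      have pa : 0 < |(a.coeff 1 : ℝ)| := lt_of_le_of_ne (abs_nonneg _) (Ne.symm na)
      have pb : 0 < |(b.coeff 1 : ℝ)| := lt_of_le_of_ne (abs_nonneg _) (Ne.symm nb)
      have h8 : h ^ (-(2 * w)) ≤ |(a.coeff 1 : ℝ)| ^ (-w) * |(b.coeff 1 : ℝ)| ^ (-w) := by
        rw [← Real.mul_rpow pa.le pb.le]
        calc h ^ (-(2 * w)) ≤ h ^ (-w) :=
              Real.rpow_le_rpow_of_exponent_le hh1 (by linarith)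
          _ ≤ _ := Real.rpow_le_rpow_of_nonpos (by positivity) h7 (by linarith)
      calc C ^ 2 / 8 * h ^ (-(2 * w)) ≤ C ^ 2 * h ^ (-(2 * w)) := by
            apply mul_le_mul_of_nonneg_right _ hhw.le
            nlinarith [sq_nonneg C]
        _ ≤ C ^ 2 * (|(a.coeff 1 : ℝ)| ^ (-w) * |(b.coeff 1 : ℝ)| ^ (-w)) :=
            mul_le_mul_of_nonneg_left h8 (by positivity)
        _ = (C * |(a.coeff 1 : ℝ)| ^ (-w)) * (C * |(b.coeff 1 : ℝ)| ^ (-w)) := by ring
        _ ≤ _ := mul_le_mul la lb (by positivity) (abs_nonneg _)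

/-- the height of a product -/
theorem height_prod {B x : ℝ} (hB : 1 ≤ B) (hx : |x| ≤ B) {P : Cub} (hf : |f P x| ≤ 1)
    {a b : ℤ[X]} (hab : toP P = a * b) (ha : a.natDegree = 1) (hb1 : 1 ≤ b.natDegree)
    (hb2 : b.natDegree ≤ 2) : |(a.coeff 1 : ℝ)| * GP (ofP b) ≤ 12 * B ^ 3 * GP P := by
  set H := 4 * B ^ 3 * GP P with hH
  have hB3 : 1 ≤ B ^ 3 := one_le_pow₀ hB
  have hG := one_le_GP P
  have hPl : ∀ l, l ≠ 0 → |(P l : ℝ)| ≤ GP P := fun l hl => abs_le_GP P hl
  have hco : ∀ l, |(P l : ℝ)| ≤ H := by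
    intro l
    by_cases hl : l = 0
    · rw [hl]
      have := abs_P0_le P hB hx hf hPl
      nlinarith
    · have := hPl l hl
      nlinarith
  have a2 : a.coeff 2 = 0 := coeff_eq_zero_of_natDegree_lt (by omega)
  have a3 : a.coeff 3 = 0 := coeff_eq_zero_of_natDegree_lt (by omega)
  have b3 : b.coeff 3 = 0 := coeff_eq_zero_of_natDegree_lt (by omega)
  have c0 : P 0 = a.coeff 0 * b.coeff 0 := by
    have := toP_coeff P 0
    rw [hab] at this
    rw [← this]
    simp [coeff_mul, Finset.Nat.antidiagonal_succ]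
  have c1 : P 1 = a.coeff 0 * b.coeff 1 + a.coeff 1 * b.coeff 0 := by
    have := toP_coeff P 1
    rw [hab] at this
    rw [← this]
    simp [coeff_mul, Finset.Nat.antidiagonal_succ]
  have c2 : P 2 = a.coeff 0 * b.coeff 2 + a.coeff 1 * b.coeff 1 := by
    have := toP_coeff P 2
    rw [hab] at this
    rw [← this]
    simp [coeff_mul, Finset.Nat.antidiagonal_succ, a2]
  have c3 : P 3 = a.coeff 1 * b.coeff 2 := by
    have := toP_coeff P 3
    rw [hab] at this
    rw [← this]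
    simp [coeff_mul, Finset.Nat.antidiagonal_succ, a2, a3, b3]
  have h0 := hco 0
  have h1 := hco 1
  have h2 := hco 2
  have h3 := hco 3
  rw [c0] at h0
  rw [c1] at h1
  rw [c2] at h2
  rw [c3] at h3
  push_cast at h0 h1 h2 h3
  obtain ⟨g1, g2⟩ := gelfond h0 h1 h2 h3
  have hGb : GP (ofP b) = |(b.coeff 1 : ℝ)| ∨ GP (ofP b) = |(b.coeff 2 : ℝ)| := by
    have e3 : ofP b 3 = 0 := b3
    have hb : ofP b 1 ≠ 0 ∨ ofP b 2 ≠ 0 := by
      rcases (by omega : b.natDegree = 1 ∨ b.natDegree = 2) with h | h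
      · left; exact coeff_ne_zero_of_natDegree one_ne_zero h
      · right; exact coeff_ne_zero_of_natDegree two_ne_zero h
    have e : GP (ofP b) = max (mx (ofP b 1)) (mx (ofP b 2)) := by
      rw [GP, e3, mx_zero, max_eq_left (one_le_mx (ofP b 2))]
    have hmx : ∀ m : ℤ, mx m = 1 ∨ mx m = |(m : ℝ)| := fun m => max_choice _ _
    rw [e]
    by_cases h1 : ofP b 1 = 0
    · right
      have h2 := hb.resolve_left (not_not.2 h1)
      rw [h1, mx_zero, max_eq_right (one_le_mx _), mx_eq h2]; rfl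
    · by_cases h2 : ofP b 2 = 0
      · left
        rw [h2, mx_zero, max_eq_left (one_le_mx _), mx_eq h1]; rfl
      · rw [mx_eq h1, mx_eq h2]
        exact max_choice _ _
  rcases hGb with h | h <;> rw [h]
  · linarith
  · linarith

theorem red_finite {B w w' x : ℝ} (hB : 1 ≤ B) (hx1 : 1 ≤ B * |x|) (hx : |x| ≤ B)
    (hw' : 1 < w') (hww : w' < w) (htr : Transcendental ℤ x)
    (hI : {P : Cub | |f P x| < Pi P ^ (-w') ∧ 1 / (1000 * B ^ 3) ≤ |f1 P x|}.Finite) :
    {P : Cub | (toP P).IsPrimitive ∧ ¬ Irreducible (toP P) ∧ |f P x| < Pi P ^ (-w)}.Finite := by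
  set c : ℝ := 1 / (1000 * B ^ 3) with hc
  have hB0 : 0 < B := by linarith
  have hB3 : 1 ≤ B ^ 3 := one_le_pow₀ hB
  have hc0 : 0 < c := by rw [hc]; positivity
  have hc12 : c ≤ 1 / 2 := by
    rw [hc, div_le_div_iff₀ (by positivity) (by norm_num)]; linarith
  obtain ⟨C, hC0, hC1, hstar⟩ := star_bound hc0 (by linarith : (0 : ℝ) ≤ w') htr hI
  set ε : ℝ := 1 / (20 * B ^ 3) with hε
  have hε0 : 0 < ε := by rw [hε]; positivity
  set K : ℝ := (ε ^ 2) ^ (-w) * (8 / C ^ 3) * (12 * B ^ 3) ^ (2 * w') with hK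
  have lim := tendsto_rpow_atTop (y := 2 * w - 2 * w') (by linarith)
  obtain ⟨M, hM⟩ := (lim.eventually_gt_atTop K).exists_forall_of_atTop
  refine (hI.union ((finite_small (M := 1) hB hx).union (finite_small (M := M) hB hx))).subset ?_
  rintro P ⟨hprim, hred, hf⟩
  have hf1le : |f P x| ≤ 1 := hf.le.trans (Pi_rpow_le_one _ (by linarith))
  by_cases hG1 : GP P ≤ 1
  · right; left; exact ⟨hG1, hf1le⟩
  by_cases hf1 : c ≤ |f1 P x|
  · left
    refine ⟨hf.trans_le ?_, hf1⟩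
    exact Real.rpow_le_rpow_of_exponent_le (one_le_Pi P) (by linarith)
  right; right
  push Not at hG1 hf1
  refine ⟨?_, hf1le⟩
  by_contra hcon
  push Not at hcon
  set G := GP P with hG
  have hG0 : 0 < G := by linarith
  obtain ⟨m, hm0, hm⟩ := two_large hB hx1 hx hf1 hG1
  have hPi2 : Pi P ^ (-w) ≤ (ε ^ 2) ^ (-w) * G ^ (-(2 * w)) := by
    have h1 : (ε * G) ^ 2 ≤ Pi P := by
      refine le_trans ?_ (Pi_ge P hm0 (by positivity) hm)
      exact le_mul_of_one_le_left (by positivity) (one_le_mx _)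
    have h2 : Pi P ^ (-w) ≤ ((ε * G) ^ 2) ^ (-w) :=
      Real.rpow_le_rpow_of_nonpos (by positivity) h1 (by linarith)
    refine h2.trans (le_of_eq ?_)
    rw [mul_pow, Real.mul_rpow (by positivity) (by positivity), ← Real.rpow_natCast G 2,
      ← Real.rpow_mul hG0.le]
    congr 2
    push_cast; ring
  have hdeg1 : 1 ≤ (toP P).natDegree := by
    by_contra hcon
    have h0 : (toP P).natDegree = 0 := by omega
    have c1 : P 1 = 0 := by
      rw [← toP_coeff P 1]; exact coeff_eq_zero_of_natDegree_lt (by rw [h0]; decide)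
    have c2 : P 2 = 0 := by
      rw [← toP_coeff P 2]; exact coeff_eq_zero_of_natDegree_lt (by rw [h0]; decide)
    have c3 : P 3 = 0 := by
      rw [← toP_coeff P 3]; exact coeff_eq_zero_of_natDegree_lt (by rw [h0]; decide)
    rw [hG, GP, c1, c2, c3, mx_zero] at hG1
    simp at hG1
  obtain ⟨a', b', hab', ha', hb'⟩ := split_of_reducible hprim hdeg1 hred
  -- WLOG a is linear
  obtain ⟨a, b, hab, ha1, hb1, hb2⟩ : ∃ a b : ℤ[X], toP P = a * b ∧ a.natDegree = 1 ∧
      1 ≤ b.natDegree ∧ b.natDegree ≤ 2 := by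
    have ha0 : a' ≠ 0 := by rintro rfl; simp at ha'
    have hb0 : b' ≠ 0 := by rintro rfl; simp at hb'
    have hdeg : a'.natDegree + b'.natDegree ≤ 3 := by
      rw [← natDegree_mul ha0 hb0, ← hab']; exact toP_natDegree_le P
    by_cases h : a'.natDegree = 1
    · exact ⟨a', b', hab', h, hb', by omega⟩
    · exact ⟨b', a', by rw [hab', mul_comm], by omega, ha', by omega⟩
  have hbprim : b.IsPrimitive := isPrimitive_of_dvd hprim ⟨a, by rw [hab, mul_comm]⟩
  have la := linear_lower (by linarith : c ≤ 1) hstar ha1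
  have lb := low_lower hc12 hw'.le hC0 hC1 hstar hbprim hb1 hb2
  have hh := height_prod hB hx hf1le hab ha1 hb1 hb2
  have hfe : |f P x| = |aeval x a| * |aeval x b| := by
    rw [← aeval_toP, hab, map_mul, abs_mul]
  have na : 1 ≤ |(a.coeff 1 : ℝ)| := by
    exact_mod_cast Int.one_le_abs (coeff_ne_zero_of_natDegree one_ne_zero ha1)
  set l := |(a.coeff 1 : ℝ)| with hl
  set h := GP (ofP b) with hhdef
  have hh1 : 1 ≤ h := one_le_GP _
  have hl0 : 0 < l := by linarith
  have hh0 : 0 < h := by linarith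
  have hlow : C ^ 3 / 8 * ((12 * B ^ 3) ^ (-(2 * w')) * G ^ (-(2 * w'))) ≤ |f P x| := by
    rw [hfe]
    calc C ^ 3 / 8 * ((12 * B ^ 3) ^ (-(2 * w')) * G ^ (-(2 * w')))
        = C ^ 3 / 8 * (12 * B ^ 3 * G) ^ (-(2 * w')) := by
          rw [Real.mul_rpow (by positivity) hG0.le]
      _ ≤ C ^ 3 / 8 * (l * h) ^ (-(2 * w')) := by
          apply mul_le_mul_of_nonneg_left _ (by positivity)
          exact Real.rpow_le_rpow_of_nonpos (by positivity) hh (by linarith)
      _ = C ^ 3 / 8 * (l ^ (-(2 * w')) * h ^ (-(2 * w'))) := by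
          rw [Real.mul_rpow hl0.le hh0.le]
      _ ≤ C ^ 3 / 8 * (l ^ (-w') * h ^ (-(2 * w'))) := by
          apply mul_le_mul_of_nonneg_left _ (by positivity)
          apply mul_le_mul_of_nonneg_right _ (by positivity)
          exact Real.rpow_le_rpow_of_exponent_le na (by linarith)
      _ = (C * l ^ (-w')) * (C ^ 2 / 8 * h ^ (-(2 * w'))) := by ring
      _ ≤ _ := mul_le_mul la lb (by positivity) (abs_nonneg _)
  have hlt := hlow.trans_lt (hf.trans_le hPi2)
  have hMG := hM G hcon.le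
  have e1 : (12 * B ^ 3) ^ (2 * w') * (12 * B ^ 3) ^ (-(2 * w')) = 1 := by
    rw [← Real.rpow_add (by positivity), ← Real.rpow_zero (12 * B ^ 3)]
    congr 1; ring
  have e2 : G ^ (2 * w - 2 * w') * G ^ (-(2 * w)) = G ^ (-(2 * w')) := by
    rw [← Real.rpow_add hG0]
    congr 1; ring
  have hGw : 0 < G ^ (-(2 * w)) := by positivity
  have h5 : K * G ^ (-(2 * w)) < G ^ (-(2 * w')) := by
    rw [← e2]
    exact mul_lt_mul_of_pos_right hMG hGw
  have h6 := mul_lt_mul_of_pos_left hlt (by positivity :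
    0 < 8 / C ^ 3 * (12 * B ^ 3) ^ (2 * w'))
  have e3 : 8 / C ^ 3 * (12 * B ^ 3) ^ (2 * w')
      * (C ^ 3 / 8 * ((12 * B ^ 3) ^ (-(2 * w')) * G ^ (-(2 * w')))) = G ^ (-(2 * w')) := by
    calc _ = (8 / C ^ 3 * (C ^ 3 / 8))
          * ((12 * B ^ 3) ^ (2 * w') * (12 * B ^ 3) ^ (-(2 * w'))) * G ^ (-(2 * w')) := by ring
      _ = G ^ (-(2 * w')) := by
          rw [e1]; field_simp
  rw [e3] at h6
  have e4 : 8 / C ^ 3 * (12 * B ^ 3) ^ (2 * w') * ((ε ^ 2) ^ (-w) * G ^ (-(2 * w)))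
      = K * G ^ (-(2 * w)) := by rw [hK]; ring
  rw [e4] at h6
  exact lt_asymm h5 h6

end

end Pool.Agent.Helper53.HD
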