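import Pool.Agent.Helper53.CubBasic

set_option autoImplicit false

namespace Pool.Agent.Helper53.HD

noncomputable section

/-- the homogeneous form has no zero with nonzero denominator: no rational root -/
def NoRat (P : Cub) : Prop :=
  ∀ r s : ℤ, s ≠ 0 → P 0 * s ^ 3 + P 1 * r * s ^ 2 + P 2 * r ^ 2 * s + P 3 * r ^ 3 ≠ 0

theorem NoRat.lower {P : Cub} (h : NoRat P) (θ : ℚ) : 1 ≤ (θ.den : ℝ) ^ 3 * |f P θ| := by
  have hs : (θ.den : ℤ) ≠ 0 := by exact_mod_cast θ.den_ne_zero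
  have h1 := h θ.num θ.den hs
  have h2 : (1 : ℝ) ≤ |((P 0 * (θ.den : ℤ) ^ 3 + P 1 * θ.num * (θ.den : ℤ) ^ 2
      + P 2 * θ.num ^ 2 * (θ.den : ℤ) + P 3 * θ.num ^ 3 : ℤ) : ℝ)| := by
    exact_mod_cast Int.one_le_abs h1
  have hsr : (θ.den : ℝ) ≠ 0 := by exact_mod_cast θ.den_ne_zero
  have h3 : ((P 0 * (θ.den : ℤ) ^ 3 + P 1 * θ.num * (θ.den : ℤ) ^ 2
      + P 2 * θ.num ^ 2 * (θ.den : ℤ) + P 3 * θ.num ^ 3 : ℤ) : ℝ) = (θ.den : ℝ) ^ 3 * f P θ := by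
    have : (θ : ℝ) = θ.num / θ.den := by exact_mod_cast (Rat.num_div_den θ).symm
    rw [this]
    unfold f
    push_cast
    field_simp
  rw [h3, abs_mul, abs_of_nonneg (by positivity)] at h2
  exact h2

theorem f_theta (P : Cub) (x θ : ℝ) : f P θ = f P x - (x - θ) * f1 P x
    + (x - θ) ^ 2 * (f2 P x / 2) - (x - θ) ^ 3 * P 3 := by
  unfold f f1 f2; ring

theorem abs_f2_le {B H : ℝ} (hB : 1 ≤ B) (hH : 0 ≤ H) {P : Cub} {x : ℝ} (hx : |x| ≤ B)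
    (h2 : |(P 2 : ℝ)| ≤ 2 * H) (h3 : |(P 3 : ℝ)| ≤ 2 * H) : |f2 P x| ≤ 16 * B * H := by
  unfold f2
  calc |2 * (P 2 : ℝ) + 6 * P 3 * x| ≤ |2 * (P 2 : ℝ)| + |6 * (P 3 : ℝ) * x| := abs_add_le _ _
    _ = 2 * |(P 2 : ℝ)| + 6 * (|(P 3 : ℝ)| * |x|) := by
        rw [abs_mul, abs_mul, abs_mul]; norm_num; ring
    _ ≤ 2 * (2 * H) + 6 * (2 * H * B) := by
        have := mul_le_mul h3 hx (abs_nonneg x) (by linarith)
        linarith
    _ ≤ 16 * B * H := by nlinarith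

theorem root_bound {B D H r : ℝ} (hB : 1 ≤ B) (hD : 0 < D) (hH : 1 ≤ H) {P : Cub} {x θ : ℝ}
    (hx : |x| ≤ B) (h2 : |(P 2 : ℝ)| ≤ 2 * H) (h3 : |(P 3 : ℝ)| ≤ 2 * H)
    (hf : |f P x| ≤ D ^ 2 / H) (hf1 : |f1 P x| ≤ D) (hr0 : 0 ≤ r) (hr : r ≤ 4 * H)
    (hy : r * (x - θ) ^ 2 ≤ 24 * B ^ 2 * D ^ 2 / H) (hy' : |x - θ| ≤ B) :
    r * |f P θ| ≤ 254 * B ^ 3 * D ^ 2 := by
  have hH0 : 0 < H := by linarith
  rw [f_theta P x θ]
  set y := x - θ with hydef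
  have hyH : r * y ^ 2 * H ≤ 24 * B ^ 2 * D ^ 2 := by rwa [le_div_iff₀ hH0] at hy
  have hy0 : 0 ≤ r * y ^ 2 := mul_nonneg hr0 (sq_nonneg _)
  have A1 : r * |f P x| ≤ 4 * D ^ 2 := by
    calc r * |f P x| ≤ 4 * H * (D ^ 2 / H) :=
          mul_le_mul hr hf (abs_nonneg _) (by linarith)
      _ = 4 * D ^ 2 := by field_simp
  have A2' : r * |y| ≤ 10 * B * D := by
    apply abs_le_of_sq_le_sq' _ (by positivity) |>.2
    calc (r * |y|) ^ 2 = r * (r * y ^ 2) := by rw [mul_pow, sq_abs]; ring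
      _ ≤ 4 * H * (r * y ^ 2) := mul_le_mul_of_nonneg_right hr hy0
      _ = 4 * (r * y ^ 2 * H) := by ring
      _ ≤ 4 * (24 * B ^ 2 * D ^ 2) := by linarith
      _ ≤ (10 * B * D) ^ 2 := by nlinarith [sq_nonneg (B * D)]
  have A2 : r * |y * f1 P x| ≤ 10 * B * D ^ 2 := by
    rw [abs_mul, ← mul_assoc]
    calc r * |y| * |f1 P x| ≤ 10 * B * D * D := mul_le_mul A2' hf1 (abs_nonneg _) (by positivity)
      _ = _ := by ring
  have A3 : r * |y ^ 2 * (f2 P x / 2)| ≤ 192 * B ^ 3 * D ^ 2 := by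
    have := abs_f2_le hB hH0.le hx h2 h3
    rw [abs_mul, abs_of_nonneg (sq_nonneg y), abs_div, abs_two, ← mul_assoc]
    calc r * y ^ 2 * (|f2 P x| / 2) ≤ r * y ^ 2 * (16 * B * H / 2) :=
          mul_le_mul_of_nonneg_left (by linarith) hy0
      _ = 8 * B * (r * y ^ 2 * H) := by ring
      _ ≤ 8 * B * (24 * B ^ 2 * D ^ 2) := mul_le_mul_of_nonneg_left hyH (by positivity)
      _ = _ := by ring
  have A4 : r * |y ^ 3 * P 3| ≤ 48 * B ^ 3 * D ^ 2 := by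
    rw [abs_mul, abs_pow]
    calc r * (|y| ^ 3 * |(P 3 : ℝ)|) = r * y ^ 2 * (|y| * |(P 3 : ℝ)|) := by
          rw [← sq_abs y]; ring
      _ ≤ r * y ^ 2 * (B * (2 * H)) := by
          apply mul_le_mul_of_nonneg_left _ hy0
          exact mul_le_mul hy' h3 (abs_nonneg _) (by linarith)
      _ = 2 * B * (r * y ^ 2 * H) := by ring
      _ ≤ 2 * B * (24 * B ^ 2 * D ^ 2) := mul_le_mul_of_nonneg_left hyH (by positivity)
      _ = _ := by ring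
  have T : |f P x - y * f1 P x + y ^ 2 * (f2 P x / 2) - y ^ 3 * P 3|
      ≤ |f P x| + |y * f1 P x| + |y ^ 2 * (f2 P x / 2)| + |y ^ 3 * P 3| := by
    calc _ ≤ |f P x - y * f1 P x + y ^ 2 * (f2 P x / 2)| + |y ^ 3 * P 3| := abs_sub _ _
      _ ≤ |f P x - y * f1 P x| + |y ^ 2 * (f2 P x / 2)| + |y ^ 3 * P 3| := by
          gcongr; exact abs_add_le _ _
      _ ≤ _ := by gcongr; exact abs_sub _ _
  have hB3 : B ≤ B ^ 3 := by nlinarith [mul_self_nonneg B, sq_nonneg (B - 1)]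
  have hB31 : 1 ≤ B ^ 3 := one_le_pow₀ hB
  calc r * |f P x - y * f1 P x + y ^ 2 * (f2 P x / 2) - y ^ 3 * P 3|
      ≤ r * (|f P x| + |y * f1 P x| + |y ^ 2 * (f2 P x / 2)| + |y ^ 3 * P 3|) :=
        mul_le_mul_of_nonneg_left T hr0
    _ = r * |f P x| + r * |y * f1 P x| + r * |y ^ 2 * (f2 P x / 2)| + r * |y ^ 3 * P 3| := by ring
    _ ≤ 4 * D ^ 2 + 10 * B * D ^ 2 + 192 * B ^ 3 * D ^ 2 + 48 * B ^ 3 * D ^ 2 := by linarith
    _ ≤ _ := by nlinarith [sq_nonneg D, mul_le_mul_of_nonneg_right hB3 (sq_nonneg D),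
        mul_le_mul_of_nonneg_right hB31 (sq_nonneg D)]

theorem int_eq_zero_of_abs_lt {n : ℤ} (h : |(n : ℝ)| < 1) : n = 0 := by
  by_contra hn
  have : (1 : ℝ) ≤ |(n : ℝ)| := by exact_mod_cast Int.one_le_abs hn
  linarith

end

end Pool.Agent.Helper53.HD
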