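import Pool.Agent.Helper53.SepB

set_option autoImplicit false

namespace Pool.Agent.Helper53.HD

noncomputable section

/-- the numerical bound for the discriminant in case B -/
theorem discB_bound {B D m a b X : ℝ} (hB : 1 ≤ B) (hD : 0 < D) (hDc : 1000 * B ^ 3 * D ≤ 1)
    (hm : 0 ≤ m) (ht : 10 ^ 6 * B ^ 4 * (m * D ^ 2) ≤ 1) (ha0 : 0 ≤ a) (hb0 : 0 ≤ b)
    (hX0 : 1 ≤ B * X) (ha : a ≤ 48 * B * D ^ 4) (hb : b ≤ 24 * B * D) :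
    b ^ 3 + 9 * m * X ^ 2 * b ^ 2 + 54 * X ^ 3 * m ^ 2 * a < 2 * X ^ 3 := by
  obtain ⟨h1, h2, h3⟩ := basic_small hB hD hDc
  have hB0 : 0 < B := by linarith
  have hX : 0 < X := by
    by_contra h
    push Not at h
    nlinarith
  have t0 : 0 ≤ m * D ^ 2 := by positivity
  have hB4 : 1 ≤ B ^ 4 := one_le_pow₀ hB
  have t1 : B ^ 4 * (m * D ^ 2) ≤ 1 / 10 ^ 6 := by linarith
  have t2 : m * D ^ 2 ≤ 1 / 10 ^ 6 := by nlinarith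
  have hbX : b ≤ 24 / 1000 * X := by
    calc b ≤ 24 * B * D := hb
      _ ≤ 24 * B * D * (B * X) := le_mul_of_one_le_right (by positivity) hX0
      _ = 24 * (B ^ 2 * D) * X := by ring
      _ ≤ 24 * (1 / 1000) * X := by gcongr; linarith
      _ = _ := by ring
  have e1 : b ^ 3 ≤ (24 / 1000 * X) ^ 3 := by gcongr
  have e2 : 9 * m * X ^ 2 * b ^ 2 ≤ 5184 / 10 ^ 6 * X ^ 3 := by
    calc 9 * m * X ^ 2 * b ^ 2 ≤ 9 * m * X ^ 2 * (24 * B * D) ^ 2 := by gcongr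
      _ = 5184 * (B ^ 2 * (m * D ^ 2)) * X ^ 2 := by ring
      _ ≤ 5184 * (B ^ 2 * (m * D ^ 2)) * X ^ 2 * (B * X) :=
          le_mul_of_one_le_right (by positivity) hX0
      _ = 5184 * (B ^ 3 * (m * D ^ 2)) * X ^ 3 := by ring
      _ ≤ 5184 * (B ^ 4 * (m * D ^ 2)) * X ^ 3 := by
          gcongr
          norm_num
      _ ≤ 5184 * (1 / 10 ^ 6) * X ^ 3 := by gcongr
      _ = _ := by ring
  have e5 : 54 * X ^ 3 * m ^ 2 * a ≤ 54 * 48 / 10 ^ 6 * X ^ 3 := by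
    have hB1 : B ≤ B ^ 4 := by
      calc B = B ^ 1 := (pow_one B).symm
        _ ≤ B ^ 4 := pow_le_pow_right₀ hB (by norm_num)
    calc 54 * X ^ 3 * m ^ 2 * a ≤ 54 * X ^ 3 * m ^ 2 * (48 * B * D ^ 4) := by gcongr
      _ = 54 * 48 * (B * (m * D ^ 2)) * (m * D ^ 2) * X ^ 3 := by ring
      _ ≤ 54 * 48 * (B ^ 4 * (m * D ^ 2)) * 1 * X ^ 3 := by
          gcongr
          exact t2.trans (by norm_num)
      _ ≤ 54 * 48 * (1 / 10 ^ 6) * 1 * X ^ 3 := by gcongr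
      _ = _ := by ring
  have hX3 : 0 < X ^ 3 := by positivity
  nlinarith

/-- case B: `r₁ = 0` -/
theorem sepB {B D H : ℝ} (hB : 1 ≤ B) (hD : 0 < D) (hDc : 1000 * B ^ 3 * D ≤ 1) (hH : 1 ≤ H)
    (hDH : 1 ≤ 2 * H * D ^ 2) {P : Cub} (hP : NoRat P) {x : ℝ} (hx0 : 1 ≤ B * |x|)
    (hx : |x| ≤ B) (h2 : |(P 2 : ℝ)| ≤ 2 * H) (h3 : |(P 3 : ℝ)| ≤ 2 * H)
    (hf : |f P x| ≤ D ^ 2 / H) (hf1 : |f1 P x| ≤ D) {r0 r2 r3 : ℤ} (hr : |(r3 : ℝ)| ≤ 4 * H)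
    (hne : r3 ≠ 0) (hR0 : |(r0 : ℝ) + r2 * x ^ 2 + r3 * x ^ 3| ≤ 24 * B * D ^ 2 / H)
    (hR1 : |2 * (r2 : ℝ) * x + 3 * r3 * x ^ 2| ≤ 24 * B * D) :
    1 < 10 ^ 6 * B ^ 4 * (|(r3 : ℝ)| * D ^ 2) := by
  by_contra ht
  push Not at ht
  obtain ⟨d1, d2, d3⟩ := basic_small hB hD hDc
  have hB0 : 0 < B := by linarith
  have hxpos : 0 < |x| := by
    by_contra h
    push Not at h
    nlinarith
  have hxne : x ≠ 0 := abs_pos.1 hxpos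
  obtain ⟨ha4, ha2⟩ := rho_small hH hDH (abs_nonneg _) hR0
  set ρ0 : ℝ := (r0 : ℝ) + r2 * x ^ 2 + r3 * x ^ 3 with hρ0
  set ρ1 : ℝ := 2 * (r2 : ℝ) * x + 3 * r3 * x ^ 2 with hρ1
  have hm1 : (1 : ℝ) ≤ |(r3 : ℝ)| := by exact_mod_cast Int.one_le_abs hne
  have hdisc : 4 * r2 ^ 3 + 27 * r3 ^ 2 * r0 = 0 := by
    apply int_eq_zero_of_abs_lt
    have e : 2 * x ^ 3 * ((4 * r2 ^ 3 + 27 * r3 ^ 2 * r0 : ℤ) : ℝ)
        = ρ1 ^ 3 - 9 * r3 * x ^ 2 * ρ1 ^ 2 + 54 * x ^ 3 * r3 ^ 2 * ρ0 := by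
      rw [hρ0, hρ1]; push_cast; ring
    have hb := discB_bound hB hD hDc (abs_nonneg (r3 : ℝ)) ht (abs_nonneg ρ0) (abs_nonneg ρ1)
      hx0 ha4 hR1
    have h5 : |2 * x ^ 3 * ((4 * r2 ^ 3 + 27 * r3 ^ 2 * r0 : ℤ) : ℝ)| < 2 * |x| ^ 3 := by
      rw [e]
      refine lt_of_le_of_lt ?_ hb
      calc |ρ1 ^ 3 - 9 * r3 * x ^ 2 * ρ1 ^ 2 + 54 * x ^ 3 * r3 ^ 2 * ρ0|
          ≤ |ρ1 ^ 3 - 9 * r3 * x ^ 2 * ρ1 ^ 2| + |54 * x ^ 3 * r3 ^ 2 * ρ0| := abs_add_le _ _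
        _ ≤ |ρ1 ^ 3| + |9 * r3 * x ^ 2 * ρ1 ^ 2| + |54 * x ^ 3 * r3 ^ 2 * ρ0| := by
            gcongr; exact abs_sub _ _
        _ = _ := by simp only [abs_mul, abs_pow, Nat.abs_ofNat]
    rw [abs_mul, abs_mul, abs_pow, abs_two] at h5
    have : 0 < 2 * |x| ^ 3 := by positivity
    by_contra hcon
    push Not at hcon
    nlinarith
  set θ : ℚ := -2 * r2 / (3 * r3) with hθ
  have hθr : (θ : ℝ) = -2 * r2 / (3 * r3) := by rw [hθ]; push_cast; ring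
  have hdr : (4 * r2 ^ 3 + 27 * r3 ^ 2 * r0 : ℝ) = 0 := by exact_mod_cast hdisc
  have hr3r : (r3 : ℝ) ≠ 0 := by exact_mod_cast hne
  have i2 : (r2 : ℝ) = -3 / 2 * r3 * (θ : ℝ) := by
    rw [hθr]; field_simp
  have i0 : ((2 * r0 : ℤ) : ℝ) = (r3 : ℝ) * (θ : ℝ) ^ 3 := by
    push_cast
    rw [hθr]; field_simp; linear_combination hdr
  have hden := den_le hne i0
  have i0' : (r0 : ℝ) = (r3 : ℝ) * (θ : ℝ) ^ 3 / 2 := by push_cast at i0; linarith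
  set y : ℝ := x - θ with hy
  have hρ1y : ρ1 = 3 * r3 * (x * y) := by rw [hρ1, i2, hy]; ring
  have hρ0y : ρ0 = r3 * y ^ 2 * ((3 * x - y) / 2) := by
    rw [hρ0, i2, i0', hy]; ring
  have hxB : 1 / B ≤ |x| := by rw [div_le_iff₀ hB0]; linarith
  have hyx : |y| ≤ |x| / 4 := by
    rw [hρ1y, abs_mul, abs_mul, abs_mul] at hR1
    have : |(3 : ℝ)| = 3 := by norm_num
    rw [this] at hR1
    have h0 : 0 ≤ |x| * |y| := by positivity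
    have h4 : |x| * |y| ≤ 8 * B * D := by
      nlinarith [mul_le_mul_of_nonneg_right hm1 h0]
    have h5 : |y| ≤ B * (|x| * |y|) := by
      calc |y| = 1 * |y| := (one_mul _).symm
        _ ≤ B * |x| * |y| := mul_le_mul_of_nonneg_right hx0 (abs_nonneg _)
        _ = _ := by ring
    have h6 : |y| ≤ 8 / 1000 / B := by
      rw [le_div_iff₀ hB0]
      calc |y| * B ≤ B * (8 * B * D) * B :=
            mul_le_mul_of_nonneg_right (h5.trans (mul_le_mul_of_nonneg_left h4 hB0.le)) hB0.le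
        _ = 8 * (B ^ 3 * D) := by ring
        _ ≤ _ := by linarith
    calc |y| ≤ 8 / 1000 * (1 / B) := by rw [mul_one_div]; exact h6
      _ ≤ 8 / 1000 * |x| := by gcongr
      _ ≤ |x| / 4 := by linarith
  have hyB : |y| ≤ B := by linarith
  have h32 : |x| ≤ |(3 * x - y) / 2| := by
    have h6 : |3 * x| - |y| ≤ |3 * x - y| := abs_sub_abs_le_abs_sub _ _
    rw [abs_mul] at h6
    have : |(3 : ℝ)| = 3 := by norm_num
    rw [this] at h6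
    rw [abs_div, abs_two]
    linarith
  have hry : |(r3 : ℝ)| * y ^ 2 ≤ 24 * B ^ 2 * D ^ 2 / H := by
    have h7 : |ρ0| = |(r3 : ℝ)| * y ^ 2 * |(3 * x - y) / 2| := by
      rw [hρ0y, abs_mul, abs_mul, abs_pow, sq_abs]
    have h8 : |(r3 : ℝ)| * y ^ 2 * (1 / B) ≤ 24 * B * D ^ 2 / H := by
      refine le_trans ?_ hR0
      rw [h7]
      exact mul_le_mul_of_nonneg_left (hxB.trans h32) (by positivity)
    calc |(r3 : ℝ)| * y ^ 2 = B * (|(r3 : ℝ)| * y ^ 2 * (1 / B)) := by field_simp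
      _ ≤ B * (24 * B * D ^ 2 / H) := mul_le_mul_of_nonneg_left h8 hB0.le
      _ = _ := by ring
  have hrb := root_bound hB hD hH hx h2 h3 hf hf1 (abs_nonneg (r3 : ℝ)) hr hry hyB
  have hlow := hP.lower θ
  have h12 : (1 : ℝ) ≤ |(r3 : ℝ)| * |f P θ| :=
    hlow.trans (mul_le_mul_of_nonneg_right hden (abs_nonneg (f P θ)))
  have h13 : 254 * B ^ 3 * D ^ 2 ≤ 254 / 1000 * D := by nlinarith
  nlinarith

/-- case C: `r₃ = 0` -/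
theorem sepC {B D H : ℝ} (hB : 1 ≤ B) (hD : 0 < D) (hDc : 1000 * B ^ 3 * D ≤ 1) (hH : 1 ≤ H)
    {P : Cub} (hP : NoRat P) {x : ℝ}
    (hx : |x| ≤ B) (h2 : |(P 2 : ℝ)| ≤ 2 * H) (h3 : |(P 3 : ℝ)| ≤ 2 * H)
    (hf : |f P x| ≤ D ^ 2 / H) (hf1 : |f1 P x| ≤ D) {r0 r1 r2 : ℤ} (hr : |(r2 : ℝ)| ≤ 4 * H)
    (hne : r2 ≠ 0) (hR0 : |(r0 : ℝ) + r1 * x + r2 * x ^ 2| ≤ 24 * B * D ^ 2 / H)
    (hR1 : |(r1 : ℝ) + 2 * r2 * x| ≤ 24 * B * D) :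
    1 < 10 ^ 6 * B ^ 4 * (|(r2 : ℝ)| * D ^ 2) := by
  by_contra ht
  push Not at ht
  obtain ⟨d1, d2, d3⟩ := basic_small hB hD hDc
  have hB0 : 0 < B := by linarith
  have hH0 : 0 < H := by linarith
  set ρ0 : ℝ := (r0 : ℝ) + r1 * x + r2 * x ^ 2 with hρ0
  set ρ1 : ℝ := (r1 : ℝ) + 2 * r2 * x with hρ1
  have hm1 : (1 : ℝ) ≤ |(r2 : ℝ)| := by exact_mod_cast Int.one_le_abs hne
  have hR0' : |ρ0| * H ≤ 24 * B * D ^ 2 := by rwa [le_div_iff₀ hH0] at hR0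
  have hdisc : r1 ^ 2 - 4 * r0 * r2 = 0 := by
    apply int_eq_zero_of_abs_lt
    have e : ((r1 ^ 2 - 4 * r0 * r2 : ℤ) : ℝ) = ρ1 ^ 2 - 4 * r2 * ρ0 := by
      rw [hρ0, hρ1]; push_cast; ring
    rw [e]
    have a1 : |ρ1| ^ 2 ≤ (24 / 1000) ^ 2 := by
      have : |ρ1| ≤ 24 / 1000 := hR1.trans (by linarith)
      gcongr
    have a2 : 4 * |(r2 : ℝ)| * |ρ0| ≤ 384 / 1000 := by
      calc 4 * |(r2 : ℝ)| * |ρ0| ≤ 4 * (4 * H) * |ρ0| := by gcongr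
        _ = 16 * (|ρ0| * H) := by ring
        _ ≤ 16 * (24 * B * D ^ 2) := by gcongr
        _ = 384 * (B * D) * D := by ring
        _ ≤ 384 * (1 / 1000) * 1 := by
            gcongr
            · linarith
            · linarith
        _ = _ := by ring
    calc |ρ1 ^ 2 - 4 * r2 * ρ0| ≤ |ρ1 ^ 2| + |4 * r2 * ρ0| := abs_sub _ _
      _ = |ρ1| ^ 2 + 4 * |(r2 : ℝ)| * |ρ0| := by
          simp only [abs_mul, abs_pow, Nat.abs_ofNat]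
      _ < 1 := by norm_num at a1 ⊢; linarith
  set θ : ℚ := -r1 / (2 * r2) with hθ
  have hθr : (θ : ℝ) = -r1 / (2 * r2) := by rw [hθ]; push_cast; ring
  have hdr : (r1 ^ 2 - 4 * r0 * r2 : ℝ) = 0 := by exact_mod_cast hdisc
  have hr2r : (r2 : ℝ) ≠ 0 := by exact_mod_cast hne
  have i1 : (r1 : ℝ) = -2 * r2 * (θ : ℝ) := by
    rw [hθr]; field_simp
  have i0 : (r0 : ℝ) = (r2 : ℝ) * (θ : ℝ) ^ 2 := by
    rw [hθr]; field_simp; linear_combination -hdr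
  have hden := den_le hne i0
  set y : ℝ := x - θ with hy
  have hρ1y : ρ1 = 2 * r2 * y := by rw [hρ1, i1, hy]; ring
  have hρ0y : ρ0 = r2 * y ^ 2 := by rw [hρ0, i1, i0, hy]; ring
  have hyB : |y| ≤ B := by
    rw [hρ1y, abs_mul, abs_mul, abs_two] at hR1
    have : |y| ≤ 12 * B * D := by
      nlinarith [mul_le_mul_of_nonneg_right hm1 (abs_nonneg y)]
    linarith
  have hry : |(r2 : ℝ)| * y ^ 2 ≤ 24 * B ^ 2 * D ^ 2 / H := by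
    have h7 : |ρ0| = |(r2 : ℝ)| * y ^ 2 := by
      rw [hρ0y, abs_mul, abs_pow, sq_abs]
    rw [← h7, le_div_iff₀ hH0]
    refine hR0'.trans ?_
    have : B ≤ B ^ 2 := by nlinarith
    gcongr
  have hrb := root_bound hB hD hH hx h2 h3 hf hf1 (abs_nonneg (r2 : ℝ)) hr hry hyB
  have hlow := hP.lower θ
  -- the denominator is small
  have hs : 1000 * B ^ 2 * D * (θ.den : ℝ) ≤ 1 := by
    have h0 : (0 : ℝ) ≤ θ.den := Nat.cast_nonneg _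
    apply abs_le_of_sq_le_sq' _ (by norm_num) |>.2
    calc (1000 * B ^ 2 * D * (θ.den : ℝ)) ^ 2
        = 10 ^ 6 * B ^ 4 * ((θ.den : ℝ) ^ 2 * D ^ 2) := by ring
      _ ≤ 10 ^ 6 * B ^ 4 * (|(r2 : ℝ)| * D ^ 2) := by gcongr
      _ ≤ 1 ^ 2 := by linarith
  have h12 : (1 : ℝ) ≤ (θ.den : ℝ) * (|(r2 : ℝ)| * |f P θ|) := by
    refine hlow.trans ?_
    have h0 : (0 : ℝ) ≤ θ.den := Nat.cast_nonneg _
    calc (θ.den : ℝ) ^ 3 * |f P θ| = (θ.den : ℝ) * ((θ.den : ℝ) ^ 2 * |f P θ|) := by ring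
      _ ≤ _ := by gcongr
  have h0 : (0 : ℝ) ≤ θ.den := Nat.cast_nonneg _
  have h13 : (θ.den : ℝ) * (|(r2 : ℝ)| * |f P θ|) ≤ (θ.den : ℝ) * (254 * B ^ 3 * D ^ 2) :=
    mul_le_mul_of_nonneg_left hrb h0
  have h14 : (θ.den : ℝ) * (254 * B ^ 3 * D ^ 2)
      = 254 / 1000 * (1000 * B ^ 2 * D * (θ.den : ℝ)) * (B * D) := by ring
  have h15 : 254 / 1000 * (1000 * B ^ 2 * D * (θ.den : ℝ)) * (B * D) ≤ 254 / 1000 * 1 * 1 := by
    gcongr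
    linarith
  linarith

end

end Pool.Agent.Helper53.HD
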