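import Pool.Agent.Helper53.SepC

set_option autoImplicit false

namespace Pool.Agent.Helper53.HD

noncomputable section

theorem f1_theta (P : Cub) (x θ : ℝ) : f1 P θ = f1 P x - (x - θ) * f2 P x
    + (x - θ) ^ 2 * (3 * P 3) := by
  unfold f1 f2; ring

theorem shift_f {B D H : ℝ} (hB : 1 ≤ B) (hD : 0 < D) (hD1 : D ≤ 1) (hH : 1 ≤ H) {Q : Cub}
    {x y : ℝ} (hy : |y| ≤ B) (hxy : |y - x| ≤ D / H) (h2 : |(Q 2 : ℝ)| ≤ 2 * H)
    (h3 : |(Q 3 : ℝ)| ≤ 2 * H) (hf : |f Q y| ≤ D ^ 2 / H) (hf1 : |f1 Q y| ≤ D) :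
    |f Q x| ≤ 23 * B * D ^ 2 / H ∧ |f1 Q x| ≤ 23 * B * D := by
  have hH0 : 0 < H := by linarith
  have hf2 := abs_f2_le hB hH0.le hy h2 h3
  constructor
  · rw [f_theta Q y x]
    have T : |f Q y - (y - x) * f1 Q y + (y - x) ^ 2 * (f2 Q y / 2) - (y - x) ^ 3 * Q 3|
        ≤ |f Q y| + |y - x| * |f1 Q y| + |y - x| ^ 2 * (|f2 Q y| / 2)
          + |y - x| ^ 3 * |(Q 3 : ℝ)| := by
      calc _ ≤ |f Q y - (y - x) * f1 Q y + (y - x) ^ 2 * (f2 Q y / 2)| + |(y - x) ^ 3 * Q 3| :=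
            abs_sub _ _
        _ ≤ |f Q y - (y - x) * f1 Q y| + |(y - x) ^ 2 * (f2 Q y / 2)| + |(y - x) ^ 3 * Q 3| := by
            gcongr; exact abs_add_le _ _
        _ ≤ |f Q y| + |(y - x) * f1 Q y| + |(y - x) ^ 2 * (f2 Q y / 2)| + |(y - x) ^ 3 * Q 3| := by
            gcongr; exact abs_sub _ _
        _ = _ := by simp only [abs_mul, abs_pow, abs_div, abs_two]
    refine T.trans ?_
    calc |f Q y| + |y - x| * |f1 Q y| + |y - x| ^ 2 * (|f2 Q y| / 2) + |y - x| ^ 3 * |(Q 3 : ℝ)|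
        ≤ D ^ 2 / H + D / H * D + (D / H) ^ 2 * (16 * B * H / 2) + (D / H) ^ 3 * (2 * H) := by
          gcongr
      _ = (2 + 8 * B + 2 * (D / H)) * (D ^ 2 / H) := by field_simp; ring
      _ ≤ (23 * B) * (D ^ 2 / H) := by
          have : D / H ≤ 1 := by rw [div_le_one hH0]; linarith
          gcongr
          linarith
      _ = _ := by ring
  · rw [f1_theta Q y x]
    have T : |f1 Q y - (y - x) * f2 Q y + (y - x) ^ 2 * (3 * Q 3)|
        ≤ |f1 Q y| + |y - x| * |f2 Q y| + |y - x| ^ 2 * (3 * |(Q 3 : ℝ)|) := by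
      calc _ ≤ |f1 Q y - (y - x) * f2 Q y| + |(y - x) ^ 2 * (3 * Q 3)| := abs_add_le _ _
        _ ≤ |f1 Q y| + |(y - x) * f2 Q y| + |(y - x) ^ 2 * (3 * Q 3)| := by
            gcongr; exact abs_sub _ _
        _ = _ := by simp only [abs_mul, abs_pow, Nat.abs_ofNat]
    refine T.trans ?_
    calc |f1 Q y| + |y - x| * |f2 Q y| + |y - x| ^ 2 * (3 * |(Q 3 : ℝ)|)
        ≤ D + D / H * (16 * B * H) + (D / H) ^ 2 * (3 * (2 * H)) := by gcongr
      _ = (1 + 16 * B + 6 * (D / H)) * D := by field_simp; ring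
      _ ≤ (23 * B) * D := by
          have : D / H ≤ 1 := by rw [div_le_one hH0]; linarith
          gcongr
          linarith
      _ = _ := by ring

/-- the index of the coordinate in which the polynomials are separated -/
def im (m : Fin 4) : Fin 4 := if m = 3 then 2 else 3

theorem sep {B D H : ℝ} (hB : 1 ≤ B) (hD : 0 < D) (hDc : 1000 * B ^ 3 * D ≤ 1) (hH : 1 ≤ H)
    (hDH : 1 ≤ 2 * H * D ^ 2) {m : Fin 4} (hm : m ≠ 0) {P Q : Cub} (hPQ : P ≠ Q)
    (heq : P m = Q m) (hP : NoRat P) {x y : ℝ} (hx0 : 1 ≤ B * |x|)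
    (hx : |x| ≤ B) (hy : |y| ≤ B) (hxy : |x - y| ≤ D / H)
    (hPc : ∀ i, i ≠ 0 → |(P i : ℝ)| ≤ 2 * H) (hQc : ∀ i, i ≠ 0 → |(Q i : ℝ)| ≤ 2 * H)
    (hf : |f P x| ≤ D ^ 2 / H) (hf1 : |f1 P x| ≤ D)
    (hg : |f Q y| ≤ D ^ 2 / H) (hg1 : |f1 Q y| ≤ D) :
    1 < 10 ^ 6 * B ^ 4 * (|(P (im m) : ℝ) - Q (im m)| * D ^ 2) := by
  obtain ⟨d1, d2, d3⟩ := basic_small hB hD hDc
  have hH0 : 0 < H := by linarith
  have hB0 : 0 < B := by linarith
  obtain ⟨q0, q1⟩ := shift_f (x := x) hB hD (by linarith) hH hy (by rwa [abs_sub_comm])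
    (hQc 2 (by decide)) (hQc 3 (by decide)) hg hg1
  have R0 : |f P x - f Q x| ≤ 24 * B * D ^ 2 / H := by
    refine (abs_sub _ _).trans ((add_le_add hf q0).trans ?_)
    have : D ^ 2 / H ≤ B * D ^ 2 / H := by
      gcongr
      exact le_mul_of_one_le_left (by positivity) hB
    calc D ^ 2 / H + 23 * B * D ^ 2 / H ≤ B * D ^ 2 / H + 23 * B * D ^ 2 / H := by gcongr
      _ = _ := by ring
  have R1 : |f1 P x - f1 Q x| ≤ 24 * B * D := by
    refine (abs_sub _ _).trans ((add_le_add hf1 q1).trans ?_)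
    nlinarith
  have dif : ∀ i, i ≠ 0 → |((P i - Q i : ℤ) : ℝ)| ≤ 4 * H := by
    intro i hi
    push_cast
    exact (abs_sub _ _).trans (by linarith [hPc i hi, hQc i hi])
  have R0small : 24 * B * D ^ 2 / H < 1 := by
    rw [div_lt_one hH0]
    have : B * D * D ≤ (1 / 1000) * 1 := by
      gcongr
      · linarith
      · linarith
    nlinarith
  have R1small : 24 * B * D < 1 := by linarith
  have zero0 : P 1 = Q 1 → P 2 = Q 2 → P 3 = Q 3 → False := by
    intro e1 e2 e3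
    apply hPQ
    have : f P x - f Q x = ((P 0 - Q 0 : ℤ) : ℝ) := by
      unfold f; rw [e1, e2, e3]; push_cast; ring
    rw [this] at R0
    have h0 := int_eq_zero_of_abs_lt (R0.trans_lt R0small)
    funext i
    fin_cases i
    · show P 0 = Q 0
      linarith
    · exact e1
    · exact e2
    · exact e3
  have hcases : m = 1 ∨ m = 2 ∨ m = 3 := by
    fin_cases m
    · exact absurd rfl hm
    · simp
    · simp
    · simp
  rcases hcases with rfl | rfl | rfl
  · -- m = 1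
    have him : im 1 = 3 := by decide
    rw [him]
    by_cases h3 : P 3 = Q 3
    · exfalso
      have e : f1 P x - f1 Q x = 2 * ((P 2 - Q 2 : ℤ) : ℝ) * x := by
        unfold f1; rw [heq, h3]; push_cast; ring
      rw [e, abs_mul, abs_mul, abs_two] at R1
      have h2 : |((P 2 - Q 2 : ℤ) : ℝ)| < 1 := by
        have h0 := abs_nonneg ((P 2 - Q 2 : ℤ) : ℝ)
        have h5 : |((P 2 - Q 2 : ℤ) : ℝ)| ≤ B * (|((P 2 - Q 2 : ℤ) : ℝ)| * |x|) := by
          calc |((P 2 - Q 2 : ℤ) : ℝ)| ≤ |((P 2 - Q 2 : ℤ) : ℝ)| * (B * |x|) :=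
                le_mul_of_one_le_right h0 hx0
            _ = _ := by ring
        have h6 : B * (|((P 2 - Q 2 : ℤ) : ℝ)| * |x|) ≤ B * (12 * B * D) :=
          mul_le_mul_of_nonneg_left (by linarith) hB0.le
        have h7 : B * (12 * B * D) = 12 * (B ^ 2 * D) := by ring
        linarith
      have := int_eq_zero_of_abs_lt h2
      exact zero0 heq (by linarith) h3
    · have := sepB (r0 := P 0 - Q 0) (r2 := P 2 - Q 2) (r3 := P 3 - Q 3) hB hD hDc hH hDH hP hx0 hx
        (hPc 2 (by decide)) (hPc 3 (by decide)) hf hf1 (dif 3 (by decide)) (sub_ne_zero.2 h3)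
        (by
          have e : (((P 0 - Q 0 : ℤ) : ℝ) + ((P 2 - Q 2 : ℤ) : ℝ) * x ^ 2
              + ((P 3 - Q 3 : ℤ) : ℝ) * x ^ 3) = f P x - f Q x := by
            unfold f; rw [heq]; push_cast; ring
          rw [e]; exact R0)
        (by
          have e : (2 * ((P 2 - Q 2 : ℤ) : ℝ) * x + 3 * ((P 3 - Q 3 : ℤ) : ℝ) * x ^ 2)
              = f1 P x - f1 Q x := by
            unfold f1; rw [heq]; push_cast; ring
          rw [e]; exact R1)
      push_cast at this
      exact this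
  · -- m = 2
    have him : im 2 = 3 := by decide
    rw [him]
    by_cases h3 : P 3 = Q 3
    · exfalso
      have e : f1 P x - f1 Q x = ((P 1 - Q 1 : ℤ) : ℝ) := by
        unfold f1; rw [heq, h3]; push_cast; ring
      rw [e] at R1
      have := int_eq_zero_of_abs_lt (R1.trans_lt R1small)
      exact zero0 (by linarith) heq h3
    · have := sepA (r0 := P 0 - Q 0) (r1 := P 1 - Q 1) (r3 := P 3 - Q 3) hB hD hDc hH hDH hP hx0 hx
        (hPc 2 (by decide)) (hPc 3 (by decide)) hf hf1 (dif 3 (by decide)) (sub_ne_zero.2 h3)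
        (by
          have e : (((P 0 - Q 0 : ℤ) : ℝ) + ((P 1 - Q 1 : ℤ) : ℝ) * x
              + ((P 3 - Q 3 : ℤ) : ℝ) * x ^ 3) = f P x - f Q x := by
            unfold f; rw [heq]; push_cast; ring
          rw [e]; exact R0)
        (by
          have e : (((P 1 - Q 1 : ℤ) : ℝ) + 3 * ((P 3 - Q 3 : ℤ) : ℝ) * x ^ 2)
              = f1 P x - f1 Q x := by
            unfold f1; rw [heq]; push_cast; ring
          rw [e]; exact R1)
      push_cast at this
      exact this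
  · -- m = 3
    have him : im 3 = 2 := by decide
    rw [him]
    by_cases h2 : P 2 = Q 2
    · exfalso
      have e : f1 P x - f1 Q x = ((P 1 - Q 1 : ℤ) : ℝ) := by
        unfold f1; rw [heq, h2]; push_cast; ring
      rw [e] at R1
      have := int_eq_zero_of_abs_lt (R1.trans_lt R1small)
      exact zero0 (by linarith) h2 heq
    · have := sepC (r0 := P 0 - Q 0) (r1 := P 1 - Q 1) (r2 := P 2 - Q 2) hB hD hDc hH hP hx
        (hPc 2 (by decide)) (hPc 3 (by decide)) hf hf1 (dif 2 (by decide)) (sub_ne_zero.2 h2)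
        (by
          have e : (((P 0 - Q 0 : ℤ) : ℝ) + ((P 1 - Q 1 : ℤ) : ℝ) * x
              + ((P 2 - Q 2 : ℤ) : ℝ) * x ^ 2) = f P x - f Q x := by
            unfold f; rw [heq]; push_cast; ring
          rw [e]; exact R0)
        (by
          have e : (((P 1 - Q 1 : ℤ) : ℝ) + 2 * ((P 2 - Q 2 : ℤ) : ℝ) * x)
              = f1 P x - f1 Q x := by
            unfold f1; rw [heq]; push_cast; ring
          rw [e]; exact R1)
      push_cast at this
      exact this

end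

end Pool.Agent.Helper53.HD
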